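import Pool.Agent.Lib_helper7.AAC.Basic

set_option autoImplicit false
set_option linter.unusedSectionVars false

/-! AAC block DEG: deg, hh_le, finrank_MM -/

namespace Pool.Agent.AAC

open Finset

section

variable {G X : Type} [Group G] [Fintype G] [MulAction G X] [Fintype X] {C : Ctx G X}

/-- DEG -/
theorem deg_pr (Φ : Finset X) (n : X → ℚ) (hn : n ≠ 0) (hodd : ∀ x, n (C.c x) = - n x)
    (h : ∀ y : G, ∑ x ∈ Φ, n (y • x) = 0) :
    ∃ W : Submodule (RR ℚ G) (MM ℚ C), IsSimpleModule (RR ℚ G) W ∧ Perp Φ W := by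
  obtain ⟨v, hv⟩ := exists_toFn (C := C) (F := ℚ) hodd
  have hA : IsArtinian (RR ℚ G) (MM ℚ C) := isArtinian_of_tower ℚ inferInstance
  set N : Submodule (RR ℚ G) (MM ℚ C) := Submodule.span (RR ℚ G) {v} with hN
  have hN0 : N ≠ ⊥ := by
    intro h0
    have : v ∈ N := Submodule.mem_span_singleton_self v
    rw [h0, Submodule.mem_bot] at this
    apply hn
    rw [← hv, this, map_zero]
  have hperp : Perp Φ N := by
    intro w hw
    obtain ⟨r, rfl⟩ := Submodule.mem_span_singleton.1 hw
    induction r using MonoidAlgebra.induction_on with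
    | of y =>
      simp_rw [toFn_of, hv]
      exact h y⁻¹
    | add a b ha hb =>
      rw [add_smul, map_add]
      simp only [Pi.add_apply]
      rw [Finset.sum_add_distrib, ha (N.smul_mem _ (Submodule.mem_span_singleton_self v)),
        hb (N.smul_mem _ (Submodule.mem_span_singleton_self v)), add_zero]
    | smul a b hb =>
      rw [smul_assoc, map_smul]
      simp only [Pi.smul_apply]
      rw [← Finset.smul_sum, hb (N.smul_mem _ (Submodule.mem_span_singleton_self v)), smul_zero]
  obtain ⟨W, hW, hWN⟩ := (eq_bot_or_exists_atom_le N).resolve_left hN0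
  exact ⟨W, isSimpleModule_iff_isAtom.2 hW, fun w hw => hperp w (hWN hw)⟩

/-- HLE -/
theorem hh_le_pr (W : Submodule (RR ℚ G) (MM ℚ C)) : hh W ≤ dd W := by
  have hne : Nonempty X := by
    rw [← Fintype.card_pos_iff, C.card]
    have := C.gpos
    omega
  obtain ⟨x₀⟩ := hne
  let L : (W →ₗ[RR ℚ G] MM ℚ C) →ₗ[ℚ] (W →ₗ[ℚ] ℚ) :=
    { toFun := fun φ =>
        (LinearMap.proj x₀ ∘ₗ toFn ℚ C) ∘ₗ (φ.restrictScalars ℚ)
      map_add' := by
        intro φ ψ
        ext w
        simp
      map_smul' := by
        intro a φ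
        ext w
        simp }
  have hL : ∀ (φ : W →ₗ[RR ℚ G] MM ℚ C) (w : W), L φ w = toFn ℚ C (φ w) x₀ := fun φ w => rfl
  have hinj : Function.Injective L := by
    rw [injective_iff_map_eq_zero]
    intro φ hφ
    ext w
    apply toFn_inj
    ext x
    obtain ⟨y, rfl⟩ := C.tr x₀ x
    have h1 := hL φ (MonoidAlgebra.of ℚ G y⁻¹ • w)
    rw [hφ, LinearMap.zero_apply, φ.map_smul, toFn_of, inv_inv] at h1
    rw [← h1]
    simp
  have h2 := LinearMap.finrank_le_finrank_of_injective hinj
  have h3 : Module.finrank ℚ (W →ₗ[ℚ] ℚ) = Module.finrank ℚ W := Subspace.dual_finrank_eq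
  rw [h3] at h2
  exact h2

theorem finrank_MM_pr : Module.finrank ℚ (MM ℚ C) = C.g := by
  classical
  obtain ⟨O, hO, hc⟩ := exists_half C
  let e : MM ℚ C ≃ₗ[ℚ] (O → ℚ) :=
    { toFun := fun v x => toFn ℚ C v x
      map_add' := by intro v w; ext x; simp
      map_smul' := by intro a v; ext x; simp
      invFun := fun f => ⟨fun x => if h : x ∈ O then f ⟨x, h⟩ else
        - (if h' : C.c x ∈ O then f ⟨C.c x, h'⟩ else 0), by
          intro x
          by_cases hx : x ∈ O
          · have hcx : C.c x ∉ O := (hO x).1 hx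
            have h1 : C.c (C.c x) ∈ O := by rw [C.cc]; exact hx
            simp only [hx, hcx, h1, dif_pos, dif_neg, not_false_eq_true]
            congr 1
            congr 1
            exact Subtype.ext (C.cc x)
          · have hcx : C.c x ∈ O := by
              by_contra hcx
              exact hx ((hO x).2 hcx)
            simp only [hx, hcx, dif_pos, dif_neg, not_false_eq_true, neg_neg]⟩
      left_inv := by
        intro v
        apply toFn_inj
        ext x
        by_cases hx : x ∈ O
        · show (if h : x ∈ O then toFn ℚ C v x else _) = _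
          rw [dif_pos hx]
        · have hcx : C.c x ∈ O := by
            by_contra hcx
            exact hx ((hO x).2 hcx)
          show (if h : x ∈ O then toFn ℚ C v x else
            - (if h' : C.c x ∈ O then toFn ℚ C v (C.c x) else 0)) = _
          rw [dif_neg hx, dif_pos hcx, toFn_odd, neg_neg]
      right_inv := by
        intro f
        ext x
        show (if h : x.1 ∈ O then f ⟨x, h⟩ else _) = _
        rw [dif_pos x.2] }
  rw [e.finrank_eq, Module.finrank_fintype_fun_eq_card, Fintype.card_coe, hc]

end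

end Pool.Agent.AAC

namespace Pool.Agent.AAC

alias deg := Pool.Agent.AAC.deg_pr
alias hh_le := Pool.Agent.AAC.hh_le_pr
alias finrank_MM := Pool.Agent.AAC.finrank_MM_pr

end Pool.Agent.AAC
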