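import Pool.Agent.Lib_helper7.AAC.Basic

set_option autoImplicit false
set_option linter.unusedSectionVars false

/-!
# The kernel of a submodule is normal, its index divides `(2 g)!`
-/

namespace Pool.Agent.AAC

section

variable {G X : Type} [Group G] [MulAction G X] [Fintype X] {C : Ctx G X}

theorem kr_normal_pr {F : Type} [CommRing F] (W : Submodule (RR F G) (MM F C)) :
    (kr W).Normal := by
  constructor
  intro y hy g v hv
  have h1 := hy (MonoidAlgebra.of F G g⁻¹ • v) (W.smul_mem _ hv)
  rw [map_mul, map_mul, mul_smul, mul_smul, h1, ← mul_smul, ← map_mul, mul_inv_cancel, map_one,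
    one_smul]

end

section

variable {G X : Type} [Group G] [Fintype G] [MulAction G X] [Fintype X] {C : Ctx G X}

/-- IDX -/
theorem index_kr_dvd_pr (W : Submodule (RR ℚ G) (MM ℚ C)) : (kr W).index ∣ (2 * C.g).factorial := by
  have h1 : (MulAction.toPermHom G X).ker ≤ kr W := by
    intro y hy v hv
    apply toFn_inj
    funext x
    rw [toFn_of]
    have h2 : y⁻¹ ∈ (MulAction.toPermHom G X).ker := inv_mem hy
    have h3 := congrArg (fun e : Equiv.Perm X => e x) (MonoidHom.mem_ker.1 h2)
    have h4 : y⁻¹ • x = x := h3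
    rw [h4]
  refine (Subgroup.index_dvd_of_le h1).trans ?_
  rw [Subgroup.index_ker]
  have h5 : Nat.card (Equiv.Perm X) = (2 * C.g).factorial := by
    rw [Nat.card_perm, Nat.card_eq_fintype_card, C.card]
  rw [← h5]
  exact Subgroup.card_subgroup_dvd_card _

end

end Pool.Agent.AAC

namespace Pool.Agent.AAC

instance kr_normal {G X : Type} [Group G] [Fintype G] [MulAction G X] [Fintype X] {C : Ctx G X}
    {F : Type} [CommRing F] (W : Submodule (RR F G) (MM F C)) : (kr W).Normal := Pool.Agent.AAC.kr_normal_pr W
alias index_kr_dvd := Pool.Agent.AAC.index_kr_dvd_pr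

end Pool.Agent.AAC
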