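import Pool.Agent.Lib_helper7.AAC.Basic
import Pool.Agent.Lib_helper7.AACF.DEG
import Pool.Agent.Lib_helper7.AACF.IDX

set_option autoImplicit false
set_option linter.unusedSectionVars false

/-! AAC block ISD: comps_finite, comps_sum, inv_eq -/

namespace Pool.Agent.AAC

open Finset

section

variable {G X : Type} [Group G] [Fintype G] [MulAction G X] [Fintype X] {C : Ctx G X}

/-- ISD -/
theorem comps_finite_pr (C : Ctx G X) :
    (isotypicComponents (RR ℚ G) (MM ℚ C)).Finite := by
  have hN : IsNoetherian (RR ℚ G) (MM ℚ C) := isNoetherian_of_tower ℚ inferInstance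
  exact Set.toFinite _

theorem comps_sum_pr (s : Finset (Submodule (RR ℚ G) (MM ℚ C)))
    (hs : ∀ B ∈ s, B ∈ isotypicComponents (RR ℚ G) (MM ℚ C)) : ∑ B ∈ s, dd B ≤ C.g := by
  classical
  have h1 : iSupIndep (fun B : s => (B : Submodule (RR ℚ G) (MM ℚ C))) := by
    have h2 := ((sSupIndep_iff _).1 (sSupIndep_isotypicComponents (RR ℚ G) (MM ℚ C)))
    exact h2.comp (f := fun B : s => (⟨B.1, hs B.1 B.2⟩ :
      isotypicComponents (RR ℚ G) (MM ℚ C)))
      (fun B B' h => Subtype.ext (by simpa using h))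
  have h3 := h1.dfinsupp_lsum_injective
  let L : (Π₀ B : s, (B : Submodule (RR ℚ G) (MM ℚ C))) →ₗ[RR ℚ G] MM ℚ C :=
    DFinsupp.lsum ℕ fun B => (B : Submodule (RR ℚ G) (MM ℚ C)).subtype
  let e : (Π₀ B : s, (B : Submodule (RR ℚ G) (MM ℚ C))) ≃ₗ[RR ℚ G]
      ((B : s) → (B : Submodule (RR ℚ G) (MM ℚ C))) :=
    DFinsupp.linearEquivFunOnFintype
  have h4 : Function.Injective ((L ∘ₗ e.symm.toLinearMap).restrictScalars ℚ) :=
    h3.comp e.symm.injective
  have h5 := LinearMap.finrank_le_finrank_of_injective h4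
  rw [Module.finrank_pi_fintype, finrank_MM_pr] at h5
  calc ∑ B ∈ s, dd B = ∑ B : s, Module.finrank ℚ (B : Submodule (RR ℚ G) (MM ℚ C)) := by
        rw [← Finset.sum_coe_sort]
        rfl
    _ ≤ C.g := h5

/-- invariance of the numerical invariants -/
theorem inv_eq_pr {W W' : Submodule (RR ℚ G) (MM ℚ C)} (h : Nonempty (W ≃ₗ[RR ℚ G] W')) :
    dd W = dd W' ∧ ee W = ee W' ∧ hh W = hh W' ∧ ic W = ic W' ∧ kr W = kr W' := by
  obtain ⟨e⟩ := h
  refine ⟨(e.restrictScalars ℚ).finrank_eq, ?_, ?_, e.isotypicComponent_eq, ?_⟩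
  · let e1 : (W →ₗ[RR ℚ G] W) ≃ₗ[ℚ] (W' →ₗ[RR ℚ G] W') :=
      { toFun := fun φ => e.toLinearMap ∘ₗ φ ∘ₗ e.symm.toLinearMap
        map_add' := by
          intro φ ψ
          ext1 w
          show e (φ (e.symm w) + ψ (e.symm w)) = _
          rw [map_add]
          rfl
        map_smul' := by
          intro a φ
          ext1 w
          show e (a • φ (e.symm w)) = a • e (φ (e.symm w))
          exact (e.restrictScalars ℚ).map_smul a _
        invFun := fun φ => e.symm.toLinearMap ∘ₗ φ ∘ₗ e.toLinearMap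
        left_inv := by
          intro φ
          ext1 w
          simp
        right_inv := by
          intro φ
          ext1 w
          simp }
    exact e1.finrank_eq
  · let e1 : (W →ₗ[RR ℚ G] MM ℚ C) ≃ₗ[ℚ] (W' →ₗ[RR ℚ G] MM ℚ C) :=
      { toFun := fun φ => φ ∘ₗ e.symm.toLinearMap
        map_add' := by intro φ ψ; rfl
        map_smul' := by intro a φ; rfl
        invFun := fun φ => φ ∘ₗ e.toLinearMap
        left_inv := by
          intro φ
          ext1 w
          simp
        right_inv := by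
          intro φ
          ext1 w
          simp }
    exact e1.finrank_eq
  · have key : ∀ {V V' : Submodule (RR ℚ G) (MM ℚ C)} (e : V ≃ₗ[RR ℚ G] V'), kr V ≤ kr V' := by
      intro V V' e y hy v hv
      have h1 : MonoidAlgebra.of ℚ G y • e.symm ⟨v, hv⟩ = e.symm ⟨v, hv⟩ := by
        apply Subtype.ext
        exact hy _ (e.symm ⟨v, hv⟩).2
      have h2 := congrArg e h1
      rw [e.map_smul, e.apply_symm_apply] at h2
      exact congrArg Subtype.val h2
    exact le_antisymm (key e) (key e.symm)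

end

end Pool.Agent.AAC

namespace Pool.Agent.AAC

alias comps_finite := Pool.Agent.AAC.comps_finite_pr
alias comps_sum := Pool.Agent.AAC.comps_sum_pr
alias inv_eq := Pool.Agent.AAC.inv_eq_pr

end Pool.Agent.AAC
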