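import Pool.Agent.Lib_helper7.AAC.Basic

set_option autoImplicit false
set_option linter.unusedSectionVars false

/-!
# AAC, block FOUR: the Fourier bound
-/

namespace Pool.Agent.AAC

open Finset

section

variable {G X : Type} [Group G] [Fintype G] [MulAction G X] [Fintype X] (C : Ctx G X)

/-- the product over the group of a function on `X` -/
lemma four_fiber (f : X → ℝ) (x₀ : X) : ∃ s : ℕ, 0 < s ∧ Fintype.card G = 2 * C.g * s ∧
    ∏ y : G, f (y • x₀) = (∏ x : X, f x) ^ s := by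
  classical
  set s := (univ.filter fun y : G => y • x₀ = x₀).card with hs
  have hfib : ∀ x : X, (univ.filter fun y : G => y • x₀ = x).card = s := by
    intro x
    obtain ⟨y₁, hy₁⟩ := C.tr x₀ x
    rw [hs]
    symm
    apply Finset.card_bij (fun y _ => y₁ * y)
    · intro y hy
      rw [mem_filter] at hy ⊢
      exact ⟨mem_univ _, by rw [mul_smul, hy.2, hy₁]⟩
    · intro y _ y' _ h
      exact mul_left_cancel h
    · intro y hy
      rw [mem_filter] at hy
      refine ⟨y₁⁻¹ * y, ?_, by group⟩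
      rw [mem_filter]
      exact ⟨mem_univ _, by rw [mul_smul, hy.2, ← hy₁, inv_smul_smul]⟩
  refine ⟨s, ?_, ?_, ?_⟩
  · rw [hs, Finset.card_pos]
    exact ⟨1, by rw [mem_filter]; exact ⟨mem_univ _, one_smul _ _⟩⟩
  · rw [← C.card, ← card_univ (α := G), ← card_univ (α := X),
      Finset.card_eq_sum_card_fiberwise (f := fun y : G => y • x₀) (t := (univ : Finset X))
        (fun _ _ => mem_coe.2 (mem_univ _)), Finset.sum_congr rfl fun x _ => hfib x,
      Finset.sum_const, smul_eq_mul]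
  · rw [← Finset.prod_fiberwise' (univ : Finset G) (fun y => y • x₀) f, ← Finset.prod_pow]
    apply Finset.prod_congr rfl
    intro x _
    rw [Finset.prod_const, hfib]

/-- the product over `X` of an even function -/
lemma four_even (f : X → ℝ) (hf : ∀ x, f (C.c x) = f x) (O : Finset X)
    (hO : ∀ x, x ∈ O ↔ C.c x ∉ O) : ∏ x : X, f x = (∏ x ∈ O, f x) ^ 2 := by
  classical
  rw [← Finset.prod_mul_prod_compl O f, sq]
  congr 1
  symm
  apply Finset.prod_bij (fun x _ => C.c x)
  · intro x hx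
    rw [mem_compl]
    exact (hO x).1 hx
  · intro x _ x' _ h
    rw [← C.cc x, h, C.cc]
  · intro x hx
    rw [mem_compl] at hx
    refine ⟨C.c x, ?_, C.cc x⟩
    rw [hO, C.cc]
    exact hx
  · intro x _
    exact (hf x).symm

/-- FOUR -/
theorem four_pr (θ : X → ℝ) (hθ : ∀ x, θ (C.c x) = - θ x) (x₀ : X) :
    ‖∑ Φ ∈ types C, Complex.exp (2 * Real.pi * Complex.I * ((∑ x ∈ Φ, θ x : ℝ) : ℂ))‖ ≤
      2 ^ C.g * (∏ y : G, |Real.cos (2 * Real.pi * θ (y • x₀))|) ^
        ((C.g : ℝ) / Fintype.card G) := by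
  classical
  obtain ⟨O, hO, hOc⟩ := exists_half C
  have h1 : ∀ Φ ∈ types C,
      Complex.exp (2 * Real.pi * Complex.I * ((∑ x ∈ Φ, θ x : ℝ) : ℂ)) =
      ∏ x ∈ O, (if x ∈ Φ then Complex.exp (2 * Real.pi * Complex.I * (θ x : ℂ))
        else Complex.exp (-(2 * Real.pi * Complex.I * (θ x : ℂ)))) := by
    intro Φ hΦ
    rw [sum_odd hO hθ hΦ, Complex.ofReal_sum, Finset.mul_sum, Complex.exp_sum]
    apply Finset.prod_congr rfl
    intro x _
    split_ifs with h
    · rfl
    · push_cast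
      ring_nf
  rw [Finset.sum_congr rfl h1, sum_types hO, norm_prod]
  have h2 : ∀ x ∈ O, ‖Complex.exp (2 * Real.pi * Complex.I * (θ x : ℂ)) +
      Complex.exp (-(2 * Real.pi * Complex.I * (θ x : ℂ)))‖ =
      2 * |Real.cos (2 * Real.pi * θ x)| := by
    intro x _
    have h3 : Complex.exp (2 * Real.pi * Complex.I * (θ x : ℂ)) +
        Complex.exp (-(2 * Real.pi * Complex.I * (θ x : ℂ))) =
        2 * Complex.cos ((2 * Real.pi * θ x : ℝ) : ℂ) := by
      rw [Complex.cos]
      push_cast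
      ring_nf
    rw [h3, norm_mul, ← Complex.ofReal_cos, Complex.norm_real, Real.norm_eq_abs]
    simp
  rw [Finset.prod_congr rfl h2, Finset.prod_mul_distrib, Finset.prod_const, hOc]
  apply le_of_eq
  congr 1
  obtain ⟨s, hs0, hs, hp⟩ := four_fiber C (fun x => |Real.cos (2 * Real.pi * θ x)|) x₀
  rw [hp, four_even C (fun x => |Real.cos (2 * Real.pi * θ x)|) (fun x => by
    rw [hθ]
    rw [mul_neg, Real.cos_neg]) O hO]
  have h4 : 0 ≤ ∏ x ∈ O, |Real.cos (2 * Real.pi * θ x)| :=
    Finset.prod_nonneg fun x _ => abs_nonneg _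
  rw [← pow_mul, ← Real.rpow_natCast, ← Real.rpow_mul h4, hs]
  have hg : (0 : ℝ) < C.g := by exact_mod_cast C.gpos
  have hs' : (0 : ℝ) < s := by exact_mod_cast hs0
  have : ((2 * s : ℕ) : ℝ) * ((C.g : ℝ) / ((2 * C.g * s : ℕ) : ℝ)) = 1 := by
    push_cast
    field_simp
  rw [this, Real.rpow_one]

end

end Pool.Agent.AAC

namespace Pool.Agent.AAC

alias four := Pool.Agent.AAC.four_pr

end Pool.Agent.AAC
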