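import Pool.Agent.Lib_helper7.AAC.Basic
import Pool.Agent.Lib_helper7.AACF.FOUR

set_option autoImplicit false
set_option linter.unusedSectionVars false

namespace Pool.Agent.AAC

open Finset

section

variable {G X : Type} [Group G] [Fintype G] [MulAction G X] [Fintype X] (C : Ctx G X)

/-- AVG: probability of an event from a family of phases -/
theorem pr_le_of_phases_pr {ι : Type} (Λ : Finset ι) (hΛ : Λ.Nonempty) (θ : ι → X → ℝ)
    (hθ : ∀ i ∈ Λ, ∀ x, θ i (C.c x) = - θ i x) (x₀ : X) (E : Finset X → Prop)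
    (hE : ∀ Φ ∈ types C, (E Φ → ∀ i ∈ Λ, ∃ m : ℤ, ∑ x ∈ Φ, θ i x = m) ∧
      (¬ E Φ → ∑ i ∈ Λ, Complex.exp (2 * Real.pi * Complex.I * ((∑ x ∈ Φ, θ i x : ℝ) : ℂ)) = 0)) :
    Pr C E ≤ (∑ i ∈ Λ, (∏ y : G, |Real.cos (2 * Real.pi * θ i (y • x₀))|) ^
      ((C.g : ℝ) / Fintype.card G)) / Λ.card := by
  classical
  have hc : (0 : ℝ) < Λ.card := by exact_mod_cast hΛ.card_pos
  rw [Pr_eq, div_le_div_iff₀ (by positivity) hc]
  have key : ((((types C).filter E).card : ℂ) * Λ.card) = ∑ i ∈ Λ, ∑ Φ ∈ types C,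
      Complex.exp (2 * Real.pi * Complex.I * ((∑ x ∈ Φ, θ i x : ℝ) : ℂ)) := by
    rw [Finset.sum_comm]
    have h1 : ∀ Φ ∈ types C, ∑ i ∈ Λ,
        Complex.exp (2 * Real.pi * Complex.I * ((∑ x ∈ Φ, θ i x : ℝ) : ℂ)) =
        if E Φ then (Λ.card : ℂ) else 0 := by
      intro Φ hΦ
      split_ifs with h
      · have h2 : ∀ i ∈ Λ, Complex.exp (2 * Real.pi * Complex.I * ((∑ x ∈ Φ, θ i x : ℝ) : ℂ)) = 1 := by
          intro i hi
          obtain ⟨m, hm⟩ := (hE Φ hΦ).1 h i hi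
          rw [hm, Complex.exp_eq_one_iff]
          exact ⟨m, by push_cast; ring⟩
        rw [Finset.sum_congr rfl h2]
        simp
      · exact (hE Φ hΦ).2 h
    rw [Finset.sum_congr rfl h1, ← Finset.sum_filter, Finset.sum_const, nsmul_eq_mul]
  have h3 : ((((types C).filter E).card : ℝ) * Λ.card) = ‖∑ i ∈ Λ, ∑ Φ ∈ types C,
      Complex.exp (2 * Real.pi * Complex.I * ((∑ x ∈ Φ, θ i x : ℝ) : ℂ))‖ := by
    rw [← key, norm_mul, Complex.norm_natCast, Complex.norm_natCast]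
  rw [h3, Finset.sum_mul]
  refine (norm_sum_le _ _).trans (Finset.sum_le_sum fun i hi => ?_)
  exact (four C (θ i) (hθ i hi) x₀).trans (le_of_eq (mul_comm _ _))

end

end Pool.Agent.AAC

namespace Pool.Agent.AAC

alias pr_le_of_phases := Pool.Agent.AAC.pr_le_of_phases_pr

end Pool.Agent.AAC
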