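import Pool.Agent.Lib_helper7.AACF.GH

set_option autoImplicit false
set_option linter.unusedSectionVars false

/-!
# AAC, block FAM: families of linear forms on a finite vector space
-/

namespace Pool.Agent.AAC

open Finset

/-- FAM: a family of linear forms on `V`, equivariant on the right -/
theorem fam_pr {G : Type} [Group G] [Fintype G] {p : ℕ} [Fact p.Prime] {V : Type}
    [AddCommGroup V] [Module (ZMod p) V] [Fintype V] (φ : G → V →ₗ[ZMod p] ZMod p)
    (hker : ∀ v : V, (∀ y, φ y v = 0) → v = 0)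
    (heq : ∀ τ : G, ∃ α : V ≃ₗ[ZMod p] V, ∀ y v, φ (y * τ) v = φ y (α v))
    (m : ℕ) (hm : Module.finrank (ZMod p) V = m) (hm0 : 0 < m)
    (w : G → ZMod p → ℝ) (hw : ∀ y u, 0 ≤ w y u) (σ : ℝ) (hσ : 0 < σ) :
    ∑ v : V, (∏ y : G, w y (φ y v)) ^ (σ / Fintype.card G) ≤
      ∏ y : G, (∑ u : ZMod p, (w y u) ^ (σ / m)) ^ ((m : ℝ) / Fintype.card G) := by
  classical
  have hG : (0 : ℝ) < Fintype.card G := by exact_mod_cast Fintype.card_pos
  obtain ⟨κ, a, ha, hspan, hli⟩ := exists_linearIndependent' (ZMod p) φ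
  have : Finite κ := Finite.of_injective a ha
  let _ : Fintype κ := Fintype.ofFinite κ
  -- the map to the product is injective
  let T : V →ₗ[ZMod p] (κ → ZMod p) := LinearMap.pi fun k => φ (a k)
  have hT : Function.Injective T := by
    rw [← LinearMap.ker_eq_bot, LinearMap.ker_eq_bot']
    intro v hv
    apply hker
    intro y
    have h1 : φ y ∈ Submodule.span (ZMod p) (Set.range (φ ∘ a)) := by
      rw [hspan]
      exact Submodule.subset_span ⟨y, rfl⟩
    have h2 : ∀ ψ ∈ Submodule.span (ZMod p) (Set.range (φ ∘ a)), ψ v = 0 := by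
      intro ψ hψ
      induction hψ using Submodule.span_induction with
      | mem x hx =>
        obtain ⟨k, rfl⟩ := hx
        exact congrFun hv k
      | zero => rfl
      | add x y _ _ hx hy => rw [LinearMap.add_apply, hx, hy, add_zero]
      | smul c x _ hx => rw [LinearMap.smul_apply, hx, smul_zero]
    exact h2 _ h1
  have hcard : Fintype.card κ = m := by
    apply le_antisymm
    · have h1 := hli.fintype_card_le_finrank
      have h2 : Module.finrank (ZMod p) (V →ₗ[ZMod p] ZMod p) = Module.finrank (ZMod p) V :=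
        Subspace.dual_finrank_eq
      rw [h2, hm] at h1
      exact h1
    · have h1 := LinearMap.finrank_le_finrank_of_injective hT
      rw [hm, Module.finrank_fintype_fun_eq_card] at h1
      exact h1
  have hTb : Function.Bijective T := by
    refine ⟨hT, ?_⟩
    exact (LinearMap.injective_iff_surjective_of_finrank_eq_finrank
      (by rw [hm, Module.finrank_fintype_fun_eq_card, hcard])).1 hT
  have hmR : (0 : ℝ) < m := by exact_mod_cast hm0
  have : Nonempty κ := by
    rw [← Fintype.card_pos_iff, hcard]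
    exact hm0
  set J : Finset G := univ.image a with hJ
  have hJne : J.Nonempty := by
    obtain ⟨k⟩ : Nonempty κ := inferInstance
    exact ⟨a k, by rw [hJ, mem_image]; exact ⟨k, mem_univ _, rfl⟩⟩
  have hJc : J.card = m := by
    rw [hJ, card_image_of_injective _ ha, card_univ, hcard]
  refine le_trans (gh_pr J hJne (fun y (v : V) => w y (φ y v)) (fun y v => hw _ _) σ hσ)
    (le_of_eq ?_)
  have hprod : ∀ (f : G → ℝ), ∏ j ∈ J, f j = ∏ k : κ, f (a k) := by
    intro f
    rw [hJ, prod_image (fun x _ y _ h => ha h)]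
  set S : G → ℝ := fun y => ∑ u : ZMod p, (w y u) ^ (σ / m) with hS
  have hS0 : ∀ y, 0 ≤ S y := fun y => Finset.sum_nonneg fun u _ => Real.rpow_nonneg (hw _ _) _
  have h1 : ∀ τ : G, ∑ v : V, (∏ j ∈ J, w (j * τ) (φ (j * τ) v)) ^ (σ / J.card) =
      ∏ k : κ, S (a k * τ) := by
    intro τ
    obtain ⟨α, hα⟩ := heq τ
    have h2 : ∀ v : V, (∏ j ∈ J, w (j * τ) (φ (j * τ) v)) ^ (σ / J.card) =
        ∏ k : κ, (w (a k * τ) (T (α v) k)) ^ (σ / m) := by
      intro v
      rw [hprod (fun j => w (j * τ) (φ (j * τ) v)), hJc,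
        ← Real.finsetProd_rpow _ _ (fun k _ => hw _ _)]
      apply Finset.prod_congr rfl
      intro k _
      rw [hα]
      rfl
    rw [Finset.sum_congr rfl fun v _ => h2 v]
    have h3 : ∑ v : V, ∏ k : κ, (w (a k * τ) (T (α v) k)) ^ (σ / m) =
        ∑ u : κ → ZMod p, ∏ k : κ, (w (a k * τ) (u k)) ^ (σ / m) := by
      have hb : Function.Bijective (fun v => T (α v)) := hTb.comp α.bijective
      exact hb.sum_comp (fun u => ∏ k : κ, (w (a k * τ) (u k)) ^ (σ / m))
    rw [h3, hS]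
    simp only
    rw [Finset.prod_univ_sum, Fintype.piFinset_univ]
  rw [Finset.prod_congr rfl fun τ _ => by rw [h1 τ]]
  rw [Real.finsetProd_rpow _ _ (fun τ _ => Finset.prod_nonneg fun k _ => hS0 _)]
  have h4 : ∏ τ : G, ∏ k : κ, S (a k * τ) = (∏ y : G, S y) ^ m := by
    rw [Finset.prod_comm]
    have : ∀ k ∈ (univ : Finset κ), ∏ τ : G, S (a k * τ) = ∏ y : G, S y := by
      intro k _
      exact (Group.mulLeft_bijective (a k)).prod_comp S
    rw [Finset.prod_congr rfl this, Finset.prod_const, card_univ, hcard]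
  rw [h4, ← Real.rpow_natCast, ← Real.rpow_mul (Finset.prod_nonneg fun y _ => hS0 _),
    Real.finsetProd_rpow _ _ (fun y _ => hS0 _)]
  congr 1
  field_simp

/-- FAM: a family of linear forms on `V`, equivariant on the left -/
theorem fam_left_pr {G : Type} [Group G] [Fintype G] {p : ℕ} [Fact p.Prime] {V : Type}
    [AddCommGroup V] [Module (ZMod p) V] [Fintype V] (φ : G → V →ₗ[ZMod p] ZMod p)
    (hker : ∀ v : V, (∀ y, φ y v = 0) → v = 0)
    (heq : ∀ τ : G, ∃ α : V ≃ₗ[ZMod p] V, ∀ y v, φ (τ * y) v = φ y (α v))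
    (m : ℕ) (hm : Module.finrank (ZMod p) V = m) (hm0 : 0 < m)
    (w : G → ZMod p → ℝ) (hw : ∀ y u, 0 ≤ w y u) (σ : ℝ) (hσ : 0 < σ) :
    ∑ v : V, (∏ y : G, w y (φ y v)) ^ (σ / Fintype.card G) ≤
      ∏ y : G, (∑ u : ZMod p, (w y u) ^ (σ / m)) ^ ((m : ℝ) / Fintype.card G) := by
  have h := fam_pr (G := G) (fun y => φ y⁻¹)
    (fun v hv => hker v fun y => by simpa using hv y⁻¹)
    (fun τ => by
      obtain ⟨α, hα⟩ := heq τ⁻¹
      refine ⟨α, fun y v => ?_⟩
      show φ (y * τ)⁻¹ v = φ y⁻¹ (α v)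
      rw [mul_inv_rev, hα])
    m hm hm0 (fun y => w y⁻¹) (fun y u => hw _ _) σ hσ
  have h1 : ∀ v : V, ∏ y : G, w y⁻¹ (φ y⁻¹ v) = ∏ y : G, w y (φ y v) := fun v =>
    (Equiv.inv G).bijective.prod_comp (fun y => w y (φ y v))
  have h2 : ∏ y : G, (∑ u : ZMod p, (w y⁻¹ u) ^ (σ / m)) ^ ((m : ℝ) / Fintype.card G) =
      ∏ y : G, (∑ u : ZMod p, (w y u) ^ (σ / m)) ^ ((m : ℝ) / Fintype.card G) :=
    (Equiv.inv G).bijective.prod_comp
      (fun y => (∑ u : ZMod p, (w y u) ^ (σ / m)) ^ ((m : ℝ) / Fintype.card G))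
  simp only [h1] at h
  rw [h2] at h
  exact h

end Pool.Agent.AAC

namespace Pool.Agent.AAC

alias fam := Pool.Agent.AAC.fam_pr
alias fam_left := Pool.Agent.AAC.fam_left_pr

end Pool.Agent.AAC
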