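import Pool.Agent.Lib_helper7.AAC.Basic
import Pool.Agent.Lib_helper7.AACF.AVG
import Pool.Agent.Lib_helper7.AACF.FAM

set_option autoImplicit false
set_option linter.unusedSectionVars false

namespace Pool.Agent.AAC

open Finset

section

variable {G X : Type} [Group G] [Fintype G] [MulAction G X] [Fintype X] (C : Ctx G X)

/-- the balanced phase -/
noncomputable def FH_th {p : ℕ} (f : X → ZMod p) (x : X) : ℝ := ((f x).valMinAbs : ℝ) / p

lemma FH_odd {p : ℕ} (hp : Odd p) (f : X → ZMod p) (x x' : X) (h : f x' = - f x) :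
    FH_th f x' = - FH_th f x := by
  unfold FH_th
  rw [h, ZMod.valMinAbs_neg_of_ne_half]
  · push_cast
    ring
  · intro h2
    obtain ⟨m, hm⟩ := hp
    omega

lemma FH_sum {p : ℕ} [NeZero p] (f : X → ZMod p) (Φ : Finset X) :
    Complex.exp (2 * Real.pi * Complex.I * ((∑ x ∈ Φ, FH_th f x : ℝ) : ℂ)) =
      ZMod.stdAddChar (∑ x ∈ Φ, f x) := by
  have h1 : (∑ x ∈ Φ, f x) = (((∑ x ∈ Φ, (f x).valMinAbs : ℤ)) : ZMod p) := by
    push_cast
    rfl
  rw [h1, ZMod.stdAddChar_coe]
  congr 1
  unfold FH_th
  rw [← Finset.sum_div]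
  push_cast
  ring

lemma FH_cos {p : ℕ} [NeZero p] (u : ZMod p) :
    Real.cos (2 * Real.pi * ((u.valMinAbs : ℝ) / p)) = Real.cos (2 * Real.pi * ((u.val : ℝ) / p)) := by
  have hp0 : (p : ℝ) ≠ 0 := by exact_mod_cast NeZero.ne p
  rw [ZMod.valMinAbs_def_pos]
  split_ifs with h
  · push_cast
    rfl
  · have : 2 * Real.pi * ((((u.val : ℤ) - (p : ℤ) : ℤ) : ℝ) / p) = 2 * Real.pi * ((u.val : ℝ) / p) - 2 * Real.pi := by
      push_cast
      field_simp
    rw [this, Real.cos_sub_two_pi]

lemma FH_range {p : ℕ} [NeZero p] (f : ℕ → ℝ) : ∑ u : ZMod p, f u.val = ∑ u ∈ range p, f u := by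
  refine Finset.sum_nbij' (fun u => u.val) (fun n => (n : ZMod p)) ?_ ?_ ?_ ?_ ?_
  · intro u _
    exact mem_range.2 (ZMod.val_lt u)
  · intro _ _
    exact mem_univ _
  · intro u _
    exact ZMod.natCast_zmod_val u
  · intro n hn
    exact ZMod.val_cast_of_lt (mem_range.1 hn)
  · intro _ _
    rfl

/-- FH -/
theorem fh_pr {p : ℕ} [Fact p.Prime] (N : Submodule (RR (ZMod p) G) (MM (ZMod p) C)) (d : ℕ)
    (hd : Module.finrank (ZMod p) N = d) (hd0 : 0 < d) :
    Pr C (fun Φ => Perp Φ N) ≤ (Th p (C.g / d) / p) ^ d := by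
  classical
  have hp : p.Prime := Fact.out
  have hp0 : (0 : ℝ) < p := by exact_mod_cast hp.pos
  rcases hp.eq_two_or_odd' with h2 | hodd
  · -- p = 2
    subst h2
    have : Th 2 (C.g / d) = 2 := by
      unfold Th ThS
      rw [Finset.sum_range_succ, Finset.sum_range_one]
      have e1 : (2 * Real.pi * (((0 : ℕ) : ℝ) / ((2 : ℕ) : ℝ) + 0)) = 0 := by simp
      have e2 : (2 * Real.pi * (((1 : ℕ) : ℝ) / ((2 : ℕ) : ℝ) + 0)) = Real.pi := by
        push_cast
        ring
      rw [e1, e2, Real.cos_zero, Real.cos_pi, abs_neg, abs_one, Real.one_rpow]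
      norm_num
    rw [this]
    norm_num
    exact Pr_le_one _
  · haveI : Finite (MM (ZMod p) C) := inferInstance
    have : Fintype N := Fintype.ofFinite _
    have hcard : Fintype.card N = p ^ d := by
      rw [Module.card_eq_pow_finrank (K := ZMod p), hd, ZMod.card]
    obtain ⟨x₀⟩ : Nonempty X := by
      rw [← Fintype.card_pos_iff, C.card]
      have := C.gpos
      omega
    have hA := pr_le_of_phases C (Finset.univ : Finset N) ⟨0, mem_univ _⟩
      (fun v x => FH_th (toFn (ZMod p) C v.1) x)
      (fun v _ x => FH_odd hodd _ _ _ (toFn_odd v.1 x)) x₀ (fun Φ => Perp Φ N) ?_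
    · refine hA.trans ?_
      -- the sum over N
      let φ : G → N →ₗ[ZMod p] ZMod p := fun y =>
        { toFun := fun v => toFn (ZMod p) C v.1 (y • x₀)
          map_add' := fun v v' => by
            rw [Submodule.coe_add, map_add, Pi.add_apply]
          map_smul' := fun a v => by
            rw [RingHom.id_apply, Submodule.coe_smul_of_tower, map_smul, Pi.smul_apply] }
      have hφ : ∀ y v, φ y v = toFn (ZMod p) C v.1 (y • x₀) := fun _ _ => rfl
      have hF := fam_left φ ?_ ?_ d hd hd0 (fun _ u => |Real.cos (2 * Real.pi * ((u.valMinAbs : ℝ) / p))|)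
        (fun _ _ => abs_nonneg _) (C.g : ℝ) (by exact_mod_cast C.gpos)
      · have hT : ∑ u : ZMod p, |Real.cos (2 * Real.pi * ((u.valMinAbs : ℝ) / p))| ^ ((C.g : ℝ) / d) =
            Th p (C.g / d) := by
          unfold Th ThS
          rw [← FH_range (p := p) (fun u : ℕ => |Real.cos (2 * Real.pi * ((u : ℝ) / p + 0))| ^ ((C.g : ℝ) / d))]
          refine Finset.sum_congr rfl fun u _ => ?_
          rw [FH_cos, add_zero]
        have hG : (0 : ℝ) < Fintype.card G := by exact_mod_cast Fintype.card_pos
        have hTh : 0 ≤ Th p (C.g / d) := by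
          unfold Th ThS
          exact Finset.sum_nonneg fun _ _ => by positivity
        have hR : ∏ _y : G, (∑ u : ZMod p, |Real.cos (2 * Real.pi * ((u.valMinAbs : ℝ) / p))| ^ ((C.g : ℝ) / d)) ^
            ((d : ℝ) / Fintype.card G) = Th p (C.g / d) ^ d := by
          rw [hT, Finset.prod_const, Finset.card_univ, ← Real.rpow_natCast, ← Real.rpow_mul hTh,
            div_mul_cancel₀ _ hG.ne', Real.rpow_natCast]
        rw [hR] at hF
        have hc : ((Finset.univ : Finset N).card : ℝ) = (p : ℝ) ^ d := by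
          rw [Finset.card_univ, hcard]
          push_cast
          rfl
        rw [hc, div_pow]
        exact div_le_div_of_nonneg_right hF (by positivity)
      · intro v hv
        apply Subtype.ext
        apply toFn_inj
        funext x
        obtain ⟨y, rfl⟩ := C.tr x₀ x
        have := hv y
        rw [hφ] at this
        rw [this]
        simp
      · intro τ
        have hs : ∀ (y : G) (a : ZMod p) (v : MM (ZMod p) C),
            MonoidAlgebra.of (ZMod p) G y • (a • v) = a • (MonoidAlgebra.of (ZMod p) G y • v) := by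
          intro y a v
          apply toFn_inj
          funext x
          rw [toFn_of, map_smul, map_smul, Pi.smul_apply, Pi.smul_apply, toFn_of]
        refine ⟨
          { toFun := fun v => ⟨MonoidAlgebra.of (ZMod p) G τ⁻¹ • v.1, N.smul_mem _ v.2⟩
            map_add' := fun v v' => Subtype.ext (smul_add _ _ _)
            map_smul' := fun a v => Subtype.ext (hs _ _ _)
            invFun := fun v => ⟨MonoidAlgebra.of (ZMod p) G τ • v.1, N.smul_mem _ v.2⟩
            left_inv := fun v => Subtype.ext (by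
              show MonoidAlgebra.of (ZMod p) G τ • (MonoidAlgebra.of (ZMod p) G τ⁻¹ • v.1) = v.1
              rw [← mul_smul, ← map_mul, mul_inv_cancel, map_one, one_smul])
            right_inv := fun v => Subtype.ext (by
              show MonoidAlgebra.of (ZMod p) G τ⁻¹ • (MonoidAlgebra.of (ZMod p) G τ • v.1) = v.1
              rw [← mul_smul, ← map_mul, inv_mul_cancel, map_one, one_smul]) }, fun y v => ?_⟩
        show toFn (ZMod p) C v.1 ((τ * y) • x₀) = toFn (ZMod p) C (MonoidAlgebra.of (ZMod p) G τ⁻¹ • v.1) (y • x₀)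
        rw [toFn_of, inv_inv, mul_smul]
    · intro Φ hΦ
      constructor
      · intro hP v _
        have h1 : (((∑ x ∈ Φ, (toFn (ZMod p) C v.1 x).valMinAbs : ℤ)) : ZMod p) = 0 := by
          rw [← hP v.1 v.2]
          push_cast
          rfl
        obtain ⟨m, hm⟩ := (ZMod.intCast_zmod_eq_zero_iff_dvd _ _).mp h1
        refine ⟨m, ?_⟩
        unfold FH_th
        rw [← Finset.sum_div, div_eq_iff hp0.ne']
        have : ((∑ x ∈ Φ, (toFn (ZMod p) C v.1 x).valMinAbs : ℤ) : ℝ) = ((p * m : ℤ) : ℝ) := by rw [hm]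
        push_cast at this
        rw [this]
        ring
      · intro hP
        unfold Perp at hP
        push Not at hP
        obtain ⟨v₀, hv₀, h0⟩ := hP
        let ℓ : N →+ ZMod p :=
          { toFun := fun v => ∑ x ∈ Φ, toFn (ZMod p) C v.1 x
            map_zero' := by simp
            map_add' := fun v v' => by
              rw [← Finset.sum_add_distrib]
              refine Finset.sum_congr rfl fun x _ => ?_
              rw [Submodule.coe_add, map_add, Pi.add_apply] }
        have h1 : ∀ v : N, Complex.exp (2 * Real.pi * Complex.I *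
            ((∑ x ∈ Φ, FH_th (toFn (ZMod p) C v.1) x : ℝ) : ℂ)) =
            (ZMod.stdAddChar.compAddMonoidHom ℓ : AddChar N ℂ) v := fun v => FH_sum _ _
        rw [Finset.sum_congr rfl fun v _ => h1 v]
        apply AddChar.sum_eq_zero_of_ne_one
        intro h2
        have h3 := DFunLike.congr_fun h2 ⟨v₀, hv₀⟩
        rw [AddChar.one_apply] at h3
        have h4 : ZMod.stdAddChar (ℓ ⟨v₀, hv₀⟩) = ZMod.stdAddChar (0 : ZMod p) := by
          rw [AddChar.map_zero_eq_one]
          exact h3
        exact h0 (ZMod.injective_stdAddChar h4)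

end

end Pool.Agent.AAC

namespace Pool.Agent.AAC

alias fh := Pool.Agent.AAC.fh_pr

end Pool.Agent.AAC
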