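import Pool.Agent.Lib_helper7.AAC.Basic

set_option autoImplicit false
set_option linter.unusedSectionVars false

/-!
# Blocks LFR, BUR, FIX: the rank of the lattice, Burnside, full multiplicity
-/

namespace Pool.Agent.AAC

open Finset Matrix

section

variable {G X : Type} [Group G] [Fintype G] [MulAction G X] [Fintype X] {C : Ctx G X}

theorem LFR_mem {W : Submodule (RR ℚ G) (MM ℚ C)} (f : lat W) :
    ∃ v ∈ W, ∀ x, toFn ℚ C v x = (f.1 x : ℚ) := f.2

/-- the element of `W` with given integral values -/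
noncomputable def LFR_L (W : Submodule (RR ℚ G) (MM ℚ C)) : lat W →ₗ[ℤ] W where
  toFun f := ⟨(LFR_mem f).choose, (LFR_mem f).choose_spec.1⟩
  map_add' f f' := by
    apply Subtype.ext
    apply toFn_inj
    funext x
    have h1 := (LFR_mem f).choose_spec.2 x
    have h2 := (LFR_mem f').choose_spec.2 x
    have h3 := (LFR_mem (f + f')).choose_spec.2 x
    show toFn ℚ C (LFR_mem (f + f')).choose x = toFn ℚ C ((LFR_mem f).choose +
      (LFR_mem f').choose) x
    rw [map_add, Pi.add_apply, h1, h2, h3]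
    push_cast
    simp
  map_smul' a f := by
    apply Subtype.ext
    apply toFn_inj
    funext x
    have h1 := (LFR_mem f).choose_spec.2 x
    have h3 := (LFR_mem (a • f)).choose_spec.2 x
    show toFn ℚ C (LFR_mem (a • f)).choose x = toFn ℚ C (a • (LFR_mem f).choose) x
    rw [map_zsmul, Pi.smul_apply, h1, h3]
    simp

theorem LFR_L_apply (W : Submodule (RR ℚ G) (MM ℚ C)) (f : lat W) (x : X) :
    toFn ℚ C (LFR_L W f : MM ℚ C) x = (f.1 x : ℚ) := (LFR_mem f).choose_spec.2 x

theorem LFR_L_inj (W : Submodule (RR ℚ G) (MM ℚ C)) : Function.Injective (LFR_L W) := by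
  intro f f' h
  apply Subtype.ext
  funext x
  have h1 := LFR_L_apply W f x
  have h2 := LFR_L_apply W f' x
  rw [h] at h1
  rw [h1] at h2
  exact_mod_cast h2

/-- common denominators -/
theorem LFR_denom (W : Submodule (RR ℚ G) (MM ℚ C)) (w : W) :
    ∃ (N : ℕ) (f : lat W), N ≠ 0 ∧ LFR_L W f = (N : ℚ) • w := by
  classical
  set N : ℕ := ∏ x, (toFn ℚ C (w : MM ℚ C) x).den with hN
  have hN0 : N ≠ 0 := Finset.prod_ne_zero_iff.2 fun x _ => Rat.den_nz _
  have hdvd : ∀ x, (toFn ℚ C (w : MM ℚ C) x).den ∣ N := fun x =>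
    Finset.dvd_prod_of_mem _ (Finset.mem_univ x)
  choose m hm using hdvd
  have hval : ∀ x, (N : ℚ) * toFn ℚ C (w : MM ℚ C) x =
      ((m x * (toFn ℚ C (w : MM ℚ C) x).num : ℤ) : ℚ) := by
    intro x
    have h1 := Rat.mul_den_eq_num (toFn ℚ C (w : MM ℚ C) x)
    rw [hm x]
    push_cast
    rw [← h1]
    ring
  have hv : ∀ x, toFn ℚ C (((N : ℚ) • w : W) : MM ℚ C) x =
      ((m x * (toFn ℚ C (w : MM ℚ C) x).num : ℤ) : ℚ) := by
    intro x
    rw [← hval x]
    show toFn ℚ C ((N : ℚ) • (w : MM ℚ C)) x = _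
    rw [map_smul, Pi.smul_apply, smul_eq_mul]
  refine ⟨N, ⟨fun x => m x * (toFn ℚ C (w : MM ℚ C) x).num, ((N : ℚ) • w : W),
    ((N : ℚ) • w : W).2, hv⟩, hN0, ?_⟩
  apply Subtype.ext
  apply toFn_inj
  funext x
  rw [LFR_L_apply, hv x]

/-- a basis of `W` from a basis of the lattice -/
theorem LFR_basis (W : Submodule (RR ℚ G) (MM ℚ C)) {ι : Type} (b : Module.Basis ι ℤ (lat W)) :
    LinearIndependent ℚ (fun i => LFR_L W (b i)) ∧
      ⊤ ≤ Submodule.span ℚ (Set.range fun i => LFR_L W (b i)) := by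
  constructor
  · rw [← LinearIndependent.iff_fractionRing ℤ ℚ]
    exact b.linearIndependent.map' (LFR_L W) (LinearMap.ker_eq_bot.2 (LFR_L_inj W))
  · intro w _
    obtain ⟨N, f, hN, hf⟩ := LFR_denom W w
    have hN' : (N : ℚ) ≠ 0 := by exact_mod_cast hN
    have h1 : LFR_L W f ∈ Submodule.span ℚ (Set.range fun i => LFR_L W (b i)) := by
      have h2 : LFR_L W f ∈ Submodule.span ℤ (Set.range fun i => LFR_L W (b i)) := by
        have h3 : f ∈ Submodule.span ℤ (Set.range b) := by
          rw [b.span_eq]; trivial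
        have h4 := Submodule.mem_map_of_mem (f := LFR_L W) h3
        rw [Submodule.map_span, ← Set.range_comp] at h4
        exact h4
      exact Submodule.span_le_restrictScalars ℤ ℚ _ h2
    rw [hf] at h1
    have h2 := Submodule.smul_mem _ (N : ℚ)⁻¹ h1
    rwa [smul_smul, inv_mul_cancel₀ hN', one_smul] at h2

/-- LFR: the rank of the lattice -/
theorem lat_finrank_pr (W : Submodule (RR ℚ G) (MM ℚ C)) :
    Module.finrank ℤ (lat W) = dd W := by
  set b := Module.finBasis ℤ (lat W) with hb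
  obtain ⟨h1, h2⟩ := LFR_basis W b
  have h3 := Module.finrank_eq_card_basis (Module.Basis.mk h1 h2)
  rw [Fintype.card_fin] at h3
  exact h3.symm

/-- BUR: Burnside's theorem -/
theorem burnside_pr {W : Submodule (RR ℚ G) (MM ℚ C)} (hW : IsSimpleModule (RR ℚ G) W)
    (he : ee W = 1) (f : W →ₗ[ℚ] W) : ∃ r : RR ℚ G, ∀ w, f w = r • w := by
  have h1 : ∀ φ : Module.End (RR ℚ G) W, ∃ c : ℚ, φ = c • (1 : Module.End (RR ℚ G) W) := by
    intro φ
    have hne : (1 : Module.End (RR ℚ G) W) ≠ 0 := by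
      have := IsSimpleModule.nontrivial (RR ℚ G) W
      exact one_ne_zero
    have he' : Module.finrank ℚ (Module.End (RR ℚ G) W) = 1 := he
    obtain ⟨c, hc⟩ := exists_smul_eq_of_finrank_eq_one he' hne φ
    exact ⟨c, hc.symm⟩
  let F : Module.End (Module.End (RR ℚ G) W) W :=
    { toFun := f
      map_add' := map_add f
      map_smul' := by
        intro φ w
        obtain ⟨c, rfl⟩ := h1 φ
        show f (c • w) = c • f w
        rw [map_smul] }
  classical
  obtain ⟨r, hr⟩ := jacobson_density F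
    (Finset.univ.image (Module.finBasis ℚ W))
  let g : W →ₗ[ℚ] W :=
    { toFun := fun w => r • w
      map_add' := smul_add r
      map_smul' := fun c w => smul_comm r c w }
  have h2 : f = g := by
    refine (Module.finBasis ℚ W).ext fun i => ?_
    exact hr _ (Finset.mem_image_of_mem _ (Finset.mem_univ i))
  exact ⟨r, fun w => by rw [h2]; rfl⟩

/-- evaluation at `x` -/
noncomputable def FIX_ev (W : Submodule (RR ℚ G) (MM ℚ C)) (x : X) :
    (W →ₗ[RR ℚ G] MM ℚ C) →ₗ[ℚ] Module.Dual ℚ W where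
  toFun φ :=
    { toFun := fun w => toFn ℚ C (φ w) x
      map_add' := fun a b => by rw [map_add, map_add, Pi.add_apply]
      map_smul' := fun c a => by
        have h1 : φ (c • a) = c • φ a := (φ.restrictScalars ℚ).map_smul c a
        rw [h1, map_smul, Pi.smul_apply]
        rfl }
  map_add' φ ψ := by
    ext w
    show toFn ℚ C (φ w + ψ w) x = toFn ℚ C (φ w) x + toFn ℚ C (ψ w) x
    rw [map_add, Pi.add_apply]
  map_smul' c φ := by
    ext w
    show toFn ℚ C (c • φ w) x = c • toFn ℚ C (φ w) x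
    rw [map_smul, Pi.smul_apply]

theorem FIX_ev_apply (W : Submodule (RR ℚ G) (MM ℚ C)) (x : X) (φ : W →ₗ[RR ℚ G] MM ℚ C) (w : W) :
    FIX_ev W x φ w = toFn ℚ C (φ w) x := rfl

theorem FIX_ev_inj (W : Submodule (RR ℚ G) (MM ℚ C)) (x : X) : Function.Injective (FIX_ev W x) := by
  rw [injective_iff_map_eq_zero]
  intro φ hφ
  ext1 w
  apply toFn_inj
  funext x'
  obtain ⟨y, rfl⟩ := C.tr x x'
  have h1 : FIX_ev W x φ (MonoidAlgebra.of ℚ G y⁻¹ • w) = 0 := by rw [hφ]; rfl
  rw [FIX_ev_apply, map_smul, toFn_of, inv_inv] at h1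
  rw [h1]
  simp

/-- FIX: full multiplicity means that the stabilizers act trivially -/
theorem fix_of_full_pr {W : Submodule (RR ℚ G) (MM ℚ C)} (h : hh W = dd W) (x : X) (y : G)
    (hy : y • x = x) : y ∈ kr W := by
  have hfr : Module.finrank ℚ (W →ₗ[RR ℚ G] MM ℚ C) = Module.finrank ℚ (Module.Dual ℚ W) := by
    rw [Subspace.dual_finrank_eq]
    exact h
  have hsurj : Function.Surjective (FIX_ev W x) :=
    (LinearMap.injective_iff_surjective_of_finrank_eq_finrank hfr).1 (FIX_ev_inj W x)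
  intro v hv
  have key : MonoidAlgebra.of ℚ G y • (⟨v, hv⟩ : W) = ⟨v, hv⟩ := by
    rw [← sub_eq_zero, ← Module.forall_dual_apply_eq_zero_iff ℚ]
    intro l
    obtain ⟨φ, rfl⟩ := hsurj l
    rw [map_sub, FIX_ev_apply, FIX_ev_apply, map_smul, toFn_of]
    have h2 : y⁻¹ • x = x := by
      rw [inv_smul_eq_iff, hy]
    rw [h2, sub_self]
  exact congrArg Subtype.val key

end

end Pool.Agent.AAC

namespace Pool.Agent.AAC

alias lat_finrank := Pool.Agent.AAC.lat_finrank_pr
alias burnside := Pool.Agent.AAC.burnside_pr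
alias fix_of_full := Pool.Agent.AAC.fix_of_full_pr

end Pool.Agent.AAC
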