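import Pool.Agent.Lib_helper7.AAC.Basic
import Pool.Agent.Lib_helper7.AACF.LFR

set_option autoImplicit false
set_option linter.unusedSectionVars false

namespace Pool.Agent.AAC

open Finset

section

variable {G X : Type} [Group G] [MulAction G X] [Fintype X] {C : Ctx G X}

theorem perp_red_pr (p : ℕ) {W : Submodule (RR ℚ G) (MM ℚ C)} {Φ : Finset X} (h : Perp Φ W) :
    Perp Φ (red p W) := by
  intro v hv
  obtain ⟨f, ⟨w, hw, hwf⟩, hf⟩ := mem_red.1 hv
  have h1 := h w hw
  simp_rw [hwf] at h1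
  have h2 : ∑ x ∈ Φ, f x = 0 := by exact_mod_cast h1
  have h3 : ((∑ x ∈ Φ, f x : ℤ) : ZMod p) = 0 := by rw [h2]; simp
  push_cast at h3
  rw [← h3]
  exact Finset.sum_congr rfl fun x _ => hf x

theorem red_mono_pr (p : ℕ) {W W' : Submodule (RR ℚ G) (MM ℚ C)} (h : W ≤ W') :
    red p W ≤ red p W' := by
  intro v hv
  obtain ⟨f, ⟨w, hw, hwf⟩, hf⟩ := mem_red.1 hv
  exact mem_red.2 ⟨f, ⟨w, h hw, hwf⟩, hf⟩

/-- saturation -/
lemma RED_sat {p : ℕ} (hp : p ≠ 0) {W : Submodule (RR ℚ G) (MM ℚ C)} {f : X → ℤ} (hf : f ∈ lat W)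
    (h : ∀ x, (p : ℤ) ∣ f x) : ∃ f' ∈ lat W, f = (p : ℤ) • f' := by
  choose f' hf' using h
  obtain ⟨w, hw, hwf⟩ := hf
  refine ⟨f', ⟨(p : ℚ)⁻¹ • w, ?_, fun x => ?_⟩, ?_⟩
  · exact Submodule.smul_of_tower_mem W _ hw
  · rw [map_smul, Pi.smul_apply, hwf, hf']
    have : (p : ℚ) ≠ 0 := by exact_mod_cast hp
    push_cast
    rw [smul_eq_mul]
    field_simp
  · funext x
    rw [hf']
    rfl

end

section

variable {G X : Type} [Group G] [Fintype G] [MulAction G X] [Fintype X] {C : Ctx G X}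

/-- RED -/
theorem red_finrank_pr (p : ℕ) [Fact p.Prime] (W : Submodule (RR ℚ G) (MM ℚ C)) :
    Module.finrank (ZMod p) (red p W) = dd W := by
  classical
  have hp : p.Prime := Fact.out
  rw [← lat_finrank W]
  have : Module.Free ℤ (lat W) := inferInstance
  have : Module.Finite ℤ (lat W) := inferInstance
  set r := Module.finrank ℤ (lat W) with hr
  let b : Module.Basis (Fin r) ℤ (lat W) := Module.finBasis ℤ (lat W)
  -- the reductions
  have hex : ∀ f : lat W, ∃ v : red p W, ∀ x, toFn (ZMod p) C v.1 x = (f.1 x : ZMod p) := by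
    intro f
    obtain ⟨v, hv⟩ := exists_toFn (C := C) (f := fun x => (f.1 x : ZMod p)) (by
      intro x
      rw [lat_odd f.2]
      push_cast
      rfl)
    exact ⟨⟨v, mem_red.2 ⟨f.1, f.2, fun x => by rw [hv]⟩⟩, fun x => by
      show toFn (ZMod p) C v x = _
      rw [hv]⟩
  choose v hv using hex
  have hsum : ∀ (a : Fin r → ℤ) (x : X), toFn (ZMod p) C (∑ i, (a i : ZMod p) • v (b i) : red p W).1 x =
      (((∑ i, a i • b i : lat W).1 x : ℤ) : ZMod p) := by
    intro a x
    have e1 : (∑ i, (a i : ZMod p) • v (b i) : red p W).1 = ∑ i, (a i : ZMod p) • (v (b i)).1 := by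
      rw [Submodule.coe_sum]
      rfl
    have e2 : (∑ i, a i • b i : lat W).1 x = ∑ i, a i * (b i).1 x := by
      rw [Submodule.coe_sum, Finset.sum_apply]
      rfl
    rw [e1, e2, map_sum, Finset.sum_apply]
    push_cast
    refine Finset.sum_congr rfl fun i _ => ?_
    rw [map_smul, Pi.smul_apply, hv, smul_eq_mul]
  have hli : LinearIndependent (ZMod p) fun i => v (b i) := by
    rw [Fintype.linearIndependent_iff]
    intro a ha i
    have ha' : ∀ j, ((a j).val : ℤ) = (a j).val := fun _ => rfl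
    have h1 := hsum (fun j => ((a j).val : ℤ))
    have h2 : (∑ i, ((((a i).val : ℤ)) : ZMod p) • v (b i) : red p W) = 0 := by
      rw [← ha]
      refine Finset.sum_congr rfl fun j _ => ?_
      congr 1
      rw [Int.cast_natCast, ZMod.natCast_zmod_val]
    rw [h2] at h1
    have h3 : ∀ x, (p : ℤ) ∣ (∑ i, ((a i).val : ℤ) • b i : lat W).1 x := by
      intro x
      rw [← ZMod.intCast_zmod_eq_zero_iff_dvd]
      rw [← h1 x]
      simp
    obtain ⟨f', hf', hff⟩ := RED_sat hp.ne_zero (∑ i, ((a i).val : ℤ) • b i : lat W).2 h3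
    have h4 : (∑ i, ((a i).val : ℤ) • b i : lat W) = (p : ℤ) • (⟨f', hf'⟩ : lat W) := Subtype.ext hff
    have h5 := congrArg (fun f => b.repr f i) h4
    rw [Module.Basis.repr_sum_self, map_smul, Finsupp.smul_apply, smul_eq_mul] at h5
    have h6 : (((a i).val : ℤ) : ZMod p) = 0 := by
      rw [h5]
      simp
    rw [Int.cast_natCast, ZMod.natCast_zmod_val] at h6
    exact h6
  have hsp : ⊤ ≤ Submodule.span (ZMod p) (Set.range fun i => v (b i)) := by
    rintro w -
    obtain ⟨f, hf, hfw⟩ := mem_red.1 w.2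
    have h1 := hsum (fun i => b.repr ⟨f, hf⟩ i)
    rw [b.sum_repr] at h1
    have h2 : w = ∑ i, ((b.repr ⟨f, hf⟩ i : ℤ) : ZMod p) • v (b i) := by
      apply Subtype.ext
      apply toFn_inj
      funext x
      rw [h1, hfw]
    rw [h2]
    exact Submodule.sum_mem _ fun i _ => Submodule.smul_mem _ _ (Submodule.subset_span ⟨i, rfl⟩)
  rw [Module.finrank_eq_card_basis (Module.Basis.mk hli hsp), Fintype.card_fin]

end

end Pool.Agent.AAC

namespace Pool.Agent.AAC

alias perp_red := Pool.Agent.AAC.perp_red_pr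
alias red_mono := Pool.Agent.AAC.red_mono_pr
alias red_finrank := Pool.Agent.AAC.red_finrank_pr

end Pool.Agent.AAC
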