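import Pool.Agent.Lib_helper7.AAC.Basic

set_option autoImplicit false

/-!
AAC blocks COS, N4, N3, N0 (helper67)
-/

namespace Pool.Agent.AAC

open Finset

theorem COS_cos_le_exp (x : ℝ) (h0 : 0 ≤ x) (h1 : x ≤ Real.pi / 2) :
    Real.cos x ≤ Real.exp (-(x ^ 2 / 2)) := by
  have hanti : AntitoneOn (fun x : ℝ => Real.cos x * Real.exp (x ^ 2 / 2))
      (Set.Icc 0 (Real.pi / 2)) := by
    apply antitoneOn_of_deriv_nonpos (convex_Icc _ _)
    · fun_prop
    · fun_prop
    · intro y hy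
      rw [interior_Icc] at hy
      have hd : HasDerivAt (fun x : ℝ => Real.cos x * Real.exp (x ^ 2 / 2))
          (-Real.sin y * Real.exp (y ^ 2 / 2) +
            Real.cos y * (Real.exp (y ^ 2 / 2) * (2 * y / 2))) y := by
        have h2 : HasDerivAt (fun x : ℝ => x ^ 2 / 2) (2 * y / 2) y := by
          simpa using (hasDerivAt_pow 2 y).div_const 2
        exact (Real.hasDerivAt_cos y).mul h2.exp
      rw [hd.deriv]
      have hcos : 0 < Real.cos y := Real.cos_pos_of_mem_Ioo ⟨by linarith [hy.1], hy.2⟩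
      have htan : y < Real.tan y := Real.lt_tan hy.1 hy.2
      rw [Real.tan_eq_sin_div_cos, lt_div_iff₀ hcos] at htan
      have he := Real.exp_pos (y ^ 2 / 2)
      nlinarith [mul_nonneg he.le (sub_nonneg.mpr htan.le)]
  have h := hanti (Set.left_mem_Icc.mpr (by positivity)) ⟨h0, h1⟩ h0
  simp only [Real.cos_zero, one_mul] at h
  rw [Real.exp_neg, ← one_div, le_div_iff₀ (Real.exp_pos _)]
  simpa using h

theorem cos_nd_pr (t : ℝ) :
    |Real.cos (Real.pi * t)| ≤ Real.exp (-(Real.pi ^ 2 * nd t ^ 2 / 2)) := by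
  have hnd0 : 0 ≤ nd t := abs_nonneg _
  have hnd1 : nd t ≤ 1 / 2 := abs_sub_round t
  have hpi := Real.pi_pos
  have h1 : |Real.cos (Real.pi * t)| = Real.cos (Real.pi * nd t) := by
    have e1 : Real.pi * t = Real.pi * (t - round t) + (round t : ℤ) * Real.pi := by ring
    rw [e1, Real.cos_add_int_mul_pi, abs_mul, abs_zpow, abs_neg, abs_one, one_zpow, one_mul]
    have e2 : Real.cos (Real.pi * (t - round t)) = Real.cos (Real.pi * nd t) := by
      unfold nd
      rcases abs_cases (t - round t) with ⟨h, _⟩ | ⟨h, _⟩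
      · rw [h]
      · rw [h, mul_neg, Real.cos_neg]
    rw [e2, abs_of_nonneg]
    apply Real.cos_nonneg_of_mem_Icc
    constructor
    · nlinarith [mul_nonneg hpi.le hnd0]
    · nlinarith
  rw [h1]
  have h2 := COS_cos_le_exp (Real.pi * nd t) (by positivity) (by nlinarith)
  have e3 : Real.pi ^ 2 * nd t ^ 2 / 2 = (Real.pi * nd t) ^ 2 / 2 := by ring
  rw [e3]
  exact h2

theorem N4_nd_add_int (t : ℝ) (k : ℤ) : nd (t + k) = nd t := by
  unfold nd
  rw [round_add_intCast]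
  push_cast
  congr 1
  ring

/-- `nd (w / p)` is at least `min w (p - w) / p` -/
theorem N4_nd_ge (t : ℝ) (h0 : 0 ≤ t) (h1 : t ≤ 1) : min t (1 - t) ≤ nd t := by
  unfold nd
  rcases le_or_gt (round t) 0 with h | h
  · have : (round t : ℝ) ≤ 0 := by exact_mod_cast h
    rw [abs_of_nonneg (by linarith)]
    exact (min_le_left _ _).trans (by linarith)
  · have : (1 : ℝ) ≤ (round t : ℝ) := by exact_mod_cast h
    rw [abs_sub_comm, abs_of_nonneg (by linarith)]
    exact (min_le_right _ _).trans (by linarith)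

/-- doubling is a permutation modulo an odd number -/
theorem N4_reindex (p : ℕ) (hp : Odd p) (F : ℝ → ℝ) (hF : ∀ t : ℝ, ∀ k : ℤ, F (t + k) = F t) :
    ∑ u ∈ range p, F (2 * u / p) = ∑ w ∈ range p, F (w / p) := by
  obtain ⟨m, hm⟩ := hp
  have hp0 : 0 < p := by omega
  have hpR : (p : ℝ) ≠ 0 := by positivity
  have key : ∀ u : ℕ, ((2 * u) % p * (m + 1)) % p = u % p := by
    intro u
    rw [Nat.mod_mul_mod]
    have : 2 * u * (m + 1) = u + p * u := by rw [hm]; ring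
    rw [this, Nat.add_mul_mod_self_left]
  have key2 : ∀ w : ℕ, (2 * ((w * (m + 1)) % p)) % p = w % p := by
    intro w
    rw [Nat.mul_mod_mod]
    have : 2 * (w * (m + 1)) = w + p * w := by rw [hm]; ring
    rw [this, Nat.add_mul_mod_self_left]
  refine Finset.sum_nbij' (fun u => (2 * u) % p) (fun w => (w * (m + 1)) % p) ?_ ?_ ?_ ?_ ?_
  · intro u _
    exact mem_range.mpr (Nat.mod_lt _ hp0)
  · intro u _
    exact mem_range.mpr (Nat.mod_lt _ hp0)
  · intro u hu
    rw [key, Nat.mod_eq_of_lt (mem_range.mp hu)]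
  · intro w hw
    rw [key2, Nat.mod_eq_of_lt (mem_range.mp hw)]
  · intro u _
    obtain ⟨q, hq⟩ : ∃ q : ℕ, 2 * u / p = q := ⟨_, rfl⟩
    obtain ⟨r, hr⟩ : ∃ r : ℕ, 2 * u % p = r := ⟨_, rfl⟩
    have hmd := Nat.mod_add_div (2 * u) p
    rw [hq, hr] at hmd
    have h1 : (2 * (u : ℝ)) / p = (r : ℝ) / p + ((q : ℤ) : ℝ) := by
      have h2 : (r : ℝ) + p * q = 2 * u := by exact_mod_cast hmd
      rw [← h2, Int.cast_natCast]
      field_simp
    change F (2 * (u : ℝ) / p) = F ((((2 * u) % p : ℕ) : ℝ) / p)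
    rw [h1, hF, hr]

/-- half of the Gaussian sum -/
theorem N4_half (p : ℕ) (hp : 0 < p) (a : ℝ) (ha : 0 < a) (m : ℕ) :
    ∑ i ∈ range m, Real.exp (-(a * (((i + 1 : ℕ) : ℝ) / p) ^ 2)) ≤ p * √(Real.pi / a) / 2 := by
  have hpR : (0 : ℝ) < p := by exact_mod_cast hp
  set f : ℝ → ℝ := fun t => Real.exp (-(a / p ^ 2) * t ^ 2) with hf
  have hb : 0 < a / (p : ℝ) ^ 2 := by positivity
  have hanti : AntitoneOn f (Set.Icc (0 : ℝ) (0 + m)) := by
    intro x hx y hy hxy
    apply Real.exp_le_exp.mpr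
    have : x ^ 2 ≤ y ^ 2 := by
      have := hx.1
      nlinarith
    nlinarith
  have h1 := hanti.sum_le_integral
  have h2 : ∑ i ∈ range m, Real.exp (-(a * (((i + 1 : ℕ) : ℝ) / p) ^ 2)) =
      ∑ i ∈ range m, f (0 + ((i + 1 : ℕ) : ℝ)) := by
    apply Finset.sum_congr rfl
    intro i _
    rw [hf]
    simp only
    congr 1
    rw [zero_add]
    field_simp
  rw [h2]
  refine h1.trans ?_
  rw [intervalIntegral.integral_of_le (by positivity)]
  have h3 : ∫ x in Set.Ioi (0 : ℝ), f x = √(Real.pi / (a / p ^ 2)) / 2 := integral_gaussian_Ioi _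
  have h4 : ∫ x in Set.Ioc (0 : ℝ) (0 + m), f x ≤ ∫ x in Set.Ioi (0 : ℝ), f x := by
    apply MeasureTheory.setIntegral_mono_set
    · exact (integrable_exp_neg_mul_sq hb).integrableOn
    · exact Filter.Eventually.of_forall fun x => (Real.exp_pos _).le
    · exact (Set.Ioc_subset_Ioi_self).eventuallyLE
  refine h4.trans (le_of_eq ?_)
  rw [h3]
  have h5 : Real.pi / (a / (p : ℝ) ^ 2) = (p : ℝ) ^ 2 * (Real.pi / a) := by
    field_simp
  rw [h5, Real.sqrt_mul (by positivity), Real.sqrt_sq hpR.le]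

theorem sum_gauss_pr (p : ℕ) (hp : Odd p) (a : ℝ) (ha : 0 < a) :
    ∑ u ∈ range p, Real.exp (-(a * nd (2 * u / p) ^ 2)) ≤ 1 + p * √(Real.pi / a) := by
  have hre := N4_reindex p hp (fun t => Real.exp (-(a * nd t ^ 2)))
    (fun t k => by rw [N4_nd_add_int])
  rw [hre]
  obtain ⟨m, hm⟩ := hp
  have hp0 : 0 < p := by omega
  have hpR : (0 : ℝ) < p := by exact_mod_cast hp0
  have hs : ∑ w ∈ range p, Real.exp (-(a * nd (w / p) ^ 2)) =
      Real.exp (-(a * nd ((0 : ℕ) / p) ^ 2)) +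
      (∑ i ∈ range m, Real.exp (-(a * nd (((i + 1 : ℕ) : ℝ) / p) ^ 2)) +
        ∑ i ∈ range m, Real.exp (-(a * nd (((m + (i + 1) : ℕ) : ℝ) / p) ^ 2))) := by
    rw [hm, Finset.sum_range_succ', show 2 * m = m + m by ring, Finset.sum_range_add, add_comm]
    rfl
  rw [hs]
  have hA : Real.exp (-(a * nd ((0 : ℕ) / p) ^ 2)) ≤ 1 := by
    apply Real.exp_le_one_iff.mpr
    have := mul_nonneg ha.le (sq_nonneg (nd ((0 : ℕ) / (p : ℝ))))
    linarith
  have mono : ∀ x y : ℝ, 0 ≤ x → x ≤ y → Real.exp (-(a * y ^ 2)) ≤ Real.exp (-(a * x ^ 2)) := by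
    intro x y hx hxy
    apply Real.exp_le_exp.mpr
    have : x ^ 2 ≤ y ^ 2 := by nlinarith
    nlinarith
  have hB : ∑ i ∈ range m, Real.exp (-(a * nd (((i + 1 : ℕ) : ℝ) / p) ^ 2)) ≤
      p * √(Real.pi / a) / 2 := by
    refine le_trans ?_ (N4_half p hp0 a ha m)
    apply Finset.sum_le_sum
    intro i hi
    have hi' := mem_range.mp hi
    apply mono _ _ (by positivity)
    have hle : ((i + 1 : ℕ) : ℝ) / p ≤ 1 - ((i + 1 : ℕ) : ℝ) / p := by
      rw [le_sub_iff_add_le, ← add_div, div_le_one hpR]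
      have : (i + 1) + (i + 1) ≤ p := by omega
      exact_mod_cast this
    have hge : (0 : ℝ) ≤ ((i + 1 : ℕ) : ℝ) / p := by positivity
    have h := N4_nd_ge (((i + 1 : ℕ) : ℝ) / p) hge (by linarith)
    rwa [min_eq_left hle] at h
  have hC : ∑ i ∈ range m, Real.exp (-(a * nd (((m + (i + 1) : ℕ) : ℝ) / p) ^ 2)) ≤
      p * √(Real.pi / a) / 2 := by
    refine le_trans ?_ (N4_half p hp0 a ha m)
    rw [← Finset.sum_range_reflect (fun i => Real.exp (-(a * (((i + 1 : ℕ) : ℝ) / p) ^ 2)))]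
    apply Finset.sum_le_sum
    intro i hi
    have hi' := mem_range.mp hi
    apply mono _ _ (by positivity)
    have e : (((m - 1 - i + 1 : ℕ) : ℝ) / p) = 1 - ((m + (i + 1) : ℕ) : ℝ) / p := by
      rw [eq_sub_iff_add_eq, ← add_div, div_eq_one_iff_eq hpR.ne']
      have : (m - 1 - i + 1) + (m + (i + 1)) = p := by omega
      exact_mod_cast this
    rw [e]
    have hle : 1 - ((m + (i + 1) : ℕ) : ℝ) / p ≤ ((m + (i + 1) : ℕ) : ℝ) / p := by
      rw [sub_le_iff_le_add, ← add_div, le_div_iff₀ hpR, one_mul]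
      have : p ≤ (m + (i + 1)) + (m + (i + 1)) := by omega
      exact_mod_cast this
    have hle1 : ((m + (i + 1) : ℕ) : ℝ) / p ≤ 1 := by
      rw [div_le_one hpR]
      have : m + (i + 1) ≤ p := by omega
      exact_mod_cast this
    have h := N4_nd_ge (((m + (i + 1) : ℕ) : ℝ) / p) (by positivity) hle1
    rwa [min_eq_right hle] at h
  linarith

theorem th_le_pr (p : ℕ) (hp : Odd p) (s : ℝ) (hs : 0 < s) :
    Th p s ≤ 1 + p * √(2 / (Real.pi * s)) := by
  have hpi := Real.pi_pos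
  have ha : 0 < s * Real.pi ^ 2 / 2 := by positivity
  have h := sum_gauss_pr p hp (s * Real.pi ^ 2 / 2) ha
  have e : Real.pi / (s * Real.pi ^ 2 / 2) = 2 / (Real.pi * s) := by
    field_simp
  rw [e] at h
  refine le_trans ?_ h
  unfold Th ThS
  apply Finset.sum_le_sum
  intro u _
  have e1 : 2 * Real.pi * ((u : ℝ) / p + 0) = Real.pi * (2 * u / p) := by ring
  rw [e1]
  have h1 := cos_nd_pr (2 * u / p)
  have h2 := Real.rpow_le_rpow (abs_nonneg _) h1 hs.le
  refine h2.trans (le_of_eq ?_)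
  rw [← Real.exp_mul]
  congr 1
  ring

theorem N0_sum_cos (p : ℕ) (hp : Odd p) (hp3 : 3 ≤ p) :
    ∑ u ∈ range p, Real.cos (2 * (2 * Real.pi * ((u : ℝ) / p))) = 0 := by
  have hζ := (Complex.isPrimitiveRoot_exp p (by omega)).pow_of_coprime 2
    (Nat.coprime_two_left.mpr hp)
  have h := hζ.geom_sum_eq_zero (by omega)
  have h2 := congrArg Complex.re h
  rw [Complex.re_sum, Complex.zero_re] at h2
  rw [← h2]
  apply Finset.sum_congr rfl
  intro u _
  rw [← Complex.exp_nat_mul, ← Complex.exp_nat_mul]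
  have e : ((u : ℂ) * (((2 : ℕ) : ℂ) * (2 * (Real.pi : ℂ) * Complex.I / p))) =
      ((2 * (2 * Real.pi * ((u : ℝ) / p)) : ℝ) : ℂ) * Complex.I := by
    push_cast
    ring
  rw [e, Complex.exp_ofReal_mul_I_re]

theorem th_one_pr (p : ℕ) (hp : Odd p) (hp3 : 3 ≤ p) (s : ℝ) (hs : 1 ≤ s) :
    Th p s ≤ p / √2 := by
  have hp0 : (0 : ℝ) < p := by
    have : 0 < p := by omega
    exact_mod_cast this
  have h1 : Th p s ≤ ∑ u ∈ range p, |Real.cos (2 * Real.pi * ((u : ℝ) / p))| := by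
    unfold Th ThS
    apply Finset.sum_le_sum
    intro u _
    rw [add_zero]
    exact Real.rpow_le_self_of_le_one (abs_nonneg _) (Real.abs_cos_le_one _) hs
  refine h1.trans ?_
  have h2 : (∑ u ∈ range p, |Real.cos (2 * Real.pi * ((u : ℝ) / p))|) ^ 2 ≤ (p / √2) ^ 2 := by
    have h3 := sq_sum_le_card_mul_sum_sq (s := range p)
      (f := fun u : ℕ => |Real.cos (2 * Real.pi * ((u : ℝ) / p))|)
    rw [card_range] at h3
    refine h3.trans (le_of_eq ?_)
    have h4 : ∑ u ∈ range p, |Real.cos (2 * Real.pi * ((u : ℝ) / p))| ^ 2 = (p : ℝ) / 2 := by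
      have h5 : ∀ u ∈ range p, |Real.cos (2 * Real.pi * ((u : ℝ) / p))| ^ 2 =
          1 / 2 + Real.cos (2 * (2 * Real.pi * ((u : ℝ) / p))) / 2 := by
        intro u _
        rw [sq_abs, Real.cos_sq]
      rw [Finset.sum_congr rfl h5, Finset.sum_add_distrib, ← Finset.sum_div, ← Finset.sum_div,
        N0_sum_cos p hp hp3]
      simp
    rw [h4, div_pow, Real.sq_sqrt (by norm_num)]
    ring
  exact le_of_sq_le_sq h2 (by positivity)

end Pool.Agent.AAC

namespace Pool.Agent.AAC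

alias cos_nd := Pool.Agent.AAC.cos_nd_pr
alias sum_gauss := Pool.Agent.AAC.sum_gauss_pr
alias th_le := Pool.Agent.AAC.th_le_pr
alias th_one := Pool.Agent.AAC.th_one_pr

end Pool.Agent.AAC
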