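import Pool.Agent.Lib_helper7.AAC.Basic
import Pool.Agent.Lib_helper7.AACF.FH
import Pool.Agent.Lib_helper7.AACF.RED
import Pool.Agent.Lib_helper7.AACF.Trig

set_option autoImplicit false
set_option linter.unusedSectionVars false

namespace Pool.Agent.AAC

open Finset

section

variable {G X : Type} [Group G] [Fintype G] [MulAction G X] [Fintype X] {C : Ctx G X}

/-- MU1 -/
theorem mu_one_pr (W : Submodule (RR ℚ G) (MM ℚ C)) (hd0 : 0 < dd W) :
    Pr C (fun Φ => Perp Φ W) ≤ √(2 * dd W / (Real.pi * C.g)) ^ dd W := by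
  have hg : (0 : ℝ) < C.g := by exact_mod_cast C.gpos
  have hd : (0 : ℝ) < dd W := by exact_mod_cast hd0
  -- the bound for every odd prime
  have key : ∀ p : ℕ, p.Prime → Odd p → Pr C (fun Φ => Perp Φ W) ≤
      (1 / p + √(2 * dd W / (Real.pi * C.g))) ^ dd W := by
    intro p hp hodd
    haveI : Fact p.Prime := ⟨hp⟩
    have hp0 : (0 : ℝ) < p := by exact_mod_cast hp.pos
    have h1 : Pr C (fun Φ => Perp Φ W) ≤ Pr C (fun Φ => Perp Φ (red p W)) :=
      Pr_mono fun Φ _ h => perp_red p h
    have h2 := fh C (red p W) (dd W) (red_finrank p W) hd0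
    refine (h1.trans h2).trans ?_
    have h3 := th_le p hodd (C.g / dd W) (by positivity)
    have h0 : 0 ≤ Th p (C.g / dd W) := by
      unfold Th ThS
      exact Finset.sum_nonneg fun _ _ => by positivity
    refine pow_le_pow_left₀ (by positivity) ?_ _
    rw [div_le_iff₀ hp0]
    refine h3.trans (le_of_eq ?_)
    have h4 : 2 / (Real.pi * (C.g / dd W)) = 2 * dd W / (Real.pi * C.g) := by
      field_simp
    rw [h4, add_mul, one_div, inv_mul_cancel₀ hp0.ne', mul_comm (p : ℝ)]
  -- the limit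
  have hlim : Filter.Tendsto (fun n : ℕ => (1 / (n : ℝ) + √(2 * dd W / (Real.pi * C.g))) ^ dd W)
      Filter.atTop (nhds ((0 + √(2 * dd W / (Real.pi * C.g))) ^ dd W)) :=
    (tendsto_one_div_atTop_nhds_zero_nat.add_const _).pow _
  rw [zero_add] at hlim
  by_contra hcon
  push Not at hcon
  have hev := hlim.eventually (gt_mem_nhds hcon)
  obtain ⟨N, hN⟩ := Filter.eventually_atTop.1 hev
  obtain ⟨p, hpN, hp⟩ := Nat.exists_infinite_primes (max N 3)
  have hodd : Odd p := hp.odd_of_ne_two (by have := le_max_right N 3; omega)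
  exact absurd (hN p ((le_max_left _ _).trans hpN)) (not_lt.2 (key p hp hodd))

end

end Pool.Agent.AAC

namespace Pool.Agent.AAC

alias mu_one := Pool.Agent.AAC.mu_one_pr

end Pool.Agent.AAC
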