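import Mathlib

set_option autoImplicit false

/-!
# NUM2
-/

namespace Pool.Agent.AAC.H80

lemma key_num (d : ℕ) (hd : 3 ≤ d) : (2 / Real.pi) ^ d * d ≤ 1 := by
  have hpi := Real.pi_pos
  have hpi3 := Real.pi_gt_three
  have h23 : 2 / Real.pi ≤ 2 / 3 := div_le_div_of_nonneg_left (by norm_num) (by norm_num) hpi3.le
  have h0 : 0 ≤ 2 / Real.pi := by positivity
  induction d, hd using Nat.le_induction with
  | base =>
    have h1 : (2 / Real.pi) ^ 3 ≤ (2 / 3) ^ 3 := pow_le_pow_left₀ h0 h23 3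
    push_cast
    nlinarith
  | succ d hd ih =>
    have hd3 : (3 : ℝ) ≤ d := by exact_mod_cast hd
    have h1 : (2 / Real.pi) * (d + 1) ≤ d := by
      have h2 : (2 / Real.pi) * (d + 1) ≤ 2 / 3 * (d + 1) :=
        mul_le_mul_of_nonneg_right h23 (by positivity)
      linarith
    have h3 : 0 ≤ (2 / Real.pi) ^ d := by positivity
    push_cast
    calc (2 / Real.pi) ^ (d + 1) * ((d : ℝ) + 1) = (2 / Real.pi) ^ d * ((2 / Real.pi) * (d + 1)) := by
          ring
      _ ≤ (2 / Real.pi) ^ d * d := mul_le_mul_of_nonneg_left h1 h3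
      _ ≤ 1 := ih

/-- NUM2 -/
theorem num_two_pr (g d : ℕ) (hd : 3 ≤ d) (hdg : d ≤ g) :
    √(2 * d / (Real.pi * g)) ^ d ≤ d / g * (1 / √g) := by
  have hd0 : (0 : ℝ) < d := by exact_mod_cast (by omega : 0 < d)
  have hg : (0 : ℝ) < g := by exact_mod_cast (by omega : 0 < g)
  have hpi := Real.pi_pos
  have hk := key_num d hd
  have hr0 : (0 : ℝ) < d / g := by positivity
  have hr1 : (d : ℝ) / g ≤ 1 := by
    rw [div_le_one hg]
    exact_mod_cast hdg
  have hsq : 0 ≤ (2 * d / (Real.pi * g) : ℝ) := by positivity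
  have hR : 0 ≤ (d : ℝ) / g * (1 / √g) := by positivity
  refine le_of_sq_le_sq ?_ hR
  rw [← pow_mul, mul_comm d 2, pow_mul, Real.sq_sqrt hsq, mul_pow, div_pow 1, Real.sq_sqrt hg.le]
  have e1 : (2 * d / (Real.pi * g) : ℝ) = (2 / Real.pi) * (d / g) := by
    field_simp
  rw [e1, mul_pow]
  have e2 : (d / g : ℝ) ^ 2 * (1 ^ 2 / g) = (d / g) ^ 3 * (1 / d) := by
    field_simp
  rw [e2]
  have h3 : (d / g : ℝ) ^ d ≤ (d / g) ^ 3 := pow_le_pow_of_le_one hr0.le hr1 hd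
  have h4 : (2 / Real.pi) ^ d ≤ 1 / d := by
    rw [le_div_iff₀ hd0]
    exact hk
  calc (2 / Real.pi) ^ d * (d / g : ℝ) ^ d ≤ (1 / d) * (d / g) ^ 3 :=
        mul_le_mul h4 h3 (by positivity) (by positivity)
    _ = (d / g) ^ 3 * (1 / d) := by ring

end Pool.Agent.AAC.H80

namespace Pool.Agent.AAC

alias num_two := Pool.Agent.AAC.H80.num_two_pr

end Pool.Agent.AAC
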