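import Pool.Agent.Lib_helper7.AAC.Basic
import Pool.Agent.Lib_helper7.AAC.FDefs
import Pool.Agent.Lib_helper7.AACF.ISD
import Pool.Agent.Lib_helper7.AACF.MU1
import Pool.Agent.Lib_helper7.AACF.NUM2

set_option autoImplicit false
set_option linter.unusedSectionVars false

namespace Pool.Agent.AAC

open Finset

variable {G X : Type} [Group G] [Fintype G] [MulAction G X] [Fintype X] {C : Ctx G X}

lemma asm1_pb_le {B : Submodule (RR ℚ G) (MM ℚ C)} (hB : IsSimpleModule (RR ℚ G) B) :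
    PB B ≤ Pr C (fun Φ => Perp Φ B) := by
  apply Pr_mono
  rintro Φ _ ⟨W, hW, hs, hp⟩
  have h1 : IsAtom B := isSimpleModule_iff_isAtom.1 hB
  have h2 : IsAtom W := isSimpleModule_iff_isAtom.1 hs
  rcases h1.le_iff.1 hW with h | h
  · exact absurd h h2.1
  · rw [← h]; exact hp

lemma asm1_pos {B : Submodule (RR ℚ G) (MM ℚ C)} (hB : IsSimpleModule (RR ℚ G) B) :
    0 < dd B := by
  have : Nontrivial B := IsSimpleModule.nontrivial (RR ℚ G) B
  exact Module.finrank_pos

lemma asm1_nonneg (B : Submodule (RR ℚ G) (MM ℚ C)) : 0 ≤ PB B := Pr_nonneg _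

lemma asm1_gpos (C : Ctx G X) : (0 : ℝ) < C.g := by exact_mod_cast C.gpos

lemma asm1_card (s : Finset (Submodule (RR ℚ G) (MM ℚ C)))
    (hs : ∀ B ∈ s, B ∈ isotypicComponents (RR ℚ G) (MM ℚ C)) (m : ℕ) :
    (s.filter fun B => dd B = m).card ≤ nc C m := by
  unfold nc
  rw [← Set.ncard_coe_finset]
  apply Set.ncard_le_ncard _ ((comps_finite C).subset fun B hB => hB.1)
  intro B hB
  rw [Finset.coe_filter] at hB
  exact ⟨hs B hB.1, hB.2⟩

theorem sum_simple_pr (s : Finset (Submodule (RR ℚ G) (MM ℚ C)))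
    (hs : ∀ B ∈ s, B ∈ isotypicComponents (RR ℚ G) (MM ℚ C) ∧ IsSimpleModule (RR ℚ G) B) :
    ∑ B ∈ s, PB B ≤ (nc C 1 + 1) / √C.g + 2 * nc C 2 / C.g := by
  classical
  have hg := asm1_gpos C
  have hg1 : (1 : ℝ) ≤ C.g := by exact_mod_cast C.gpos
  have hsq : 0 < √(C.g : ℝ) := Real.sqrt_pos.2 hg
  have hsum := comps_sum s fun B hB => (hs B hB).1
  have hdle : ∀ B ∈ s, dd B ≤ C.g := fun B hB =>
    (Finset.single_le_sum (f := fun B => dd B) (fun _ _ => Nat.zero_le _) hB).trans hsum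
  have key : ∀ B ∈ s, PB B ≤ (if dd B = 1 then 1 / √(C.g : ℝ) else 0) +
      (if dd B = 2 then 2 / (C.g : ℝ) else 0) + dd B / C.g * (1 / √C.g) := by
    intro B hB
    have hsim := (hs B hB).2
    have h0 := asm1_pos hsim
    have h1 := (asm1_pb_le hsim).trans (mu_one B h0)
    have hnn : 0 ≤ (dd B : ℝ) / C.g * (1 / √C.g) := by positivity
    rcases (by omega : dd B = 1 ∨ dd B = 2 ∨ 3 ≤ dd B) with h | h | h
    · rw [if_pos h, if_neg (by omega)]
      rw [h] at h1
      have h2 : √(2 * (1 : ℕ) / (Real.pi * C.g)) ≤ 1 / √(C.g : ℝ) := by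
        rw [← Real.sqrt_one, ← Real.sqrt_div (by norm_num)]
        apply Real.sqrt_le_sqrt
        rw [div_le_div_iff₀ (by positivity) hg]
        have := Real.pi_gt_three
        push_cast
        nlinarith
      rw [pow_one] at h1
      linarith
    · rw [if_neg (by omega), if_pos h]
      rw [h] at h1
      have h2 : √(2 * (2 : ℕ) / (Real.pi * C.g)) ^ 2 ≤ 2 / (C.g : ℝ) := by
        rw [Real.sq_sqrt (by positivity)]
        rw [div_le_div_iff₀ (by positivity) hg]
        have := Real.pi_gt_three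
        push_cast
        nlinarith
      linarith
    · rw [if_neg (by omega), if_neg (by omega)]
      have h2 := num_two C.g (dd B) h (hdle B hB)
      linarith
  refine (Finset.sum_le_sum key).trans ?_
  rw [Finset.sum_add_distrib, Finset.sum_add_distrib, ← Finset.sum_filter, ← Finset.sum_filter,
    Finset.sum_const, Finset.sum_const, nsmul_eq_mul, nsmul_eq_mul, ← Finset.sum_mul,
    ← Finset.sum_div]
  have e1 : (((s.filter fun B => dd B = 1).card : ℕ) : ℝ) ≤ nc C 1 := by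
    exact_mod_cast asm1_card s (fun B hB => (hs B hB).1) 1
  have e2 : (((s.filter fun B => dd B = 2).card : ℕ) : ℝ) ≤ nc C 2 := by
    exact_mod_cast asm1_card s (fun B hB => (hs B hB).1) 2
  have e3 : (∑ B ∈ s, (dd B : ℝ)) ≤ C.g := by exact_mod_cast hsum
  have f1 : (((s.filter fun B => dd B = 1).card : ℕ) : ℝ) * (1 / √(C.g : ℝ)) ≤
      nc C 1 * (1 / √(C.g : ℝ)) := mul_le_mul_of_nonneg_right e1 (by positivity)
  have f2 : (((s.filter fun B => dd B = 2).card : ℕ) : ℝ) * (2 / (C.g : ℝ)) ≤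
      nc C 2 * (2 / (C.g : ℝ)) := mul_le_mul_of_nonneg_right e2 (by positivity)
  have f3 : (∑ B ∈ s, (dd B : ℝ)) / C.g * (1 / √(C.g : ℝ)) ≤ 1 * (1 / √(C.g : ℝ)) := by
    apply mul_le_mul_of_nonneg_right _ (by positivity)
    rw [div_le_one hg]
    exact e3
  calc _ ≤ nc C 1 * (1 / √(C.g : ℝ)) + nc C 2 * (2 / (C.g : ℝ)) + 1 * (1 / √(C.g : ℝ)) := by
        linarith
    _ = _ := by ring

end Pool.Agent.AAC

namespace Pool.Agent.AAC

alias sum_simple := Pool.Agent.AAC.sum_simple_pr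

end Pool.Agent.AAC
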