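import Mathlib

set_option autoImplicit false

/-! numerical facts for large `g` -/

namespace Pool.Agent.AAC

open Filter Topology

lemma ev_pow_ge (ε M : ℝ) (hε : 0 < ε) : ∀ᶠ y : ℝ in atTop, M ≤ y ^ ε :=
  (tendsto_rpow_atTop hε).eventually_ge_atTop M

lemma ev_log_le (ε c : ℝ) (hε : 0 < ε) (hc : 0 < c) :
    ∀ᶠ y : ℝ in atTop, Real.log y ≤ c * y ^ ε := by
  have h := (isLittleO_log_rpow_atTop hε).def hc
  filter_upwards [h, eventually_ge_atTop (1 : ℝ)] with y hy h1
  rw [Real.norm_of_nonneg (Real.log_nonneg h1), Real.norm_of_nonneg (by positivity)] at hy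
  exact hy

/-- the numerical facts used for one component -/
theorem asm2_num (β x₀ : ℝ) (hβ : 0 < β) (hβ' : β ≤ 1 / 16) : ∃ g₀ : ℕ, 1 ≤ g₀ ∧ ∀ g : ℕ, g₀ ≤ g →
    (g : ℝ) ^ β ≤ (g : ℝ) ^ (3 / 2 * β) / 4 ∧ x₀ ≤ (g : ℝ) ^ (3 / 2 * β) / 4 ∧
    2 ≤ (g : ℝ) ^ β ∧
    (12 * Real.logb 2 (2 * g) * Real.log g + 1) * Real.log (2 * g) < (g : ℝ) ^ (3 / 2 * β) / 4 ∧
    3 * (g : ℝ) * Real.exp (-(4 * (g : ℝ) ^ (4 * β))) ≤ Real.log 2 := by
  have key : ∀ᶠ y : ℝ in atTop, y ^ β ≤ y ^ (3 / 2 * β) / 4 ∧ x₀ ≤ y ^ (3 / 2 * β) / 4 ∧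
      2 ≤ y ^ β ∧
      (12 * Real.logb 2 (2 * y) * Real.log y + 1) * Real.log (2 * y) < y ^ (3 / 2 * β) / 4 ∧
      3 * y * Real.exp (-(4 * y ^ (4 * β))) ≤ Real.log 2 := by
    have hl2 : 0 < Real.log 2 := Real.log_pos (by norm_num)
    filter_upwards [ev_pow_ge (β / 2) 4 (by positivity), ev_pow_ge (3 / 2 * β) (4 * x₀)
      (by positivity), ev_pow_ge β 2 hβ, ev_log_le (β / 4) 1 (by positivity) one_pos,
      ev_pow_ge (β / 4) 1 (by positivity),
      ev_pow_ge (3 / 4 * β) (4 * (4 * (24 / Real.log 2 + 1) + 1)) (by positivity),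
      ev_log_le (4 * β) 1 (by positivity) one_pos,
      ev_pow_ge (4 * β) (1 + Real.log (3 / Real.log 2)) (by positivity),
      eventually_ge_atTop (2 : ℝ)] with y h1 h2 h3 h4 h5 h6 h7 h8 h9
    have hy0 : 0 < y := by linarith
    have hlog0 : 0 ≤ Real.log y := Real.log_nonneg (by linarith)
    refine ⟨?_, by linarith, h3, ?_, ?_⟩
    · have e : y ^ (3 / 2 * β) = y ^ β * y ^ (β / 2) := by
        rw [← Real.rpow_add hy0]; congr 1; ring
      rw [e]
      have : 0 < y ^ β := by positivity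
      nlinarith
    · set u := y ^ (β / 4) with hu
      have hlogy : Real.log y ≤ u := by linarith
      have hlog2y : Real.log (2 * y) ≤ 2 * u := by
        rw [Real.log_mul (by norm_num) (by positivity)]
        have : Real.log 2 ≤ Real.log y := Real.log_le_log (by norm_num) h9
        linarith
      have hlog2y0 : 0 ≤ Real.log (2 * y) := Real.log_nonneg (by linarith)
      have hb : Real.logb 2 (2 * y) ≤ 2 * u / Real.log 2 := by
        unfold Real.logb
        gcongr
      have hb0 : 0 ≤ Real.logb 2 (2 * y) := by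
        unfold Real.logb
        positivity
      have hu1 : 1 ≤ u := h5
      have step : (12 * Real.logb 2 (2 * y) * Real.log y + 1) * Real.log (2 * y) ≤
          (12 * (2 * u / Real.log 2) * u + 1) * (2 * u) := by
        gcongr
      have e2 : y ^ (3 / 2 * β) = u ^ 3 * y ^ (3 / 4 * β) := by
        rw [hu, ← Real.rpow_natCast, ← Real.rpow_mul hy0.le, ← Real.rpow_add hy0]
        congr 1
        push_cast
        ring
      rw [e2]
      have e3 : (12 * (2 * u / Real.log 2) * u + 1) * (2 * u) ≤ 2 * (24 / Real.log 2 + 1) * u ^ 3 := by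
        have : (12 * (2 * u / Real.log 2) * u + 1) * (2 * u) =
            48 / Real.log 2 * u ^ 3 + 2 * u := by ring
        rw [this]
        have hu3 : u ≤ u ^ 3 := by nlinarith [sq_nonneg (u - 1)]
        have : 2 * (24 / Real.log 2 + 1) * u ^ 3 = 48 / Real.log 2 * u ^ 3 + 2 * u ^ 3 := by ring
        rw [this]
        linarith
      have hu3 : 0 < u ^ 3 := by positivity
      have hc : 0 < 24 / Real.log 2 := by positivity
      nlinarith
    · have e : 3 * y * Real.exp (-(4 * y ^ (4 * β))) =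
          Real.exp (Real.log 3 + Real.log y - 4 * y ^ (4 * β)) := by
        rw [sub_eq_add_neg, Real.exp_add, Real.exp_add, Real.exp_log (by norm_num),
          Real.exp_log hy0]
      rw [e, ← Real.exp_log hl2]
      rw [Real.exp_log hl2]
      calc Real.exp (Real.log 3 + Real.log y - 4 * y ^ (4 * β)) ≤
          Real.exp (Real.log (Real.log 2)) := by
            apply Real.exp_le_exp.2
            rw [Real.log_div (by norm_num) hl2.ne'] at h8
            nlinarith
        _ = Real.log 2 := Real.exp_log hl2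
  obtain ⟨Y, hY⟩ := eventually_atTop.1 key
  obtain ⟨N, hN⟩ := exists_nat_ge Y
  refine ⟨max N 1, le_max_right _ _, fun g hg => ?_⟩
  exact hY g (hN.trans (by exact_mod_cast (le_max_left _ _).trans hg))

end Pool.Agent.AAC
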