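import Pool.Agent.Lib_helper7.AAC.Basic

set_option autoImplicit false
set_option linter.unusedSectionVars false

/-!
# BAS: a basis in which the group has small matrices
-/

namespace Pool.Agent.Lib_helper38.AAC

open Finset Matrix

noncomputable section

section

variable {G : Type} [Group G] [Fintype G] {n : ℕ}

/-- the invariant form -/
def bas_q (ρ : G →* Matrix (Fin n) (Fin n) ℤ) (v : Fin n → ℤ) : ℤ :=
  ∑ y, ∑ i, ((ρ y *ᵥ v) i) ^ 2

lemma bas_q_inv (ρ : G →* Matrix (Fin n) (Fin n) ℤ) (g : G) (v : Fin n → ℤ) :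
    bas_q ρ (ρ g *ᵥ v) = bas_q ρ v := by
  unfold bas_q
  simp only [Matrix.mulVec_mulVec, ← map_mul]
  exact Fintype.sum_equiv (Equiv.mulRight g) _ _ (fun y => rfl)

lemma bas_q_nonneg (ρ : G →* Matrix (Fin n) (Fin n) ℤ) (v : Fin n → ℤ) : 0 ≤ bas_q ρ v :=
  Finset.sum_nonneg fun _ _ => Finset.sum_nonneg fun _ _ => sq_nonneg _

lemma bas_q_pos (ρ : G →* Matrix (Fin n) (Fin n) ℤ) (v : Fin n → ℤ) (hv : v ≠ 0) :
    0 < bas_q ρ v := by
  obtain ⟨i, hi⟩ := Function.ne_iff.mp hv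
  have h1 : ∑ i, ((ρ 1 *ᵥ v) i) ^ 2 ≤ bas_q ρ v :=
    Finset.single_le_sum (f := fun y => ∑ i, ((ρ y *ᵥ v) i) ^ 2)
      (fun _ _ => Finset.sum_nonneg fun _ _ => sq_nonneg _) (Finset.mem_univ (1 : G))
  have h2 : (v i) ^ 2 ≤ ∑ i, ((ρ 1 *ᵥ v) i) ^ 2 := by
    rw [map_one, Matrix.one_mulVec]
    exact Finset.single_le_sum (f := fun i => (v i) ^ 2) (fun _ _ => sq_nonneg _)
      (Finset.mem_univ i)
  have h3 : 0 < (v i) ^ 2 := by
    have : v i ≠ 0 := hi
    positivity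
  linarith

/-- the isometric embedding -/
def bas_T (ρ : G →* Matrix (Fin n) (Fin n) ℤ) :
    (Fin n → ℝ) →ₗ[ℝ] EuclideanSpace ℝ (G × Fin n) where
  toFun x := WithLp.toLp 2 (fun p : G × Fin n => (((ρ p.1).map (Int.cast : ℤ → ℝ)) *ᵥ x) p.2)
  map_add' x y := by
    ext p
    simp [Matrix.mulVec_add]
  map_smul' c x := by
    ext p
    simp [Matrix.mulVec_smul]

lemma bas_T_norm (ρ : G →* Matrix (Fin n) (Fin n) ℤ) (v : Fin n → ℤ) :
    ‖bas_T ρ (fun i => (v i : ℝ))‖ ^ 2 = (bas_q ρ v : ℝ) := by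
  rw [EuclideanSpace.norm_sq_eq]
  unfold bas_q
  push_cast
  rw [← Finset.univ_product_univ, Finset.sum_product]
  refine Finset.sum_congr rfl fun y _ => Finset.sum_congr rfl fun i _ => ?_
  have h : (bas_T ρ fun i => (v i : ℝ)).ofLp (y, i) = (((ρ y *ᵥ v) i : ℤ) : ℝ) := by
    simp [bas_T, Matrix.mulVec, dotProduct]
  rw [h, Real.norm_eq_abs, sq_abs]

/-- evaluation at a vector -/
def bas_ev (w : Fin n → ℚ) : Matrix (Fin n) (Fin n) ℚ →ₗ[ℚ] (Fin n → ℚ) where
  toFun M := M *ᵥ w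
  map_add' A B := Matrix.add_mulVec A B w
  map_smul' c A := by simp [Matrix.smul_mulVec]

lemma bas_ev_surj (w : Fin n → ℚ) (hw : w ≠ 0) : Function.Surjective (bas_ev w) := by
  intro x
  obtain ⟨j, hj⟩ := Function.ne_iff.mp hw
  have hj' : w j ≠ 0 := hj
  refine ⟨Matrix.of fun i k => if k = j then x i / w j else 0, ?_⟩
  funext i
  simp [bas_ev, Matrix.mulVec, dotProduct, hj']

lemma bas_indep (ρ : G →* Matrix (Fin n) (Fin n) ℤ)
    (hsp : Submodule.span ℚ (Set.range fun y : G => (ρ y).map (Int.cast : ℤ → ℚ)) = ⊤)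
    (w : Fin n → ℤ) (hw : w ≠ 0) :
    ∃ f : Fin n → G, (Matrix.of fun i j => (ρ (f j) *ᵥ w) i).det ≠ 0 := by
  classical
  have hw' : (fun i => (w i : ℚ)) ≠ 0 := by
    intro h
    apply hw
    funext i
    have := congrFun h i
    simpa using this
  set v : G → (Fin n → ℚ) := fun y => ((ρ y).map (Int.cast : ℤ → ℚ)) *ᵥ (fun i => (w i : ℚ))
    with hv
  have hspan : Submodule.span ℚ (Set.range v) = ⊤ := by
    have h1 : Set.range v = (bas_ev fun i => (w i : ℚ)) ''
        (Set.range fun y : G => (ρ y).map (Int.cast : ℤ → ℚ)) := by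
      rw [← Set.range_comp]
      rfl
    rw [h1, ← Submodule.map_span, hsp, Submodule.map_top, LinearMap.range_eq_top]
    exact bas_ev_surj _ hw'
  obtain ⟨κ, a, -, ha2, ha3⟩ := exists_linearIndependent' ℚ v
  let b : Module.Basis κ ℚ (Fin n → ℚ) := Module.Basis.mk ha3 (by rw [ha2, hspan])
  haveI : Fintype κ := FiniteDimensional.fintypeBasisIndex b
  have hcard : Fintype.card κ = n := by
    rw [← Module.finrank_eq_card_basis b]
    simp
  let e : Fin n ≃ κ := (Fintype.equivFinOfCardEq hcard).symm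
  refine ⟨fun j => a (e j), ?_⟩
  have hli : LinearIndependent ℚ (fun j : Fin n => v (a (e j))) :=
    ha3.comp e e.injective
  intro hdet
  have h2 : IsUnit (Matrix.of fun i j => v (a (e j)) i) := by
    rw [← Matrix.linearIndependent_cols_iff_isUnit]
    exact hli
  rw [Matrix.isUnit_iff_isUnit_det] at h2
  apply h2.ne_zero
  have h3 : (Matrix.of fun i j => v (a (e j)) i) =
      (Matrix.of fun i j => (ρ (a (e j)) *ᵥ w) i).map (Int.castRingHom ℚ) := by
    ext i j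
    simp [hv, Matrix.mulVec, dotProduct]
  rw [h3, ← RingHom.mapMatrix_apply, ← RingHom.map_det, hdet, map_zero]

/-- Minkowski-type pigeonhole -/
lemma bas_pigeon (hn : 0 < n) (P : Matrix (Fin n) (Fin n) ℤ) (hP : (n : ℤ) ^ n < |P.det|) :
    ∃ (v : Fin n → ℤ) (δ : Fin n → ℝ), v ≠ 0 ∧ (∀ i, |δ i| < 1 / n) ∧
      (fun i => (v i : ℝ)) = ∑ j, δ j • (fun i => (P i j : ℝ)) := by
  classical
  have hD : P.det ≠ 0 := by
    intro h
    rw [h, abs_zero] at hP
    have : (0 : ℤ) ≤ (n : ℤ) ^ n := by positivity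
    omega
  have hinj : Function.Injective P.mulVecLin := by
    intro x y hxy
    have h1 : P.adjugate *ᵥ (P *ᵥ x) = P.adjugate *ᵥ (P *ᵥ y) := by
      have : P *ᵥ x = P *ᵥ y := hxy
      rw [this]
    rw [Matrix.mulVec_mulVec, Matrix.mulVec_mulVec, Matrix.adjugate_mul, Matrix.smul_mulVec,
      Matrix.smul_mulVec, Matrix.one_mulVec, Matrix.one_mulVec] at h1
    exact smul_right_injective _ hD h1
  let N : Submodule ℤ (Fin n → ℤ) := LinearMap.range P.mulVecLin
  let e : (Fin n → ℤ) ≃ₗ[ℤ] N := LinearEquiv.ofInjective _ hinj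
  have hcard : Nat.card ((Fin n → ℤ) ⧸ N) = P.det.natAbs := by
    rw [← Submodule.natAbs_det_equiv N e]
    congr 1
    rw [← LinearMap.det_toLin' P]
    congr 1
  have hlt : n ^ n < Nat.card ((Fin n → ℤ) ⧸ N) := by
    rw [hcard]
    have h1 : ((P.det.natAbs : ℕ) : ℤ) = |P.det| := Int.natCast_natAbs _
    have h2 : ((n ^ n : ℕ) : ℤ) < ((P.det.natAbs : ℕ) : ℤ) := by
      rw [h1]; push_cast; exact hP
    exact_mod_cast h2
  haveI : Finite ((Fin n → ℤ) ⧸ N) := Nat.finite_of_card_ne_zero (by omega)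
  haveI : Fintype ((Fin n → ℤ) ⧸ N) := Fintype.ofFinite _
  set D : ℝ := (P.det : ℝ) with hDdef
  have hDne : D ≠ 0 := by
    rw [hDdef]; exact_mod_cast hD
  let c : (Fin n → ℤ) → Fin n → ℝ := fun u i => ((P.adjugate *ᵥ u) i : ℝ) / D
  have hfloor : ∀ u i, ⌊(n : ℝ) * Int.fract (c u i)⌋.toNat < n := by
    intro u i
    have h0 : (0 : ℝ) ≤ (n : ℝ) * Int.fract (c u i) :=
      mul_nonneg (by positivity) (Int.fract_nonneg _)
    have h1 : (n : ℝ) * Int.fract (c u i) < n := by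
      have := Int.fract_lt_one (c u i)
      have hn' : (0 : ℝ) < n := by exact_mod_cast hn
      nlinarith
    have h2 : ⌊(n : ℝ) * Int.fract (c u i)⌋ < (n : ℤ) := by
      rw [Int.floor_lt]; exact_mod_cast h1
    have h3 : 0 ≤ ⌊(n : ℝ) * Int.fract (c u i)⌋ := Int.floor_nonneg.mpr h0
    omega
  let φ : ((Fin n → ℤ) ⧸ N) → (Fin n → Fin n) := fun q i =>
    ⟨⌊(n : ℝ) * Int.fract (c q.out i)⌋.toNat, hfloor _ _⟩
  obtain ⟨q, q', hqq, hφ⟩ : ∃ q q', q ≠ q' ∧ φ q = φ q' := by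
    apply Fintype.exists_ne_map_eq_of_card_lt
    rw [Fintype.card_fun, Fintype.card_fin, ← Nat.card_eq_fintype_card]
    exact hlt
  set u := q.out with hu
  set u' := q'.out with hu'
  have hφ' : ∀ i, ⌊(n : ℝ) * Int.fract (c u i)⌋ = ⌊(n : ℝ) * Int.fract (c u' i)⌋ := by
    intro i
    have h := congrArg Fin.val (congrFun hφ i)
    simp only [φ] at h
    have h0 : 0 ≤ ⌊(n : ℝ) * Int.fract (c u i)⌋ :=
      Int.floor_nonneg.mpr (mul_nonneg (by positivity) (Int.fract_nonneg _))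
    have h0' : 0 ≤ ⌊(n : ℝ) * Int.fract (c u' i)⌋ :=
      Int.floor_nonneg.mpr (mul_nonneg (by positivity) (Int.fract_nonneg _))
    have h' : ⌊(n : ℝ) * Int.fract (c u i)⌋.toNat = ⌊(n : ℝ) * Int.fract (c u' i)⌋.toNat := h
    omega
  let z : Fin n → ℤ := fun i => ⌊c u i⌋ - ⌊c u' i⌋
  let v : Fin n → ℤ := u - u' - P *ᵥ z
  let δ : Fin n → ℝ := fun i => Int.fract (c u i) - Int.fract (c u' i)
  have hadj : ∀ i, (((P.adjugate *ᵥ v) i : ℤ) : ℝ) = D * δ i := by
    intro i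
    have h1 : P.adjugate *ᵥ v = P.adjugate *ᵥ u - P.adjugate *ᵥ u' - P.det • z := by
      simp only [v, Matrix.mulVec_sub, Matrix.mulVec_mulVec, Matrix.adjugate_mul,
        Matrix.smul_mulVec, Matrix.one_mulVec]
    have h2 : ∀ x, ((P.adjugate *ᵥ x) i : ℝ) = D * c x i := by
      intro x
      simp only [c]
      field_simp
    rw [h1]
    simp only [Pi.sub_apply, Pi.smul_apply, smul_eq_mul, Int.cast_sub, Int.cast_mul, h2, z, δ,
      Int.fract]
    rw [← hDdef]
    ring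
  refine ⟨v, δ, ?_, ?_, ?_⟩
  · intro hv0
    apply hqq
    have h1 : u - u' = P *ᵥ z := by
      have : u - u' - P *ᵥ z = 0 := hv0
      exact sub_eq_zero.mp this
    rw [← Quotient.out_eq q, ← Quotient.out_eq q']
    change (Submodule.Quotient.mk u : (Fin n → ℤ) ⧸ N) = Submodule.Quotient.mk u'
    rw [Submodule.Quotient.eq, h1]
    exact ⟨z, rfl⟩
  · intro i
    have h := Int.abs_sub_lt_one_of_floor_eq_floor (hφ' i)
    rw [← mul_sub, abs_mul, abs_of_nonneg (by positivity : (0 : ℝ) ≤ n)] at h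
    rw [lt_div_iff₀ (by exact_mod_cast hn)]
    rw [mul_comm]
    exact h
  · have h1 : P *ᵥ (P.adjugate *ᵥ v) = P.det • v := by
      rw [Matrix.mulVec_mulVec, Matrix.mul_adjugate, Matrix.smul_mulVec, Matrix.one_mulVec]
    funext i
    have h2 : D * (v i : ℝ) = D * ∑ j, δ j * (P i j : ℝ) := by
      have h3 := congrFun h1 i
      have h4 : (((P *ᵥ (P.adjugate *ᵥ v)) i : ℤ) : ℝ) = (((P.det • v) i : ℤ) : ℝ) := by
        rw [h3]
      rw [Pi.smul_apply, smul_eq_mul, Int.cast_mul, ← hDdef] at h4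
      rw [← h4, Matrix.mulVec, dotProduct, Int.cast_sum, Finset.mul_sum]
      refine Finset.sum_congr rfl fun j _ => ?_
      rw [Int.cast_mul, hadj j]
      ring
    have h5 := mul_left_cancel₀ hDne h2
    rw [h5]
    simp [Finset.sum_apply]

end

/-- BAS: a basis in which the group has small matrices -/
theorem exists_basis_pr {G : Type} [Group G] [Finite G] {n : ℕ}
    (ρ : G →* Matrix (Fin n) (Fin n) ℤ)
    (hsp : Submodule.span ℚ (Set.range fun y : G => (ρ y).map (Int.cast : ℤ → ℚ)) = ⊤) :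
    ∃ P : Matrix (Fin n) (Fin n) ℤ, P.det ≠ 0 ∧ |P.det| ≤ (n : ℤ) ^ n ∧
      ∀ y i j, |(P.adjugate * ρ y * P) i j| ≤ |P.det| := by
  classical
  haveI : Fintype G := Fintype.ofFinite G
  rcases Nat.eq_zero_or_pos n with rfl | hn
  · refine ⟨1, by simp, by simp, fun y i => i.elim0⟩
  -- a minimal vector
  have hex : ∃ m : ℕ, ∃ w : Fin n → ℤ, w ≠ 0 ∧ bas_q ρ w = m := by
    refine ⟨(bas_q ρ (fun _ => 1)).toNat, fun _ => 1, ?_, ?_⟩
    · intro h
      have := congrFun h ⟨0, hn⟩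
      simp at this
    · rw [Int.toNat_of_nonneg (bas_q_nonneg _ _)]
  obtain ⟨w, hw0, hwm⟩ := Nat.find_spec hex
  have hmin : ∀ v : Fin n → ℤ, v ≠ 0 → bas_q ρ w ≤ bas_q ρ v := by
    intro v hv
    have h1 : Nat.find hex ≤ (bas_q ρ v).toNat :=
      Nat.find_min' hex ⟨v, hv, by rw [Int.toNat_of_nonneg (bas_q_nonneg _ _)]⟩
    have h2 := bas_q_nonneg ρ v
    rw [hwm]
    omega
  let M : (Fin n → G) → Matrix (Fin n) (Fin n) ℤ := fun f =>
    Matrix.of fun i j => (ρ (f j) *ᵥ w) i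
  obtain ⟨f0, hf0⟩ := bas_indep ρ hsp w hw0
  haveI : Nonempty (Fin n → G) := ⟨f0⟩
  obtain ⟨f, hf⟩ := Finite.exists_max (fun f : Fin n → G => |(M f).det|)
  have hdet : (M f).det ≠ 0 := by
    intro h
    have h1 := hf f0
    simp only [h, abs_zero] at h1
    have h2 : 0 < |(M f0).det| := abs_pos.mpr hf0
    omega
  refine ⟨M f, hdet, ?_, ?_⟩
  · by_contra hcon
    push_neg at hcon
    obtain ⟨v, δ, hv0, hδ, hvδ⟩ := bas_pigeon hn (M f) hcon
    have hT : ‖bas_T ρ (fun i => (v i : ℝ))‖ < ‖bas_T ρ (fun i => (w i : ℝ))‖ := by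
      rw [hvδ, map_sum]
      have hTw : ∀ j, ‖bas_T ρ (fun i => ((M f) i j : ℝ))‖ = ‖bas_T ρ (fun i => (w i : ℝ))‖ := by
        intro j
        have h1 := bas_T_norm ρ (ρ (f j) *ᵥ w)
        have h2 := bas_T_norm ρ w
        rw [bas_q_inv, ← h2] at h1
        exact (sq_eq_sq₀ (norm_nonneg _) (norm_nonneg _)).mp h1
      have hpos : 0 < ‖bas_T ρ (fun i => (w i : ℝ))‖ := by
        have h1 := bas_T_norm ρ w
        have h2 : (0 : ℝ) < (bas_q ρ w : ℝ) := by exact_mod_cast bas_q_pos ρ w hw0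
        rw [← h1] at h2
        by_contra hc
        have h3 : ‖bas_T ρ (fun i => (w i : ℝ))‖ = 0 :=
          le_antisymm (not_lt.mp hc) (norm_nonneg _)
        rw [h3] at h2
        simp at h2
      haveI : Nonempty (Fin n) := ⟨⟨0, hn⟩⟩
      have hn' : (0 : ℝ) < n := by exact_mod_cast hn
      calc ‖∑ j, bas_T ρ (δ j • fun i => ((M f) i j : ℝ))‖
          ≤ ∑ j, ‖bas_T ρ (δ j • fun i => ((M f) i j : ℝ))‖ := norm_sum_le _ _
        _ = ∑ j, |δ j| * ‖bas_T ρ (fun i => (w i : ℝ))‖ := by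
            refine Finset.sum_congr rfl fun j _ => ?_
            rw [map_smul, norm_smul, hTw, Real.norm_eq_abs]
        _ < ∑ _j : Fin n, (1 / (n : ℝ)) * ‖bas_T ρ (fun i => (w i : ℝ))‖ := by
            refine Finset.sum_lt_sum_of_nonempty Finset.univ_nonempty fun j _ => ?_
            exact mul_lt_mul_of_pos_right (hδ j) hpos
        _ = ‖bas_T ρ (fun i => (w i : ℝ))‖ := by
            rw [Finset.sum_const, Finset.card_univ, Fintype.card_fin, nsmul_eq_mul]
            field_simp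
    have h1 := bas_T_norm ρ v
    have h2 := bas_T_norm ρ w
    have h3 : (bas_q ρ v : ℝ) < (bas_q ρ w : ℝ) := by
      rw [← h1, ← h2]
      exact pow_lt_pow_left₀ hT (norm_nonneg _) two_ne_zero
    have h4 : bas_q ρ v < bas_q ρ w := by exact_mod_cast h3
    have h5 := hmin v hv0
    omega
  · intro y i j
    have h1 : ((M f).adjugate * ρ y * M f) i j = (M (Function.update f i (y * f j))).det := by
      have h2 : ((M f).adjugate * ρ y * M f) i j =
          ((M f).adjugate *ᵥ ((ρ (y * f j)) *ᵥ w)) i := by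
        rw [Matrix.mul_assoc, Matrix.mul_apply, Matrix.mulVec, dotProduct]
        refine Finset.sum_congr rfl fun k _ => ?_
        congr 1
        rw [map_mul, ← Matrix.mulVec_mulVec, Matrix.mul_apply, Matrix.mulVec, dotProduct]
        rfl
      rw [h2, ← Matrix.cramer_eq_adjugate_mulVec, Matrix.cramer_apply]
      congr 1
      ext a b
      by_cases hb : b = i
      · subst hb
        simp [M, Matrix.updateCol_apply]
      · simp [M, Matrix.updateCol_apply, hb, Function.update_of_ne hb]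
    rw [h1]
    exact hf _

end

end Pool.Agent.Lib_helper38.AAC

namespace Pool.Agent.AAC

alias exists_basis := Pool.Agent.Lib_helper38.AAC.exists_basis_pr

end Pool.Agent.AAC
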