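import Mathlib

set_option autoImplicit false

namespace Pool.Agent.AAC

open Finset

lemma centralBinom_sq_le (m : ℕ) : (Nat.centralBinom m) ^ 2 * (2 * m + 1) ≤ 16 ^ m := by
  induction m with
  | zero => simp
  | succ m ih =>
    have h := Nat.succ_mul_centralBinom_succ m
    -- (m+1) * c' = 2 * (2m+1) * c
    have h2 : ((m + 1) ^ 2) * ((Nat.centralBinom (m + 1)) ^ 2 * (2 * (m + 1) + 1)) ≤
        ((m + 1) ^ 2) * 16 ^ (m + 1) := by
      calc ((m + 1) ^ 2) * ((Nat.centralBinom (m + 1)) ^ 2 * (2 * (m + 1) + 1))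
          = ((m + 1) * Nat.centralBinom (m + 1)) ^ 2 * (2 * m + 3) := by ring
        _ = (2 * (2 * m + 1) * Nat.centralBinom m) ^ 2 * (2 * m + 3) := by rw [h]
        _ = (Nat.centralBinom m ^ 2 * (2 * m + 1)) * (4 * ((2 * m + 1) * (2 * m + 3))) := by ring
        _ ≤ 16 ^ m * (4 * (4 * (m + 1) ^ 2)) := by
            apply Nat.mul_le_mul ih
            nlinarith
        _ = ((m + 1) ^ 2) * 16 ^ (m + 1) := by ring
    exact Nat.le_of_mul_le_mul_left h2 (by positivity)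

lemma choose_sq_le (k b : ℕ) : (k.choose b) ^ 2 * k ≤ (2 ^ k) ^ 2 := by
  have h1 : k.choose b ≤ k.choose (k / 2) := Nat.choose_le_middle b k
  rcases Nat.even_or_odd' k with ⟨m, rfl | rfl⟩
  · have h2 := centralBinom_sq_le m
    rw [Nat.centralBinom_eq_two_mul_choose] at h2
    rw [show 2 * m / 2 = m by omega] at h1
    calc ((2 * m).choose b) ^ 2 * (2 * m) ≤ ((2 * m).choose m) ^ 2 * (2 * m + 1) := by
          apply Nat.mul_le_mul (Nat.pow_le_pow_left h1 2) (by omega)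
      _ ≤ 16 ^ m := h2
      _ = (2 ^ (2 * m)) ^ 2 := by
          rw [← pow_mul, show 2 * m * 2 = 4 * m by ring, pow_mul]
          norm_num
  · have h2 := centralBinom_sq_le (m + 1)
    rw [show (2 * m + 1) / 2 = m by omega] at h1
    have h3 : Nat.centralBinom (m + 1) = 2 * (2 * m + 1).choose m := by
      rw [Nat.centralBinom_eq_two_mul_choose, show 2 * (m + 1) = (2 * m + 1) + 1 by ring,
        Nat.choose_succ_succ, ← Nat.choose_symm_of_eq_add (show 2 * m + 1 = m + (m + 1) by ring)]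
      ring
    rw [h3] at h2
    have h4 : 4 * (((2 * m + 1).choose b) ^ 2 * (2 * m + 1)) ≤ 4 * (2 ^ (2 * m + 1)) ^ 2 := by
      calc 4 * (((2 * m + 1).choose b) ^ 2 * (2 * m + 1))
          ≤ 4 * (((2 * m + 1).choose m) ^ 2 * (2 * (m + 1) + 1)) := by
            apply Nat.mul_le_mul le_rfl
            apply Nat.mul_le_mul (Nat.pow_le_pow_left h1 2) (by omega)
        _ = (2 * (2 * m + 1).choose m) ^ 2 * (2 * (m + 1) + 1) := by ring
        _ ≤ 16 ^ (m + 1) := h2
        _ = 4 * (2 ^ (2 * m + 1)) ^ 2 := by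
            rw [← pow_mul, show (2 * m + 1) * 2 = 4 * m + 2 by ring, pow_succ (16 : ℕ) m,
              pow_add (2 : ℕ) (4 * m) 2, pow_mul (2 : ℕ) 4 m]
            norm_num
            ring
    exact Nat.le_of_mul_le_mul_left h4 (by norm_num)

/-- BIN -/
theorem choose_le_pr (κ b : ℕ) (hκ : 1 ≤ κ) : (κ.choose b : ℝ) ≤ 2 ^ κ / √κ := by
  have h : ((κ.choose b : ℝ)) ^ 2 * κ ≤ (2 ^ κ) ^ 2 := by exact_mod_cast choose_sq_le κ b
  have hκ' : (0 : ℝ) < κ := by exact_mod_cast hκ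
  rw [le_div_iff₀ (Real.sqrt_pos.2 hκ')]
  apply le_of_sq_le_sq _ (by positivity)
  rw [mul_pow, Real.sq_sqrt hκ'.le]
  exact h

end Pool.Agent.AAC

namespace Pool.Agent.AAC

alias choose_le := Pool.Agent.AAC.choose_le_pr

end Pool.Agent.AAC
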