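import Mathlib

set_option autoImplicit false

namespace Pool.Agent.AAC

open Finset

lemma sum_choose_exp (κ : ℕ) (t : ℝ) :
    ∑ b ∈ range (κ + 1), (κ.choose b : ℝ) * Real.exp (t * ((b : ℝ) - κ / 2)) =
      (2 * Real.cosh (t / 2)) ^ κ := by
  rw [Real.cosh_eq, show 2 * ((Real.exp (t / 2) + Real.exp (-(t / 2))) / 2) =
    Real.exp (t / 2) + Real.exp (-(t / 2)) by ring, add_pow]
  apply sum_congr rfl
  intro b hb
  rw [mem_range] at hb
  have hb' : b ≤ κ := by omega
  rw [← Real.exp_nat_mul, ← Real.exp_nat_mul, ← Real.exp_add, mul_comm]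
  congr 2
  rw [Nat.cast_sub hb']
  ring

lemma sum_choose_exp_le (κ : ℕ) (t : ℝ) :
    ∑ b ∈ range (κ + 1), (κ.choose b : ℝ) * Real.exp (t * ((b : ℝ) - κ / 2)) ≤
      2 ^ κ * Real.exp (κ * t ^ 2 / 8) := by
  rw [sum_choose_exp, mul_pow]
  apply mul_le_mul_of_nonneg_left _ (by positivity)
  calc Real.cosh (t / 2) ^ κ ≤ Real.exp ((t / 2) ^ 2 / 2) ^ κ :=
        pow_le_pow_left₀ (Real.cosh_pos _).le (Real.cosh_le_exp_half_sq _) κ
    _ = Real.exp (κ * t ^ 2 / 8) := by
        rw [← Real.exp_nat_mul]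
        congr 1
        ring

/-- HOEF -/
theorem sum_choose_tail_pr (κ : ℕ) (H : ℝ) (hH : 0 ≤ H) :
    ∑ b ∈ (range (κ + 1)).filter (fun b : ℕ => H < |(b : ℝ) - κ / 2|), (κ.choose b : ℝ) ≤
      2 ^ κ * (2 * Real.exp (-(2 * H ^ 2 / κ))) := by
  rcases Nat.eq_zero_or_pos κ with rfl | hκ
  · rw [filter_eq_empty_iff.2, sum_empty]
    · positivity
    · intro b hb
      rw [mem_range] at hb
      have : b = 0 := by omega
      subst this
      simpa using hH
  have hκ' : (0 : ℝ) < κ := by exact_mod_cast hκ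
  set t : ℝ := 4 * H / κ with ht
  have ht0 : 0 ≤ t := by positivity
  calc ∑ b ∈ (range (κ + 1)).filter (fun b : ℕ => H < |(b : ℝ) - κ / 2|), (κ.choose b : ℝ)
      ≤ ∑ b ∈ (range (κ + 1)).filter (fun b : ℕ => H < |(b : ℝ) - κ / 2|),
        (κ.choose b : ℝ) * (Real.exp (-(t * H)) * (Real.exp (t * ((b : ℝ) - κ / 2)) +
          Real.exp ((-t) * ((b : ℝ) - κ / 2)))) := by
        apply sum_le_sum
        intro b hb
        rw [mem_filter] at hb
        nth_rewrite 1 [← mul_one (κ.choose b : ℝ)]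
        apply mul_le_mul_of_nonneg_left _ (by positivity)
        rw [mul_add, ← Real.exp_add, ← Real.exp_add]
        rcases le_abs.1 hb.2.le with h | h
        · have h1 : 1 ≤ Real.exp (-(t * H) + t * ((b : ℝ) - κ / 2)) := by
            apply Real.one_le_exp
            nlinarith
          have h2 := Real.exp_pos (-(t * H) + -t * ((b : ℝ) - κ / 2))
          linarith
        · have h1 : 1 ≤ Real.exp (-(t * H) + -t * ((b : ℝ) - κ / 2)) := by
            apply Real.one_le_exp
            nlinarith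
          have h2 := Real.exp_pos (-(t * H) + t * ((b : ℝ) - κ / 2))
          linarith
    _ ≤ ∑ b ∈ range (κ + 1),
        (κ.choose b : ℝ) * (Real.exp (-(t * H)) * (Real.exp (t * ((b : ℝ) - κ / 2)) +
          Real.exp ((-t) * ((b : ℝ) - κ / 2)))) := by
        apply sum_le_sum_of_subset_of_nonneg (filter_subset _ _)
        intro b _ _
        positivity
    _ = Real.exp (-(t * H)) *
        (∑ b ∈ range (κ + 1), (κ.choose b : ℝ) * Real.exp (t * ((b : ℝ) - κ / 2)) +
        ∑ b ∈ range (κ + 1), (κ.choose b : ℝ) * Real.exp ((-t) * ((b : ℝ) - κ / 2))) := by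
        rw [← sum_add_distrib, mul_sum]
        apply sum_congr rfl
        intro b _
        ring
    _ ≤ Real.exp (-(t * H)) * (2 ^ κ * Real.exp (κ * t ^ 2 / 8) +
        2 ^ κ * Real.exp (κ * (-t) ^ 2 / 8)) := by
        apply mul_le_mul_of_nonneg_left _ (Real.exp_pos _).le
        exact add_le_add (sum_choose_exp_le κ t) (sum_choose_exp_le κ (-t))
    _ = 2 ^ κ * (2 * (Real.exp (-(t * H)) * Real.exp (κ * t ^ 2 / 8))) := by
        rw [neg_sq]
        ring
    _ = 2 ^ κ * (2 * Real.exp (-(2 * H ^ 2 / κ))) := by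
        rw [← Real.exp_add]
        congr 3
        rw [ht]
        field_simp
        ring

end Pool.Agent.AAC

namespace Pool.Agent.AAC

alias sum_choose_tail := Pool.Agent.AAC.sum_choose_tail_pr

end Pool.Agent.AAC
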