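import Mathlib
import Pool.Agent.Lib_helper96.Chowla.Divisors

set_option autoImplicit false

/-!
# AAC, block SG2: counting singular `2 × 2` matrices
-/

namespace Pool.Agent.AAC.SG2

open Finset

lemma card_Icc_le (H : ℕ) (hH : 1 ≤ H) : (Finset.Icc (-(H : ℤ)) H).card ≤ 3 * H := by
  rw [Int.card_Icc]
  omega

/-- the pairs in the box with `(d u - c) (d v - c') = 0` -/
lemma card_zero_le (H : ℕ) (hH : 1 ≤ H) (d c c' : ℤ) (hd : d ≠ 0) :
    (((Finset.Icc (-(H : ℤ)) H) ×ˢ (Finset.Icc (-(H : ℤ)) H)).filter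
      (fun p => (d * p.1 - c) * (d * p.2 - c') = 0)).card ≤ 6 * H := by
  classical
  set I := Finset.Icc (-(H : ℤ)) H with hI
  have h1 : ((I ×ˢ I).filter (fun p => d * p.1 - c = 0)).card ≤ I.card := by
    refine Finset.card_le_card_of_injOn (fun p => p.2) ?_ ?_
    · intro p hp
      have hp' := (Finset.mem_filter.1 hp).1
      exact (Finset.mem_product.1 hp').2
    · intro p hp q hq hpq
      have hp' := (Finset.mem_filter.1 hp).2
      have hq' := (Finset.mem_filter.1 hq).2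
      have h : d * p.1 = d * q.1 := by linarith
      exact Prod.ext (mul_left_cancel₀ hd h) hpq
  have h2 : ((I ×ˢ I).filter (fun p => d * p.2 - c' = 0)).card ≤ I.card := by
    refine Finset.card_le_card_of_injOn (fun p => p.1) ?_ ?_
    · intro p hp
      have hp' := (Finset.mem_filter.1 hp).1
      exact (Finset.mem_product.1 hp').1
    · intro p hp q hq hpq
      have hp' := (Finset.mem_filter.1 hp).2
      have hq' := (Finset.mem_filter.1 hq).2
      have h : d * p.2 = d * q.2 := by linarith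
      exact Prod.ext hpq (mul_left_cancel₀ hd h)
  have h3 : (I ×ˢ I).filter (fun p => (d * p.1 - c) * (d * p.2 - c') = 0) ⊆
      (I ×ˢ I).filter (fun p => d * p.1 - c = 0) ∪ (I ×ˢ I).filter (fun p => d * p.2 - c' = 0) := by
    intro p hp
    rw [Finset.mem_filter] at hp
    rw [Finset.mem_union, Finset.mem_filter, Finset.mem_filter]
    rcases mul_eq_zero.1 hp.2 with h | h
    · exact Or.inl ⟨hp.1, h⟩
    · exact Or.inr ⟨hp.1, h⟩
  have h4 := card_Icc_le H hH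
  calc _ ≤ _ := Finset.card_le_card h3
    _ ≤ _ := Finset.card_union_le _ _
    _ ≤ 3 * H + 3 * H := Nat.add_le_add (h1.trans h4) (h2.trans h4)
    _ = 6 * H := by ring

lemma ext4 {Y Z : Fin 2 × Fin 2 → ℤ} (h00 : Y (0, 0) = Z (0, 0)) (h01 : Y (0, 1) = Z (0, 1))
    (h10 : Y (1, 0) = Z (1, 0)) (h11 : Y (1, 1) = Z (1, 1)) : Y = Z := by
  funext ⟨i, j⟩
  fin_cases i <;> fin_cases j <;> assumption

theorem count_two_pr (a : ℕ) (δ : ℝ) (hδ : 0 < δ) : ∃ K : ℝ, ∀ H : ℕ, 1 ≤ H → ∀ (d : ℤ)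
    (c : Fin 2 → Fin 2 → ℤ), d ≠ 0 → |d| ≤ (H : ℤ) ^ a → (∀ i j, |c i j| ≤ (H : ℤ) ^ a) →
    ((((Fintype.piFinset fun _ : Fin 2 × Fin 2 => Finset.Icc (-(H : ℤ)) H).filter fun Y =>
      (d * Y (0, 0) - c 0 0) * (d * Y (1, 1) - c 1 1) =
        (d * Y (0, 1) - c 0 1) * (d * Y (1, 0) - c 1 0)).card : ℕ) : ℝ) ≤
      K * (H : ℝ) ^ (2 + δ) := by
  classical
  set η : ℝ := δ / (2 * a + 2) with hη
  have ha : (0 : ℝ) < 2 * a + 2 := by positivity
  have hηp : 0 < η := by positivity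
  obtain ⟨C, hC1, hC⟩ := Pool.Agent.H96Chowla.divisors_le_rpow η hηp
  refine ⟨18 * C * (4 : ℝ) ^ η + 36, ?_⟩
  intro H hH d c hd hdH hcH
  set I := Finset.Icc (-(H : ℤ)) H with hI
  have hIc := card_Icc_le H hH
  have hH1 : (1 : ℝ) ≤ H := by exact_mod_cast hH
  have hH0 : (0 : ℝ) < H := by linarith
  set S := (Fintype.piFinset fun _ : Fin 2 × Fin 2 => I).filter fun Y =>
      (d * Y (0, 0) - c 0 0) * (d * Y (1, 1) - c 1 1) =
        (d * Y (0, 1) - c 0 1) * (d * Y (1, 0) - c 1 0) with hS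
  -- the product
  set N : ℤ × ℤ → ℤ := fun p => (d * p.1 - c 0 1) * (d * p.2 - c 1 0) with hN
  have hsplit : S.card = (S.filter fun Y => N (Y (0, 1), Y (1, 0)) = 0).card +
      (S.filter fun Y => ¬ N (Y (0, 1), Y (1, 0)) = 0).card :=
    (Finset.card_filter_add_card_filter_not (s := S) (fun Y => N (Y (0, 1), Y (1, 0)) = 0)).symm
  -- first part
  have hZ : (S.filter fun Y => N (Y (0, 1), Y (1, 0)) = 0).card ≤ (6 * H) * (6 * H) := by
    set Z1 := ((I ×ˢ I).filter (fun p => (d * p.1 - c 0 1) * (d * p.2 - c 1 0) = 0)) with hZ1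
    set Z2 := ((I ×ˢ I).filter (fun p => (d * p.1 - c 0 0) * (d * p.2 - c 1 1) = 0)) with hZ2
    have h1 : (S.filter fun Y => N (Y (0, 1), Y (1, 0)) = 0).card ≤ (Z1 ×ˢ Z2).card := by
      refine Finset.card_le_card_of_injOn
        (fun Y => ((Y (0, 1), Y (1, 0)), (Y (0, 0), Y (1, 1)))) ?_ ?_
      · intro Y hY
        have hY1 := Finset.mem_filter.1 hY
        have hY2 := Finset.mem_filter.1 hY1.1
        have hY3 := Fintype.mem_piFinset.1 hY2.1
        have hz : (d * Y (0, 1) - c 0 1) * (d * Y (1, 0) - c 1 0) = 0 := hY1.2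
        have hz2 : (d * Y (0, 0) - c 0 0) * (d * Y (1, 1) - c 1 1) = 0 := by
          rw [hY2.2, hz]
        refine Finset.mem_coe.2 (Finset.mem_product.2 ⟨?_, ?_⟩)
        · exact Finset.mem_filter.2 ⟨Finset.mem_product.2 ⟨hY3 _, hY3 _⟩, hz⟩
        · exact Finset.mem_filter.2 ⟨Finset.mem_product.2 ⟨hY3 _, hY3 _⟩, hz2⟩
      · intro Y _ Y' _ h
        simp only [Prod.mk.injEq] at h
        exact ext4 h.2.1 h.1.1 h.1.2 h.2.2
    rw [Finset.card_product] at h1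
    exact h1.trans (Nat.mul_le_mul (card_zero_le H hH d _ _ hd) (card_zero_le H hH d _ _ hd))
  -- second part
  have hNZ : (S.filter fun Y => ¬ N (Y (0, 1), Y (1, 0)) = 0).card ≤
      ((I ×ˢ I).sigma fun p => (N p).natAbs.divisors ×ˢ (Finset.univ : Finset Bool)).card := by
    refine Finset.card_le_card_of_injOn
      (fun Y => (⟨(Y (0, 1), Y (1, 0)), ((d * Y (0, 0) - c 0 0).natAbs,
        decide (0 ≤ d * Y (0, 0) - c 0 0))⟩ : Σ _ : ℤ × ℤ, ℕ × Bool)) ?_ ?_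
    · intro Y hY
      have hY1 := Finset.mem_filter.1 hY
      have hY2 := Finset.mem_filter.1 hY1.1
      have hY3 := Fintype.mem_piFinset.1 hY2.1
      refine Finset.mem_coe.2 (Finset.mem_sigma.2 ⟨Finset.mem_product.2 ⟨hY3 _, hY3 _⟩, ?_⟩)
      refine Finset.mem_product.2 ⟨?_, Finset.mem_univ _⟩
      refine Nat.mem_divisors.2 ⟨?_, Int.natAbs_ne_zero.2 hY1.2⟩
      rw [Int.natAbs_dvd_natAbs]
      exact ⟨_, hY2.2.symm⟩
    · intro Y hY Y' hY' h
      have hY1 := Finset.mem_filter.1 hY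
      have hY2 := Finset.mem_filter.1 hY1.1
      have hY1' := Finset.mem_filter.1 hY'
      have hY2' := Finset.mem_filter.1 hY1'.1
      simp only [Sigma.mk.injEq, heq_eq_eq, Prod.mk.injEq] at h
      obtain ⟨⟨h01, h10⟩, habs, hsg⟩ := h
      have hx : d * Y (0, 0) - c 0 0 = d * Y' (0, 0) - c 0 0 := by
        rw [decide_eq_decide] at hsg
        omega
      have h00 : Y (0, 0) = Y' (0, 0) := by
        have : d * Y (0, 0) = d * Y' (0, 0) := by linarith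
        exact mul_left_cancel₀ hd this
      have hne : d * Y (0, 0) - c 0 0 ≠ 0 := by
        intro h0
        apply hY1.2
        show (d * Y (0, 1) - c 0 1) * (d * Y (1, 0) - c 1 0) = 0
        rw [← hY2.2, h0, zero_mul]
      have h11 : Y (1, 1) = Y' (1, 1) := by
        have e1 := hY2.2
        have e2 := hY2'.2
        rw [← h01, ← h10, ← e1, ← h00] at e2
        have e3 := mul_left_cancel₀ hne e2
        have : d * Y (1, 1) = d * Y' (1, 1) := by linarith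
        exact mul_left_cancel₀ hd this
      exact ext4 h00 h01 h10 h11
  rw [Finset.card_sigma] at hNZ
  -- the size of `N`
  have hNle : ∀ p ∈ I ×ˢ I, ((((N p).natAbs.divisors ×ˢ (Finset.univ : Finset Bool)).card : ℕ) : ℝ)
      ≤ 2 * C * (4 : ℝ) ^ η * (H : ℝ) ^ δ := by
    intro p hp
    rw [Finset.card_product, Finset.card_univ, Fintype.card_bool]
    by_cases hz : N p = 0
    · rw [hz]
      simp only [Int.natAbs_zero, Nat.divisors_zero, Finset.card_empty, zero_mul, Nat.cast_zero]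
      positivity
    have hlin : ∀ (u c' : ℤ), u ∈ I → |c'| ≤ (H : ℤ) ^ a → |d * u - c'| ≤ 2 * (H : ℤ) ^ (a + 1) := by
      intro u c' hu hc'
      have hu' : |u| ≤ (H : ℤ) := by
        rw [hI, Finset.mem_Icc] at hu
        exact abs_le.2 hu
      have hH1z : (1 : ℤ) ≤ H := by exact_mod_cast hH
      have hpow : (0 : ℤ) ≤ (H : ℤ) ^ a := by positivity
      calc |d * u - c'| ≤ |d * u| + |c'| := abs_sub _ _
        _ ≤ (H : ℤ) ^ a * H + (H : ℤ) ^ a * H := by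
          rw [abs_mul]
          have h1 : |d| * |u| ≤ (H : ℤ) ^ a * H := by gcongr
          have h2 : (H : ℤ) ^ a ≤ (H : ℤ) ^ a * H := le_mul_of_one_le_right hpow hH1z
          linarith
        _ = 2 * (H : ℤ) ^ (a + 1) := by ring
    have hp' := Finset.mem_product.1 hp
    have hNabs : |N p| ≤ 4 * (H : ℤ) ^ (2 * a + 2) := by
      rw [hN]
      show |(d * p.1 - c 0 1) * (d * p.2 - c 1 0)| ≤ _
      rw [abs_mul]
      have h1 := hlin p.1 (c 0 1) hp'.1 (hcH _ _)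
      have h2 := hlin p.2 (c 1 0) hp'.2 (hcH _ _)
      calc |d * p.1 - c 0 1| * |d * p.2 - c 1 0| ≤
          (2 * (H : ℤ) ^ (a + 1)) * (2 * (H : ℤ) ^ (a + 1)) := by
            gcongr
        _ = 4 * (H : ℤ) ^ (2 * a + 2) := by ring
    have hNnat : ((N p).natAbs : ℝ) ≤ 4 * (H : ℝ) ^ (2 * a + 2) := by
      have h1 : ((N p).natAbs : ℤ) ≤ 4 * (H : ℤ) ^ (2 * a + 2) := by
        rw [Int.natCast_natAbs]
        exact hNabs
      exact_mod_cast h1
    have hdiv := hC (N p).natAbs (Int.natAbs_ne_zero.2 hz)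
    have hpw : ((N p).natAbs : ℝ) ^ η ≤ (4 : ℝ) ^ η * (H : ℝ) ^ δ := by
      calc ((N p).natAbs : ℝ) ^ η ≤ (4 * (H : ℝ) ^ (2 * a + 2)) ^ η := by
            apply Real.rpow_le_rpow (by positivity) hNnat hηp.le
        _ = (4 : ℝ) ^ η * ((H : ℝ) ^ (2 * a + 2)) ^ η := by
            rw [Real.mul_rpow (by norm_num) (by positivity)]
        _ = (4 : ℝ) ^ η * (H : ℝ) ^ δ := by
            congr 1
            rw [← Real.rpow_natCast, ← Real.rpow_mul hH0.le]
            congr 1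
            rw [hη]
            push_cast
            field_simp
    push_cast
    calc ((N p).natAbs.divisors.card : ℝ) * 2 ≤ (C * ((N p).natAbs : ℝ) ^ η) * 2 := by gcongr
      _ ≤ (C * ((4 : ℝ) ^ η * (H : ℝ) ^ δ)) * 2 := by gcongr
      _ = 2 * C * (4 : ℝ) ^ η * (H : ℝ) ^ δ := by ring
  have hIIc : (((I ×ˢ I).card : ℕ) : ℝ) ≤ 9 * (H : ℝ) ^ 2 := by
    rw [Finset.card_product]
    have h1 : I.card * I.card ≤ (3 * H) * (3 * H) := Nat.mul_le_mul hIc hIc
    have h2 : ((I.card * I.card : ℕ) : ℝ) ≤ (((3 * H) * (3 * H) : ℕ) : ℝ) := by exact_mod_cast h1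
    calc ((I.card * I.card : ℕ) : ℝ) ≤ _ := h2
      _ = 9 * (H : ℝ) ^ 2 := by push_cast; ring
  have hNZ' : (((S.filter fun Y => ¬ N (Y (0, 1), Y (1, 0)) = 0).card : ℕ) : ℝ) ≤
      18 * C * (4 : ℝ) ^ η * ((H : ℝ) ^ 2 * (H : ℝ) ^ δ) := by
    calc (((S.filter fun Y => ¬ N (Y (0, 1), Y (1, 0)) = 0).card : ℕ) : ℝ) ≤
        ((∑ p ∈ I ×ˢ I, ((N p).natAbs.divisors ×ˢ (Finset.univ : Finset Bool)).card : ℕ) : ℝ) := by
          exact_mod_cast hNZ
      _ = ∑ p ∈ I ×ˢ I,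
          ((((N p).natAbs.divisors ×ˢ (Finset.univ : Finset Bool)).card : ℕ) : ℝ) := by
          push_cast
          rfl
      _ ≤ ∑ _p ∈ I ×ˢ I, 2 * C * (4 : ℝ) ^ η * (H : ℝ) ^ δ := Finset.sum_le_sum hNle
      _ = (((I ×ˢ I).card : ℕ) : ℝ) * (2 * C * (4 : ℝ) ^ η * (H : ℝ) ^ δ) := by
          rw [Finset.sum_const, nsmul_eq_mul]
      _ ≤ 9 * (H : ℝ) ^ 2 * (2 * C * (4 : ℝ) ^ η * (H : ℝ) ^ δ) := by gcongr
      _ = 18 * C * (4 : ℝ) ^ η * ((H : ℝ) ^ 2 * (H : ℝ) ^ δ) := by ring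
  have hZ' : (((S.filter fun Y => N (Y (0, 1), Y (1, 0)) = 0).card : ℕ) : ℝ) ≤
      36 * ((H : ℝ) ^ 2 * (H : ℝ) ^ δ) := by
    have h1 : (((S.filter fun Y => N (Y (0, 1), Y (1, 0)) = 0).card : ℕ) : ℝ) ≤
        36 * (H : ℝ) ^ 2 := by
      calc (((S.filter fun Y => N (Y (0, 1), Y (1, 0)) = 0).card : ℕ) : ℝ) ≤
          (((6 * H) * (6 * H) : ℕ) : ℝ) := by exact_mod_cast hZ
        _ = 36 * (H : ℝ) ^ 2 := by push_cast; ring
    have h2 : (1 : ℝ) ≤ (H : ℝ) ^ δ := Real.one_le_rpow hH1 hδ.le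
    have h3 : (H : ℝ) ^ 2 ≤ (H : ℝ) ^ 2 * (H : ℝ) ^ δ := le_mul_of_one_le_right (by positivity) h2
    linarith
  have hpow : (H : ℝ) ^ (2 + δ) = (H : ℝ) ^ 2 * (H : ℝ) ^ δ := by
    rw [Real.rpow_add hH0]
    norm_num
  rw [hpow]
  have hcast : ((S.card : ℕ) : ℝ) = ((S.filter fun Y => N (Y (0, 1), Y (1, 0)) = 0).card : ℝ) +
      ((S.filter fun Y => ¬ N (Y (0, 1), Y (1, 0)) = 0).card : ℝ) := by
    rw [hsplit]
    push_cast
    rfl
  rw [hcast]
  calc _ ≤ 36 * ((H : ℝ) ^ 2 * (H : ℝ) ^ δ) + 18 * C * (4 : ℝ) ^ η * ((H : ℝ) ^ 2 * (H : ℝ) ^ δ) :=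
        add_le_add hZ' hNZ'
    _ = (18 * C * (4 : ℝ) ^ η + 36) * ((H : ℝ) ^ 2 * (H : ℝ) ^ δ) := by ring

end Pool.Agent.AAC.SG2

namespace Pool.Agent.AAC

alias count_two := Pool.Agent.AAC.SG2.count_two_pr

end Pool.Agent.AAC
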