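import Pool.Agent.Lib_helper7.AAC.Basic
import Pool.Agent.Lib_helper7.AACF.SG2

set_option autoImplicit false

namespace Pool.Agent.AAC

open Finset Matrix

theorem sing_fiber {P Q : Type} [Fintype P] [DecidableEq P] [Fintype Q] [DecidableEq Q] (H : ℕ)
    (φ : Q → P) (hφ : Function.Injective φ) (S : Finset (P → ℤ))
    (hS : S ⊆ Fintype.piFinset fun _ : P => Finset.Icc (-(H : ℤ)) H) (M : ℝ) (hM : 0 ≤ M)
    (h : ∀ Y0 ∈ S, ∃ T : Finset (Q → ℤ), (T.card : ℝ) ≤ M ∧
      ∀ Y ∈ S, (∀ p, p ∉ Set.range φ → Y p = Y0 p) → (fun q => Y (φ q)) ∈ T) :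
    (S.card : ℝ) ≤ M * (2 * H + 1) ^ (Fintype.card P - Fintype.card Q) := by
  classical
  set f : (P → ℤ) → ({p : P // p ∉ Set.range φ} → ℤ) := fun Y p => Y p.1 with hf
  have h1 : S.card ≤ ⌊M⌋₊ * (S.image f).card := by
    apply Finset.card_le_mul_card_image
    intro b hb
    obtain ⟨Y0, hY0, rfl⟩ := Finset.mem_image.1 hb
    obtain ⟨T, hT, hTm⟩ := h Y0 hY0
    apply Nat.le_floor
    refine le_trans ?_ hT
    norm_cast
    apply Finset.card_le_card_of_injOn (fun Y => fun q => Y (φ q))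
    · intro Y hY
      rw [Finset.mem_coe, Finset.mem_filter] at hY
      exact hTm Y hY.1 (fun p hp => congrFun hY.2 ⟨p, hp⟩)
    · intro Y hY Y' hY' hYY
      rw [Finset.mem_coe, Finset.mem_filter] at hY hY'
      funext p
      by_cases hp : p ∈ Set.range φ
      · obtain ⟨q, rfl⟩ := hp
        exact congrFun hYY q
      · exact (congrFun hY.2 ⟨p, hp⟩).trans (congrFun hY'.2 ⟨p, hp⟩).symm
  have h2 : (S.image f).card ≤ (2 * H + 1) ^ (Fintype.card P - Fintype.card Q) := by
    have hsub : S.image f ⊆ Fintype.piFinset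
        fun _ : {p : P // p ∉ Set.range φ} => Finset.Icc (-(H : ℤ)) H := by
      intro Z hZ
      obtain ⟨Y, hY, rfl⟩ := Finset.mem_image.1 hZ
      rw [Fintype.mem_piFinset]
      intro p
      exact Fintype.mem_piFinset.1 (hS hY) p.1
    refine (Finset.card_le_card hsub).trans (le_of_eq ?_)
    rw [Fintype.card_piFinset, Finset.prod_const, Finset.card_univ, Int.card_Icc]
    have hc : Fintype.card {p : P // p ∉ Set.range φ} = Fintype.card P - Fintype.card Q := by
      rw [Fintype.card_subtype_compl, ← Set.card_range_of_injective hφ]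
    rw [hc]
    congr 1
    omega
  calc (S.card : ℝ) ≤ (⌊M⌋₊ : ℝ) * ((S.image f).card : ℝ) := by exact_mod_cast h1
    _ ≤ M * (2 * H + 1) ^ (Fintype.card P - Fintype.card Q) := by
        apply mul_le_mul (Nat.floor_le hM) _ (by positivity) hM
        exact_mod_cast h2

/-- Schur complement -/
theorem sing_schur {m : ℕ} (E : Matrix (Fin m) (Fin m) ℤ) (B : Matrix (Fin m) (Fin 2) ℤ)
    (C : Matrix (Fin 2) (Fin m) ℤ) (D : Matrix (Fin 2) (Fin 2) ℤ)
    (h : (fromBlocks E B C D).det = 0) (hE : E.det ≠ 0) :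
    (E.det • D - C * E.adjugate * B).det = 0 := by
  have h1 : fromBlocks E B C D * fromBlocks E.adjugate (-(E.adjugate * B)) 0 (E.det • 1) =
      fromBlocks (E.det • 1) 0 (C * E.adjugate) (E.det • D - C * E.adjugate * B) := by
    rw [fromBlocks_multiply]
    congr 1
    · rw [mul_adjugate, Matrix.mul_zero, add_zero]
    · rw [Matrix.mul_neg, ← Matrix.mul_assoc, mul_adjugate, Matrix.smul_mul, Matrix.one_mul,
        Matrix.mul_smul, Matrix.mul_one, neg_add_cancel]
    · rw [Matrix.mul_zero, add_zero]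
    · rw [Matrix.mul_neg, ← Matrix.mul_assoc, Matrix.mul_smul, Matrix.mul_one, neg_add_eq_sub]
  have h2 := congrArg Matrix.det h1
  rw [det_mul, h, zero_mul, det_fromBlocks_zero₁₂, det_smul, det_one, mul_one] at h2
  have h3 := h2.symm
  rcases mul_eq_zero.1 h3 with h4 | h4
  · exact absurd h4 (pow_ne_zero _ hE)
  · exact h4

/-- sizes of the coefficients -/
theorem sing_size (m : ℕ) : ∃ a : ℕ, ∀ H : ℕ, 2 ≤ H → ∀ (E : Matrix (Fin m) (Fin m) ℤ)
    (B : Matrix (Fin m) (Fin 2) ℤ) (C : Matrix (Fin 2) (Fin m) ℤ),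
    (∀ i j, |E i j| ≤ 2 * (H : ℤ) ^ 4) → (∀ i j, |B i j| ≤ 2 * (H : ℤ) ^ 4) →
    (∀ i j, |C i j| ≤ 2 * (H : ℤ) ^ 4) → |E.det| ≤ (H : ℤ) ^ a ∧
    ∀ (b : ℤ), |b| ≤ (H : ℤ) ^ 4 → ∀ i j, |(C * E.adjugate * B) i j - E.det * b| ≤ (H : ℤ) ^ a := by
  set N : ℕ := m.factorial with hN
  refine ⟨m * m + N + 5 * m + 15, fun H hH E B C hE hB hC => ?_⟩
  have hH1 : (1 : ℤ) ≤ H := by exact_mod_cast (by omega : 1 ≤ H)
  have hH0 : (0 : ℤ) ≤ H := by omega
  have hH2 : (2 : ℤ) ≤ H := by exact_mod_cast hH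
  -- constants are powers
  have hconst : ∀ k : ℕ, (k : ℤ) ≤ (H : ℤ) ^ k := by
    intro k
    have h1 : (k : ℤ) < 2 ^ k := by exact_mod_cast Nat.lt_two_pow_self
    exact h1.le.trans (pow_le_pow_left₀ (by norm_num) hH2 k)
  have hx : (2 : ℤ) * (H : ℤ) ^ 4 ≤ (H : ℤ) ^ 5 := by
    calc (2 : ℤ) * (H : ℤ) ^ 4 ≤ H * (H : ℤ) ^ 4 := by
          apply mul_le_mul_of_nonneg_right hH2; positivity
      _ = (H : ℤ) ^ 5 := by ring
  have hx1 : (1 : ℤ) ≤ (H : ℤ) ^ 5 := one_le_pow₀ hH1
  have hdet : ∀ M : Matrix (Fin m) (Fin m) ℤ, (∀ i j, |M i j| ≤ (H : ℤ) ^ 5) →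
      |M.det| ≤ (H : ℤ) ^ (N + 5 * m) := by
    intro M hM
    have h1 := Matrix.det_le (A := M) (abv := AbsoluteValue.abs) (x := (H : ℤ) ^ 5) (fun i j => hM i j)
    simp only [AbsoluteValue.abs_apply, Fintype.card_fin, nsmul_eq_mul] at h1
    calc |M.det| ≤ (N : ℤ) * ((H : ℤ) ^ 5) ^ m := h1
      _ ≤ (H : ℤ) ^ N * ((H : ℤ) ^ 5) ^ m := by
          apply mul_le_mul_of_nonneg_right (hconst N); positivity
      _ = (H : ℤ) ^ (N + 5 * m) := by rw [← pow_mul, ← pow_add]
  have hE5 : ∀ i j, |E i j| ≤ (H : ℤ) ^ 5 := fun i j => (hE i j).trans hx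
  have hadj : ∀ i j, |E.adjugate i j| ≤ (H : ℤ) ^ (N + 5 * m) := by
    intro i j
    rw [adjugate_apply]
    apply hdet
    intro k l
    rw [updateRow_apply]
    split_ifs
    · rw [Pi.single_apply]
      split_ifs
      · simpa using hx1
      · simp
    · exact hE5 k l
  have hd : |E.det| ≤ (H : ℤ) ^ (N + 5 * m) := hdet E hE5
  constructor
  · exact hd.trans (pow_le_pow_right₀ hH1 (by omega))
  · intro b hb i j
    have h1 : |(C * E.adjugate * B) i j| ≤ (H : ℤ) ^ (m * m + N + 5 * m + 10) := by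
      rw [Matrix.mul_apply]
      have h3 : ∀ l, |(C * E.adjugate) i l| ≤ m * ((H : ℤ) ^ 5 * (H : ℤ) ^ (N + 5 * m)) := by
        intro l
        rw [Matrix.mul_apply]
        calc |∑ k, C i k * E.adjugate k l| ≤ ∑ k, |C i k * E.adjugate k l| :=
              Finset.abs_sum_le_sum_abs _ _
          _ ≤ ∑ _k : Fin m, (H : ℤ) ^ 5 * (H : ℤ) ^ (N + 5 * m) := by
              apply Finset.sum_le_sum
              intro k _
              rw [abs_mul]
              exact mul_le_mul ((hC i k).trans hx) (hadj k l) (abs_nonneg _) (by positivity)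
          _ = _ := by simp
      calc |∑ l, (C * E.adjugate) i l * B l j| ≤ ∑ l, |(C * E.adjugate) i l * B l j| :=
            Finset.abs_sum_le_sum_abs _ _
        _ ≤ ∑ _l : Fin m, (m * ((H : ℤ) ^ 5 * (H : ℤ) ^ (N + 5 * m))) * (H : ℤ) ^ 5 := by
            apply Finset.sum_le_sum
            intro l _
            rw [abs_mul]
            exact mul_le_mul (h3 l) ((hB l j).trans hx) (abs_nonneg _) (by positivity)
        _ = ((m * m : ℕ) : ℤ) * (H : ℤ) ^ (N + 5 * m + 10) := by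
            rw [Finset.sum_const, Finset.card_univ, Fintype.card_fin, nsmul_eq_mul]
            push_cast
            ring
        _ ≤ (H : ℤ) ^ (m * m) * (H : ℤ) ^ (N + 5 * m + 10) := by
            apply mul_le_mul_of_nonneg_right (hconst _); positivity
        _ = (H : ℤ) ^ (m * m + N + 5 * m + 10) := by
            rw [← pow_add]
            congr 1
            ring
    have h2 : |E.det * b| ≤ (H : ℤ) ^ (m * m + N + 5 * m + 10) := by
      rw [abs_mul]
      calc |E.det| * |b| ≤ (H : ℤ) ^ (N + 5 * m) * (H : ℤ) ^ 4 :=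
            mul_le_mul hd hb (abs_nonneg _) (by positivity)
        _ = (H : ℤ) ^ (N + 5 * m + 4) := by rw [← pow_add]
        _ ≤ _ := pow_le_pow_right₀ hH1 (by omega)
    calc |(C * E.adjugate * B) i j - E.det * b| ≤ |(C * E.adjugate * B) i j| + |E.det * b| := abs_sub _ _
      _ ≤ 2 * (H : ℤ) ^ (m * m + N + 5 * m + 10) := by linarith
      _ ≤ H * (H : ℤ) ^ (m * m + N + 5 * m + 10) := by
          apply mul_le_mul_of_nonneg_right hH2; positivity
      _ = (H : ℤ) ^ (m * m + N + 5 * m + 10 + 1) := by ring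
      _ ≤ _ := pow_le_pow_right₀ hH1 (by omega)

/-- block restriction: the equation of `count_two` -/
theorem sing_block {m : ℕ} (δ : ℝ) (hδ : 0 < δ) : ∃ K : ℝ, 0 ≤ K ∧ ∀ H : ℕ, 2 ≤ H →
    ∀ B : Matrix (Fin (m + 2)) (Fin (m + 2)) ℤ, (∀ i j, |B i j| ≤ (H : ℤ) ^ 4) →
    ∀ r c : Fin m ⊕ Fin 2 ≃ Fin (m + 2),
    ((((Fintype.piFinset fun _ : Fin (m + 2) × Fin (m + 2) => Finset.Icc (-(H : ℤ)) H).filter
      fun Y => (B + Matrix.of fun i j => Y (i, j)).det = 0 ∧
        ((B + Matrix.of fun i j => Y (i, j)).submatrix (fun i => r (Sum.inl i))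
          (fun j => c (Sum.inl j))).det ≠ 0).card : ℕ) : ℝ) ≤
      K * (H : ℝ) ^ (((m + 2 : ℕ) : ℝ) ^ 2 - 2 + δ) := by
  classical
  obtain ⟨a, ha⟩ := sing_size m
  obtain ⟨K, hK⟩ := count_two a δ hδ
  refine ⟨3 ^ ((m + 2) * (m + 2)) * |K|, by positivity, fun H hH B hB r c => ?_⟩
  have hH1 : 1 ≤ H := by omega
  have hHR : (1 : ℝ) ≤ H := by exact_mod_cast hH1
  have hHR0 : (0 : ℝ) < H := by linarith
  have hHZ : (1 : ℤ) ≤ H := by exact_mod_cast hH1
  set S := (Fintype.piFinset fun _ : Fin (m + 2) × Fin (m + 2) => Finset.Icc (-(H : ℤ)) H).filter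
      fun Y => (B + Matrix.of fun i j => Y (i, j)).det = 0 ∧
        ((B + Matrix.of fun i j => Y (i, j)).submatrix (fun i => r (Sum.inl i))
          (fun j => c (Sum.inl j))).det ≠ 0 with hSdef
  set φ : Fin 2 × Fin 2 → Fin (m + 2) × Fin (m + 2) := fun q => (r (Sum.inr q.1), c (Sum.inr q.2))
    with hφ
  have hφi : Function.Injective φ := by
    rintro ⟨p, q⟩ ⟨p', q'⟩ h
    simp only [hφ, Prod.mk.injEq, EmbeddingLike.apply_eq_iff_eq, Sum.inr.injEq] at h
    rw [h.1, h.2]
  have hentry : ∀ Y ∈ S, ∀ i j, |(B + Matrix.of fun i j => Y (i, j)) i j| ≤ 2 * (H : ℤ) ^ 4 := by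
    intro Y hY i j
    have h1 := Fintype.mem_piFinset.1 (Finset.mem_filter.1 hY).1 (i, j)
    rw [Finset.mem_Icc] at h1
    have h2 : |Y (i, j)| ≤ H := abs_le.2 h1
    have h3 : (H : ℤ) ≤ (H : ℤ) ^ 4 := le_self_pow₀ hHZ (by norm_num)
    rw [Matrix.add_apply, Matrix.of_apply]
    have := abs_add_le (B i j) (Y (i, j))
    have := hB i j
    linarith
  have hfib := sing_fiber H φ hφi S (Finset.filter_subset _ _) (|K| * (H : ℝ) ^ (2 + δ))
    (by positivity) ?_
  · have hcP : Fintype.card (Fin (m + 2) × Fin (m + 2)) - Fintype.card (Fin 2 × Fin 2) =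
        (m + 2) * (m + 2) - 4 := by simp
    rw [hcP] at hfib
    refine hfib.trans ?_
    set e := (m + 2) * (m + 2) - 4 with he
    have h4 : 4 ≤ (m + 2) * (m + 2) := by nlinarith
    have h5 : ((2 : ℝ) * H + 1) ^ e ≤ 3 ^ ((m + 2) * (m + 2)) * (H : ℝ) ^ e := by
      calc ((2 : ℝ) * H + 1) ^ e ≤ (3 * H) ^ e := pow_le_pow_left₀ (by positivity) (by linarith) e
        _ = 3 ^ e * (H : ℝ) ^ e := mul_pow _ _ _
        _ ≤ 3 ^ ((m + 2) * (m + 2)) * (H : ℝ) ^ e := by
            apply mul_le_mul_of_nonneg_right _ (by positivity)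
            exact pow_le_pow_right₀ (by norm_num) (by omega)
    have h6 : (H : ℝ) ^ (((m + 2 : ℕ) : ℝ) ^ 2 - 2 + δ) = (H : ℝ) ^ (2 + δ) * (H : ℝ) ^ e := by
      rw [← Real.rpow_natCast (H : ℝ) e, ← Real.rpow_add hHR0]
      congr 1
      have : (e : ℝ) = ((m + 2 : ℕ) : ℝ) * ((m + 2 : ℕ) : ℝ) - 4 := by
        rw [he, Nat.cast_sub h4]
        push_cast
        ring
      rw [this]
      ring
    rw [h6]
    calc |K| * (H : ℝ) ^ (2 + δ) * (2 * H + 1) ^ e ≤
        |K| * (H : ℝ) ^ (2 + δ) * (3 ^ ((m + 2) * (m + 2)) * (H : ℝ) ^ e) :=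
          mul_le_mul_of_nonneg_left h5 (by positivity)
      _ = _ := by ring
  · intro Y0 hY0
    set A0 := B + Matrix.of fun i j => Y0 (i, j) with hA0
    set E := A0.submatrix (fun i => r (Sum.inl i)) (fun j => c (Sum.inl j)) with hE
    set Bb := A0.submatrix (fun i => r (Sum.inl i)) (fun j => c (Sum.inr j)) with hBb
    set Cb := A0.submatrix (fun i => r (Sum.inr i)) (fun j => c (Sum.inl j)) with hCb
    have hE0 : E.det ≠ 0 := (Finset.mem_filter.1 hY0).2.2
    obtain ⟨hd, hc⟩ := ha H hH E Bb Cb (fun i j => hentry Y0 hY0 _ _) (fun i j => hentry Y0 hY0 _ _)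
      (fun i j => hentry Y0 hY0 _ _)
    have hKK := hK H hH1 E.det (fun p q => (Cb * E.adjugate * Bb) p q -
      E.det * B (r (Sum.inr p)) (c (Sum.inr q))) hE0 hd (fun p q => hc _ (hB _ _) p q)
    refine ⟨_, hKK.trans ?_, ?_⟩
    · exact mul_le_mul_of_nonneg_right (le_abs_self K) (by positivity)
    · intro Y hY hYY
      rw [Finset.mem_filter, Fintype.mem_piFinset]
      constructor
      · intro q
        exact Fintype.mem_piFinset.1 (Finset.mem_filter.1 hY).1 (φ q)
      · set A := B + Matrix.of fun i j => Y (i, j) with hA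
        have hdet : A.det = 0 := (Finset.mem_filter.1 hY).2.1
        -- off the block the matrices agree
        have hoff : ∀ p q : Fin m ⊕ Fin 2, (∀ i j, ¬ (p = Sum.inr i ∧ q = Sum.inr j)) →
            A (r p) (c q) = A0 (r p) (c q) := by
          intro p q hpq
          rw [hA, hA0, Matrix.add_apply, Matrix.add_apply, Matrix.of_apply, Matrix.of_apply]
          congr 1
          apply hYY
          rintro ⟨⟨i, j⟩, hij⟩
          simp only [hφ, Prod.mk.injEq, EmbeddingLike.apply_eq_iff_eq] at hij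
          exact hpq i j ⟨hij.1.symm, hij.2.symm⟩
        set D : Matrix (Fin 2) (Fin 2) ℤ :=
          A.submatrix (fun i => r (Sum.inr i)) (fun j => c (Sum.inr j)) with hD
        have hblk : A.submatrix r c = fromBlocks E Bb Cb D := by
          ext p q
          rcases p with p | p <;> rcases q with q | q
          · rw [submatrix_apply, fromBlocks_apply₁₁, hE, submatrix_apply]
            exact hoff _ _ (by rintro i j ⟨h, -⟩; simp at h)
          · rw [submatrix_apply, fromBlocks_apply₁₂, hBb, submatrix_apply]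
            exact hoff _ _ (by rintro i j ⟨h, -⟩; simp at h)
          · rw [submatrix_apply, fromBlocks_apply₂₁, hCb, submatrix_apply]
            exact hoff _ _ (by rintro i j ⟨-, h⟩; simp at h)
          · rw [submatrix_apply, fromBlocks_apply₂₂, hD, submatrix_apply]
        have hdet2 : (A.submatrix r c).det = 0 := by
          have h1 : A.submatrix r c = (A.submatrix id (r.symm.trans c)).submatrix r r := by
            ext p q
            simp
          rw [h1, det_submatrix_equiv_self, det_permute', hdet, mul_zero]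
        rw [hblk] at hdet2
        have hS := sing_schur E Bb Cb D hdet2 hE0
        rw [det_fin_two] at hS
        have hent : ∀ p q, (E.det • D - Cb * E.adjugate * Bb) p q =
            E.det * Y (φ (p, q)) - ((Cb * E.adjugate * Bb) p q -
              E.det * B (r (Sum.inr p)) (c (Sum.inr q))) := by
          intro p q
          rw [Matrix.sub_apply, Matrix.smul_apply, hD, submatrix_apply, hA, Matrix.add_apply,
            Matrix.of_apply, smul_eq_mul, hφ]
          ring
        rw [hent, hent, hent, hent] at hS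
        linarith

theorem sing_aux (δ : ℝ) (hδ : 0 < δ) (m : ℕ) : ∃ K : ℝ, 0 ≤ K ∧ ∀ H : ℕ, 2 ≤ H →
    ∀ B : Matrix (Fin (m + 2)) (Fin (m + 2)) ℤ, (∀ i j, |B i j| ≤ (H : ℤ) ^ 4) →
    ((((Fintype.piFinset fun _ : Fin (m + 2) × Fin (m + 2) => Finset.Icc (-(H : ℤ)) H).filter
      fun Y => (B + Matrix.of fun i j => Y (i, j)).det = 0).card : ℕ) : ℝ) ≤
      K * (H : ℝ) ^ (((m + 2 : ℕ) : ℝ) ^ 2 - 2 + δ) := by
  classical
  induction m using Nat.twoStepInduction with
  | zero =>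
    obtain ⟨K, hK0, hK⟩ := sing_block (m := 0) δ hδ
    refine ⟨K, hK0, fun H hH B hB => ?_⟩
    refine le_trans ?_ (hK H hH B hB finSumFinEquiv finSumFinEquiv)
    norm_cast
    apply Finset.card_le_card
    intro Y hY
    rw [Finset.mem_filter] at hY ⊢
    refine ⟨hY.1, hY.2, ?_⟩
    rw [det_isEmpty]
    exact one_ne_zero
  | one =>
    obtain ⟨K, hK0, hK⟩ := sing_block (m := 1) δ hδ
    refine ⟨9 * K + 1, by positivity, fun H hH B hB => ?_⟩
    have hHR : (1 : ℝ) ≤ H := by exact_mod_cast (by omega : 1 ≤ H)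
    set rr : Fin 3 → (Fin 1 ⊕ Fin 2 ≃ Fin (1 + 2)) := fun i =>
      finSumFinEquiv.trans (Equiv.swap (0 : Fin 3) i) with hrr
    have hrr0 : ∀ i, rr i (Sum.inl 0) = i := by
      intro i
      have : (finSumFinEquiv (Sum.inl 0 : Fin 1 ⊕ Fin 2) : Fin (1 + 2)) = (0 : Fin 3) := rfl
      rw [hrr]
      simp only [Equiv.trans_apply, this]
      exact Equiv.swap_apply_left _ _
    set X := ((H : ℝ) ^ (((1 + 2 : ℕ) : ℝ) ^ 2 - 2 + δ)) with hX
    have hX1 : 1 ≤ X := Real.one_le_rpow hHR (by norm_num; linarith)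
    set SB : Fin 3 × Fin 3 → Finset (Fin (1 + 2) × Fin (1 + 2) → ℤ) := fun ij =>
      (Fintype.piFinset fun _ : Fin (1 + 2) × Fin (1 + 2) => Finset.Icc (-(H : ℤ)) H).filter
      fun Y => (B + Matrix.of fun i j => Y (i, j)).det = 0 ∧
        ((B + Matrix.of fun i j => Y (i, j)).submatrix (fun i => rr ij.1 (Sum.inl i))
          (fun j => rr ij.2 (Sum.inl j))).det ≠ 0 with hSB
    have hsub : ((Fintype.piFinset fun _ : Fin (1 + 2) × Fin (1 + 2) =>
        Finset.Icc (-(H : ℤ)) H).filter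
        fun Y => (B + Matrix.of fun i j => Y (i, j)).det = 0) ⊆
        (Finset.univ.biUnion SB) ∪ {fun p => - B p.1 p.2} := by
      intro Y hY
      rw [Finset.mem_filter] at hY
      rw [Finset.mem_union, Finset.mem_biUnion, Finset.mem_singleton]
      by_cases hz : ∃ ij : Fin 3 × Fin 3, (B + Matrix.of fun i j => Y (i, j)) ij.1 ij.2 ≠ 0
      · left
        obtain ⟨ij, hij⟩ := hz
        refine ⟨ij, Finset.mem_univ _, ?_⟩
        rw [hSB, Finset.mem_filter]
        refine ⟨hY.1, hY.2, ?_⟩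
        rw [det_fin_one, submatrix_apply, hrr0, hrr0]
        exact hij
      · right
        push Not at hz
        funext p
        have := hz p
        rw [Matrix.add_apply, Matrix.of_apply] at this
        change Y p = _
        have h2 : Y (p.1, p.2) = Y p := rfl
        rw [h2] at this
        linarith
    have h1 : (Finset.univ.biUnion SB).card ≤ ∑ ij : Fin 3 × Fin 3, (SB ij).card :=
      Finset.card_biUnion_le
    have h2 : ((∑ ij : Fin 3 × Fin 3, (SB ij).card : ℕ) : ℝ) ≤ 9 * (K * X) := by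
      push_cast
      calc ∑ ij : Fin 3 × Fin 3, ((SB ij).card : ℝ) ≤ ∑ _ij : Fin 3 × Fin 3, K * X :=
            Finset.sum_le_sum fun ij _ => hK H hH B hB (rr ij.1) (rr ij.2)
        _ = 9 * (K * X) := by
            rw [Finset.sum_const, Finset.card_univ, nsmul_eq_mul]
            norm_num
    have h3 := (Finset.card_le_card hsub).trans ((Finset.card_union_le _ _).trans
      (Nat.add_le_add_right h1 _))
    rw [Finset.card_singleton] at h3
    have h4 : (((Fintype.piFinset fun _ : Fin (1 + 2) × Fin (1 + 2) =>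
        Finset.Icc (-(H : ℤ)) H).filter
        fun Y => (B + Matrix.of fun i j => Y (i, j)).det = 0).card : ℝ) ≤
        ((∑ ij : Fin 3 × Fin 3, (SB ij).card : ℕ) : ℝ) + 1 := by exact_mod_cast h3
    calc _ ≤ ((∑ ij : Fin 3 × Fin 3, (SB ij).card : ℕ) : ℝ) + 1 := h4
      _ ≤ 9 * (K * X) + 1 * X := by linarith
      _ = (9 * K + 1) * X := by ring
  | more k ih _ =>
    obtain ⟨K1, hK10, hK1⟩ := ih
    obtain ⟨K2, hK20, hK2⟩ := sing_block (m := k + 2) δ hδ
    refine ⟨K2 + K1 * 3 ^ ((k + 4) * (k + 4)), by positivity, fun H hH B hB => ?_⟩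
    have hHR : (1 : ℝ) ≤ H := by exact_mod_cast (by omega : 1 ≤ H)
    have hHR0 : (0 : ℝ) < H := by linarith
    set r : Fin (k + 2) ⊕ Fin 2 ≃ Fin (k + 2 + 2) := finSumFinEquiv with hr
    have hb := hK2 H hH B hB r r
    set S1 := (Fintype.piFinset fun _ : Fin (k + 2 + 2) × Fin (k + 2 + 2) =>
      Finset.Icc (-(H : ℤ)) H).filter
      fun Y => (B + Matrix.of fun i j => Y (i, j)).det = 0 ∧
        ((B + Matrix.of fun i j => Y (i, j)).submatrix (fun i => r (Sum.inl i))
          (fun j => r (Sum.inl j))).det ≠ 0 with hS1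
    set S2 := (Fintype.piFinset fun _ : Fin (k + 2 + 2) × Fin (k + 2 + 2) =>
      Finset.Icc (-(H : ℤ)) H).filter
      fun Y => ((B + Matrix.of fun i j => Y (i, j)).submatrix (fun i => r (Sum.inl i))
          (fun j => r (Sum.inl j))).det = 0 with hS2
    have hsub : ((Fintype.piFinset fun _ : Fin (k + 2 + 2) × Fin (k + 2 + 2) =>
        Finset.Icc (-(H : ℤ)) H).filter
        fun Y => (B + Matrix.of fun i j => Y (i, j)).det = 0) ⊆ S1 ∪ S2 := by
      intro Y hY
      rw [Finset.mem_filter] at hY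
      rw [Finset.mem_union, hS1, hS2, Finset.mem_filter, Finset.mem_filter]
      by_cases h : ((B + Matrix.of fun i j => Y (i, j)).submatrix (fun i => r (Sum.inl i))
          (fun j => r (Sum.inl j))).det = 0
      · right; exact ⟨hY.1, h⟩
      · left; exact ⟨hY.1, hY.2, h⟩
    set φ : Fin (k + 2) × Fin (k + 2) → Fin (k + 2 + 2) × Fin (k + 2 + 2) :=
      fun q => (r (Sum.inl q.1), r (Sum.inl q.2)) with hφ
    have hφi : Function.Injective φ := by
      rintro ⟨p, q⟩ ⟨p', q'⟩ h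
      simp only [hφ, Prod.mk.injEq, EmbeddingLike.apply_eq_iff_eq, Sum.inl.injEq] at h
      rw [h.1, h.2]
    set B' : Matrix (Fin (k + 2)) (Fin (k + 2)) ℤ :=
      B.submatrix (fun i => r (Sum.inl i)) (fun j => r (Sum.inl j)) with hB'
    have hfib := sing_fiber H φ hφi S2 (Finset.filter_subset _ _)
      (K1 * (H : ℝ) ^ (((k + 2 : ℕ) : ℝ) ^ 2 - 2 + δ)) (by positivity) ?_
    · have hcP : Fintype.card (Fin (k + 2 + 2) × Fin (k + 2 + 2)) -
          Fintype.card (Fin (k + 2) × Fin (k + 2)) = 4 * k + 12 := by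
        simp only [Fintype.card_prod, Fintype.card_fin]
        have : (k + 2 + 2) * (k + 2 + 2) = (k + 2) * (k + 2) + (4 * k + 12) := by ring
        omega
      rw [hcP] at hfib
      have h5 : ((2 : ℝ) * H + 1) ^ (4 * k + 12) ≤
          3 ^ ((k + 4) * (k + 4)) * (H : ℝ) ^ (4 * k + 12) := by
        calc ((2 : ℝ) * H + 1) ^ (4 * k + 12) ≤ (3 * H) ^ (4 * k + 12) :=
              pow_le_pow_left₀ (by positivity) (by linarith) _
          _ = 3 ^ (4 * k + 12) * (H : ℝ) ^ (4 * k + 12) := mul_pow _ _ _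
          _ ≤ 3 ^ ((k + 4) * (k + 4)) * (H : ℝ) ^ (4 * k + 12) := by
              apply mul_le_mul_of_nonneg_right _ (by positivity)
              exact pow_le_pow_right₀ (by norm_num) (by nlinarith)
      have h6 : (H : ℝ) ^ (((k + 2 + 2 : ℕ) : ℝ) ^ 2 - 2 + δ) =
          (H : ℝ) ^ (((k + 2 : ℕ) : ℝ) ^ 2 - 2 + δ) * (H : ℝ) ^ (4 * k + 12) := by
        rw [← Real.rpow_natCast (H : ℝ) (4 * k + 12), ← Real.rpow_add hHR0]
        congr 1
        push_cast
        ring
      have h7 : (S2.card : ℝ) ≤ K1 * 3 ^ ((k + 4) * (k + 4)) *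
          (H : ℝ) ^ (((k + 2 + 2 : ℕ) : ℝ) ^ 2 - 2 + δ) := by
        rw [h6]
        calc (S2.card : ℝ) ≤ K1 * (H : ℝ) ^ (((k + 2 : ℕ) : ℝ) ^ 2 - 2 + δ) *
            (2 * H + 1) ^ (4 * k + 12) := hfib
          _ ≤ K1 * (H : ℝ) ^ (((k + 2 : ℕ) : ℝ) ^ 2 - 2 + δ) *
            (3 ^ ((k + 4) * (k + 4)) * (H : ℝ) ^ (4 * k + 12)) :=
              mul_le_mul_of_nonneg_left h5 (by positivity)
          _ = _ := by ring
      have h8 : (((Fintype.piFinset fun _ : Fin (k + 2 + 2) × Fin (k + 2 + 2) =>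
        Finset.Icc (-(H : ℤ)) H).filter
        fun Y => (B + Matrix.of fun i j => Y (i, j)).det = 0).card : ℝ) ≤ S1.card + S2.card := by
        exact_mod_cast (Finset.card_le_card hsub).trans (Finset.card_union_le _ _)
      refine h8.trans ?_
      rw [add_mul]
      exact add_le_add hb h7
    · intro Y0 _
      refine ⟨_, hK1 H hH B' (fun i j => hB _ _), ?_⟩
      intro Y hY _
      rw [Finset.mem_filter, Fintype.mem_piFinset]
      constructor
      · intro q
        exact Fintype.mem_piFinset.1 (Finset.mem_filter.1 hY).1 (φ q)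
      · have h1 := (Finset.mem_filter.1 hY).2
        have h2 : (B' + Matrix.of fun i j => (fun q => Y (φ q)) (i, j)) =
            (B + Matrix.of fun i j => Y (i, j)).submatrix (fun i => r (Sum.inl i))
              (fun j => r (Sum.inl j)) := by
          ext i j
          rfl
        rw [h2]
        exact h1

theorem count_singular_pr (n : ℕ) (hn : 2 ≤ n) (δ : ℝ) (hδ : 0 < δ) : ∃ K : ℝ, ∀ H : ℕ, 1 ≤ H →
    ∀ B : Matrix (Fin n) (Fin n) ℤ, (∀ i j, |B i j| ≤ (H : ℤ) ^ 4) →
    ((((Fintype.piFinset fun _ : Fin n × Fin n => Finset.Icc (-(H : ℤ)) H).filter fun Y =>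
      (B + Matrix.of fun i j => Y (i, j)).det = 0).card : ℕ) : ℝ) ≤
      K * (H : ℝ) ^ ((n : ℝ) ^ 2 - 2 + δ) := by
  obtain ⟨m, rfl⟩ : ∃ m, n = m + 2 := ⟨n - 2, by omega⟩
  obtain ⟨K, hK0, hK⟩ := sing_aux δ hδ m
  refine ⟨K + 3 ^ ((m + 2) * (m + 2)), fun H hH B hB => ?_⟩
  have hHR : (1 : ℝ) ≤ H := by exact_mod_cast hH
  have hX0 : 0 ≤ (H : ℝ) ^ (((m + 2 : ℕ) : ℝ) ^ 2 - 2 + δ) := by positivity
  rcases Nat.lt_or_ge 1 H with h2 | h2
  · refine (hK H h2 B hB).trans ?_
    apply mul_le_mul_of_nonneg_right _ hX0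
    have : (0 : ℝ) ≤ 3 ^ ((m + 2) * (m + 2)) := by positivity
    linarith
  · have hH1 : H = 1 := by omega
    subst hH1
    have hX1 : ((1 : ℕ) : ℝ) ^ (((m + 2 : ℕ) : ℝ) ^ 2 - 2 + δ) = 1 := by
      rw [Nat.cast_one, Real.one_rpow]
    rw [hX1, mul_one]
    have h3 : ((Fintype.piFinset fun _ : Fin (m + 2) × Fin (m + 2) =>
        Finset.Icc (-((1 : ℕ) : ℤ)) (1 : ℕ)).filter
        fun Y => (B + Matrix.of fun i j => Y (i, j)).det = 0).card ≤ 3 ^ ((m + 2) * (m + 2)) := by
      refine (Finset.card_filter_le _ _).trans (le_of_eq ?_)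
      rw [Fintype.card_piFinset, Finset.prod_const, Finset.card_univ, Int.card_Icc]
      simp
    have h4 : ((((Fintype.piFinset fun _ : Fin (m + 2) × Fin (m + 2) =>
        Finset.Icc (-((1 : ℕ) : ℤ)) (1 : ℕ)).filter
        fun Y => (B + Matrix.of fun i j => Y (i, j)).det = 0).card : ℕ) : ℝ) ≤
        3 ^ ((m + 2) * (m + 2)) := by exact_mod_cast h3
    linarith

end Pool.Agent.AAC

namespace Pool.Agent.AAC

alias count_singular := Pool.Agent.AAC.count_singular_pr

end Pool.Agent.AAC
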