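import Pool.Agent.Lib_helper7.AAC.Basic
import Pool.Agent.Lib_helper7.AACF.BIN
import Pool.Agent.Lib_helper7.AACF.HOEF
import Pool.Agent.Lib_helper7.AACF.SING

set_option autoImplicit false
set_option linter.unusedSectionVars false

/-!
# The count in a box
-/

namespace Pool.Agent.AAC.H88

open Finset Matrix

lemma sum_choose_div (κ : ℕ) : ∑ b ∈ range (κ + 1), (κ.choose b : ℝ) / 2 ^ κ = 1 := by
  rw [← sum_div]
  have h1 : (∑ b ∈ range (κ + 1), (κ.choose b : ℝ)) = 2 ^ κ := by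
    exact_mod_cast Nat.sum_range_choose κ
  rw [h1, div_self (by positivity)]

lemma tail_one (κ m : ℕ) (i : Fin m) (bad : ℕ → Prop) [DecidablePred bad] (τ : ℝ)
    (hτ : ∑ b ∈ (range (κ + 1)).filter bad, (κ.choose b : ℝ) ≤ 2 ^ κ * τ) :
    ∑ b ∈ (Fintype.piFinset fun _ : Fin m => range (κ + 1)).filter (fun b => bad (b i)),
      ∏ j, ((κ.choose (b j) : ℝ) / 2 ^ κ) ≤ τ := by
  classical
  have h1 : ∑ b ∈ (Fintype.piFinset fun _ : Fin m => range (κ + 1)).filter (fun b => bad (b i)),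
      ∏ j, ((κ.choose (b j) : ℝ) / 2 ^ κ) =
      ∑ b ∈ Fintype.piFinset (fun _ : Fin m => range (κ + 1)),
        ∏ j, (if j = i ∧ ¬ bad (b j) then 0 else (κ.choose (b j) : ℝ) / 2 ^ κ) := by
    rw [sum_filter]
    refine sum_congr rfl fun b _ => ?_
    by_cases hb : bad (b i)
    · rw [if_pos hb]
      refine prod_congr rfl fun j _ => ?_
      rw [if_neg]
      rintro ⟨rfl, h⟩
      exact h hb
    · rw [if_neg hb]
      symm
      apply prod_eq_zero (mem_univ i)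
      rw [if_pos ⟨rfl, hb⟩]
  rw [h1, ← prod_univ_sum (t := fun _ : Fin m => range (κ + 1))
    (f := fun j b => if j = i ∧ ¬ bad b then 0 else (κ.choose b : ℝ) / 2 ^ κ)]
  rw [prod_eq_single i]
  · have h2 : ∑ b ∈ range (κ + 1), (if i = i ∧ ¬ bad b then 0 else (κ.choose b : ℝ) / 2 ^ κ) =
        (∑ b ∈ (range (κ + 1)).filter bad, (κ.choose b : ℝ)) / 2 ^ κ := by
      rw [sum_filter, sum_div]
      refine sum_congr rfl fun b _ => ?_
      by_cases hb : bad b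
      · simp [hb]
      · simp [hb]
    rw [h2, div_le_iff₀ (by positivity), mul_comm]
    exact hτ
  · intro j _ hj
    rw [← sum_choose_div κ]
    refine sum_congr rfl fun b _ => ?_
    rw [if_neg]
    rintro ⟨h, _⟩
    exact hj h
  · intro h
    exact absurd (mem_univ i) h

lemma sum_union_le {ι : Type} [DecidableEq ι] {f : ι → ℝ} (hf : ∀ x, 0 ≤ f x) (s t : Finset ι) :
    ∑ x ∈ s ∪ t, f x ≤ ∑ x ∈ s, f x + ∑ x ∈ t, f x := by
  rw [← sum_union_inter]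
  have : 0 ≤ ∑ x ∈ s ∩ t, f x := sum_nonneg fun x _ => hf x
  linarith

lemma sum_biUnion_le {ι κ : Type} [DecidableEq ι] [DecidableEq κ] {f : ι → ℝ}
    (hf : ∀ x, 0 ≤ f x) (s : Finset κ) (t : κ → Finset ι) :
    ∑ x ∈ s.biUnion t, f x ≤ ∑ i ∈ s, ∑ x ∈ t i, f x := by
  induction s using Finset.induction_on with
  | empty => simp
  | insert i s hi ih =>
    rw [biUnion_insert, sum_insert hi]
    exact (sum_union_le hf _ _).trans (by linarith)

lemma exp_bound (ε : ℝ) (hε : 0 < ε) : ∃ K : ℝ, 0 < K ∧ ∀ s : ℝ, 1 ≤ s →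
    Real.exp (-(2 * s ^ ε)) ≤ K * s⁻¹ := by
  obtain ⟨m, hm⟩ := exists_nat_ge (1 / ε)
  refine ⟨(m.factorial : ℝ), by positivity, fun s hs => ?_⟩
  have hs0 : 0 < s := by linarith
  have h1 : (s ^ ε) ^ m / m.factorial ≤ Real.exp (s ^ ε) :=
    Real.pow_div_factorial_le_exp _ (by positivity) m
  have h2 : s ≤ (s ^ ε) ^ m := by
    rw [← Real.rpow_natCast, ← Real.rpow_mul hs0.le]
    calc s = s ^ (1 : ℝ) := (Real.rpow_one s).symm
      _ ≤ s ^ (ε * m) := by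
        apply Real.rpow_le_rpow_of_exponent_le hs
        rw [div_le_iff₀ hε] at hm
        linarith
  have h3 : Real.exp (-(2 * s ^ ε)) ≤ (Real.exp (s ^ ε))⁻¹ := by
    rw [← Real.exp_neg]
    apply Real.exp_le_exp.2
    have : 0 ≤ s ^ ε := by positivity
    linarith
  refine h3.trans ?_
  have h4 : s / m.factorial ≤ Real.exp (s ^ ε) := by
    refine le_trans ?_ h1
    gcongr
  have h5 : 0 < s / m.factorial := by positivity
  calc (Real.exp (s ^ ε))⁻¹ ≤ (s / m.factorial)⁻¹ := inv_anti₀ h5 h4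
    _ = _ := by rw [inv_div]; rfl

/-- the number of the vectors in the box -/
lemma box_card (n a κ g N : ℕ) (hNpos : 1 ≤ N) (Y : Fin N → Matrix (Fin n) (Fin n) ℤ)
    (B : Matrix (Fin n) (Fin n) ℤ) (hκ : 1 ≤ κ) (hgκ : g ≤ 3 ^ N * κ)
    (hY : ∀ i j k, |Y i j k| ≤ (a : ℤ)) (hB : ∀ j k, |B j k| ≤ (g : ℤ) * a)
    (hli : LinearIndependent ℚ (fun i => (Y i).map (Int.cast : ℤ → ℚ)))
    (ha : 1 ≤ a) (h₀ : ℕ) (hh₀ : κ ≤ (h₀ + 1) ^ 4)
    (K E : ℝ) (hK : ∀ H : ℕ, 1 ≤ H →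
      ∀ B : Matrix (Fin n) (Fin n) ℤ, (∀ i j, |B i j| ≤ (H : ℤ) ^ 4) →
      ((((Fintype.piFinset fun _ : Fin n × Fin n => Finset.Icc (-(H : ℤ)) H).filter fun Y =>
        (B + Matrix.of fun i j => Y (i, j)).det = 0).card : ℕ) : ℝ) ≤ K * (H : ℝ) ^ E) :
    ((((Fintype.piFinset fun _ : Fin N => range (κ + 1)).filter
      (fun b => (B + ∑ i, (2 * (b i : ℤ) - κ) • Y i).det = 0 ∧
        ∀ i, |(b i : ℤ) - (κ / 2 : ℕ)| ≤ h₀ + 1)).card : ℕ) : ℝ) ≤
      K * ((2 * N * a * 3 ^ N * (h₀ + 1) : ℕ) : ℝ) ^ E := by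
  classical
  set H : ℕ := 2 * N * a * 3 ^ N * (h₀ + 1) with hH
  have h3 : 1 ≤ 3 ^ N := Nat.one_le_pow _ _ (by norm_num)
  have hHpos : 1 ≤ H := by
    rw [hH]
    have : 0 < 2 * N * a * 3 ^ N * (h₀ + 1) := by positivity
    omega
  set B' : Matrix (Fin n) (Fin n) ℤ := B + ∑ i, (2 * ((κ / 2 : ℕ) : ℤ) - κ) • Y i with hB'
  have hB'H : ∀ i j, |B' i j| ≤ (H : ℤ) ^ 4 := by
    intro i j
    rw [hB', Matrix.add_apply, Matrix.sum_apply]
    have e1 : |∑ c, ((2 * ((κ / 2 : ℕ) : ℤ) - κ) • Y c) i j| ≤ N * a := by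
      refine (abs_sum_le_sum_abs _ _).trans ((sum_le_card_nsmul _ _ (a : ℤ) fun x _ => ?_).trans
        (le_of_eq ?_))
      · rw [Matrix.smul_apply, smul_eq_mul, abs_mul]
        have h5 : |2 * ((κ / 2 : ℕ) : ℤ) - κ| ≤ 1 := by
          rw [abs_le]
          omega
        calc |2 * ((κ / 2 : ℕ) : ℤ) - κ| * |Y x i j| ≤ 1 * a :=
              mul_le_mul h5 (hY x i j) (abs_nonneg _) (by norm_num)
          _ = a := one_mul _
      · rw [card_univ, Fintype.card_fin, nsmul_eq_mul]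
    have e2 := hB i j
    have e3 : (g : ℤ) ≤ 3 ^ N * κ := by exact_mod_cast hgκ
    have e4 : (g : ℤ) * a + N * a ≤ (H : ℤ) ^ 4 := by
      have f1 : (g : ℤ) * a + N * a ≤ 3 ^ N * κ * a + N * a := by
        have : (g : ℤ) * a ≤ 3 ^ N * κ * a := mul_le_mul_of_nonneg_right e3 (by positivity)
        linarith
      refine f1.trans ?_
      have f2 : 3 ^ N * κ * a + N * a ≤ H ^ 4 := by
        have g1 : 3 ^ N * κ * a + N * a ≤ 2 * N * a * 3 ^ N * κ := by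
          have g2 : N * a ≤ N * a * 3 ^ N * κ := by
            calc N * a = N * a * 1 * 1 := by ring
              _ ≤ N * a * 3 ^ N * κ := by gcongr
          have g3 : 3 ^ N * κ * a ≤ N * a * 3 ^ N * κ := by
            calc 3 ^ N * κ * a = 1 * a * 3 ^ N * κ := by ring
              _ ≤ N * a * 3 ^ N * κ := by gcongr
          calc _ ≤ N * a * 3 ^ N * κ + N * a * 3 ^ N * κ := add_le_add g3 g2
            _ = _ := by ring
        refine g1.trans ?_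
        have g4 : 1 ≤ 2 * N * a * 3 ^ N := by
          have : 0 < 2 * N * a * 3 ^ N := by positivity
          omega
        calc 2 * N * a * 3 ^ N * κ ≤ (2 * N * a * 3 ^ N) ^ 4 * (h₀ + 1) ^ 4 := by
              gcongr
              calc 2 * N * a * 3 ^ N = (2 * N * a * 3 ^ N) ^ 1 := (pow_one _).symm
                _ ≤ (2 * N * a * 3 ^ N) ^ 4 := Nat.pow_le_pow_right g4 (by norm_num)
          _ = H ^ 4 := by rw [hH, mul_pow (2 * N * a * 3 ^ N)]
      exact_mod_cast f2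
    refine (abs_add_le _ _).trans ((add_le_add e2 e1).trans e4)
  refine le_trans ?_ (hK H hHpos B' hB'H)
  rw [Nat.cast_le]
  refine card_le_card_of_injOn (fun b => fun jk : Fin n × Fin n =>
    (∑ i, (2 * ((b i : ℤ) - (κ / 2 : ℕ))) • Y i) jk.1 jk.2) ?_ ?_
  · intro b hb
    rw [mem_coe, mem_filter] at hb
    obtain ⟨_, hdet, hbox⟩ := hb
    rw [mem_coe, mem_filter]
    refine ⟨?_, ?_⟩
    · rw [Fintype.mem_piFinset]
      rintro ⟨j, k⟩
      rw [mem_Icc, ← abs_le]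
      show |(∑ i, (2 * ((b i : ℤ) - (κ / 2 : ℕ))) • Y i) j k| ≤ (H : ℤ)
      rw [Matrix.sum_apply]
      have e1 : |∑ c, ((2 * ((b c : ℤ) - (κ / 2 : ℕ))) • Y c) j k| ≤
          N * (2 * (h₀ + 1) * a) := by
        refine (abs_sum_le_sum_abs _ _).trans
          ((sum_le_card_nsmul _ _ (2 * ((h₀ : ℤ) + 1) * a) fun x _ => ?_).trans (le_of_eq ?_))
        · rw [Matrix.smul_apply, smul_eq_mul, abs_mul, abs_mul]
          have h5 := hbox x
          have h6 : |(2 : ℤ)| = 2 := by norm_num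
          rw [h6]
          calc 2 * |(b x : ℤ) - (κ / 2 : ℕ)| * |Y x j k| ≤ 2 * (h₀ + 1) * a := by
                apply mul_le_mul _ (hY x j k) (abs_nonneg _) (by positivity)
                linarith
            _ = _ := by ring
        · rw [card_univ, Fintype.card_fin, nsmul_eq_mul]
      refine e1.trans ?_
      have e2 : N * (2 * (h₀ + 1) * a) ≤ H := by
        rw [hH]
        calc N * (2 * (h₀ + 1) * a) = 2 * N * a * 1 * (h₀ + 1) := by ring
          _ ≤ 2 * N * a * 3 ^ N * (h₀ + 1) := by gcongr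
      exact_mod_cast e2
    · rw [← hdet]
      congr 1
      rw [hB']
      ext j k
      simp only [Matrix.add_apply, Matrix.of_apply, Matrix.sum_apply, Matrix.smul_apply,
        smul_eq_mul]
      rw [add_assoc, ← sum_add_distrib]
      congr 1
      refine sum_congr rfl fun c _ => ?_
      ring
  · intro b _ b' _ hbb
    have h1 : ∑ i, (2 * ((b i : ℤ) - (κ / 2 : ℕ))) • Y i =
        ∑ i, (2 * ((b' i : ℤ) - (κ / 2 : ℕ))) • Y i := by
      ext j k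
      exact congrFun hbb (j, k)
    have h2 : ∑ i, (2 * ((b i : ℤ) - (b' i : ℤ))) • Y i = 0 := by
      have h3 : ∑ i, (2 * ((b i : ℤ) - (b' i : ℤ))) • Y i =
          ∑ i, (2 * ((b i : ℤ) - (κ / 2 : ℕ))) • Y i -
            ∑ i, (2 * ((b' i : ℤ) - (κ / 2 : ℕ))) • Y i := by
        rw [← sum_sub_distrib]
        refine sum_congr rfl fun i _ => ?_
        rw [← sub_smul]
        congr 1
        ring
      rw [h3, h1, sub_self]
    rw [Fintype.linearIndependent_iff] at hli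
    have h4 := hli (fun i => (2 * ((b i : ℤ) - (b' i : ℤ)) : ℤ)) (by
      have h5 := congrArg (fun M : Matrix (Fin n) (Fin n) ℤ => M.map (Int.cast : ℤ → ℚ)) h2
      ext j k
      have h6 := congrFun (congrFun h5 j) k
      simp only [Matrix.map_apply, Matrix.sum_apply, Matrix.smul_apply, smul_eq_mul,
        Int.cast_sum, Int.cast_mul] at h6 ⊢
      simpa using h6)
    funext i
    have h7 := h4 i
    have h8 : (2 * ((b i : ℤ) - (b' i : ℤ)) : ℤ) = 0 := by exact_mod_cast h7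
    omega

theorem box_count_pr (n : ℕ) (hn : 2 ≤ n) (a : ℕ) (δ : ℝ) (hδ : 0 < δ) : ∃ K : ℝ, 0 < K ∧
    ∀ (g κ : ℕ) (Y : Fin (n * n) → Matrix (Fin n) (Fin n) ℤ) (B : Matrix (Fin n) (Fin n) ℤ),
    1 ≤ g → (g : ℝ) / 3 ^ (n * n) ≤ κ → κ ≤ 2 * g → (∀ i j k, |Y i j k| ≤ (a : ℤ)) →
    (∀ j k, |B j k| ≤ (g : ℤ) * a) →
    LinearIndependent ℚ (fun i => (Y i).map (Int.cast : ℤ → ℚ)) →
    ∑ b ∈ (Fintype.piFinset fun _ : Fin (n * n) => range (κ + 1)).filter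
        (fun b => (B + ∑ i, (2 * (b i : ℤ) - κ) • Y i).det = 0),
        ∏ i, ((κ.choose (b i) : ℝ) / 2 ^ κ) ≤ K * (g : ℝ) ^ (-1 + δ) := by
  classical
  set δ₀ : ℝ := min δ 1 with hδ₀
  have hδ₀p : 0 < δ₀ := lt_min hδ one_pos
  have hδ₀1 : δ₀ ≤ 1 := min_le_right _ _
  have hδ₀δ : δ₀ ≤ δ := min_le_left _ _
  obtain ⟨K₁', hK₁'⟩ := count_singular n hn δ₀ hδ₀p
  set K₁ : ℝ := max K₁' 0 with hK₁
  have hK₁0 : 0 ≤ K₁ := le_max_right _ _
  set E : ℝ := (n : ℝ) ^ 2 - 2 + δ₀ with hE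
  have hn2 : (4 : ℝ) ≤ (n : ℝ) ^ 2 := by
    have : (2 : ℝ) ≤ n := by exact_mod_cast hn
    nlinarith
  have hE0 : 0 < E := by rw [hE]; linarith
  have hK₁s : ∀ H : ℕ, 1 ≤ H →
      ∀ B : Matrix (Fin n) (Fin n) ℤ, (∀ i j, |B i j| ≤ (H : ℤ) ^ 4) →
      ((((Fintype.piFinset fun _ : Fin n × Fin n => Finset.Icc (-(H : ℤ)) H).filter fun Y =>
        (B + Matrix.of fun i j => Y (i, j)).det = 0).card : ℕ) : ℝ) ≤ K₁ * (H : ℝ) ^ E := by
    intro H hH B hB
    refine (hK₁' H hH B hB).trans ?_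
    gcongr
    exact le_max_left _ _
  set ε : ℝ := δ₀ / (2 * (n : ℝ) ^ 2) with hε
  have hεp : 0 < ε := by positivity
  obtain ⟨K₂, hK₂p, hK₂⟩ := exp_bound (2 * ε) (by positivity)
  set C₀ : ℕ := 2 * (n * n) * a * 3 ^ (n * n) with hC₀
  set A : ℝ := K₁ * (3 * (C₀ : ℝ)) ^ E + (n * n : ℕ) * (2 * K₂) with hA
  have hA0 : 0 < A := by
    have h1 : (0 : ℝ) < (n * n : ℕ) := by
      have : 0 < n * n := by nlinarith
      exact_mod_cast this
    have h2 : 0 < (n * n : ℕ) * (2 * K₂) := by positivity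
    have h3 : 0 ≤ K₁ * (3 * (C₀ : ℝ)) ^ E := by positivity
    rw [hA]
    linarith
  refine ⟨A * ((3 : ℝ) ^ (n * n)) ^ (1 - δ₀), by positivity, ?_⟩
  intro g κ Y B hg hgκ hκg hY hB hli
  have hT : (0 : ℝ) < 3 ^ (n * n) := by positivity
  have hgR : (1 : ℝ) ≤ g := by exact_mod_cast hg
  have hκ0 : (0 : ℝ) < κ := lt_of_lt_of_le (by positivity) hgκ
  have hκ1 : 1 ≤ κ := by
    have : 0 < κ := by exact_mod_cast hκ0
    omega
  have hs : (1 : ℝ) ≤ κ := by exact_mod_cast hκ1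
  have hgκ' : g ≤ 3 ^ (n * n) * κ := by
    rw [div_le_iff₀ hT] at hgκ
    have : (g : ℝ) ≤ ((3 ^ (n * n) * κ : ℕ) : ℝ) := by
      push_cast
      linarith
    exact_mod_cast this
  have ha : 1 ≤ a := by
    by_contra h
    have h0 : a = 0 := by omega
    have hi : 0 < n * n := by nlinarith
    apply hli.ne_zero ⟨0, hi⟩
    ext j k
    have h1 := hY ⟨0, hi⟩ j k
    rw [h0, Nat.cast_zero] at h1
    have h2 : Y ⟨0, hi⟩ j k = 0 := abs_eq_zero.1 (le_antisymm h1 (abs_nonneg _))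
    simp [h2]
  set s : ℝ := (κ : ℝ) with hsdef
  set w : ℝ := s ^ (1 / 2 + ε) with hw
  have hw0 : 0 < w := by positivity
  have hw1 : 1 ≤ w := Real.one_le_rpow hs (by positivity)
  have hws : √s ≤ w := by
    rw [hw, Real.sqrt_eq_rpow]
    exact Real.rpow_le_rpow_of_exponent_le hs (by linarith)
  set h₀ : ℕ := ⌈w⌉₊ with hh₀
  have hwh : w ≤ h₀ := Nat.le_ceil w
  have hhw : (h₀ : ℝ) < w + 1 := Nat.ceil_lt_add_one hw0.le
  have hκ4 : κ ≤ (h₀ + 1) ^ 4 := by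
    have h1 : s ≤ ((h₀ : ℝ) + 1) ^ 2 := by
      have h2 : √s ≤ (h₀ : ℝ) + 1 := by linarith
      calc s = √s ^ 2 := (Real.sq_sqrt (by positivity)).symm
        _ ≤ _ := by gcongr
    have h3 : s ≤ ((h₀ : ℝ) + 1) ^ 4 := by
      have h4 : (1 : ℝ) ≤ (h₀ : ℝ) + 1 := by linarith
      refine h1.trans ?_
      exact pow_le_pow_right₀ h4 (by norm_num)
    have h5 : (κ : ℝ) ≤ ((h₀ : ℝ) + 1) ^ 4 := h3
    exact_mod_cast h5
  have hNp : 1 ≤ n * n := by nlinarith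
  have hcard := box_card n a κ g (n * n) hNp Y B hκ1 hgκ' hY hB hli ha h₀ hκ4 K₁ E hK₁s
  set F := (Fintype.piFinset fun _ : Fin (n * n) => range (κ + 1)) with hF
  -- splitting
  have hsplit : F.filter (fun b => (B + ∑ i, (2 * (b i : ℤ) - κ) • Y i).det = 0) ⊆
      F.filter (fun b => (B + ∑ i, (2 * (b i : ℤ) - κ) • Y i).det = 0 ∧
        ∀ i, |(b i : ℤ) - (κ / 2 : ℕ)| ≤ h₀ + 1) ∪
      (univ : Finset (Fin (n * n))).biUnion fun i =>
        F.filter (fun b => w < |(b i : ℝ) - κ / 2|) := by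
    intro b hb
    rw [mem_filter] at hb
    rw [mem_union, mem_filter, mem_biUnion]
    by_cases h : ∃ i, w < |(b i : ℝ) - κ / 2|
    · right
      obtain ⟨i, hi⟩ := h
      exact ⟨i, mem_univ _, mem_filter.2 ⟨hb.1, hi⟩⟩
    · left
      push Not at h
      refine ⟨hb.1, hb.2, fun i => ?_⟩
      have h1 := h i
      have h2 : |(b i : ℝ) - ((κ / 2 : ℕ) : ℝ)| ≤ (h₀ : ℝ) + 1 := by
        have h3 : |(κ : ℝ) / 2 - ((κ / 2 : ℕ) : ℝ)| ≤ 1 := by
          have h4 : 2 * (κ / 2) ≤ κ := Nat.mul_div_le κ 2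
          have h5 : κ ≤ 2 * (κ / 2) + 1 := by omega
          have h6 : 2 * ((κ / 2 : ℕ) : ℝ) ≤ κ := by exact_mod_cast h4
          have h7 : (κ : ℝ) ≤ 2 * ((κ / 2 : ℕ) : ℝ) + 1 := by exact_mod_cast h5
          rw [abs_le]
          constructor <;> linarith
        calc |(b i : ℝ) - ((κ / 2 : ℕ) : ℝ)| =
              |((b i : ℝ) - κ / 2) + ((κ : ℝ) / 2 - ((κ / 2 : ℕ) : ℝ))| := by ring_nf
          _ ≤ |(b i : ℝ) - κ / 2| + |(κ : ℝ) / 2 - ((κ / 2 : ℕ) : ℝ)| := abs_add_le _ _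
          _ ≤ w + 1 := add_le_add h1 h3
          _ ≤ _ := by linarith
      exact_mod_cast h2
  have hnn : ∀ b : Fin (n * n) → ℕ, 0 ≤ ∏ i, ((κ.choose (b i) : ℝ) / 2 ^ κ) :=
    fun b => prod_nonneg fun i _ => by positivity
  have hmain : ∑ b ∈ F.filter (fun b => (B + ∑ i, (2 * (b i : ℤ) - κ) • Y i).det = 0 ∧
        ∀ i, |(b i : ℤ) - (κ / 2 : ℕ)| ≤ h₀ + 1), ∏ i, ((κ.choose (b i) : ℝ) / 2 ^ κ) ≤
      K₁ * (3 * (C₀ : ℝ)) ^ E * s ^ (-1 + δ₀) := by
    have h1 : ∀ b ∈ F.filter (fun b => (B + ∑ i, (2 * (b i : ℤ) - κ) • Y i).det = 0 ∧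
        ∀ i, |(b i : ℤ) - (κ / 2 : ℕ)| ≤ h₀ + 1), ∏ i, ((κ.choose (b i) : ℝ) / 2 ^ κ) ≤
        s ^ (-(n : ℝ) ^ 2 / 2) := by
      intro b _
      calc ∏ i, ((κ.choose (b i) : ℝ) / 2 ^ κ) ≤ ∏ _i : Fin (n * n), (1 / √s) := by
            apply prod_le_prod (fun i _ => by positivity)
            intro i _
            have h2 := choose_le κ (b i) hκ1
            rw [div_le_iff₀ (by positivity)]
            calc (κ.choose (b i) : ℝ) ≤ 2 ^ κ / √s := h2
              _ = _ := by ring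
        _ = s ^ (-(n : ℝ) ^ 2 / 2) := by
            rw [prod_const, card_univ, Fintype.card_fin, Real.sqrt_eq_rpow, one_div,
              ← Real.rpow_neg (by positivity), ← Real.rpow_natCast, ← Real.rpow_mul (by positivity)]
            congr 1
            push_cast
            ring
    refine (sum_le_card_nsmul _ _ _ h1).trans ?_
    rw [nsmul_eq_mul]
    have h3 : ((C₀ * (h₀ + 1) : ℕ) : ℝ) ≤ 3 * C₀ * w := by
      push_cast
      have : (h₀ : ℝ) + 1 ≤ 3 * w := by linarith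
      calc (C₀ : ℝ) * (h₀ + 1) ≤ C₀ * (3 * w) := by gcongr
        _ = _ := by ring
    calc _ ≤ (K₁ * ((C₀ * (h₀ + 1) : ℕ) : ℝ) ^ E) * s ^ (-(n : ℝ) ^ 2 / 2) := by
          gcongr
      _ ≤ (K₁ * (3 * C₀ * w) ^ E) * s ^ (-(n : ℝ) ^ 2 / 2) := by gcongr
      _ = K₁ * (3 * (C₀ : ℝ)) ^ E * (s ^ ((1 / 2 + ε) * E + -(n : ℝ) ^ 2 / 2)) := by
          have e1 : s ^ ((1 / 2 + ε) * E + -(n : ℝ) ^ 2 / 2) =
              s ^ ((1 / 2 + ε) * E) * s ^ (-(n : ℝ) ^ 2 / 2) := Real.rpow_add hκ0 _ _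
          rw [e1, Real.mul_rpow (by positivity) hw0.le, hw, ← Real.rpow_mul (by positivity)]
          ring
      _ ≤ K₁ * (3 * (C₀ : ℝ)) ^ E * s ^ (-1 + δ₀) := by
          refine mul_le_mul_of_nonneg_left (Real.rpow_le_rpow_of_exponent_le hs ?_)
            (by positivity)
          have h4 : ε * E ≤ δ₀ / 2 := by
            rw [hε, div_mul_eq_mul_div, div_le_div_iff₀ (by positivity) (by norm_num)]
            have : E ≤ (n : ℝ) ^ 2 := by rw [hE]; linarith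
            nlinarith
          have h5 : (1 / 2 + ε) * E + -(n : ℝ) ^ 2 / 2 = E / 2 - (n : ℝ) ^ 2 / 2 + ε * E := by ring
          rw [h5, hE]
          rw [hE] at h4
          linarith
  have htail : ∀ i ∈ (univ : Finset (Fin (n * n))),
      ∑ b ∈ F.filter (fun b => w < |(b i : ℝ) - κ / 2|), ∏ j, ((κ.choose (b j) : ℝ) / 2 ^ κ) ≤
        2 * K₂ * s ^ (-1 + δ₀) := by
    intro i _
    have h1 := tail_one κ (n * n) i (fun b => w < |(b : ℝ) - κ / 2|)
      (2 * Real.exp (-(2 * w ^ 2 / κ))) (sum_choose_tail κ w hw0.le)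
    refine h1.trans ?_
    have h2 : 2 * w ^ 2 / κ = 2 * s ^ (2 * ε) := by
      rw [hw, ← Real.rpow_natCast, ← Real.rpow_mul (by positivity), mul_div_assoc]
      congr 1
      have h3 : s ^ ((1 / 2 + ε) * ((2 : ℕ) : ℝ)) = s * s ^ (2 * ε) := by
        rw [show ((1 / 2 + ε) * ((2 : ℕ) : ℝ)) = 1 + 2 * ε by push_cast; ring,
          Real.rpow_add (by positivity), Real.rpow_one]
      rw [h3, ← hsdef]
      field_simp
    rw [h2]
    have h4 := hK₂ s hs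
    have h5 : s⁻¹ ≤ s ^ (-1 + δ₀) := by
      rw [← Real.rpow_neg_one]
      exact Real.rpow_le_rpow_of_exponent_le hs (by linarith)
    calc 2 * Real.exp (-(2 * s ^ (2 * ε))) ≤ 2 * (K₂ * s⁻¹) := by gcongr
      _ ≤ 2 * (K₂ * s ^ (-1 + δ₀)) := by gcongr
      _ = _ := by ring
  have htot : ∑ b ∈ F.filter (fun b => (B + ∑ i, (2 * (b i : ℤ) - κ) • Y i).det = 0),
      ∏ i, ((κ.choose (b i) : ℝ) / 2 ^ κ) ≤ A * s ^ (-1 + δ₀) := by
    refine (sum_le_sum_of_subset_of_nonneg hsplit fun b _ _ => hnn b).trans ?_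
    refine (sum_union_le hnn _ _).trans ?_
    have h1 := (sum_biUnion_le hnn (univ : Finset (Fin (n * n)))
      (fun i => F.filter (fun b => w < |(b i : ℝ) - κ / 2|))).trans (sum_le_card_nsmul _ _ _ htail)
    rw [card_univ, Fintype.card_fin, nsmul_eq_mul] at h1
    refine (add_le_add hmain h1).trans (le_of_eq ?_)
    rw [hA]
    ring
  refine htot.trans ?_
  have h1 : s ^ (-1 + δ₀) ≤ ((3 : ℝ) ^ (n * n)) ^ (1 - δ₀) * (g : ℝ) ^ (-1 + δ₀) := by
    have h2 : s ^ (-1 + δ₀) ≤ ((g : ℝ) / 3 ^ (n * n)) ^ (-1 + δ₀) :=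
      Real.rpow_le_rpow_of_nonpos (by positivity) hgκ (by linarith)
    refine h2.trans (le_of_eq ?_)
    rw [Real.div_rpow (by positivity) hT.le, show (1 - δ₀) = -(-1 + δ₀) by ring,
      Real.rpow_neg hT.le]
    ring
  calc A * s ^ (-1 + δ₀) ≤ A * (((3 : ℝ) ^ (n * n)) ^ (1 - δ₀) * (g : ℝ) ^ (-1 + δ₀)) := by gcongr
    _ = A * ((3 : ℝ) ^ (n * n)) ^ (1 - δ₀) * (g : ℝ) ^ (-1 + δ₀) := by ring
    _ ≤ _ := by
      gcongr

end Pool.Agent.AAC.H88

namespace Pool.Agent.AAC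

alias box_count := Pool.Agent.AAC.H88.box_count_pr

end Pool.Agent.AAC
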