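import Pool.Agent.Lib_helper7.AAC.Basic

set_option autoImplicit false
set_option linter.unusedSectionVars false

/-!
# Conditioning on the CM type outside some fibres
-/

namespace Pool.Agent.AAC.H88

open Finset Matrix

/-- product of monomials -/
lemma prod_single {M ι : Type} [AddCommMonoid M] (s : Finset ι) (a : ι → M) (r : ι → ℝ) :
    ∏ i ∈ s, (AddMonoidAlgebra.single (a i) (r i) : AddMonoidAlgebra ℝ M) =
      AddMonoidAlgebra.single (∑ i ∈ s, a i) (∏ i ∈ s, r i) := by
  classical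
  induction s using Finset.induction_on with
  | empty => simp [AddMonoidAlgebra.one_def]
  | insert i s hi ih =>
    rw [prod_insert hi, sum_insert hi, prod_insert hi, ih, AddMonoidAlgebra.single_mul_single]

/-- the total weight of a set -/
noncomputable def LL {M : Type} [AddCommMonoid M] (ind : M → ℝ) : AddMonoidAlgebra ℝ M →+ ℝ :=
  (Finsupp.linearCombination ℝ ind).toAddMonoidHom.comp
    (AddMonoidAlgebra.coeffAddEquiv : AddMonoidAlgebra ℝ M ≃+ (M →₀ ℝ)).toAddMonoidHom

lemma LL_single {M : Type} [AddCommMonoid M] (ind : M → ℝ) (a : M) (r : ℝ) :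
    LL ind (AddMonoidAlgebra.single a r) = r * ind a := by
  show Finsupp.linearCombination ℝ ind (AddMonoidAlgebra.single a r).coeff = _
  rw [AddMonoidAlgebra.coeff_single, Finsupp.linearCombination_single, smul_eq_mul]

lemma pow_two_terms {M : Type} [AddCommGroup M] (Y : M) (κ : ℕ) :
    ((AddMonoidAlgebra.single Y 1 + AddMonoidAlgebra.single (-Y) 1 : AddMonoidAlgebra ℝ M)) ^ κ =
      ∑ b ∈ range (κ + 1), AddMonoidAlgebra.single ((2 * (b : ℤ) - κ) • Y)
        (κ.choose b : ℝ) := by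
  rw [add_pow]
  refine sum_congr rfl fun b hb => ?_
  have hb' : b ≤ κ := by
    have := mem_range.1 hb
    omega
  rw [AddMonoidAlgebra.single_pow, AddMonoidAlgebra.single_pow, AddMonoidAlgebra.single_mul_single]
  have h1 : ((κ.choose b : ℕ) : AddMonoidAlgebra ℝ M) =
      AddMonoidAlgebra.single 0 (κ.choose b : ℝ) := by
    rw [AddMonoidAlgebra.natCast_def]
  rw [h1, AddMonoidAlgebra.single_mul_single]
  congr 1
  · rw [add_zero, smul_neg, ← sub_eq_add_neg, ← natCast_zsmul, ← natCast_zsmul, ← sub_smul]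
    congr 1
    push_cast [hb']
    ring
  · simp

section

variable {G X : Type} [Group G] [Fintype G] [MulAction G X] [Fintype X]

theorem pr_cond_pr (C : Ctx G X) {m n κ : ℕ} (R : X → Matrix (Fin n) (Fin n) ℤ)
    (hodd : ∀ x, R (C.c x) = - R x) (S : Fin m → Finset X) (hS : ∀ i, (S i).card = κ)
    (Y : Fin m → Matrix (Fin n) (Fin n) ℤ) (hY : ∀ i, ∀ x ∈ S i, R x = Y i)
    (hdis : ∀ i j, i ≠ j → Disjoint (S i) (S j)) (hdis' : ∀ i j, ∀ x ∈ S i, C.c x ∉ S j)
    (N : ℤ) (hN : ∀ x i j, |R x i j| ≤ N) (q : ℝ)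
    (hq : ∀ B : Matrix (Fin n) (Fin n) ℤ, (∀ i j, |B i j| ≤ C.g * N) →
      ∑ b ∈ (Fintype.piFinset fun _ : Fin m => range (κ + 1)).filter
        (fun b => (B + ∑ i, (2 * (b i : ℤ) - κ) • Y i).det = 0),
        ∏ i, ((κ.choose (b i) : ℝ) / 2 ^ κ) ≤ q) :
    Pr C (fun Φ => (∑ x ∈ Φ, R x).det = 0) ≤ q := by
  classical
  set ind : Matrix (Fin n) (Fin n) ℤ → ℝ := fun B => if B.det = 0 then 1 else 0 with hind
  set U : Finset X := univ.biUnion S with hU
  have hUc : ∀ x ∈ U, C.c x ∉ U := by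
    intro x hx hcx
    rw [hU, mem_biUnion] at hx hcx
    obtain ⟨i, _, hi⟩ := hx
    obtain ⟨j, _, hj⟩ := hcx
    exact hdis' i j x hi hj
  obtain ⟨O₀, hO₀, _⟩ := exists_half C
  set P : Finset X := O₀.filter (fun x => x ∉ U ∧ C.c x ∉ U) with hP
  have hO : ∀ x, x ∈ P ∪ U ↔ C.c x ∉ P ∪ U := by
    intro x
    have h1 := hUc x
    have h2 := hUc (C.c x)
    have h3 := hO₀ x
    rw [C.cc] at h2
    simp only [hP, mem_union, mem_filter, C.cc]
    tauto
  have hPU : Disjoint P U := by
    rw [Finset.disjoint_left]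
    intro x hx
    exact (mem_filter.1 hx).2.1
  have hcU : U.card = m * κ := by
    rw [hU, card_biUnion (fun i _ j _ hij => hdis i j hij)]
    simp [hS]
  have hcO : P.card + m * κ = C.g := by
    have h1 := CMT.card_half (S := X) C.c C.cc (P ∪ U) hO
    have h2 := C.card
    rw [card_union_of_disjoint hPU, hcU] at h1
    omega
  -- the generating function
  have key : ∑ Φ ∈ types C, (AddMonoidAlgebra.single (∑ x ∈ Φ, R x) 1 : AddMonoidAlgebra ℝ (Matrix (Fin n) (Fin n) ℤ)) =
      ∑ T ∈ P.powerset, ∑ b ∈ Fintype.piFinset (fun _ : Fin m => range (κ + 1)),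
        AddMonoidAlgebra.single ((∑ x ∈ T, R x + ∑ x ∈ P \ T, - R x) +
          ∑ i, (2 * (b i : ℤ) - κ) • Y i) (∏ i, (κ.choose (b i) : ℝ)) := by
    have h1 : ∑ Φ ∈ types C, (AddMonoidAlgebra.single (∑ x ∈ Φ, R x) 1 : AddMonoidAlgebra ℝ (Matrix (Fin n) (Fin n) ℤ)) =
        ∏ x ∈ P ∪ U, (AddMonoidAlgebra.single (R x) 1 + AddMonoidAlgebra.single (-R x) 1) := by
      rw [← sum_types hO]
      refine sum_congr rfl fun Φ hΦ => ?_
      rw [sum_odd hO hodd hΦ]
      have h2 : ∀ x ∈ P ∪ U, (if x ∈ Φ then AddMonoidAlgebra.single (R x) 1 else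
          AddMonoidAlgebra.single (-R x) 1 : AddMonoidAlgebra ℝ (Matrix (Fin n) (Fin n) ℤ)) =
          AddMonoidAlgebra.single (if x ∈ Φ then R x else - R x) 1 := by
        intro x _
        split_ifs <;> rfl
      rw [prod_congr rfl h2, prod_single, prod_const_one]
    have h3 : ∏ x ∈ U, (AddMonoidAlgebra.single (R x) 1 + AddMonoidAlgebra.single (-R x) 1 :
        AddMonoidAlgebra ℝ (Matrix (Fin n) (Fin n) ℤ)) = ∑ b ∈ Fintype.piFinset (fun _ : Fin m => range (κ + 1)),
        AddMonoidAlgebra.single (∑ i, (2 * (b i : ℤ) - κ) • Y i)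
          (∏ i, (κ.choose (b i) : ℝ)) := by
      rw [hU, prod_biUnion (fun i _ j _ hij => hdis i j hij)]
      have h4 : ∀ i ∈ (univ : Finset (Fin m)), ∏ x ∈ S i, (AddMonoidAlgebra.single (R x) 1 +
          AddMonoidAlgebra.single (-R x) 1 : AddMonoidAlgebra ℝ (Matrix (Fin n) (Fin n) ℤ)) =
          ∑ b ∈ range (κ + 1), AddMonoidAlgebra.single ((2 * (b : ℤ) - κ) • Y i)
            (κ.choose b : ℝ) := by
        intro i _
        rw [← pow_two_terms, prod_congr rfl (g := fun _ => AddMonoidAlgebra.single (Y i) 1 +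
          AddMonoidAlgebra.single (-Y i) 1) (fun x hx => by rw [hY i x hx]), prod_const, hS]
      rw [prod_congr rfl h4, prod_univ_sum]
      exact sum_congr rfl fun b _ => prod_single _ _ _
    rw [h1, prod_union hPU, h3, prod_add, sum_mul]
    refine sum_congr rfl fun T _ => ?_
    rw [mul_sum, prod_single, prod_single, prod_const_one, prod_const_one,
      AddMonoidAlgebra.single_mul_single, mul_one]
    refine sum_congr rfl fun b _ => ?_
    rw [AddMonoidAlgebra.single_mul_single, one_mul]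
  have key2 := congrArg (LL ind) key
  rw [map_sum, map_sum] at key2
  simp only [map_sum, LL_single, one_mul] at key2
  have hbd : ∀ T ∈ P.powerset, ∑ b ∈ Fintype.piFinset (fun _ : Fin m => range (κ + 1)),
      (∏ i, (κ.choose (b i) : ℝ)) * ind ((∑ x ∈ T, R x + ∑ x ∈ P \ T, - R x) +
          ∑ i, (2 * (b i : ℤ) - κ) • Y i) ≤ 2 ^ (m * κ) * q := by
    intro T hT
    have hB : ∀ i j, |(∑ x ∈ T, R x + ∑ x ∈ P \ T, - R x : Matrix (Fin n) (Fin n) ℤ) i j| ≤ C.g * N := by
      intro i j
      have hX : Nonempty X := by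
        rw [← Fintype.card_pos_iff, C.card]
        have := C.gpos
        omega
      have hN0 : 0 ≤ N := (abs_nonneg _).trans (hN hX.some i j)
      rw [Matrix.add_apply, Matrix.sum_apply, Matrix.sum_apply]
      have e1 : |∑ x ∈ T, R x i j| ≤ T.card * N := by
        refine (abs_sum_le_sum_abs _ _).trans ((sum_le_card_nsmul _ _ N fun x _ => hN x i j).trans
          (le_of_eq ?_))
        rw [nsmul_eq_mul]
      have e2 : |∑ x ∈ P \ T, (-R x) i j| ≤ (P \ T).card * N := by
        refine (abs_sum_le_sum_abs _ _).trans ((sum_le_card_nsmul _ _ N fun x _ => ?_).trans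
          (le_of_eq ?_))
        · rw [Matrix.neg_apply, abs_neg]
          exact hN x i j
        · rw [nsmul_eq_mul]
      have e3 : T.card + (P \ T).card = P.card := by
        rw [add_comm]
        exact card_sdiff_add_card_eq_card (mem_powerset.1 hT)
      have e4 : ((T.card : ℤ) + (P \ T).card) * N ≤ C.g * N := by
        apply mul_le_mul_of_nonneg_right _ hN0
        have : T.card + (P \ T).card ≤ C.g := by omega
        exact_mod_cast this
      refine (abs_add_le _ _).trans ((add_le_add e1 e2).trans ?_)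
      rw [← add_mul]
      exact e4
    have h5 := hq _ hB
    have h6 : (0 : ℝ) < 2 ^ (m * κ) := by positivity
    calc _ = 2 ^ (m * κ) * ∑ b ∈ (Fintype.piFinset fun _ : Fin m => range (κ + 1)).filter
            (fun b => ((∑ x ∈ T, R x + ∑ x ∈ P \ T, - R x) +
              ∑ i, (2 * (b i : ℤ) - κ) • Y i).det = 0), ∏ i, ((κ.choose (b i) : ℝ) / 2 ^ κ) := by
          rw [sum_filter, mul_sum]
          refine sum_congr rfl fun b _ => ?_
          simp only [hind]
          split_ifs with h7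
          · rw [mul_one, prod_div_distrib, prod_const, card_univ, Fintype.card_fin, ← pow_mul,
              mul_comm κ m, mul_div_cancel₀ _ h6.ne']
          · simp
      _ ≤ _ := mul_le_mul_of_nonneg_left h5 h6.le
  have hfin : ∑ Φ ∈ types C, ind (∑ x ∈ Φ, R x) ≤ 2 ^ C.g * q := by
    rw [key2]
    refine (sum_le_card_nsmul _ _ _ hbd).trans (le_of_eq ?_)
    rw [card_powerset, nsmul_eq_mul, ← mul_assoc, ← hcO, pow_add]
    push_cast
    ring
  rw [Pr_eq, div_le_iff₀ (two_pow_pos' _)]
  have h8 : (((types C).filter fun Φ => (∑ x ∈ Φ, R x).det = 0).card : ℝ) =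
      ∑ Φ ∈ types C, ind (∑ x ∈ Φ, R x) := by
    rw [card_filter]
    push_cast
    rfl
  rw [h8, mul_comm]
  exact hfin

end

end Pool.Agent.AAC.H88

namespace Pool.Agent.AAC

alias pr_cond := Pool.Agent.AAC.H88.pr_cond_pr

end Pool.Agent.AAC
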