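import Mathlib

set_option autoImplicit false
set_option linter.unusedSectionVars false

/-!
# MINK: Minkowski's theorem on finite groups of integral matrices
-/

namespace Pool.Agent.AAC

namespace MinkAux

open Finset Matrix

/-- reduction modulo three -/
noncomputable def φ (n : ℕ) : Matrix (Fin n) (Fin n) ℤ →+* Matrix (Fin n) (Fin n) (ZMod 3) :=
  (Int.castRingHom (ZMod 3)).mapMatrix

lemma eq_zero_of_mul {n : ℕ} {E S : Matrix (Fin n) (Fin n) ℤ} (h : E * S = 0)
    {a : ZMod 3} (ha : a ≠ 0) (hS : φ n S = a • (1 : Matrix (Fin n) (Fin n) (ZMod 3))) :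
    E = 0 := by
  have hd : S.det ≠ 0 := by
    intro h0
    have h1 : (φ n S).det = (Int.castRingHom (ZMod 3)) S.det := by
      unfold φ
      exact (RingHom.map_det _ _).symm
    rw [h0, map_zero, hS, det_smul, det_one, mul_one] at h1
    exact pow_ne_zero _ ha h1
  have h2 : S.det • E = 0 := by
    have h3 : E * S * S.adjugate = S.det • E := by
      rw [mul_assoc, mul_adjugate, Matrix.mul_smul, mul_one]
    rw [← h3, h, zero_mul]
  exact (smul_eq_zero.1 h2).resolve_left hd

lemma prime_case {n : ℕ} {M : Matrix (Fin n) (Fin n) ℤ} (h3 : φ n M = 1) {l : ℕ}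
    (hl : l.Prime) (h : M ^ l = 1) : M = 1 := by
  have hE : M - 1 = 0 := by
    by_cases hl3 : l = 3
    · subst hl3
      -- `M = 1 + 3 B`
      have hdiv : ∀ i j, (3 : ℤ) ∣ (M - 1) i j := by
        intro i j
        have h1 : φ n (M - 1) = 0 := by rw [map_sub, h3, map_one, sub_self]
        have h2 : φ n (M - 1) i j = 0 := by rw [h1]; rfl
        have h4 : (((M - 1) i j : ℤ) : ZMod 3) = 0 := h2
        exact_mod_cast (ZMod.intCast_zmod_eq_zero_iff_dvd _ 3).1 h4
      choose B hB using hdiv
      have hB' : M = 1 + (3 : ℤ) • (Matrix.of B) := by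
        ext i j
        have := hB i j
        rw [Matrix.sub_apply] at this
        rw [Matrix.add_apply, Matrix.smul_apply, Matrix.of_apply, smul_eq_mul]
        linarith
      set B' := (Matrix.of B : Matrix (Fin n) (Fin n) ℤ) with hBdef
      set T : Matrix (Fin n) (Fin n) ℤ := 1 + (3 : ℤ) • (B' + B' * B') with hT
      have h5 : (3 : ℤ) • ((M - 1) * T) = M ^ 3 - 1 := by
        rw [hT, hB']
        simp only [zsmul_eq_mul]
        push_cast
        noncomm_ring
      have h6 : (M - 1) * T = 0 := by
        rw [h, sub_self] at h5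
        exact (smul_eq_zero.1 h5).resolve_left (by norm_num)
      refine eq_zero_of_mul h6 (one_ne_zero (α := ZMod 3)) ?_
      rw [hT, map_add, map_one, map_zsmul, one_smul]
      have : (3 : ℤ) • φ n (B' + B' * B') = 0 := by
        ext i j
        rw [Matrix.smul_apply, Matrix.zero_apply, zsmul_eq_mul]
        have h7 : (((3 : ℤ) : ZMod 3)) = 0 := by decide
        rw [h7, zero_mul]
      rw [this, add_zero]
    · have h1 : (M - 1) * ∑ i ∈ range l, M ^ i = 0 := by
        rw [mul_geom_sum, h, sub_self]
      have hl0 : ((l : ℕ) : ZMod 3) ≠ 0 := by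
        intro h0
        rw [ZMod.natCast_eq_zero_iff] at h0
        exact hl3 (((Nat.prime_dvd_prime_iff_eq Nat.prime_three hl).1 h0).symm)
      refine eq_zero_of_mul h1 hl0 ?_
      rw [map_sum, sum_congr rfl (fun i _ => by rw [map_pow, h3, one_pow]), sum_const, card_range,
        Nat.cast_smul_eq_nsmul]
  exact sub_eq_zero.1 hE

lemma eq_one {n : ℕ} (N : ℕ) : ∀ {M : Matrix (Fin n) (Fin n) ℤ}, φ n M = 1 → 0 < N →
    M ^ N = 1 → M = 1 := by
  induction N using Nat.strong_induction_on with
  | _ N ih =>
    intro M h3 hN h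
    by_cases h1 : N = 1
    · rw [h1, pow_one] at h
      exact h
    · have hp := Nat.minFac_prime h1
      obtain ⟨k, hk⟩ := Nat.minFac_dvd N
      have hk0 : 0 < k := by
        rcases Nat.eq_zero_or_pos k with h0 | h0
        · rw [h0, mul_zero] at hk
          omega
        · exact h0
      have hkN : k < N := by
        calc k = 1 * k := (one_mul k).symm
          _ < N.minFac * k := Nat.mul_lt_mul_of_pos_right hp.one_lt hk0
          _ = N := hk.symm
      have h2 : M ^ k = 1 := by
        apply prime_case (l := N.minFac) _ hp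
        · rw [← pow_mul, mul_comm k, ← hk, h]
        · rw [map_pow, h3, one_pow]
      exact ih k hkN h3 hk0 h2

end MinkAux

open MinkAux in
/-- MINK: Minkowski's theorem -/
theorem card_range_le {G : Type} [Group G] [Finite G] {n : ℕ}
    (ρ : G →* Matrix (Fin n) (Fin n) ℤ) : Nat.card (Set.range ρ) ≤ 3 ^ (n * n) := by
  have hinj : Function.Injective (fun A : Set.range ρ => φ n A.1) := by
    rintro ⟨_, y, rfl⟩ ⟨_, y', rfl⟩ h
    have h1 : φ n (ρ y) = φ n (ρ y') := h
    have h2 : φ n (ρ (y * y'⁻¹)) = 1 := by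
      rw [map_mul ρ, map_mul (φ n), h1, ← map_mul, ← map_mul, mul_inv_cancel, map_one, map_one]
    have h3 : ρ (y * y'⁻¹) = 1 := by
      refine eq_one (Nat.card G) h2 Nat.card_pos ?_
      rw [← map_pow, pow_card_eq_one', map_one]
    have h4 : ρ y = ρ y' := by
      have h5 : ρ y = ρ (y * y'⁻¹) * ρ y' := by
        rw [← map_mul, inv_mul_cancel_right]
      rw [h5, h3, one_mul]
    exact Subtype.ext h4
  have h1 := Nat.card_le_card_of_injective _ hinj
  refine h1.trans (le_of_eq ?_)
  rw [Nat.card_eq_fintype_card]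
  have : Fintype.card (Matrix (Fin n) (Fin n) (ZMod 3)) =
      Fintype.card (Fin n → Fin n → ZMod 3) := rfl
  rw [this, Fintype.card_fun, Fintype.card_fun, ZMod.card, Fintype.card_fin, ← pow_mul]

end Pool.Agent.AAC
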