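import Pool.Agent.Lib_helper7.AAC.Basic
import Pool.Agent.Lib_helper7.AACF.MINK

set_option autoImplicit false
set_option linter.unusedSectionVars false

/-!
# FIB: the fibres of `R`
-/

namespace Pool.Agent.AAC

open Finset Matrix

variable {G X : Type} [Group G] [Fintype G] [MulAction G X] [Fintype X]

/-- FIB: the fibres of `R` -/
theorem exists_fibres (C : Ctx G X) {n : ℕ} (D : MatRep C n) :
    ∃ (κ : ℕ) (S : Fin (n * n) → Finset X) (y : Fin (n * n) → G),
      (C.g : ℝ) / 3 ^ (n * n) ≤ κ ∧ κ ≤ 2 * C.g ∧ (∀ i, (S i).card = κ) ∧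
      (∀ i, ∀ x ∈ S i, D.R x = D.ρ (y i)) ∧ (∀ i j, i ≠ j → Disjoint (S i) (S j)) ∧
      (∀ i j, ∀ x ∈ S i, C.c x ∉ S j) ∧
      LinearIndependent ℚ (fun i => (D.ρ (y i)).map (Int.cast : ℤ → ℚ)) := by
  classical
  -- the fibres
  let F : Matrix (Fin n) (Fin n) ℤ → Finset X := fun γ => univ.filter fun x => D.R x = γ
  have hF : ∀ γ x, x ∈ F γ ↔ D.R x = γ := fun γ x => by simp [F]
  have hinv : ∀ y : G, D.ρ y⁻¹ * D.ρ y = 1 := fun y => by
    rw [← map_mul, inv_mul_cancel, map_one]
  have hcard : ∀ y : G, (F (D.ρ y)).card = (F 1).card := by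
    intro y
    refine (Finset.card_bij (fun x _ => y • x) ?_ ?_ ?_).symm
    · intro x hx
      rw [hF] at hx ⊢
      rw [D.hR, hx, mul_one]
    · intro a _ b _ h
      exact MulAction.injective y h
    · intro x hx
      rw [hF] at hx
      refine ⟨y⁻¹ • x, ?_, smul_inv_smul y x⟩
      rw [hF, D.hR, hx, hinv]
  have hmem : ∀ x : X, D.R x ∈ Set.range D.ρ := by
    intro x
    obtain ⟨y, hy⟩ := C.tr D.x₀ x
    exact ⟨y, by rw [← hy, D.hR, D.hx₀, mul_one]⟩
  -- the number of points
  have hX : Fintype.card X = (Set.range D.ρ).toFinset.card * (F 1).card := by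
    have h1 : (univ : Finset X).card = ∑ γ ∈ (Set.range D.ρ).toFinset,
        (univ.filter fun x => D.R x = γ).card :=
      Finset.card_eq_sum_card_fiberwise (fun x _ => by
        simpa using hmem x)
    rw [← Finset.card_univ, h1]
    rw [Finset.sum_congr rfl (g := fun _ => (F 1).card), sum_const, smul_eq_mul]
    intro γ hγ
    rw [Set.mem_toFinset] at hγ
    obtain ⟨y, rfl⟩ := hγ
    exact hcard y
  have hM := card_range_le D.ρ
  rw [Nat.card_eq_fintype_card, ← Set.toFinset_card] at hM
  -- a basis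
  obtain ⟨ι, a, ha, hspan, hli⟩ := exists_linearIndependent' ℚ
    (fun y : G => (D.ρ y).map (Int.cast : ℤ → ℚ))
  rw [D.span] at hspan
  have : Finite ι := Finite.of_injective a ha
  have : Fintype ι := Fintype.ofFinite ι
  have hb := Module.Basis.mk hli (le_of_eq hspan.symm)
  have hι : Fintype.card ι = n * n := by
    rw [← Module.finrank_eq_card_basis hb, Module.finrank_matrix, Module.finrank_self, mul_one,
      Fintype.card_fin]
  let e : Fin (n * n) ≃ ι := (finCongr hι.symm).trans (Fintype.equivFin ι).symm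
  have hli' : LinearIndependent ℚ
      (fun i => (D.ρ (a (e i))).map (Int.cast : ℤ → ℚ)) := hli.comp e e.injective
  have hinj : ∀ i j, D.ρ (a (e i)) = D.ρ (a (e j)) → i = j := by
    intro i j h
    exact hli'.injective (by
      show (D.ρ (a (e i))).map (Int.cast : ℤ → ℚ) = (D.ρ (a (e j))).map (Int.cast : ℤ → ℚ)
      rw [h])
  refine ⟨(F 1).card, fun i => F (D.ρ (a (e i))), fun i => a (e i), ?_, ?_, fun i => hcard _,
    fun i x hx => (hF _ _).1 hx, ?_, ?_, hli'⟩
  · rw [div_le_iff₀ (by positivity)]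
    have h1 : 2 * C.g ≤ 3 ^ (n * n) * (F 1).card := by
      rw [← C.card, hX]
      exact Nat.mul_le_mul_right _ hM
    have h2 : (C.g : ℝ) ≤ 2 * C.g := by
      have : (0 : ℝ) ≤ C.g := Nat.cast_nonneg _
      linarith
    have h3 : ((2 * C.g : ℕ) : ℝ) ≤ ((3 ^ (n * n) * (F 1).card : ℕ) : ℝ) := by exact_mod_cast h1
    push_cast at h3
    linarith
  · rw [← C.card]
    exact card_le_univ _
  · intro i j hij
    rw [Finset.disjoint_left]
    intro x hx hx'
    rw [hF] at hx hx'
    exact hij (hinj i j (hx.symm.trans hx'))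
  · intro i j x hx hx'
    rw [hF] at hx hx'
    rw [← C.hz, D.hR, D.hz, hx] at hx'
    have h0 : (D.ρ (a (e i))).map (Int.cast : ℤ → ℚ) + (D.ρ (a (e j))).map (Int.cast : ℤ → ℚ)
        = 0 := by
      rw [← hx']
      ext k l
      simp
    have h1 := Fintype.linearIndependent_iff.1 hli'
      (Pi.single i 1 + Pi.single j 1) (by
        simp only [Pi.add_apply, add_smul, sum_add_distrib]
        rw [Finset.sum_eq_single i, Finset.sum_eq_single j]
        · simpa using h0
        · intro b _ hb
          rw [Pi.single_eq_of_ne hb, zero_smul]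
        · intro h
          exact absurd (mem_univ j) h
        · intro b _ hb
          rw [Pi.single_eq_of_ne hb, zero_smul]
        · intro h
          exact absurd (mem_univ i) h) i
    rw [Pi.add_apply, Pi.single_eq_same] at h1
    have h2 : (0 : ℚ) ≤ (Pi.single j 1 : Fin (n * n) → ℚ) i := by
      rw [Pi.single_apply]
      split_ifs <;> norm_num
    linarith

end Pool.Agent.AAC
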