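import Pool.Agent.Lib_helper7.AAC.Basic
import Pool.Agent.Lib_helper7.AACF.BAS
import Pool.Agent.Lib_helper7.AACF.Box
import Pool.Agent.Lib_helper7.AACF.Cond
import Pool.Agent.Lib_helper7.AACF.FIB

set_option autoImplicit false
set_option linter.unusedSectionVars false

/-!
# Bounded dimension
-/

namespace Pool.Agent.AAC.H88

open Finset Matrix

theorem bounded_dim_pr (n : ℕ) (hn : 2 ≤ n) (δ : ℝ) (hδ : 0 < δ) : ∃ K : ℝ, 0 < K ∧
    ∀ (G X : Type) [Group G] [Fintype G] [MulAction G X] [Fintype X] (C : Ctx G X)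
      (D : MatRep C n), Pr C (fun Φ => (D.Msum Φ).det = 0) ≤ K * (C.g : ℝ) ^ (-1 + δ) := by
  classical
  obtain ⟨K, hK, hbox⟩ := box_count n hn (n ^ n) δ hδ
  refine ⟨K, hK, ?_⟩
  intro G X _ _ _ _ C D
  obtain ⟨P, hP0, hPn, hPe⟩ := exists_basis D.ρ D.span
  obtain ⟨κ, S, y, hκ, hκ2, hcard, hSy, hdis, hdis', hli⟩ := exists_fibres C D
  set R' : X → Matrix (Fin n) (Fin n) ℤ := fun x => P.adjugate * D.R x * P with hR'
  have hRx : ∀ x, ∃ y : G, D.R x = D.ρ y := by
    intro x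
    obtain ⟨y, rfl⟩ := C.tr D.x₀ x
    exact ⟨y, by rw [D.hR, D.hx₀, mul_one]⟩
  have hodd : ∀ x, R' (C.c x) = - R' x := by
    intro x
    rw [hR']
    simp only
    rw [← C.hz, D.hR, D.hz]
    simp
  have hent : ∀ x i j, |R' x i j| ≤ ((n ^ n : ℕ) : ℤ) := by
    intro x i j
    obtain ⟨y, hy⟩ := hRx x
    have h1 := hPe y i j
    rw [← hy] at h1
    refine h1.trans (hPn.trans (le_of_eq ?_))
    push_cast
    rfl
  have hYli : LinearIndependent ℚ (fun i : Fin (n * n) =>
      (P.adjugate * D.ρ (y i) * P).map (Int.cast : ℤ → ℚ)) := by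
    rw [Fintype.linearIndependent_iff] at hli ⊢
    intro c hc
    apply hli c
    set Q : Matrix (Fin n) (Fin n) ℚ := P.map (Int.cast : ℤ → ℚ) with hQ
    have hQdet : Q.det ≠ 0 := by
      have h1 : Q.det = ((P.det : ℤ) : ℚ) := by
        rw [hQ]
        exact (Int.cast_det P).symm
      rw [h1]
      exact_mod_cast hP0
    have hmap : ∀ i, (P.adjugate * D.ρ (y i) * P).map (Int.cast : ℤ → ℚ) =
        Q.adjugate * (D.ρ (y i)).map (Int.cast : ℤ → ℚ) * Q := by
      intro i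
      have e1 := RingHom.map_adjugate (Int.castRingHom ℚ) P
      have e2 : (P.adjugate).map (Int.cast : ℤ → ℚ) = Q.adjugate := e1
      rw [← e2, hQ]
      have e3 : ∀ A B : Matrix (Fin n) (Fin n) ℤ, (A * B).map (Int.cast : ℤ → ℚ) =
          A.map (Int.cast : ℤ → ℚ) * B.map (Int.cast : ℤ → ℚ) := by
        intro A B
        exact Matrix.map_mul (f := Int.castRingHom ℚ)
      rw [e3, e3]
    set T := ∑ i, c i • (D.ρ (y i)).map (Int.cast : ℤ → ℚ) with hT
    have h2 : Q.adjugate * T * Q = 0 := by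
      rw [← hc, hT, Matrix.mul_sum, Matrix.sum_mul]
      refine sum_congr rfl fun i _ => ?_
      rw [hmap, Matrix.mul_smul, Matrix.smul_mul]
    have h3 : Q * (Q.adjugate * T * Q) * Q.adjugate = (Q.det * Q.det) • T := by
      have h4 : Q * (Q.adjugate * T * Q) * Q.adjugate = (Q * Q.adjugate) * T * (Q * Q.adjugate) := by
        noncomm_ring
      rw [h4, Matrix.mul_adjugate, Matrix.smul_mul, Matrix.one_mul, Matrix.mul_smul,
        Matrix.mul_one, smul_smul]
    rw [h2, mul_zero, zero_mul] at h3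
    have h5 := (smul_eq_zero.1 h3.symm).resolve_left (mul_ne_zero hQdet hQdet)
    exact h5
  have hmain := pr_cond C R' hodd S hcard (fun i => P.adjugate * D.ρ (y i) * P)
    (fun i x hx => by rw [hR']; simp only; rw [hSy i x hx]) hdis hdis' ((n ^ n : ℕ) : ℤ) hent
    (K * (C.g : ℝ) ^ (-1 + δ)) (fun B hB => hbox C.g κ _ B C.gpos hκ hκ2 (fun i j k => by
      have h1 := hPe (y i) j k
      refine h1.trans (hPn.trans (le_of_eq ?_))
      push_cast
      rfl) hB hYli)
  refine (Pr_mono fun Φ _ h => ?_).trans hmain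
  have h1 : ∑ x ∈ Φ, R' x = P.adjugate * D.Msum Φ * P := by
    rw [MatRep.Msum, Matrix.mul_sum, Matrix.sum_mul]
  rw [h1, det_mul, det_mul, h, mul_zero, zero_mul]

end Pool.Agent.AAC.H88

namespace Pool.Agent.AAC

alias bounded_dim := Pool.Agent.AAC.H88.bounded_dim_pr

end Pool.Agent.AAC
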