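import Pool.Agent.Lib_helper7.AACF.IDX
import Pool.Agent.Lib_helper7.AACF.LFR

set_option autoImplicit false
set_option linter.unusedSectionVars false

/-!
# Block BRD: the matrices of an absolutely irreducible module of full multiplicity
-/

namespace Pool.Agent.AAC

open Finset Matrix

section

variable {G X : Type} [Group G] [Fintype G] [MulAction G X] [Fintype X] {C : Ctx G X}

/-- translation on the lattice -/
def BRD_tau (W : Submodule (RR ℚ G) (MM ℚ C)) (y : G) : lat W →ₗ[ℤ] lat W where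
  toFun f := ⟨fun x => f.1 (y • x), lat_smul f.2 y⟩
  map_add' _ _ := rfl
  map_smul' _ _ := rfl

theorem BRD_tau_apply (W : Submodule (RR ℚ G) (MM ℚ C)) (y : G) (f : lat W) (x : X) :
    (BRD_tau W y f).1 x = f.1 (y • x) := rfl

theorem BRD_L_tau (W : Submodule (RR ℚ G) (MM ℚ C)) (y : G) (f : lat W) :
    (LFR_L W (BRD_tau W y f) : MM ℚ C) = MonoidAlgebra.of ℚ G y⁻¹ • (LFR_L W f : MM ℚ C) := by
  apply toFn_inj
  funext x
  rw [LFR_L_apply, toFn_of, LFR_L_apply, inv_inv, BRD_tau_apply]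

theorem BRD_tau_one (W : Submodule (RR ℚ G) (MM ℚ C)) : BRD_tau W (1 : G) = LinearMap.id := by
  ext f x
  rw [BRD_tau_apply, one_smul]
  rfl

theorem BRD_tau_mul (W : Submodule (RR ℚ G) (MM ℚ C)) (y y' : G) :
    BRD_tau W (y * y') = (BRD_tau W y') ∘ₗ (BRD_tau W y) := by
  ext f x
  rw [BRD_tau_apply, LinearMap.comp_apply, BRD_tau_apply, BRD_tau_apply, mul_smul]

theorem BRD_tau_z (W : Submodule (RR ℚ G) (MM ℚ C)) : BRD_tau W C.z = -LinearMap.id := by
  ext f x
  rw [BRD_tau_apply, C.hz, lat_odd f.2]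
  rfl

theorem BRD_tau_kr (W : Submodule (RR ℚ G) (MM ℚ C)) {y : G} (hy : y ∈ kr W) :
    BRD_tau W y = LinearMap.id := by
  apply LinearMap.ext
  intro f
  apply LFR_L_inj W
  apply Subtype.ext
  rw [BRD_L_tau]
  exact (kr W).inv_mem hy _ (LFR_L W f).2

/-- the basis of the lattice -/
noncomputable def BRD_bz (W : Submodule (RR ℚ G) (MM ℚ C)) :
    Module.Basis (Fin (dd W)) ℤ (lat W) := Module.finBasisOfFinrankEq ℤ (lat W) (lat_finrank_pr W)

/-- the basis of `W` -/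
noncomputable def BRD_b (W : Submodule (RR ℚ G) (MM ℚ C)) : Module.Basis (Fin (dd W)) ℚ W :=
  Module.Basis.mk (LFR_basis W (BRD_bz W)).1 (LFR_basis W (BRD_bz W)).2

theorem BRD_b_apply (W : Submodule (RR ℚ G) (MM ℚ C)) (i : Fin (dd W)) :
    BRD_b W i = LFR_L W (BRD_bz W i) := by
  rw [BRD_b, Module.Basis.mk_apply]

/-- the matrices -/
noncomputable def BRD_rho (W : Submodule (RR ℚ G) (MM ℚ C)) :
    G →* Matrix (Fin (dd W)) (Fin (dd W)) ℤ where
  toFun y := (LinearMap.toMatrix (BRD_bz W) (BRD_bz W) (BRD_tau W y))ᵀ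
  map_one' := by
    rw [BRD_tau_one, LinearMap.toMatrix_id, Matrix.transpose_one]
  map_mul' y y' := by
    rw [BRD_tau_mul, LinearMap.toMatrix_comp (BRD_bz W) (BRD_bz W) (BRD_bz W),
      Matrix.transpose_mul]

theorem BRD_rho_apply (W : Submodule (RR ℚ G) (MM ℚ C)) (y : G) (i j : Fin (dd W)) :
    BRD_rho W y i j = (BRD_bz W).repr (BRD_tau W y (BRD_bz W i)) j := by
  show (LinearMap.toMatrix (BRD_bz W) (BRD_bz W) (BRD_tau W y))ᵀ i j = _
  rw [Matrix.transpose_apply, LinearMap.toMatrix_apply]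

theorem BRD_key (W : Submodule (RR ℚ G) (MM ℚ C)) (i : Fin (dd W)) (y : G) :
    MonoidAlgebra.of ℚ G y⁻¹ • (BRD_b W i : MM ℚ C) =
        ∑ j, (BRD_rho W y i j : ℚ) • (BRD_b W j : MM ℚ C) := by
  have h1 := (BRD_bz W).sum_repr (BRD_tau W y (BRD_bz W i))
  have h2 : (LFR_L W (∑ j, (BRD_bz W).repr (BRD_tau W y (BRD_bz W i)) j • BRD_bz W j) : MM ℚ C) =
      (LFR_L W (BRD_tau W y (BRD_bz W i)) : MM ℚ C) := by rw [h1]
  rw [BRD_L_tau] at h2
  rw [BRD_b_apply, ← h2, map_sum]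
  rw [AddSubmonoidClass.coe_finsetSum]
  refine Finset.sum_congr rfl fun j _ => ?_
  rw [map_smul, BRD_b_apply, BRD_rho_apply]
  show (((BRD_bz W).repr (BRD_tau W y (BRD_bz W i)) j) • (LFR_L W (BRD_bz W j) : MM ℚ C)) = _
  rw [Int.cast_smul_eq_zsmul]

/-- the same in `W` -/
theorem BRD_key' (W : Submodule (RR ℚ G) (MM ℚ C)) (i : Fin (dd W)) (y : G) :
    MonoidAlgebra.of ℚ G y⁻¹ • (BRD_b W i) = ∑ j, (BRD_rho W y i j : ℚ) • (BRD_b W j) := by
  apply Subtype.ext
  rw [AddSubmonoidClass.coe_finsetSum]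
  exact BRD_key W i y

theorem BRD_rho_kr (W : Submodule (RR ℚ G) (MM ℚ C)) {y : G} (hy : y ∈ kr W) :
    BRD_rho W y = 1 := by
  show (LinearMap.toMatrix (BRD_bz W) (BRD_bz W) (BRD_tau W y))ᵀ = 1
  rw [BRD_tau_kr W hy, LinearMap.toMatrix_id, Matrix.transpose_one]

theorem BRD_rho_z (W : Submodule (RR ℚ G) (MM ℚ C)) : BRD_rho W C.z = -1 := by
  show (LinearMap.toMatrix (BRD_bz W) (BRD_bz W) (BRD_tau W C.z))ᵀ = -1
  rw [BRD_tau_z W, map_neg, LinearMap.toMatrix_id, Matrix.transpose_neg, Matrix.transpose_one]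

theorem BRD_kr_rho (W : Submodule (RR ℚ G) (MM ℚ C)) {y : G} (hy : BRD_rho W y = 1) :
    y ∈ kr W := by
  have h1 : ∀ i, MonoidAlgebra.of ℚ G y⁻¹ • (BRD_b W i) = BRD_b W i := by
    intro i
    rw [BRD_key', hy]
    simp [Matrix.one_apply]
  let g : W →ₗ[ℚ] W :=
    { toFun := fun w => MonoidAlgebra.of ℚ G y⁻¹ • w
      map_add' := smul_add _
      map_smul' := fun c w => smul_comm _ c w }
  have h2 : g = LinearMap.id := (BRD_b W).ext fun i => h1 i
  have h3 : y⁻¹ ∈ kr W := by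
    intro v hv
    have h4 := congrArg (fun f => f (⟨v, hv⟩ : W)) h2
    exact congrArg Subtype.val h4
  have h4 := (kr W).inv_mem h3
  rwa [inv_inv] at h4

theorem BRD_rho_eq (W : Submodule (RR ℚ G) (MM ℚ C)) (y y' : G) :
    BRD_rho W y = BRD_rho W y' ↔ y⁻¹ * y' ∈ kr W := by
  constructor
  · intro h
    apply BRD_kr_rho
    rw [map_mul, ← h, ← map_mul, inv_mul_cancel, map_one]
  · intro h
    have h1 := BRD_rho_kr W h
    have h2 : y' = y * (y⁻¹ * y') := by group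
    rw [h2, map_mul, h1, mul_one]

theorem BRD_card (W : Submodule (RR ℚ G) (MM ℚ C)) :
    Nat.card (Set.range (BRD_rho W)) = (kr W).index := by
  rw [Subgroup.index]
  symm
  refine Nat.card_eq_of_bijective (fun q : G ⧸ kr W => Quotient.liftOn' q
    (fun y => (⟨BRD_rho W y, y, rfl⟩ : Set.range (BRD_rho W))) ?_) ⟨?_, ?_⟩
  · intro a b hab
    rw [QuotientGroup.leftRel_apply] at hab
    exact Subtype.ext ((BRD_rho_eq W a b).2 hab)
  · intro q q' h
    induction q using Quotient.inductionOn' with | h a => ?_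
    induction q' using Quotient.inductionOn' with | h b => ?_
    have h1 := congrArg Subtype.val h
    have h2 : BRD_rho W a = BRD_rho W b := h1
    apply Quotient.sound'
    rw [QuotientGroup.leftRel_apply]
    exact (BRD_rho_eq W a b).1 h2
  · rintro ⟨_, y, rfl⟩
    exact ⟨Quotient.mk'' y, rfl⟩

/-- every element of the group algebra acts by a combination of the matrices -/
theorem BRD_act (W : Submodule (RR ℚ G) (MM ℚ C)) (r : RR ℚ G) :
    ∃ A ∈ Submodule.span ℚ (Set.range fun y : G => (BRD_rho W y).map (Int.cast : ℤ → ℚ)),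
      ∀ i, r • BRD_b W i = ∑ j, A i j • BRD_b W j := by
  induction r using MonoidAlgebra.induction_on with
  | of g =>
    refine ⟨(BRD_rho W g⁻¹).map (Int.cast : ℤ → ℚ), Submodule.subset_span ⟨g⁻¹, rfl⟩,
      fun i => ?_⟩
    have h := BRD_key' W i g⁻¹
    rw [inv_inv] at h
    rw [h]
    rfl
  | add a b ha hb =>
    obtain ⟨A, hA, h1⟩ := ha
    obtain ⟨B, hB, h2⟩ := hb
    refine ⟨A + B, Submodule.add_mem _ hA hB, fun i => ?_⟩
    rw [add_smul, h1, h2, ← Finset.sum_add_distrib]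
    refine Finset.sum_congr rfl fun j _ => ?_
    rw [Matrix.add_apply, add_smul]
  | smul c b hb =>
    obtain ⟨B, hB, h2⟩ := hb
    refine ⟨c • B, Submodule.smul_mem _ c hB, fun i => ?_⟩
    rw [smul_assoc, h2, Finset.smul_sum]
    refine Finset.sum_congr rfl fun j _ => ?_
    rw [Matrix.smul_apply, smul_assoc]

theorem BRD_span {W : Submodule (RR ℚ G) (MM ℚ C)} (hW : IsSimpleModule (RR ℚ G) W)
    (he : ee W = 1) :
    Submodule.span ℚ (Set.range fun y : G => (BRD_rho W y).map (Int.cast : ℤ → ℚ)) = ⊤ := by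
  rw [eq_top_iff]
  intro A _
  obtain ⟨r, hr⟩ := burnside_pr hW he (Matrix.toLin (BRD_b W) (BRD_b W) Aᵀ)
  obtain ⟨B, hB, h2⟩ := BRD_act W r
  have h3 : A = B := by
    ext i j
    have h4 : ∑ j, A i j • BRD_b W j = ∑ j, B i j • BRD_b W j := by
      rw [← h2 i, ← hr, Matrix.toLin_self]
      rfl
    have h5 := congrArg (fun w => (BRD_b W).repr w j) h4
    simp only [Module.Basis.repr_sum_self] at h5
    exact h5
  rw [h3]
  exact hB

/-- BRD: the matrices -/
theorem exists_data_pr {W : Submodule (RR ℚ G) (MM ℚ C)} (hW : IsSimpleModule (RR ℚ G) W)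
    (he : ee W = 1) (hd : hh W = dd W) :
    ∃ (D : MatRep C (dd W)) (b : Module.Basis (Fin (dd W)) ℚ W),
      Nat.card (Set.range D.ρ) = (kr W).index ∧
      ∀ (i : Fin (dd W)) (y : G), MonoidAlgebra.of ℚ G y⁻¹ • (b i : MM ℚ C) =
        ∑ j, (D.ρ y i j : ℚ) • (b j : MM ℚ C) := by
  classical
  have hne : Nonempty X := by
    rw [← Fintype.card_pos_iff, C.card]
    have := C.gpos
    omega
  obtain ⟨x₀⟩ := hne
  choose yx hyx using fun x => C.tr x₀ x
  have hwd : ∀ y y' : G, y • x₀ = y' • x₀ → BRD_rho W y = BRD_rho W y' := by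
    intro y y' h
    rw [BRD_rho_eq]
    refine fix_of_full_pr hd x₀ _ ?_
    rw [mul_smul, ← h, inv_smul_smul]
  refine ⟨⟨BRD_rho W, fun x => BRD_rho W (yx x), x₀, ?_, ?_, BRD_rho_z W, BRD_span hW he⟩,
    BRD_b W, BRD_card W, BRD_key W⟩
  · rw [← map_one (BRD_rho W)]
    exact hwd _ _ (by rw [hyx, one_smul])
  · intro y x
    rw [← map_mul]
    exact hwd _ _ (by rw [hyx, mul_smul, hyx])

end

end Pool.Agent.AAC

namespace Pool.Agent.AAC

alias exists_data := Pool.Agent.AAC.exists_data_pr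

end Pool.Agent.AAC
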