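import Pool.Agent.Lib_helper7.AAC.Basic

set_option autoImplicit false
set_option linter.unusedSectionVars false

/-! AAC block ISA: iso_of_le, ic_dim, two_ee_le -/

namespace Pool.Agent.AAC

open Finset

section

variable {G X : Type} [Group G] [Fintype G] [MulAction G X] [Fintype X] {C : Ctx G X}

/-- ISA -/
theorem iso_of_le_pr {W W' : Submodule (RR ℚ G) (MM ℚ C)} (hW : IsSimpleModule (RR ℚ G) W)
    (hW' : IsSimpleModule (RR ℚ G) W') (h : W' ≤ ic W) : Nonempty (W ≃ₗ[RR ℚ G] W') := by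
  obtain ⟨e⟩ := isIsotypicOfType_submodule_iff.mp
    (IsIsotypicOfType.isotypicComponent (RR ℚ G) (MM ℚ C) W) W' h
  exact ⟨e.symm⟩

lemma ISA_fun (V : Type) [AddCommGroup V] [Module ℚ V] [Module.Finite ℚ V] (m : ℕ) :
    Module.finrank ℚ (Fin m → V) = m * Module.finrank ℚ V := by
  rw [Module.finrank_pi_fintype]
  simp

/-- homomorphisms into a product -/
lemma ISA_pi (W : Submodule (RR ℚ G) (MM ℚ C)) (m : ℕ) :
    Module.finrank ℚ (W →ₗ[RR ℚ G] (Fin m → W)) = m * ee W := by
  let e : (W →ₗ[RR ℚ G] (Fin m → W)) ≃ₗ[ℚ] (Fin m → (W →ₗ[RR ℚ G] W)) :=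
    { toFun := fun φ i => (LinearMap.proj i) ∘ₗ φ
      map_add' := by intro φ ψ; rfl
      map_smul' := by intro a φ; rfl
      invFun := fun f => LinearMap.pi f
      left_inv := by intro φ; rfl
      right_inv := by intro f; rfl }
  rw [e.finrank_eq]
  exact ISA_fun (W →ₗ[RR ℚ G] W) m

lemma ISA_key {W : Submodule (RR ℚ G) (MM ℚ C)} (hW : IsSimpleModule (RR ℚ G) W) :
    ∃ m : ℕ, Nonempty (ic W ≃ₗ[RR ℚ G] (Fin m → W)) ∧ dd (ic W) = m * dd W ∧
      hh W = m * ee W := by
  obtain ⟨m, ⟨e⟩⟩ := (IsIsotypicOfType.isotypicComponent (RR ℚ G) (MM ℚ C) W).linearEquiv_fun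
  change ic W ≃ₗ[RR ℚ G] (Fin m → W) at e
  refine ⟨m, ⟨e⟩, ?_, ?_⟩
  · have h1 : dd (ic W) = Module.finrank ℚ (Fin m → W) :=
      (e.restrictScalars ℚ).finrank_eq
    rw [h1]
    exact ISA_fun W m
  · have htop : isotypicComponent (RR ℚ G) W W = ⊤ := by
      rw [eq_top_iff]
      have h1 : (⊤ : Submodule (RR ℚ G) W) ≤ isotypicComponent (RR ℚ G) W
          (⊤ : Submodule (RR ℚ G) W) := Submodule.le_isotypicComponent _
      rwa [(Submodule.topEquiv (R := RR ℚ G) (M := W)).isotypicComponent_eq] at h1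
    have hran : ∀ (φ : W →ₗ[RR ℚ G] MM ℚ C) (w : W), φ w ∈ ic W := by
      intro φ w
      have h1 := LinearMap.le_comap_isotypicComponent W φ
      rw [htop] at h1
      exact h1 (Submodule.mem_top (x := w))
    let e1 : (W →ₗ[RR ℚ G] MM ℚ C) ≃ₗ[ℚ] (W →ₗ[RR ℚ G] (Fin m → W)) :=
      { toFun := fun φ => e.toLinearMap ∘ₗ (φ.codRestrict (ic W) (hran φ))
        map_add' := by
          intro φ ψ
          ext1 w
          show e _ = e _ + e _
          rw [← map_add]
          rfl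
        map_smul' := by
          intro a φ
          ext1 w
          exact (e.restrictScalars ℚ).map_smul a ((φ.codRestrict (ic W) (hran φ)) w)
        invFun := fun ψ => (ic W).subtype ∘ₗ (e.symm.toLinearMap ∘ₗ ψ)
        left_inv := by
          intro φ
          ext1 w
          show ((e.symm (e _) : ic W) : MM ℚ C) = φ w
          rw [e.symm_apply_apply]
          rfl
        right_inv := by
          intro ψ
          ext1 w
          show e _ = ψ w
          have : (LinearMap.codRestrict (ic W) ((ic W).subtype ∘ₗ (e.symm.toLinearMap ∘ₗ ψ))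
              (hran _)) w = e.symm (ψ w) := by
            apply Subtype.ext
            rfl
          exact (congrArg e this).trans (e.apply_symm_apply _) }
    show Module.finrank ℚ (W →ₗ[RR ℚ G] MM ℚ C) = _
    rw [e1.finrank_eq, ISA_pi]

/-- ISB -/
theorem ic_dim_pr {W : Submodule (RR ℚ G) (MM ℚ C)} (hW : IsSimpleModule (RR ℚ G) W) :
    dd (ic W) * ee W = hh W * dd W := by
  obtain ⟨m, -, h1, h2⟩ := ISA_key hW
  rw [h1, h2]
  ring

/-- ISC -/
theorem two_ee_le_pr {W : Submodule (RR ℚ G) (MM ℚ C)} (hW : IsSimpleModule (RR ℚ G) W)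
    (h : ¬ IsSimpleModule (RR ℚ G) (ic W)) : 2 * ee W ≤ hh W := by
  obtain ⟨m, ⟨e⟩, h1, h2⟩ := ISA_key hW
  rw [h2]
  have hm : 2 ≤ m := by
    by_contra hm
    have hm' : m = 0 ∨ m = 1 := by omega
    rcases hm' with rfl | rfl
    · have h3 : ⊥ < ic W := bot_lt_isotypicComponent W
      have h4 : Nontrivial (ic W) := Submodule.nontrivial_iff_ne_bot.2 h3.ne'
      have h5 : Subsingleton (ic W) := e.toEquiv.subsingleton
      exact not_subsingleton _ h5
    · exact h (IsSimpleModule.congr (e.trans (LinearEquiv.funUnique (Fin 1) (RR ℚ G) W)))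
  exact Nat.mul_le_mul_right _ hm

end

end Pool.Agent.AAC

namespace Pool.Agent.AAC

alias iso_of_le := Pool.Agent.AAC.iso_of_le_pr
alias ic_dim := Pool.Agent.AAC.ic_dim_pr
alias two_ee_le := Pool.Agent.AAC.two_ee_le_pr

end Pool.Agent.AAC
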