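import Pool.Agent.Lib_helper7.AAC.Basic
import Pool.Agent.Lib_helper7.AACF.ISA

set_option autoImplicit false
set_option linter.unusedSectionVars false

/-!
# BRP
-/

namespace Pool.Agent.AAC.H80

open Finset Matrix

section

variable {G X : Type} [Group G] [Fintype G] [MulAction G X] [Fintype X] {C : Ctx G X}

/-- BRP: orthogonality gives a singular matrix -/
theorem det_eq_zero_pr {W : Submodule (RR ℚ G) (MM ℚ C)} (hW : IsSimpleModule (RR ℚ G) W)
    (D : MatRep C (dd W)) (b : Module.Basis (Fin (dd W)) ℚ W)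
    (hb : ∀ (i : Fin (dd W)) (y : G), MonoidAlgebra.of ℚ G y⁻¹ • (b i : MM ℚ C) =
        ∑ j, (D.ρ y i j : ℚ) • (b j : MM ℚ C)) (Φ : Finset X)
    (hΦ : ∃ W' ≤ ic W, IsSimpleModule (RR ℚ G) W' ∧ Perp Φ W') : (D.Msum Φ).det = 0 := by
  obtain ⟨W', hW'le, hW', hperp⟩ := hΦ
  obtain ⟨ψ⟩ := iso_of_le hW hW' hW'le
  set v : Fin (dd W) → MM ℚ C := fun i => (ψ (b i) : MM ℚ C) with hv
  -- equivariance
  have h1 : ∀ (i : Fin (dd W)) (y : G), MonoidAlgebra.of ℚ G y⁻¹ • (v i) =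
      ∑ j, (D.ρ y i j : ℚ) • v j := by
    intro i y
    have h2 : MonoidAlgebra.of ℚ G y⁻¹ • (b i) = ∑ j, (D.ρ y i j : ℚ) • b j := by
      apply Subtype.ext
      rw [Submodule.coe_smul, hb i y]
      simp
    have h3 := congrArg ψ h2
    rw [map_smul, map_sum] at h3
    have h4 := congrArg (fun w : W' => (w : MM ℚ C)) h3
    simp only [Submodule.coe_smul, AddSubmonoidClass.coe_finsetSum] at h4
    rw [hv]
    simp only
    rw [h4]
    refine Finset.sum_congr rfl fun j _ => ?_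
    rw [← LinearEquiv.restrictScalars_apply ℚ ψ, map_smul]
    rfl
  have h2 : ∀ (i : Fin (dd W)) (x : X), toFn ℚ C (v i) x =
      ∑ j, (D.R x i j : ℚ) * toFn ℚ C (v j) D.x₀ := by
    intro i x
    obtain ⟨y, rfl⟩ := C.tr D.x₀ x
    have h3 : toFn ℚ C (MonoidAlgebra.of ℚ G y⁻¹ • (v i)) D.x₀ =
        toFn ℚ C (∑ j, (D.ρ y i j : ℚ) • v j) D.x₀ := by rw [h1 i y]
    rw [toFn_of, inv_inv] at h3
    rw [h3, map_sum, Finset.sum_apply, D.hR, D.hx₀, mul_one]
    refine Finset.sum_congr rfl fun j _ => ?_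
    rw [map_smul, Pi.smul_apply, smul_eq_mul]
  set u : Fin (dd W) → ℚ := fun j => toFn ℚ C (v j) D.x₀ with hu
  have hu0 : u ≠ 0 := by
    intro hu0
    have hWnt : Nontrivial W := IsSimpleModule.nontrivial (RR ℚ G) W
    have hdd : 0 < dd W := by
      unfold dd
      exact Module.finrank_pos
    have h3 : v ⟨0, hdd⟩ = 0 := by
      apply toFn_inj
      funext x
      rw [h2, map_zero, Pi.zero_apply]
      refine Finset.sum_eq_zero fun j _ => ?_
      have := congrFun hu0 j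
      rw [hu] at this
      simp only [Pi.zero_apply] at this
      rw [this, mul_zero]
    have h4 : ψ (b ⟨0, hdd⟩) = 0 := Subtype.ext h3
    rw [LinearEquiv.map_eq_zero_iff] at h4
    exact b.ne_zero _ h4
  have h5 : ((D.Msum Φ).map (Int.cast : ℤ → ℚ)) *ᵥ u = 0 := by
    funext i
    have h6 := hperp (v i) (ψ (b i)).2
    rw [Finset.sum_congr rfl (fun x _ => h2 i x), Finset.sum_comm] at h6
    rw [Pi.zero_apply, ← h6, Matrix.mulVec, dotProduct]
    refine Finset.sum_congr rfl fun j _ => ?_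
    rw [← Finset.sum_mul, Matrix.map_apply, MatRep.Msum, Matrix.sum_apply]
    push_cast
    rfl
  have h6 : ((D.Msum Φ).map (Int.cast : ℤ → ℚ)).det = 0 :=
    Matrix.exists_mulVec_eq_zero_iff.1 ⟨u, hu0, h5⟩
  have h7 : (((D.Msum Φ).det : ℤ) : ℚ) = 0 := by
    rw [← h6]
    have := RingHom.map_det (Int.castRingHom ℚ) (D.Msum Φ)
    simpa using this
  exact_mod_cast h7

end

end Pool.Agent.AAC.H80

namespace Pool.Agent.AAC

alias det_eq_zero := Pool.Agent.AAC.H80.det_eq_zero_pr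

end Pool.Agent.AAC
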