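import Pool.Agent.Lib_helper7.AAC.Basic

set_option autoImplicit false
set_option linter.unusedSectionVars false

/-!
# Block BUP: Burnside's theorem for the reduction modulo `p`
-/

namespace Pool.Agent.AAC

open Finset Matrix

theorem BUP_rearr {R H ι κ : Type*} [CommRing R] [Fintype H] [Fintype ι] [Fintype κ]
    (n : R) (A : κ → ι → R) (g : H → R) (h : H → ι → κ → R) :
    ∑ b, ∑ j, A j b * (n * ∑ y, g y * h y b j) = ∑ y, (n * ∑ b, ∑ j, A j b * h y b j) * g y := by
  calc ∑ b, ∑ j, A j b * (n * ∑ y, g y * h y b j)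
      = ∑ b, ∑ j, ∑ y, n * (A j b * h y b j) * g y := by
        refine Finset.sum_congr rfl fun b _ => Finset.sum_congr rfl fun j _ => ?_
        rw [Finset.mul_sum, Finset.mul_sum]
        exact Finset.sum_congr rfl fun y _ => by ring
    _ = ∑ b, ∑ y, ∑ j, n * (A j b * h y b j) * g y :=
        Finset.sum_congr rfl fun b _ => Finset.sum_comm
    _ = ∑ y, ∑ b, ∑ j, n * (A j b * h y b j) * g y := Finset.sum_comm
    _ = _ := by
        refine Finset.sum_congr rfl fun y _ => ?_
        rw [Finset.mul_sum, Finset.sum_mul]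
        refine Finset.sum_congr rfl fun b _ => ?_
        rw [Finset.mul_sum, Finset.sum_mul]

section

variable {G X : Type} [Group G] [Fintype G] [MulAction G X] [Fintype X] {C : Ctx G X}

/-- Schur orthogonality for a finite group of rational matrices spanning all matrices -/
theorem BUP_schur {n : ℕ} {H : Type} [Group H] [Fintype H]
    (σ : H →* Matrix (Fin n) (Fin n) ℚ)
    (hspan : Submodule.span ℚ (Set.range σ) = ⊤) (a b i j : Fin n) :
    (n : ℚ) * ∑ y : H, σ y i a * σ y⁻¹ b j =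
      if a = b ∧ i = j then (Fintype.card H : ℚ) else 0 := by
  classical
  set T : Matrix (Fin n) (Fin n) ℚ := ∑ y : H, σ y * Matrix.single a b 1 * σ y⁻¹ with hT
  -- `T` commutes with the group
  have h1 : ∀ z : H, σ z * T = T * σ z := by
    intro z
    have h2 : σ z * T * σ z⁻¹ = T := by
      rw [hT, Finset.mul_sum, Finset.sum_mul]
      refine Fintype.sum_equiv (Equiv.mulLeft z) _ _ fun y => ?_
      rw [Equiv.coe_mulLeft, map_mul, _root_.mul_inv_rev, map_mul]
      simp only [mul_assoc]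
    have h3 : σ z⁻¹ * σ z = 1 := by rw [← map_mul, inv_mul_cancel, map_one]
    calc σ z * T = σ z * T * (σ z⁻¹ * σ z) := by rw [h3, mul_one]
      _ = (σ z * T * σ z⁻¹) * σ z := by simp only [mul_assoc]
      _ = T * σ z := by rw [h2]
  have h2 : ∀ A : Matrix (Fin n) (Fin n) ℚ, A * T = T * A := by
    intro A
    have hA : A ∈ Submodule.span ℚ (Set.range σ) := by rw [hspan]; trivial
    induction hA using Submodule.span_induction with
    | mem x hx => obtain ⟨z, rfl⟩ := hx; exact h1 z
    | zero => rw [zero_mul, mul_zero]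
    | add x y _ _ hx hy => rw [add_mul, mul_add, hx, hy]
    | smul c x _ hx => rw [smul_mul_assoc, mul_smul_comm, hx]
  obtain ⟨c, hc⟩ : T ∈ Set.range (Matrix.scalar (Fin n)) :=
    Matrix.mem_range_scalar_of_commute_single fun k l _ => h2 _
  -- trace
  have htr : (n : ℚ) * c = if a = b then (Fintype.card H : ℚ) else 0 := by
    have h3 : Matrix.trace T = (n : ℚ) * c := by
      rw [← hc, Matrix.scalar_apply, Matrix.trace_diagonal, Finset.sum_const, Finset.card_univ,
        Fintype.card_fin, nsmul_eq_mul]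
    rw [← h3, hT, Matrix.trace_sum]
    have h4 : ∀ y : H, Matrix.trace (σ y * Matrix.single a b 1 * σ y⁻¹) =
        if a = b then (1 : ℚ) else 0 := by
      intro y
      rw [Matrix.trace_mul_comm, ← mul_assoc, ← map_mul, inv_mul_cancel, map_one, one_mul]
      by_cases hab : a = b
      · subst hab
        rw [if_pos rfl, Matrix.trace_single_eq_same]
      · rw [if_neg hab, Matrix.trace_single_eq_of_ne _ _ _ hab]
    simp only [h4]
    rw [Finset.sum_const, Finset.card_univ, nsmul_eq_mul]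
    split_ifs <;> simp
  -- entries
  have hent : ∑ y : H, σ y i a * σ y⁻¹ b j = T i j := by
    rw [hT, Matrix.sum_apply]
    refine Finset.sum_congr rfl fun y _ => ?_
    rw [Matrix.mul_apply, Finset.sum_eq_single b]
    · rw [Matrix.mul_apply, Finset.sum_eq_single a]
      · simp
      · intro k _ hk
        rw [show Matrix.single a b (1 : ℚ) k b = 0 by
          rw [Matrix.single_apply, if_neg (fun h => hk h.1.symm)], mul_zero]
      · intro h; exact absurd (Finset.mem_univ _) h
    · intro k _ hk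
      rw [Matrix.mul_apply, Finset.sum_eq_zero, zero_mul]
      intro l _
      rw [show Matrix.single a b (1 : ℚ) l k = 0 by
          rw [Matrix.single_apply, if_neg (fun h => hk h.2.symm)], mul_zero]
    · intro h; exact absurd (Finset.mem_univ _) h
  rw [hent, ← hc, Matrix.scalar_apply, Matrix.diagonal_apply]
  by_cases hij : i = j
  · rw [if_pos hij, htr]
    simp [hij]
  · rw [if_neg hij, mul_zero]
    simp [hij]

/-- BUP: the reductions of the matrices span -/
theorem span_mod_pr {n : ℕ} (D : MatRep C n) (p : ℕ) [Fact p.Prime]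
    (hp : ¬ p ∣ Nat.card (Set.range D.ρ)) :
    Submodule.span (ZMod p) (Set.range (D.rm p)) = ⊤ := by
  classical
  -- the group of the matrices
  let τ : G →* (Matrix (Fin n) (Fin n) ℤ)ˣ := D.ρ.toHomUnits
  have hτ : ∀ y, ((τ y : (Matrix (Fin n) (Fin n) ℤ)ˣ) : Matrix (Fin n) (Fin n) ℤ) = D.ρ y :=
    fun y => rfl
  let H := τ.range
  have : Fintype H := Fintype.ofFinite H
  let σ : H →* Matrix (Fin n) (Fin n) ℚ :=
    (((Int.castRingHom ℚ).mapMatrix : Matrix (Fin n) (Fin n) ℤ →+* Matrix (Fin n) (Fin n) ℚ) :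
      Matrix (Fin n) (Fin n) ℤ →* Matrix (Fin n) (Fin n) ℚ).comp
      ((Units.coeHom (Matrix (Fin n) (Fin n) ℤ)).comp H.subtype)
  have hσ : ∀ y : H, σ y = ((y : (Matrix (Fin n) (Fin n) ℤ)ˣ) : Matrix (Fin n) (Fin n) ℤ).map
      (Int.cast : ℤ → ℚ) := fun y => rfl
  have hspan : Submodule.span ℚ (Set.range σ) = ⊤ := by
    rw [eq_top_iff, ← D.span]
    apply Submodule.span_mono
    rintro _ ⟨y, rfl⟩
    exact ⟨⟨τ y, y, rfl⟩, rfl⟩
  -- the cardinality
  have hcard : Fintype.card H = Nat.card (Set.range D.ρ) := by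
    rw [← Nat.card_eq_fintype_card]
    refine Nat.card_congr (Equiv.ofBijective (fun y : H =>
      (⟨((y : (Matrix (Fin n) (Fin n) ℤ)ˣ) : Matrix (Fin n) (Fin n) ℤ), by
        obtain ⟨x, hx⟩ := y.2
        exact ⟨x, by rw [← hx]; rfl⟩⟩ : Set.range D.ρ)) ⟨?_, ?_⟩)
    · intro y y' h
      exact Subtype.ext (Units.ext (congrArg Subtype.val h))
    · rintro ⟨_, x, rfl⟩
      exact ⟨⟨τ x, x, rfl⟩, rfl⟩
  -- integral orthogonality relations
  have horth : ∀ a b i j : Fin n, (n : ℤ) * ∑ y : H,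
      ((y : (Matrix (Fin n) (Fin n) ℤ)ˣ) : Matrix (Fin n) (Fin n) ℤ) i a *
        (((y⁻¹ : H) : (Matrix (Fin n) (Fin n) ℤ)ˣ) : Matrix (Fin n) (Fin n) ℤ) b j =
      if a = b ∧ i = j then (Fintype.card H : ℤ) else 0 := by
    intro a b i j
    have h1 := BUP_schur σ hspan a b i j
    have h2 : ((n : ℤ) : ℚ) * ((∑ y : H,
      ((y : (Matrix (Fin n) (Fin n) ℤ)ˣ) : Matrix (Fin n) (Fin n) ℤ) i a *
        (((y⁻¹ : H) : (Matrix (Fin n) (Fin n) ℤ)ˣ) : Matrix (Fin n) (Fin n) ℤ) b j : ℤ) : ℚ) =
      ((if a = b ∧ i = j then (Fintype.card H : ℤ) else 0 : ℤ) : ℚ) := by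
      rw [Int.cast_sum]
      simp only [Int.cast_mul, Int.cast_natCast]
      rw [show ((if a = b ∧ i = j then (Fintype.card H : ℤ) else 0 : ℤ) : ℚ) =
        if a = b ∧ i = j then (Fintype.card H : ℚ) else 0 by split_ifs <;> simp]
      exact h1
    exact_mod_cast h2
  rw [eq_top_iff]
  intro A _
  -- the multiple of `A`
  have hunit : ((Fintype.card H : ℕ) : ZMod p) ≠ 0 := by
    rw [Ne, ZMod.natCast_eq_zero_iff, hcard]
    exact hp
  have hA : ((Fintype.card H : ℕ) : ZMod p) • A = ∑ y : H,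
      ((n : ZMod p) * ∑ b, ∑ j, A j b *
        (((((y⁻¹ : H) : (Matrix (Fin n) (Fin n) ℤ)ˣ) : Matrix (Fin n) (Fin n) ℤ) b j : ℤ) : ZMod p)) •
      (((y : (Matrix (Fin n) (Fin n) ℤ)ˣ) : Matrix (Fin n) (Fin n) ℤ).map
        (Int.cast : ℤ → ZMod p)) := by
    ext i a
    rw [Matrix.smul_apply, Matrix.sum_apply]
    simp only [Matrix.smul_apply, Matrix.map_apply, smul_eq_mul]
    have h1 : ∀ b j : Fin n, (n : ZMod p) * ∑ y : H,
        (((((y : (Matrix (Fin n) (Fin n) ℤ)ˣ) : Matrix (Fin n) (Fin n) ℤ) i a : ℤ) : ZMod p) *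
        (((((y⁻¹ : H) : (Matrix (Fin n) (Fin n) ℤ)ˣ) : Matrix (Fin n) (Fin n) ℤ) b j : ℤ) : ZMod p)) =
        if a = b ∧ i = j then ((Fintype.card H : ℕ) : ZMod p) else 0 := by
      intro b j
      have h2 := congrArg (Int.cast : ℤ → ZMod p) (horth a b i j)
      rw [Int.cast_mul, Int.cast_sum] at h2
      simp only [Int.cast_mul, Int.cast_natCast] at h2
      rw [h2]
      split_ifs <;> simp
    calc ((Fintype.card H : ℕ) : ZMod p) * A i a
        = ∑ b, ∑ j, A j b * (if a = b ∧ i = j then ((Fintype.card H : ℕ) : ZMod p) else 0) := by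
          rw [Finset.sum_eq_single a, Finset.sum_eq_single i]
          · simp [mul_comm]
          · intro j _ hj
            rw [if_neg (fun h => hj h.2.symm), mul_zero]
          · intro h; exact absurd (Finset.mem_univ _) h
          · intro b _ hb
            refine Finset.sum_eq_zero fun j _ => ?_
            rw [if_neg (fun h => hb h.1.symm), mul_zero]
          · intro h; exact absurd (Finset.mem_univ _) h
      _ = ∑ b, ∑ j, A j b * ((n : ZMod p) * ∑ y : H,
        (((((y : (Matrix (Fin n) (Fin n) ℤ)ˣ) : Matrix (Fin n) (Fin n) ℤ) i a : ℤ) : ZMod p) *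
        (((((y⁻¹ : H) : (Matrix (Fin n) (Fin n) ℤ)ˣ) : Matrix (Fin n) (Fin n) ℤ) b j : ℤ) :
          ZMod p))) := by
          refine Finset.sum_congr rfl fun b _ => Finset.sum_congr rfl fun j _ => ?_
          rw [h1 b j]
      _ = _ := BUP_rearr _ (fun j b => A j b) _ _
  have hmem : ((Fintype.card H : ℕ) : ZMod p) • A ∈
      Submodule.span (ZMod p) (Set.range (D.rm p)) := by
    rw [hA]
    refine Submodule.sum_mem _ fun y _ => Submodule.smul_mem _ _ (Submodule.subset_span ?_)
    obtain ⟨x, hx⟩ := y.2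
    exact ⟨x, by rw [← hx]; rfl⟩
  have := Submodule.smul_mem _ (((Fintype.card H : ℕ) : ZMod p)⁻¹) hmem
  rwa [smul_smul, inv_mul_cancel₀ hunit, one_smul] at this

end

end Pool.Agent.AAC

namespace Pool.Agent.AAC

alias span_mod := Pool.Agent.AAC.span_mod_pr

end Pool.Agent.AAC
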