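import Pool.Agent.Lib_helper7.AAC.Basic
import Pool.Agent.Lib_helper7.AACF.IDX

set_option autoImplicit false
set_option linter.unusedSectionVars false
set_option linter.unusedVariables false

/-!
# HOM: homomorphisms of the reductions
-/

namespace Pool.Agent.AAC

open Finset

section

variable {G X : Type} [Group G] [Fintype G] [MulAction G X] [Fintype X] {C : Ctx G X}

/-- the action of `G` on the lattice -/
def hom_act (W : Submodule (RR ℚ G) (MM ℚ C)) (y : G) : lat W →ₗ[ℤ] lat W where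
  toFun f := ⟨fun x => f.1 (y⁻¹ • x), lat_smul f.2 y⁻¹⟩
  map_add' := by intro f f'; rfl
  map_smul' := by intro a f; rfl

lemma hom_act_apply (W : Submodule (RR ℚ G) (MM ℚ C)) (y : G) (f : lat W) (x : X) :
    (hom_act W y f).1 x = f.1 (y⁻¹ • x) := rfl

lemma hom_act_mul (W : Submodule (RR ℚ G) (MM ℚ C)) (y y' : G) (f : lat W) :
    hom_act W (y * y') f = hom_act W y (hom_act W y' f) := by
  apply Subtype.ext
  funext x
  rw [hom_act_apply, hom_act_apply, hom_act_apply, mul_inv_rev, mul_smul]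

lemma hom_act_one (W : Submodule (RR ℚ G) (MM ℚ C)) (f : lat W) : hom_act W 1 f = f := by
  apply Subtype.ext
  funext x
  rw [hom_act_apply, inv_one, one_smul]

/-- the lattice embedded into the space -/
def hom_io (W : Submodule (RR ℚ G) (MM ℚ C)) : lat W →ₗ[ℤ] W where
  toFun f := ⟨⟨fun x => (f.1 x : ℚ), fun x => by
      show ((f.1 (C.c x) : ℤ) : ℚ) = - ((f.1 x : ℤ) : ℚ)
      rw [lat_odd f.2]
      push_cast
      rfl⟩, by
      obtain ⟨v, hv, h⟩ := f.2
      have h1 : v = ⟨fun x => (f.1 x : ℚ), fun x => by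
        show ((f.1 (C.c x) : ℤ) : ℚ) = - ((f.1 x : ℤ) : ℚ)
        rw [lat_odd f.2]
        push_cast
        rfl⟩ := toFn_inj (funext h)
      rw [← h1]
      exact hv⟩
  map_add' := by
    intro f f'
    apply Subtype.ext
    apply toFn_inj
    funext x
    show (((f + f').1 x : ℤ) : ℚ) = ((f.1 x : ℤ) : ℚ) + ((f'.1 x : ℤ) : ℚ)
    rw [Submodule.coe_add, Pi.add_apply]
    push_cast
    rfl
  map_smul' := by
    intro a f
    apply Subtype.ext
    apply toFn_inj
    funext x
    have h1 : ∀ w : W, toFn ℚ C ((a • w : W) : MM ℚ C) x = a * toFn ℚ C (w : MM ℚ C) x := by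
      intro w
      rw [AddSubgroupClass.coe_zsmul, map_zsmul, Pi.smul_apply, zsmul_eq_mul]
    rw [RingHom.id_apply, h1]
    show (((a • f).1 x : ℤ) : ℚ) = (a : ℚ) * ((f.1 x : ℤ) : ℚ)
    rw [Submodule.coe_smul, Pi.smul_apply, smul_eq_mul]
    push_cast
    rfl

lemma hom_io_apply (W : Submodule (RR ℚ G) (MM ℚ C)) (f : lat W) (x : X) :
    toFn ℚ C (hom_io W f : MM ℚ C) x = (f.1 x : ℚ) := rfl

lemma hom_io_inj (W : Submodule (RR ℚ G) (MM ℚ C)) : Function.Injective (hom_io W) := by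
  intro f f' h
  apply Subtype.ext
  funext x
  have h1 := congrArg (fun w : W => toFn ℚ C (w : MM ℚ C) x) h
  simp only [hom_io_apply] at h1
  exact_mod_cast h1

lemma hom_io_act (W : Submodule (RR ℚ G) (MM ℚ C)) (y : G) (f : lat W) :
    hom_io W (hom_act W y f) = MonoidAlgebra.of ℚ G y • hom_io W f := by
  apply Subtype.ext
  apply toFn_inj
  funext x
  rw [Submodule.coe_smul, toFn_of, hom_io_apply, hom_io_apply, hom_act_apply]

/-- clearing denominators -/
lemma hom_clear (W : Submodule (RR ℚ G) (MM ℚ C)) (w : W) :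
    ∃ n : ℕ, 0 < n ∧ ∃ f : lat W, n • w = hom_io W f := by
  classical
  refine ⟨∏ x : X, (toFn ℚ C (w : MM ℚ C) x).den, Finset.prod_pos fun x _ => Rat.den_pos _, ?_⟩
  set n := ∏ x : X, (toFn ℚ C (w : MM ℚ C) x).den with hn
  have h1 : ∀ x : X, ∃ m : ℤ, (n : ℚ) * toFn ℚ C (w : MM ℚ C) x = m := by
    intro x
    refine ⟨(∏ x' ∈ Finset.univ.erase x, ((toFn ℚ C (w : MM ℚ C) x').den : ℤ)) *
      (toFn ℚ C (w : MM ℚ C) x).num, ?_⟩
    have h2 : (n : ℚ) = (∏ x' ∈ Finset.univ.erase x, ((toFn ℚ C (w : MM ℚ C) x').den : ℚ)) *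
        (toFn ℚ C (w : MM ℚ C) x).den := by
      rw [hn, Finset.prod_erase_mul _ _ (Finset.mem_univ x)]
      push_cast
      rfl
    have h3 : ((toFn ℚ C (w : MM ℚ C) x).den : ℚ) * toFn ℚ C (w : MM ℚ C) x =
        (toFn ℚ C (w : MM ℚ C) x).num := by
      exact Rat.den_mul_eq_num _
    rw [h2, mul_assoc, h3]
    push_cast
    rfl
  choose m hm using h1
  refine ⟨⟨m, n • (w : MM ℚ C), W.nsmul_mem w.2 n, fun x => ?_⟩, ?_⟩
  · rw [map_nsmul, Pi.smul_apply, nsmul_eq_mul, hm]
  · apply Subtype.ext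
    apply toFn_inj
    funext x
    rw [hom_io_apply, ← hm x]
    rw [AddSubmonoidClass.coe_nsmul, map_nsmul, Pi.smul_apply, nsmul_eq_mul]

lemma hom_unit {V : Type} [AddCommGroup V] [Module ℚ V] (n : nonZeroDivisors ℤ) :
    IsUnit (algebraMap ℤ (Module.End ℤ V) n) := by
  rw [Module.End.isUnit_iff]
  have hn : ((n : ℤ) : ℚ) ≠ 0 := by
    exact_mod_cast nonZeroDivisors.ne_zero n.2
  have h0 : ∀ v : V, (algebraMap ℤ (Module.End ℤ V) n) v = ((n : ℤ) : ℚ) • v := by
    intro v
    rw [Module.algebraMap_end_apply, Int.cast_smul_eq_zsmul]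
  constructor
  · intro v v' h
    rw [h0, h0] at h
    exact smul_right_injective V hn h
  · intro v
    refine ⟨((n : ℤ) : ℚ)⁻¹ • v, ?_⟩
    rw [h0, smul_smul, mul_inv_cancel₀ hn, one_smul]

instance hom_loc (W : Submodule (RR ℚ G) (MM ℚ C)) :
    IsLocalizedModule (nonZeroDivisors ℤ) (hom_io W) where
  map_units := hom_unit
  surj := by
    intro w
    obtain ⟨n, hn, f, hf⟩ := hom_clear W w
    refine ⟨⟨f, ⟨(n : ℤ), mem_nonZeroDivisors_of_ne_zero (by exact_mod_cast hn.ne')⟩⟩, ?_⟩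
    rw [← hf]
    show ((n : ℕ) : ℤ) • w = n • w
    exact natCast_zsmul w n
  exists_of_eq := by
    intro f f' h
    exact ⟨1, by rw [hom_io_inj W h]⟩

/-- linear maps commuting with the group are linear over the group algebra -/
lemma hom_lin {F : Type} [CommRing F] {U V : Type} [AddCommGroup U] [AddCommGroup V]
    [Module F U] [Module F V] [Module (RR F G) U] [Module (RR F G) V]
    [IsScalarTower F (RR F G) U] [IsScalarTower F (RR F G) V] (T : U →ₗ[F] V)
    (hT : ∀ (y : G) (v : U), T (MonoidAlgebra.of F G y • v) = MonoidAlgebra.of F G y • T v) :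
    ∃ T' : U →ₗ[RR F G] V, ∀ v, T' v = T v := by
  refine ⟨{ toFun := T, map_add' := T.map_add, map_smul' := ?_ }, fun v => rfl⟩
  intro r v
  rw [RingHom.id_apply]
  induction r using MonoidAlgebra.induction_on with
  | of g => exact hT g v
  | add a b ha hb => rw [add_smul, map_add, ha, hb, add_smul]
  | smul a b hb => rw [smul_assoc, map_smul, hb, smul_assoc]

/-- extension of an equivariant map of lattices -/
lemma hom_ext {W B : Submodule (RR ℚ G) (MM ℚ C)} (F : lat W →ₗ[ℤ] lat B)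
    (hF : ∀ (y : G) (f : lat W), F (hom_act W y f) = hom_act B y (F f)) :
    ∃ φ : W →ₗ[RR ℚ G] MM ℚ C, ∀ f : lat W, φ (hom_io W f) = (hom_io B (F f) : MM ℚ C) := by
  have h0 := hom_unit (V := MM ℚ C)
  let g : lat W →ₗ[ℤ] MM ℚ C :=
    ((B.subtype.restrictScalars ℤ).comp (hom_io B)).comp F
  let T := IsLocalizedModule.lift (nonZeroDivisors ℤ) (hom_io W) g h0
  have hT : ∀ f : lat W, T (hom_io W f) = (hom_io B (F f) : MM ℚ C) := fun f =>
    IsLocalizedModule.lift_apply (nonZeroDivisors ℤ) (hom_io W) g h0 f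
  let T' : W →ₗ[ℚ] MM ℚ C := T.toAddMonoidHom.toRatLinearMap
  have hT' : ∀ w, T' w = T w := fun w => rfl
  have h1 : ∀ (y : G) (v : W), T' (MonoidAlgebra.of ℚ G y • v) =
      MonoidAlgebra.of ℚ G y • T' v := by
    intro y v
    obtain ⟨n, hn, f, hf⟩ := hom_clear W v
    have h2 : n • T' (MonoidAlgebra.of ℚ G y • v) = n • (MonoidAlgebra.of ℚ G y • T' v) := by
      rw [← map_nsmul, smul_comm n, hf, smul_comm n, ← map_nsmul, hf, ← hom_io_act, hT', hT', hT,
        hT, hF, hom_io_act]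
      rfl
    have h3 : ((n : ℕ) : ℚ) ≠ 0 := by exact_mod_cast hn.ne'
    rw [← Nat.cast_smul_eq_nsmul ℚ n, ← Nat.cast_smul_eq_nsmul ℚ n] at h2
    exact smul_right_injective _ h3 h2
  obtain ⟨φ, hφ⟩ := hom_lin T' h1
  exact ⟨φ, fun f => by rw [hφ, hT', hT]⟩

/-- reduction of the lattice -/
def hom_pi (p : ℕ) (W : Submodule (RR ℚ G) (MM ℚ C)) : lat W →+ red p W where
  toFun f := ⟨⟨fun x => (f.1 x : ZMod p), fun x => by
      show ((f.1 (C.c x) : ℤ) : ZMod p) = - ((f.1 x : ℤ) : ZMod p)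
      rw [lat_odd f.2]
      push_cast
      rfl⟩, ⟨f.1, f.2, fun x => rfl⟩⟩
  map_zero' := by
    apply Subtype.ext
    apply toFn_inj
    funext x
    show (((0 : lat W).1 x : ℤ) : ZMod p) = 0
    simp
  map_add' := by
    intro f f'
    apply Subtype.ext
    apply toFn_inj
    funext x
    show (((f + f').1 x : ℤ) : ZMod p) = ((f.1 x : ℤ) : ZMod p) + ((f'.1 x : ℤ) : ZMod p)
    rw [Submodule.coe_add, Pi.add_apply]
    push_cast
    rfl

lemma hom_pi_apply (p : ℕ) (W : Submodule (RR ℚ G) (MM ℚ C)) (f : lat W) (x : X) :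
    toFn (ZMod p) C (hom_pi p W f : MM (ZMod p) C) x = (f.1 x : ZMod p) := rfl

lemma hom_pi_surj (p : ℕ) (W : Submodule (RR ℚ G) (MM ℚ C)) :
    Function.Surjective (hom_pi p W) := by
  rintro ⟨v, f, hf, h⟩
  refine ⟨⟨f, hf⟩, Subtype.ext (toFn_inj (funext fun x => ?_))⟩
  rw [hom_pi_apply]
  exact (h x).symm

lemma hom_pi_act (p : ℕ) (W : Submodule (RR ℚ G) (MM ℚ C)) (y : G) (f : lat W) :
    hom_pi p W (hom_act W y f) = MonoidAlgebra.of (ZMod p) G y • hom_pi p W f := by
  apply Subtype.ext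
  apply toFn_inj
  funext x
  rw [Submodule.coe_smul, toFn_of, hom_pi_apply, hom_pi_apply, hom_act_apply]

lemma hom_pi_ker (p : ℕ) [Fact p.Prime] (W : Submodule (RR ℚ G) (MM ℚ C)) (f : lat W)
    (h : hom_pi p W f = 0) : ∃ f' : lat W, f = p • f' := by
  have hp : (p : ℚ) ≠ 0 := by exact_mod_cast (Fact.out : p.Prime).ne_zero
  have h1 : ∀ x, ∃ m : ℤ, f.1 x = p * m := by
    intro x
    have h2 := congrArg (fun w : red p W => toFn (ZMod p) C (w : MM (ZMod p) C) x) h
    simp only [hom_pi_apply] at h2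
    have h3 : ((f.1 x : ℤ) : ZMod p) = 0 := h2
    exact (ZMod.intCast_zmod_eq_zero_iff_dvd _ p).1 h3
  choose m hm using h1
  obtain ⟨v, hv, h4⟩ := f.2
  refine ⟨⟨m, (MonoidAlgebra.single (1 : G) (p : ℚ)⁻¹) • v, W.smul_mem _ hv, fun x => ?_⟩, ?_⟩
  · have h5 : (MonoidAlgebra.single (1 : G) (p : ℚ)⁻¹) = (p : ℚ)⁻¹ • MonoidAlgebra.of ℚ G 1 := by
      rw [MonoidAlgebra.of_apply, MonoidAlgebra.smul_single, smul_eq_mul, mul_one]
    rw [h5, smul_assoc, map_one, one_smul, map_smul, Pi.smul_apply, h4, hm, smul_eq_mul]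
    push_cast
    field_simp
  · apply Subtype.ext
    funext x
    rw [AddSubmonoidClass.coe_nsmul, Pi.smul_apply, hm x]
    simp

instance hom_fin (p : ℕ) [Fact p.Prime] (W : Submodule (RR ℚ G) (MM ℚ C)) : Finite (red p W) :=
  inferInstance

/-- reduction of an equivariant map of lattices -/
lemma hom_red (p : ℕ) [Fact p.Prime] {W B : Submodule (RR ℚ G) (MM ℚ C)}
    (F : lat W →ₗ[ℤ] lat B)
    (hF : ∀ (y : G) (f : lat W), F (hom_act W y f) = hom_act B y (F f)) :
    ∃ φ : red p W →ₗ[RR (ZMod p) G] red p B, ∀ f : lat W,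
      φ (hom_pi p W f) = hom_pi p B (F f) := by
  obtain ⟨s, hs⟩ := (hom_pi_surj p W).hasRightInverse
  have h0 : ∀ f f' : lat W, hom_pi p W f = hom_pi p W f' →
      hom_pi p B (F f) = hom_pi p B (F f') := by
    intro f f' h
    obtain ⟨k, hk⟩ := hom_pi_ker p W (f - f') (by rw [map_sub, h, sub_self])
    have h1 : hom_pi p B (F (f - f')) = 0 := by
      rw [hk, map_nsmul, map_nsmul]
      apply Subtype.ext
      apply toFn_inj
      funext x
      rw [AddSubmonoidClass.coe_nsmul, map_nsmul, Pi.smul_apply, nsmul_eq_mul, CharP.cast_eq_zero,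
        zero_mul]
      rfl
    rw [map_sub, map_sub] at h1
    exact sub_eq_zero.1 h1
  let T : red p W →+ red p B := AddMonoidHom.mk' (fun v => hom_pi p B (F (s v))) (by
    intro v v'
    rw [← map_add, ← map_add]
    apply h0
    rw [hs, map_add, hs, hs])
  have hT : ∀ f : lat W, T (hom_pi p W f) = hom_pi p B (F f) := by
    intro f
    exact h0 _ _ (hs _)
  let T' : red p W →ₗ[ZMod p] red p B := T.toZModLinearMap p
  have hT' : ∀ v, T' v = T v := fun v => rfl
  obtain ⟨φ, hφ⟩ := hom_lin T' (by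
    intro y v
    obtain ⟨f, rfl⟩ := hom_pi_surj p W v
    rw [hT', hT', ← hom_pi_act, hT, hT, hF, hom_pi_act])
  exact ⟨φ, fun f => by rw [hφ, hT', hT]⟩

/-- conjugation -/
def hom_conj {W B : Submodule (RR ℚ G) (MM ℚ C)} (F : lat W →ₗ[ℤ] lat B) (y : G) :
    lat W →ₗ[ℤ] lat B := (hom_act B y).comp (F.comp (hom_act W y⁻¹))

lemma hom_conj_apply {W B : Submodule (RR ℚ G) (MM ℚ C)} (F : lat W →ₗ[ℤ] lat B) (y : G)
    (f : lat W) : hom_conj F y f = hom_act B y (F (hom_act W y⁻¹ f)) := rfl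

/-- the kernel acts trivially on the lattice -/
lemma hom_act_kr {W B : Submodule (RR ℚ G) (MM ℚ C)} (hWB : W ≤ B) {k : G} (hk : k ∈ kr B)
    (f : lat W) : hom_act W k f = f := by
  apply hom_io_inj W
  rw [hom_io_act]
  apply Subtype.ext
  rw [Submodule.coe_smul]
  exact hk _ (hWB (hom_io W f).2)

/-- every homomorphism of the reductions is the reduction of a homomorphism -/
lemma hom_lift (p : ℕ) [Fact p.Prime] {W B : Submodule (RR ℚ G) (MM ℚ C)}
    (hWB : W ≤ B) (hp : ¬ p ∣ (kr B).index) (φ : red p W →ₗ[RR (ZMod p) G] red p B) :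
    ∃ F : lat W →ₗ[ℤ] lat B,
      (∀ (y : G) (f : lat W), F (hom_act W y f) = hom_act B y (F f)) ∧
      ∀ f : lat W, φ (hom_pi p W f) = hom_pi p B (F f) := by
  classical
  have : Module.Free ℤ (lat W) := inferInstance
  have : Module.Projective ℤ (lat W) := inferInstance
  -- a lift
  obtain ⟨F₀, hF₀⟩ := Module.projective_lifting_property (R := ℤ)
    (hom_pi p B).toIntLinearMap ((φ.toAddMonoidHom.comp (hom_pi p W)).toIntLinearMap)
    (hom_pi_surj p B)
  have hF₁ : ∀ f, hom_pi p B (F₀ f) = φ (hom_pi p W f) := fun f => LinearMap.congr_fun hF₀ f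
  have : (kr B).Normal := kr_normal B
  have : Fintype (G ⧸ kr B) := Fintype.ofFinite _
  -- conjugates
  let cj : G ⧸ kr B → (lat W →ₗ[ℤ] lat B) := fun q => Quotient.liftOn' q (hom_conj F₀) (by
    intro a b hab
    rw [QuotientGroup.leftRel_apply] at hab
    obtain ⟨k, hk, hb⟩ : ∃ k ∈ kr B, b = a * k := ⟨a⁻¹ * b, hab, by group⟩
    subst hb
    apply LinearMap.ext
    intro f
    rw [hom_conj_apply, hom_conj_apply, hom_act_mul, mul_inv_rev, hom_act_mul W,
      hom_act_kr hWB (inv_mem hk), hom_act_kr le_rfl hk])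
  have hcj : ∀ a : G, cj (a : G ⧸ kr B) = hom_conj F₀ a := fun a => rfl
  have hcj' : ∀ (y : G) (q : G ⧸ kr B) (f : lat W),
      hom_act B y (cj q f) = cj (y • q) (hom_act W y f) := by
    intro y q f
    obtain ⟨a, rfl⟩ := QuotientGroup.mk_surjective q
    rw [MulAction.Quotient.smul_coe, hcj, hcj, hom_conj_apply, hom_conj_apply, smul_eq_mul,
      hom_act_mul, mul_inv_rev, ← hom_act_mul W (a⁻¹ * y⁻¹), inv_mul_cancel_right]
  have hred : ∀ (q : G ⧸ kr B) (f : lat W), hom_pi p B (cj q f) = φ (hom_pi p W f) := by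
    intro q f
    obtain ⟨a, rfl⟩ := QuotientGroup.mk_surjective q
    rw [hcj, hom_conj_apply, hom_pi_act, hF₁, hom_pi_act, map_smul, smul_smul, ← map_mul,
      mul_inv_cancel, map_one, one_smul]
  let F₂ : lat W →ₗ[ℤ] lat B := ∑ q, cj q
  have hF₂ : ∀ f, F₂ f = ∑ q, cj q f := fun f => LinearMap.sum_apply _ _ _
  have heq : ∀ (y : G) (f : lat W), F₂ (hom_act W y f) = hom_act B y (F₂ f) := by
    intro y f
    rw [hF₂, hF₂, map_sum, ← Equiv.sum_comp (MulAction.toPerm y : Equiv.Perm (G ⧸ kr B))]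
    exact Finset.sum_congr rfl fun q _ => (hcj' y q f).symm
  have hN : Fintype.card (G ⧸ kr B) = (kr B).index := by
    rw [Subgroup.index, Nat.card_eq_fintype_card]
  have hF₃ : ∀ f, hom_pi p B (F₂ f) = (kr B).index • φ (hom_pi p W f) := by
    intro f
    rw [hF₂, map_sum, Finset.sum_congr rfl (fun q _ => hred q f), Finset.sum_const,
      Finset.card_univ, hN]
  -- inverse of the index
  have hcop : IsCoprime ((kr B).index : ℤ) (p : ℤ) := by
    rw [Nat.isCoprime_iff_coprime]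
    exact ((Nat.Prime.coprime_iff_not_dvd Fact.out).2 hp).symm
  obtain ⟨a, b, hab⟩ := hcop
  refine ⟨a • F₂, fun y f => ?_, fun f => ?_⟩
  · rw [LinearMap.smul_apply, LinearMap.smul_apply, heq, map_smul]
  · rw [LinearMap.smul_apply, map_zsmul, hF₃, ← natCast_zsmul, smul_smul]
    have h1 : a * ((kr B).index : ℤ) = 1 - b * p := by linarith
    rw [h1, sub_smul, one_smul]
    have h2 : (b * (p : ℤ)) • φ (hom_pi p W f) = 0 := by
      rw [mul_smul]
      have h3 : ((p : ℕ) : ℤ) • φ (hom_pi p W f) = 0 := by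
        rw [natCast_zsmul]
        apply Subtype.ext
        apply toFn_inj
        funext x
        rw [AddSubmonoidClass.coe_nsmul, map_nsmul, Pi.smul_apply, nsmul_eq_mul, CharP.cast_eq_zero,
          zero_mul]
        rfl
      rw [h3, smul_zero]
    rw [h2, sub_zero]

/-- HOM -/
theorem card_hom_le_pr (p : ℕ) [Fact p.Prime] {W B : Submodule (RR ℚ G) (MM ℚ C)}
    (hWB : W ≤ B) (hp : ¬ p ∣ (kr B).index) :
    Nat.card (red p W →ₗ[RR (ZMod p) G] red p B) ≤ p ^ hh W := by
  classical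
  -- the equivariant maps of lattices
  let Λ : Submodule ℤ (lat W →ₗ[ℤ] lat B) :=
    { carrier := {F | ∀ (y : G) (f : lat W), F (hom_act W y f) = hom_act B y (F f)}
      add_mem' := by
        intro F F' h h' y f
        rw [LinearMap.add_apply, LinearMap.add_apply, h, h', map_add]
      zero_mem' := by
        intro y f
        rw [LinearMap.zero_apply, LinearMap.zero_apply, map_zero]
      smul_mem' := by
        intro a F h y f
        rw [LinearMap.smul_apply, LinearMap.smul_apply, h, map_smul] }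
  have hΛ : ∀ F, F ∈ Λ ↔ ∀ (y : G) (f : lat W), F (hom_act W y f) = hom_act B y (F f) :=
    fun F => Iff.rfl
  have : Module.Free ℤ (lat W) := inferInstance
  have : Module.Finite ℤ (lat W) := inferInstance
  have : Module.Free ℤ (lat B) := inferInstance
  have : Module.Finite ℤ (lat B) := inferInstance
  have : Module.Free ℤ (lat W →ₗ[ℤ] lat B) := inferInstance
  have : Module.Finite ℤ (lat W →ₗ[ℤ] lat B) := inferInstance
  have : Module.Free ℤ Λ := inferInstance
  have : Module.Finite ℤ Λ := inferInstance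
  let b := Module.finBasis ℤ Λ
  set r := Module.finrank ℤ Λ with hr
  -- extension
  have h1 : ∀ i : Fin r, ∃ φ : W →ₗ[RR ℚ G] MM ℚ C, ∀ f : lat W,
      φ (hom_io W f) = (hom_io B ((b i).1 f) : MM ℚ C) := fun i => hom_ext _ (b i).2
  choose E hE using h1
  have h2 : LinearIndependent ℤ E := by
    rw [Fintype.linearIndependent_iff]
    intro c hc
    have h3 : ∑ i, c i • b i = 0 := by
      apply Subtype.ext
      apply LinearMap.ext
      intro f
      apply hom_io_inj B
      apply Subtype.ext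
      have h4 := congrArg (fun φ : W →ₗ[RR ℚ G] MM ℚ C => φ (hom_io W f)) hc
      simp only [LinearMap.zero_apply, LinearMap.sum_apply, LinearMap.smul_apply, hE] at h4
      rw [Submodule.coe_sum, LinearMap.sum_apply, map_sum, Submodule.coe_sum]
      rw [show (((0 : Λ) : lat W →ₗ[ℤ] lat B) f) = 0 from rfl, map_zero, Submodule.coe_zero, ← h4]
      refine Finset.sum_congr rfl fun i _ => ?_
      rw [Submodule.coe_smul, LinearMap.smul_apply, map_smul, AddSubgroupClass.coe_zsmul]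
    exact Fintype.linearIndependent_iff.1 b.linearIndependent c h3
  have h5 : LinearIndependent ℚ E := (LinearIndependent.iff_fractionRing ℤ ℚ).1 h2
  have h6 : r ≤ hh W := by
    have h7 := h5.fintype_card_le_finrank
    rw [Fintype.card_fin] at h7
    exact h7
  -- reductions
  have h8 : ∀ i : Fin r, ∃ φ : red p W →ₗ[RR (ZMod p) G] red p B, ∀ f : lat W,
      φ (hom_pi p W f) = hom_pi p B ((b i).1 f) := fun i => hom_red p _ (b i).2
  choose D hD using h8
  have hp0 : ∀ φ : red p W →ₗ[RR (ZMod p) G] red p B, (p : ℤ) • φ = 0 := by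
    intro φ
    apply LinearMap.ext
    intro v
    rw [LinearMap.smul_apply, natCast_zsmul]
    apply Subtype.ext
    apply toFn_inj
    funext x
    rw [AddSubmonoidClass.coe_nsmul, map_nsmul, Pi.smul_apply, nsmul_eq_mul, CharP.cast_eq_zero,
      zero_mul]
    rfl
  let S : (Fin r → ZMod p) → (red p W →ₗ[RR (ZMod p) G] red p B) := fun c =>
    ∑ i, ((c i).val : ℤ) • D i
  have hS : Function.Surjective S := by
    intro φ
    obtain ⟨F, hF, hFφ⟩ := hom_lift p hWB hp φ
    let n := b.repr ⟨F, hF⟩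
    refine ⟨fun i => ((n i : ℤ) : ZMod p), ?_⟩
    have h9 : ∀ i, ((((n i : ℤ) : ZMod p).val : ℕ) : ℤ) • D i = n i • D i := by
      intro i
      have h10 : ∃ k : ℤ, ((((n i : ℤ) : ZMod p).val : ℕ) : ℤ) = n i + k * p := by
        have h11 : (p : ℤ) ∣ ((((n i : ℤ) : ZMod p).val : ℕ) : ℤ) - n i := by
          rw [← ZMod.intCast_zmod_eq_zero_iff_dvd]
          push_cast
          rw [ZMod.natCast_zmod_val, sub_self]
        obtain ⟨k, hk⟩ := h11
        exact ⟨k, by linarith⟩
      obtain ⟨k, hk⟩ := h10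
      rw [hk, add_smul, mul_smul, hp0, smul_zero, add_zero]
    show ∑ i, _ • D i = φ
    rw [Finset.sum_congr rfl fun i _ => h9 i]
    apply LinearMap.ext
    intro v
    obtain ⟨f, rfl⟩ := hom_pi_surj p W v
    rw [hFφ, LinearMap.sum_apply]
    have h12 : F = ∑ i, n i • (b i : lat W →ₗ[ℤ] lat B) := by
      have h13 := congrArg (fun Q : Λ => (Q : lat W →ₗ[ℤ] lat B)) (b.sum_repr ⟨F, hF⟩)
      simp only [Submodule.coe_sum, Submodule.coe_smul] at h13
      exact h13.symm
    conv_rhs => rw [h12]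
    rw [LinearMap.sum_apply, map_sum]
    refine Finset.sum_congr rfl fun i _ => ?_
    rw [LinearMap.smul_apply, LinearMap.smul_apply, hD, map_zsmul]
  have h14 := Nat.card_le_card_of_surjective S hS
  rw [Nat.card_eq_fintype_card (α := Fin r → ZMod p), Fintype.card_pi_const, ZMod.card] at h14
  exact h14.trans (Nat.pow_le_pow_right (Nat.Prime.pos Fact.out) h6)

end

end Pool.Agent.AAC

namespace Pool.Agent.AAC

alias card_hom_le := Pool.Agent.AAC.card_hom_le_pr

end Pool.Agent.AAC
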