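import Pool.Agent.Lib_helper7.AAC.Basic

set_option autoImplicit false
set_option linter.unusedSectionVars false

namespace Pool.Agent.Lib_helper38.AAC

open Finset Pool.Agent.AAC

/-- an additive map commuting with the group is linear over the group ring -/
theorem SEMI_lin {G : Type} [Group G] {V W : Type} [AddCommGroup V] [AddCommGroup W]
    [Module (MonoidAlgebra ℤ G) V] [Module (MonoidAlgebra ℤ G) W] (f : V →+ W)
    (h : ∀ (g : G) (v : V), f (MonoidAlgebra.of ℤ G g • v) = MonoidAlgebra.of ℤ G g • f v)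
    (r : MonoidAlgebra ℤ G) (v : V) : f (r • v) = r • f v := by
  induction r using MonoidAlgebra.induction_on generalizing v with
  | of g => exact h g v
  | add a b ha hb => rw [add_smul, map_add, ha, hb, add_smul]
  | smul a b hb => rw [smul_assoc, map_zsmul, hb, smul_assoc]

theorem semi_pr {G : Type} [Group G] [Finite G] (p : ℕ) [Fact p.Prime] {V : Type} [AddCommGroup V]
    [Module (MonoidAlgebra ℤ G) V] (hp : ∀ v : V, p • v = 0) (K : Subgroup G) [K.Normal]
    (hK : ¬ p ∣ K.index) (htriv : ∀ k ∈ K, ∀ v : V, MonoidAlgebra.of ℤ G k • v = v) :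
    IsSemisimpleModule (MonoidAlgebra ℤ G) V := by
  classical
  have : Finite (G ⧸ K) := inferInstance
  have : Fintype (G ⧸ K) := Fintype.ofFinite _
  have : Module (ZMod p) V := AddCommGroup.zmodModule hp
  have key : ∀ U : Submodule (MonoidAlgebra ℤ G) V, ∃ q : V →ₗ[MonoidAlgebra ℤ G] U,
      ∀ u : U, q u = u := by
    intro U
    -- additive projection
    obtain ⟨U', hU'⟩ : ∃ U' : Submodule (ZMod p) V, ∀ v : V, v ∈ U' ↔ v ∈ U :=
      ⟨AddSubgroup.toZModSubmodule p U.toAddSubgroup, fun v => by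
        rw [AddSubgroup.mem_toZModSubmodule]; exact Iff.rfl⟩
    obtain ⟨C, hC⟩ := Submodule.exists_isCompl U'
    obtain ⟨π0, hπ0⟩ : ∃ π0 : V →ₗ[ZMod p] (U' : Submodule (ZMod p) V), ∀ u : U', π0 u = u :=
      ⟨Submodule.projectionOnto U' C hC, fun u => Submodule.projectionOnto_apply_left hC u⟩
    let π : V → U := fun v => ⟨(π0 v : V), (hU' _).1 (π0 v).2⟩
    have hπadd : ∀ v w, π (v + w) = π v + π w := by
      intro v w
      apply Subtype.ext
      show ((π0 (v + w) : U') : V) = (π0 v : V) + (π0 w : V)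
      rw [map_add]
      rfl
    have hπu : ∀ u : U, π u = u := by
      intro u
      apply Subtype.ext
      show ((π0 (u : V) : U') : V) = u
      rw [hπ0 ⟨(u : V), (hU' _).2 u.2⟩]
    -- the translates of the projection
    let τ : G → V → U := fun t v =>
      MonoidAlgebra.of ℤ G t • π (MonoidAlgebra.of ℤ G t⁻¹ • v)
    have htrivU : ∀ k ∈ K, ∀ v : U, MonoidAlgebra.of ℤ G k • v = v := by
      intro k hk v
      apply Subtype.ext
      exact htriv k hk v
    have hτ : ∀ t k, k ∈ K → ∀ v, τ (t * k) v = τ t v := by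
      intro t k hk v
      show MonoidAlgebra.of ℤ G (t * k) • π (MonoidAlgebra.of ℤ G (t * k)⁻¹ • v) =
        MonoidAlgebra.of ℤ G t • π (MonoidAlgebra.of ℤ G t⁻¹ • v)
      rw [mul_inv_rev, map_mul, map_mul, mul_smul, mul_smul, htriv k⁻¹ (K.inv_mem hk),
        htrivU k hk]
    have hτeq : ∀ s t, (QuotientGroup.mk s : G ⧸ K) = QuotientGroup.mk t → ∀ v, τ s v = τ t v := by
      intro s t hst v
      have h1 : s⁻¹ * t ∈ K := QuotientGroup.eq.1 hst
      have h2 := hτ s (s⁻¹ * t) h1 v
      rw [mul_inv_cancel_left] at h2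
      exact h2.symm
    let σ : V → U := fun v => ∑ c : G ⧸ K, τ c.out v
    have hσadd : ∀ v w, σ (v + w) = σ v + σ w := by
      intro v w
      show ∑ c : G ⧸ K, τ c.out (v + w) = ∑ c : G ⧸ K, τ c.out v + ∑ c : G ⧸ K, τ c.out w
      rw [← Finset.sum_add_distrib]
      refine Finset.sum_congr rfl fun c _ => ?_
      show MonoidAlgebra.of ℤ G _ • π (_ • (v + w)) = _
      rw [smul_add, hπadd, smul_add]
    have hσG : ∀ (g : G) (v : V), σ (MonoidAlgebra.of ℤ G g • v) = MonoidAlgebra.of ℤ G g • σ v := by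
      intro g v
      show ∑ c : G ⧸ K, τ c.out (MonoidAlgebra.of ℤ G g • v) = _ • ∑ c : G ⧸ K, τ c.out v
      rw [Finset.smul_sum]
      have h1 : ∀ c : G ⧸ K, MonoidAlgebra.of ℤ G g • τ c.out v =
          τ (g • c).out (MonoidAlgebra.of ℤ G g • v) := by
        intro c
        have h2 : τ (g • c).out (MonoidAlgebra.of ℤ G g • v) =
            τ (g * c.out) (MonoidAlgebra.of ℤ G g • v) := by
          apply hτeq
          rw [QuotientGroup.out_eq']
          conv_lhs => rw [← QuotientGroup.out_eq' c]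
          rfl
        rw [h2]
        show _ • (MonoidAlgebra.of ℤ G c.out • π (MonoidAlgebra.of ℤ G (c.out)⁻¹ • v)) =
          MonoidAlgebra.of ℤ G (g * c.out) • π (MonoidAlgebra.of ℤ G (g * c.out)⁻¹ •
            MonoidAlgebra.of ℤ G g • v)
        rw [map_mul, mul_smul, ← mul_smul (MonoidAlgebra.of ℤ G (g * c.out)⁻¹), ← map_mul]
        congr 3
        rw [mul_inv_rev, inv_mul_cancel_right]
      rw [Finset.sum_congr rfl fun c _ => h1 c]
      exact (Equiv.sum_comp (MulAction.toPerm g : Equiv.Perm (G ⧸ K))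
        (fun c : G ⧸ K => τ c.out (MonoidAlgebra.of ℤ G g • v))).symm
    have hσu : ∀ u : U, σ u = K.index • u := by
      intro u
      show ∑ c : G ⧸ K, τ c.out (u : V) = _
      have h1 : ∀ c : G ⧸ K, τ c.out (u : V) = u := by
        intro c
        show MonoidAlgebra.of ℤ G c.out • π (MonoidAlgebra.of ℤ G (c.out)⁻¹ • (u : V)) = u
        have h2 : MonoidAlgebra.of ℤ G (c.out)⁻¹ • (u : V) =
            ((MonoidAlgebra.of ℤ G (c.out)⁻¹ • u : U) : V) := rfl
        rw [h2, hπu, ← mul_smul, ← map_mul, mul_inv_cancel, map_one, one_smul]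
      rw [Finset.sum_congr rfl fun c _ => h1 c, Finset.sum_const, Finset.card_univ,
        Subgroup.index, Nat.card_eq_fintype_card]
    -- invert the index
    have hcop : Nat.Coprime K.index p :=
      ((Nat.Prime.coprime_iff_not_dvd (Fact.out : p.Prime)).2 hK).symm
    obtain ⟨m, hm⟩ : ∃ m : ℕ, ∃ l : ℕ, m * K.index = 1 + p * l := by
      have : NeZero p := ⟨(Fact.out : p.Prime).ne_zero⟩
      have hu : ((K.index : ℕ) : ZMod p) ≠ 0 := by
        rw [Ne, ZMod.natCast_eq_zero_iff]
        exact hK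
      refine ⟨((K.index : ZMod p)⁻¹).val, ?_⟩
      have h1 : ((((K.index : ZMod p)⁻¹).val * K.index : ℕ) : ZMod p) = ((1 : ℕ) : ZMod p) := by
        push_cast
        rw [ZMod.natCast_zmod_val, inv_mul_cancel₀ hu]
      rw [ZMod.natCast_eq_natCast_iff] at h1
      have hp1 : 1 < p := (Fact.out : p.Prime).one_lt
      have h2 : (((K.index : ZMod p)⁻¹).val * K.index) % p = 1 := by
        have := h1
        unfold Nat.ModEq at this
        rwa [Nat.mod_eq_of_lt hp1] at this
      refine ⟨(((K.index : ZMod p)⁻¹).val * K.index) / p, ?_⟩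
      have := Nat.mod_add_div (((K.index : ZMod p)⁻¹).val * K.index) p
      rw [h2] at this
      exact this.symm
    obtain ⟨l, hl⟩ := hm
    let ψ : V →+ U := AddMonoidHom.mk' (fun v => m • σ v) (fun v w => by
      show m • σ (v + w) = m • σ v + m • σ w
      rw [hσadd, smul_add])
    have hψ : ∀ (g : G) (v : V), ψ (MonoidAlgebra.of ℤ G g • v) = MonoidAlgebra.of ℤ G g • ψ v := by
      intro g v
      show m • σ (_ • v) = _ • (m • σ v)
      rw [hσG, smul_comm]
    refine ⟨{ toFun := ψ, map_add' := map_add ψ, map_smul' := fun r v => SEMI_lin ψ hψ r v }, ?_⟩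
    intro u
    show m • σ (u : V) = u
    rw [hσu, smul_smul, hl, add_smul, one_smul, mul_comm, mul_smul]
    have h0 : p • u = 0 := Subtype.ext (hp (u : V))
    rw [h0, smul_zero, add_zero]
  rw [isSemisimpleModule_iff]
  refine ⟨fun U => ?_⟩
  obtain ⟨q, hq⟩ := key U
  exact ⟨LinearMap.ker q, LinearMap.isCompl_of_proj hq⟩

end Pool.Agent.Lib_helper38.AAC

namespace Pool.Agent.AAC

alias semi := Pool.Agent.Lib_helper38.AAC.semi_pr

end Pool.Agent.AAC
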