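import Pool.Agent.Lib_helper7.AAC.Basic
import Pool.Agent.Lib_helper7.AACF.SEMI

set_option autoImplicit false
set_option linter.unusedSectionVars false

namespace Pool.Agent.Lib_helper38.AAC

open Finset Pool.Agent.AAC

section

variable {R : Type} [Ring R]

theorem BN_split {M S Q : Type} [AddCommGroup M] [AddCommGroup S] [AddCommGroup Q] [Module R M]
    [Module R S] [Module R Q] (hM : IsSemisimpleModule R M) (f : S →ₗ[R] M) (g : M →ₗ[R] Q)
    (hf : Function.Injective f) (hg : Function.Surjective g)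
    (h : LinearMap.range f = LinearMap.ker g) : Nonempty (M ≃ₗ[R] S × Q) := by
  obtain ⟨C, hC⟩ := exists_isCompl (LinearMap.range f)
  let e1 : S ≃ₗ[R] LinearMap.range f := LinearEquiv.ofInjective f hf
  let e2 : (M ⧸ LinearMap.range f) ≃ₗ[R] C := Submodule.quotientEquivOfIsCompl _ _ hC
  let e3 : (M ⧸ LinearMap.range f) ≃ₗ[R] Q :=
    (Submodule.quotEquivOfEq _ _ h).trans (g.quotKerEquivOfSurjective hg)
  exact ⟨(Submodule.prodEquivOfIsCompl _ _ hC).symm.trans
    (LinearEquiv.prodCongr e1.symm (e2.symm.trans e3))⟩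

theorem BN_mem {p : ℕ} {L : Type} [AddCommGroup L] [Module R L] {v : L} :
    v ∈ pMul R p L ↔ ∃ w : L, p • w = v := Iff.rfl

end

theorem BN_main {G : Type} [Group G] [Finite G] (p : ℕ) [Fact p.Prime] (K : Subgroup G) [K.Normal]
    (hK : ¬ p ∣ K.index) (n : ℕ) : ∀ (A B : Type) [AddCommGroup A] [AddCommGroup B]
    [Module (MonoidAlgebra ℤ G) A] [Module (MonoidAlgebra ℤ G) B]
    (i : A →ₗ[MonoidAlgebra ℤ G] B), Function.Injective i → (∀ b : B, p • b = 0 → b = 0) →
    (∀ k ∈ K, ∀ v : B, MonoidAlgebra.of ℤ G k • v = v) → Finite (B ⧸ LinearMap.range i) →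
    Nat.card (B ⧸ LinearMap.range i) = n →
    Nonempty ((B ⧸ pMul (MonoidAlgebra ℤ G) p B) ≃ₗ[MonoidAlgebra ℤ G]
      (A ⧸ pMul (MonoidAlgebra ℤ G) p A)) := by
  induction n using Nat.strong_induction_on with
  | _ n ih =>
  intro A B _ _ _ _ i hi htf htriv hfin hcard
  by_cases htop : LinearMap.range i ⊔ pMul (MonoidAlgebra ℤ G) p B = ⊤
  · -- the natural map is an isomorphism
    have hle : pMul (MonoidAlgebra ℤ G) p A ≤ (pMul (MonoidAlgebra ℤ G) p B).comap i := by
      rintro _ ⟨w, rfl⟩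
      refine ⟨i w, ?_⟩
      show p • i w = i (p • w)
      rw [map_nsmul]
    let φ : (A ⧸ pMul (MonoidAlgebra ℤ G) p A) →ₗ[MonoidAlgebra ℤ G]
      (B ⧸ pMul (MonoidAlgebra ℤ G) p B) := Submodule.mapQ _ _ i hle
    have hsurjp : Function.Surjective (fun q : B ⧸ LinearMap.range i => p • q) := by
      intro q
      obtain ⟨b, rfl⟩ := Submodule.Quotient.mk_surjective _ q
      have hb : b ∈ LinearMap.range i ⊔ pMul (MonoidAlgebra ℤ G) p B := by rw [htop]; trivial
      obtain ⟨x, hx, y, ⟨w, hw⟩, hxy⟩ := Submodule.mem_sup.1 hb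
      refine ⟨Submodule.Quotient.mk w, ?_⟩
      show p • (Submodule.Quotient.mk w : B ⧸ LinearMap.range i) = _
      rw [← Submodule.Quotient.mk_smul, Submodule.Quotient.eq]
      have hw' : p • w = y := hw
      have : p • w - b = -x := by rw [hw', ← hxy]; abel
      rw [this]
      exact Submodule.neg_mem _ hx
    have hinjp : Function.Injective (fun q : B ⧸ LinearMap.range i => p • q) :=
      Finite.injective_iff_surjective.2 hsurjp
    have hinj : Function.Injective φ := by
      rw [injective_iff_map_eq_zero]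
      intro q hq
      obtain ⟨a, rfl⟩ := Submodule.Quotient.mk_surjective _ q
      have h1 : (Submodule.Quotient.mk (i a) : B ⧸ pMul (MonoidAlgebra ℤ G) p B) = 0 := hq
      rw [Submodule.Quotient.mk_eq_zero] at h1
      obtain ⟨b, hb⟩ := h1
      have hb' : p • b = i a := hb
      have h2 : (fun q : B ⧸ LinearMap.range i => p • q) (Submodule.Quotient.mk b) =
          (fun q : B ⧸ LinearMap.range i => p • q) 0 := by
        show p • (Submodule.Quotient.mk b : B ⧸ LinearMap.range i) = p • 0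
        rw [smul_zero, ← Submodule.Quotient.mk_smul, hb', Submodule.Quotient.mk_eq_zero]
        exact ⟨a, rfl⟩
      have h3 := hinjp h2
      rw [Submodule.Quotient.mk_eq_zero] at h3
      obtain ⟨a', ha'⟩ := h3
      rw [Submodule.Quotient.mk_eq_zero]
      refine ⟨a', ?_⟩
      show p • a' = a
      apply hi
      rw [map_nsmul, ha', hb']
    have hsurj : Function.Surjective φ := by
      intro q
      obtain ⟨b, rfl⟩ := Submodule.Quotient.mk_surjective _ q
      have hb : b ∈ LinearMap.range i ⊔ pMul (MonoidAlgebra ℤ G) p B := by rw [htop]; trivial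
      obtain ⟨x, ⟨a, ha⟩, y, hy, hxy⟩ := Submodule.mem_sup.1 hb
      refine ⟨Submodule.Quotient.mk a, ?_⟩
      show (Submodule.Quotient.mk (i a) : B ⧸ pMul (MonoidAlgebra ℤ G) p B) = _
      rw [Submodule.Quotient.eq, ha]
      have : x - b = -y := by rw [← hxy]; abel
      rw [this]
      exact Submodule.neg_mem _ hy
    exact ⟨(LinearEquiv.ofBijective φ ⟨hinj, hsurj⟩).symm⟩
  · -- one step
    obtain ⟨L2, hL2⟩ : ∃ L2 : Submodule (MonoidAlgebra ℤ G) B,
      L2 = LinearMap.range i ⊔ pMul (MonoidAlgebra ℤ G) p B := ⟨_, rfl⟩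
    have hr : LinearMap.range i ≤ L2 := by rw [hL2]; exact le_sup_left
    have hpB : pMul (MonoidAlgebra ℤ G) p B ≤ L2 := by rw [hL2]; exact le_sup_right
    rw [← hL2] at htop
    let j : A →ₗ[MonoidAlgebra ℤ G] L2 := i.codRestrict L2 fun a => hr ⟨a, rfl⟩
    have hj : Function.Injective j := fun a b hab => hi (congrArg Subtype.val hab)
    have htf2 : ∀ b : L2, p • b = 0 → b = 0 := by
      intro b hb
      apply Subtype.ext
      exact htf b (congrArg Subtype.val hb)
    have htriv2 : ∀ k ∈ K, ∀ v : L2, MonoidAlgebra.of ℤ G k • v = v := by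
      intro k hk v
      apply Subtype.ext
      exact htriv k hk v
    have hle2 : LinearMap.range j ≤ (LinearMap.range i).comap L2.subtype := by
      rintro _ ⟨a, rfl⟩
      exact ⟨a, rfl⟩
    let θ : (L2 ⧸ LinearMap.range j) →ₗ[MonoidAlgebra ℤ G] (B ⧸ LinearMap.range i) :=
      Submodule.mapQ _ _ L2.subtype hle2
    have hθinj : Function.Injective θ := by
      rw [injective_iff_map_eq_zero]
      intro q hq
      obtain ⟨b, rfl⟩ := Submodule.Quotient.mk_surjective _ q
      have h1 : (Submodule.Quotient.mk (b : B) : B ⧸ LinearMap.range i) = 0 := hq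
      rw [Submodule.Quotient.mk_eq_zero] at h1
      obtain ⟨a, ha⟩ := h1
      rw [Submodule.Quotient.mk_eq_zero]
      exact ⟨a, Subtype.ext ha⟩
    have hfin2 : Finite (L2 ⧸ LinearMap.range j) := Finite.of_injective θ hθinj
    have hθns : ¬ Function.Surjective θ := by
      intro hs
      apply htop
      rw [eq_top_iff]
      intro b _
      obtain ⟨q, hq⟩ := hs (Submodule.Quotient.mk b)
      obtain ⟨b', rfl⟩ := Submodule.Quotient.mk_surjective _ q
      have h1 : (Submodule.Quotient.mk (b' : B) : B ⧸ LinearMap.range i) =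
        Submodule.Quotient.mk b := hq
      rw [Submodule.Quotient.eq] at h1
      have h2 := L2.sub_mem b'.2 (hr h1)
      rwa [sub_sub_cancel] at h2
    have hlt : Nat.card (L2 ⧸ LinearMap.range j) < n := by
      rw [← hcard]
      refine lt_of_le_of_ne (Nat.card_le_card_of_injective θ hθinj) fun h => ?_
      exact hθns ((Nat.bijective_iff_injective_and_card θ).2 ⟨hθinj, h⟩).2
    obtain ⟨e0⟩ := ih _ hlt A L2 j hj htf2 htriv2 hfin2 rfl
    -- the two semisimple modules
    have hkillB : ∀ v : B ⧸ pMul (MonoidAlgebra ℤ G) p B, p • v = 0 := by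
      intro v
      obtain ⟨b, rfl⟩ := Submodule.Quotient.mk_surjective _ v
      rw [← Submodule.Quotient.mk_smul, Submodule.Quotient.mk_eq_zero]
      exact ⟨b, rfl⟩
    have hkillL : ∀ v : L2 ⧸ pMul (MonoidAlgebra ℤ G) p L2, p • v = 0 := by
      intro v
      obtain ⟨b, rfl⟩ := Submodule.Quotient.mk_surjective _ v
      rw [← Submodule.Quotient.mk_smul, Submodule.Quotient.mk_eq_zero]
      exact ⟨b, rfl⟩
    have hsB : IsSemisimpleModule (MonoidAlgebra ℤ G) (B ⧸ pMul (MonoidAlgebra ℤ G) p B) := by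
      refine semi p hkillB K hK fun k hk v => ?_
      obtain ⟨b, rfl⟩ := Submodule.Quotient.mk_surjective _ v
      rw [← Submodule.Quotient.mk_smul, htriv k hk]
    have hsL : IsSemisimpleModule (MonoidAlgebra ℤ G) (L2 ⧸ pMul (MonoidAlgebra ℤ G) p L2) := by
      refine semi p hkillL K hK fun k hk v => ?_
      obtain ⟨b, rfl⟩ := Submodule.Quotient.mk_surjective _ v
      rw [← Submodule.Quotient.mk_smul, htriv2 k hk]
    obtain ⟨P2, hP2⟩ : ∃ P2 : Submodule (MonoidAlgebra ℤ G) L2,
      P2 = (pMul (MonoidAlgebra ℤ G) p B).comap L2.subtype := ⟨_, rfl⟩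
    have memP2 : ∀ x : L2, x ∈ P2 ↔ ∃ w : B, p • w = (x : B) := by
      intro x
      rw [hP2]
      exact Iff.rfl
    -- first sequence
    let f1 : (L2 ⧸ P2) →ₗ[MonoidAlgebra ℤ G] (B ⧸ pMul (MonoidAlgebra ℤ G) p B) :=
      Submodule.mapQ _ _ L2.subtype (le_of_eq hP2)
    let g1 : (B ⧸ pMul (MonoidAlgebra ℤ G) p B) →ₗ[MonoidAlgebra ℤ G] (B ⧸ L2) :=
      Submodule.factor hpB
    have hf1 : Function.Injective f1 := by
      rw [injective_iff_map_eq_zero]
      intro q hq
      obtain ⟨b, rfl⟩ := Submodule.Quotient.mk_surjective _ q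
      have h1 : (Submodule.Quotient.mk (b : B) : B ⧸ pMul (MonoidAlgebra ℤ G) p B) = 0 := hq
      rw [Submodule.Quotient.mk_eq_zero] at h1
      rw [Submodule.Quotient.mk_eq_zero, memP2]
      exact h1
    have hg1 : Function.Surjective g1 := by
      intro q
      obtain ⟨b, rfl⟩ := Submodule.Quotient.mk_surjective _ q
      exact ⟨Submodule.Quotient.mk b, rfl⟩
    have h1 : LinearMap.range f1 = LinearMap.ker g1 := by
      ext q
      obtain ⟨b, rfl⟩ := Submodule.Quotient.mk_surjective _ q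
      rw [LinearMap.mem_range, LinearMap.mem_ker]
      have e : g1 (Submodule.Quotient.mk b) = Submodule.Quotient.mk b := rfl
      rw [e, Submodule.Quotient.mk_eq_zero]
      constructor
      · rintro ⟨q', hq'⟩
        obtain ⟨b', rfl⟩ := Submodule.Quotient.mk_surjective _ q'
        have h2 : (Submodule.Quotient.mk (b' : B) : B ⧸ pMul (MonoidAlgebra ℤ G) p B) =
          Submodule.Quotient.mk b := hq'
        rw [Submodule.Quotient.eq] at h2
        have h3 := L2.sub_mem b'.2 (hpB h2)
        rwa [sub_sub_cancel] at h3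
      · intro hb
        exact ⟨Submodule.Quotient.mk ⟨b, hb⟩, rfl⟩
    obtain ⟨E1⟩ := BN_split hsB f1 g1 hf1 hg1 h1
    -- second sequence
    let f20 : B →ₗ[MonoidAlgebra ℤ G] (L2 ⧸ pMul (MonoidAlgebra ℤ G) p L2) :=
      { toFun := fun b => Submodule.Quotient.mk ⟨p • b, hpB ⟨b, rfl⟩⟩
        map_add' := by
          intro b b'
          rw [← Submodule.Quotient.mk_add]
          congr 1
          apply Subtype.ext
          show p • (b + b') = p • b + p • b'
          rw [smul_add]
        map_smul' := by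
          intro r b
          rw [RingHom.id_apply, ← Submodule.Quotient.mk_smul]
          congr 1
          apply Subtype.ext
          show p • (r • b) = r • (p • b)
          rw [smul_comm] }
    have hf20 : ∀ b : B, f20 b = 0 ↔ b ∈ L2 := by
      intro b
      show (Submodule.Quotient.mk (⟨p • b, hpB ⟨b, rfl⟩⟩ : L2) :
        L2 ⧸ pMul (MonoidAlgebra ℤ G) p L2) = 0 ↔ _
      rw [Submodule.Quotient.mk_eq_zero]
      constructor
      · rintro ⟨w, hw⟩
        have h2 : p • (w : B) = p • b := congrArg Subtype.val hw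
        have h3 : p • ((w : B) - b) = 0 := by rw [smul_sub, h2, sub_self]
        have h4 := htf _ h3
        rw [sub_eq_zero] at h4
        rw [← h4]
        exact w.2
      · intro hb
        exact ⟨⟨b, hb⟩, rfl⟩
    let f2 : (B ⧸ L2) →ₗ[MonoidAlgebra ℤ G] (L2 ⧸ pMul (MonoidAlgebra ℤ G) p L2) :=
      Submodule.liftQ L2 f20 fun b hb => (hf20 b).2 hb
    have hle3 : pMul (MonoidAlgebra ℤ G) p L2 ≤ P2 := by
      rintro x ⟨w, hw⟩
      rw [memP2]
      exact ⟨w, congrArg Subtype.val hw⟩
    let g2 : (L2 ⧸ pMul (MonoidAlgebra ℤ G) p L2) →ₗ[MonoidAlgebra ℤ G] (L2 ⧸ P2) :=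
      Submodule.factor hle3
    have hf2 : Function.Injective f2 := by
      rw [injective_iff_map_eq_zero]
      intro q hq
      obtain ⟨b, rfl⟩ := Submodule.Quotient.mk_surjective _ q
      rw [Submodule.Quotient.mk_eq_zero, ← hf20]
      exact hq
    have hg2 : Function.Surjective g2 := by
      intro q
      obtain ⟨b, rfl⟩ := Submodule.Quotient.mk_surjective _ q
      exact ⟨Submodule.Quotient.mk b, rfl⟩
    have h2 : LinearMap.range f2 = LinearMap.ker g2 := by
      ext q
      obtain ⟨b, rfl⟩ := Submodule.Quotient.mk_surjective _ q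
      rw [LinearMap.mem_range, LinearMap.mem_ker]
      have e : g2 (Submodule.Quotient.mk b) = Submodule.Quotient.mk b := rfl
      rw [e, Submodule.Quotient.mk_eq_zero, memP2]
      constructor
      · rintro ⟨q', hq'⟩
        obtain ⟨b', rfl⟩ := Submodule.Quotient.mk_surjective _ q'
        have h3 : (Submodule.Quotient.mk (⟨p • b', hpB ⟨b', rfl⟩⟩ : L2) :
          L2 ⧸ pMul (MonoidAlgebra ℤ G) p L2) = Submodule.Quotient.mk b := hq'
        rw [Submodule.Quotient.eq] at h3
        obtain ⟨w, hw⟩ := h3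
        have h4 : p • (w : B) = p • b' - (b : B) := congrArg Subtype.val hw
        refine ⟨b' - w, ?_⟩
        rw [smul_sub, h4, sub_sub_cancel]
      · rintro ⟨w, hw⟩
        refine ⟨Submodule.Quotient.mk w, ?_⟩
        show (Submodule.Quotient.mk (⟨p • w, hpB ⟨w, rfl⟩⟩ : L2) :
          L2 ⧸ pMul (MonoidAlgebra ℤ G) p L2) = _
        congr 1
        exact Subtype.ext hw
    obtain ⟨E2⟩ := BN_split hsL f2 g2 hf2 hg2 h2
    exact ⟨((E1.trans (LinearEquiv.prodComm _ _ _)).trans E2.symm).trans e0⟩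

theorem brauer_nesbitt_pr {G : Type} [Group G] [Finite G] (p : ℕ) [Fact p.Prime] {L : Type}
    [AddCommGroup L] [Module (MonoidAlgebra ℤ G) L] [Module.Free ℤ L] [Module.Finite ℤ L]
    (K : Subgroup G) [K.Normal] (hK : ¬ p ∣ K.index)
    (htriv : ∀ k ∈ K, ∀ v : L, MonoidAlgebra.of ℤ G k • v = v)
    (L₁ : Submodule (MonoidAlgebra ℤ G) L) (N : ℕ) (hN : 0 < N) (hL₁ : ∀ v : L, N • v ∈ L₁) :
    Nonempty ((L ⧸ pMul (MonoidAlgebra ℤ G) p L) ≃ₗ[MonoidAlgebra ℤ G]
      (L₁ ⧸ pMul (MonoidAlgebra ℤ G) p L₁)) := by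
  have hp0 : p ≠ 0 := (Fact.out : p.Prime).ne_zero
  have htf : ∀ b : L, p • b = 0 → b = 0 := by
    intro b hb
    have h1 : (p : ℤ) • b = 0 := by rw [natCast_zsmul]; exact hb
    rcases smul_eq_zero.1 h1 with h | h
    · exact absurd (by exact_mod_cast h) hp0
    · exact h
  have hfin : Finite (L ⧸ LinearMap.range L₁.subtype) := by
    rw [Submodule.range_subtype]
    -- finitely generated and killed by `N`
    let π : L →+ (L ⧸ L₁) := (L₁.mkQ).toAddMonoidHom
    have hfg : AddGroup.FG (L ⧸ L₁) := by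
      have : AddGroup.FG L := (Module.Finite.iff_addGroup_fg (G := L)).1 inferInstance
      exact AddGroup.fg_of_surjective (f := π) (Submodule.mkQ_surjective _)
    have htor : AddMonoid.IsTorsion (L ⧸ L₁) := by
      intro q
      rw [isOfFinAddOrder_iff_nsmul_eq_zero]
      refine ⟨N, hN, ?_⟩
      obtain ⟨b, rfl⟩ := Submodule.Quotient.mk_surjective _ q
      rw [← Submodule.Quotient.mk_smul, Submodule.Quotient.mk_eq_zero]
      exact hL₁ b
    exact AddCommGroup.finite_of_fg_torsion _ htor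
  exact BN_main p K hK _ L₁ L L₁.subtype L₁.injective_subtype htf htriv hfin rfl

end Pool.Agent.Lib_helper38.AAC

namespace Pool.Agent.AAC

alias brauer_nesbitt := Pool.Agent.Lib_helper38.AAC.brauer_nesbitt_pr

end Pool.Agent.AAC
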