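import Pool.Agent.Lib_helper7.AAC.Basic
import Pool.Agent.Lib_helper7.AACF.BN
import Pool.Agent.Lib_helper7.AACF.IDX

set_option autoImplicit false
set_option linter.unusedSectionVars false

/-!
# Block ISO: isomorphic submodules have isomorphic reductions
-/

namespace Pool.Agent.AAC

open Finset

/-- an additive equivariant map is linear over the group algebra -/
lemma iso_up {G : Type} [Group G] {F : Type} [CommRing F] {A B : Type} [AddCommGroup A]
    [AddCommGroup B] [Module F A] [Module F B] [Module (RR F G) A] [Module (RR F G) B]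
    [IsScalarTower F (RR F G) A] [IsScalarTower F (RR F G) B] (f : A →+ B)
    (hF : ∀ (a : F) (u : A), f (a • u) = a • f u)
    (h : ∀ (y : G) (u : A), f (MonoidAlgebra.of F G y • u) = MonoidAlgebra.of F G y • f u)
    (r : RR F G) (u : A) : f (r • u) = r • f u := by
  induction r using MonoidAlgebra.induction_on generalizing u with
  | of g => exact h g u
  | add a b ha hb => rw [add_smul, map_add, ha, hb, add_smul]
  | smul a b hb => rw [smul_assoc, hF, hb, smul_assoc]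

section

variable {G X : Type} [Group G] [MulAction G X] [Fintype X] {C : Ctx G X}

/-- the lattice as a module over the integral group ring -/
noncomputable def iso_L (W : Submodule (RR ℚ G) (MM ℚ C)) : Submodule (RR ℤ G) (MM ℤ C) :=
  mkSub (F := ℤ) ((lat W).comap (toFn ℤ C)) (by
    intro y v hv
    have h1 : toFn ℤ C (MonoidAlgebra.of ℤ G y • v) = fun x => toFn ℤ C v (y⁻¹ • x) := by
      funext x
      rw [toFn_of]
    show toFn ℤ C (MonoidAlgebra.of ℤ G y • v) ∈ lat W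
    rw [h1]
    exact lat_smul hv y⁻¹)

lemma mem_iso_L {W : Submodule (RR ℚ G) (MM ℚ C)} {v : MM ℤ C} :
    v ∈ iso_L W ↔ toFn ℤ C v ∈ lat W := Iff.rfl

lemma iso_ex (W : Submodule (RR ℚ G) (MM ℚ C)) (f : iso_L W) :
    ∃ v : W, ∀ x, toFn ℚ C v.1 x = (toFn ℤ C f.1 x : ℚ) := by
  obtain ⟨v, hv, h⟩ := mem_iso_L.1 f.2
  exact ⟨⟨v, hv⟩, h⟩

lemma iso_denv (v : MM ℚ C) : ∃ N : ℕ, 0 < N ∧ ∀ x, ∃ m : ℤ, (N : ℚ) * toFn ℚ C v x = m := by
  classical
  refine ⟨∏ x, (toFn ℚ C v x).den, Finset.prod_pos fun x _ => (toFn ℚ C v x).den_pos,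
    fun x => ?_⟩
  rw [← Finset.mul_prod_erase _ _ (Finset.mem_univ x)]
  refine ⟨(∏ x' ∈ Finset.univ.erase x, ((toFn ℚ C v x').den : ℤ)) * (toFn ℚ C v x).num, ?_⟩
  push_cast
  have h1 := Rat.den_mul_eq_num (toFn ℚ C v x)
  rw [← h1]
  ring

lemma iso_den {W W' : Submodule (RR ℚ G) (MM ℚ C)} (φ : W ≃ₗ[RR ℚ G] W') :
    ∃ N : ℕ, 0 < N ∧ ∀ (f : X → ℤ) (v : W), (∀ x, toFn ℚ C v.1 x = (f x : ℚ)) →
      ∀ x, ∃ m : ℤ, (N : ℚ) * toFn ℚ C (φ v).1 x = m := by
  classical
  obtain ⟨S, hS⟩ := IsNoetherian.noetherian (lat W)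
  have h1 : ∀ f : X → ℤ, ∃ N : ℕ, 0 < N ∧ ∀ v : W, (∀ x, toFn ℚ C v.1 x = (f x : ℚ)) →
      ∀ x, ∃ m : ℤ, (N : ℚ) * toFn ℚ C (φ v).1 x = m := by
    intro f
    by_cases h : ∃ v : W, ∀ x, toFn ℚ C v.1 x = (f x : ℚ)
    · obtain ⟨v, hv⟩ := h
      obtain ⟨N, hN, hm⟩ := iso_denv (φ v).1
      refine ⟨N, hN, fun v' hv' => ?_⟩
      have h2 : v' = v := Subtype.ext (toFn_inj (funext fun x => by rw [hv, hv']))
      rw [h2]
      exact hm
    · exact ⟨1, one_pos, fun v hv => absurd ⟨v, hv⟩ h⟩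
  choose N hN hm using h1
  refine ⟨∏ s ∈ S, N s, Finset.prod_pos fun s _ => hN s, fun f v hv => ?_⟩
  have hf : f ∈ Submodule.span ℤ (S : Set (X → ℤ)) := by
    rw [hS]
    exact ⟨v.1, v.2, hv⟩
  have key : ∀ f ∈ Submodule.span ℤ (S : Set (X → ℤ)), ∀ v : W,
      (∀ x, toFn ℚ C v.1 x = (f x : ℚ)) →
      ∀ x, ∃ m : ℤ, ((∏ s ∈ S, N s : ℕ) : ℚ) * toFn ℚ C (φ v).1 x = m := by
    intro f hf
    induction hf using Submodule.span_induction with
    | mem s hs =>
      intro v hv x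
      obtain ⟨m, hm1⟩ := hm s v hv x
      rw [← Finset.mul_prod_erase _ _ (Finset.mem_coe.1 hs)]
      refine ⟨(∏ s' ∈ S.erase s, (N s' : ℤ)) * m, ?_⟩
      push_cast
      rw [← hm1]
      ring
    | zero =>
      intro v hv x
      have h2 : v = 0 := Subtype.ext (toFn_inj (funext fun x => by rw [hv]; simp))
      exact ⟨0, by rw [h2]; simp⟩
    | add a b ha hb iha ihb =>
      intro v hv x
      rw [hS] at ha hb
      obtain ⟨va, hva, ha1⟩ := ha
      obtain ⟨vb, hvb, hb1⟩ := hb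
      have h2 : v = ⟨va, hva⟩ + ⟨vb, hvb⟩ := Subtype.ext (toFn_inj (funext fun x => by
        rw [hv]
        show ((a x + b x : ℤ) : ℚ) = toFn ℚ C (va + vb) x
        rw [map_add, Pi.add_apply, ha1, hb1]
        push_cast
        rfl))
      obtain ⟨ma, hma⟩ := iha ⟨va, hva⟩ ha1 x
      obtain ⟨mb, hmb⟩ := ihb ⟨vb, hvb⟩ hb1 x
      refine ⟨ma + mb, ?_⟩
      rw [h2, map_add, Submodule.coe_add, map_add, Pi.add_apply, mul_add, hma, hmb]
      push_cast
      rfl
    | smul c a ha iha =>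
      intro v hv x
      rw [hS] at ha
      obtain ⟨va, hva, ha1⟩ := ha
      have h2 : v = c • ⟨va, hva⟩ := Subtype.ext (toFn_inj (funext fun x => by
        rw [hv]
        show ((c * a x : ℤ) : ℚ) = toFn ℚ C (c • va) x
        rw [map_zsmul, Pi.smul_apply, ha1]
        push_cast
        rw [zsmul_eq_mul]))
      obtain ⟨ma, hma⟩ := iha ⟨va, hva⟩ ha1 x
      refine ⟨c * ma, ?_⟩
      rw [h2, map_zsmul]
      have h3 : ((c • φ ⟨va, hva⟩ : W') : MM ℚ C) = c • ((φ ⟨va, hva⟩ : W') : MM ℚ C) := rfl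
      rw [h3, map_zsmul, Pi.smul_apply, zsmul_eq_mul, Int.cast_mul, ← hma]
      ring
  exact key f hf v hv

/-- the map of the lattices -/
lemma iso_map {W W' : Submodule (RR ℚ G) (MM ℚ C)} (φ : W ≃ₗ[RR ℚ G] W') :
    ∃ N : ℕ, 0 < N ∧ ∃ ψ : iso_L W →ₗ[RR ℤ G] iso_L W',
      ∀ (f : iso_L W) (v : W), (∀ x, toFn ℚ C v.1 x = (toFn ℤ C f.1 x : ℚ)) →
        ∀ x, (toFn ℤ C (ψ f).1 x : ℚ) = N * toFn ℚ C (φ v).1 x := by
  classical
  obtain ⟨N, hN, h⟩ := iso_den φ
  refine ⟨N, hN, ?_⟩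
  have h1 : ∀ f : iso_L W, ∃ f' : iso_L W', ∀ v : W,
      (∀ x, toFn ℚ C v.1 x = (toFn ℤ C f.1 x : ℚ)) →
        ∀ x, (toFn ℤ C f'.1 x : ℚ) = N * toFn ℚ C (φ v).1 x := by
    intro f
    obtain ⟨v, hv⟩ := iso_ex W f
    choose m hm using h (toFn ℤ C f.1) v hv
    obtain ⟨w, hw⟩ := exists_toFn (C := C) (F := ℤ) (f := m) (by
      intro x
      have h2 : ((m (C.c x) : ℤ) : ℚ) = ((-m x : ℤ) : ℚ) := by
        rw [← hm, toFn_odd, Int.cast_neg, ← hm]
        ring
      exact_mod_cast h2)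
    refine ⟨⟨w, mem_iso_L.2 ?_⟩, fun v' hv' x => ?_⟩
    · rw [hw]
      refine ⟨(N : ℚ) • (φ v).1, Submodule.smul_of_tower_mem W' _ (φ v).2, fun x => ?_⟩
      rw [map_smul, Pi.smul_apply, smul_eq_mul, hm]
    · have h2 : v' = v := Subtype.ext (toFn_inj (funext fun x => by rw [hv, hv']))
      rw [h2, hm, hw]
  choose F hF using h1
  have hadd : ∀ a b, F (a + b) = F a + F b := by
    intro a b
    obtain ⟨va, ha⟩ := iso_ex W a
    obtain ⟨vb, hb⟩ := iso_ex W b
    apply Subtype.ext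
    apply toFn_inj
    funext x
    have h2 := hF (a + b) (va + vb) (fun x => by
      rw [Submodule.coe_add, map_add, Pi.add_apply, ha, hb, Submodule.coe_add, map_add,
        Pi.add_apply]
      push_cast
      rfl) x
    have h3 := hF a va ha x
    have h4 := hF b vb hb x
    have h5 : ((toFn ℤ C (F (a + b)).1 x : ℤ) : ℚ) =
        ((toFn ℤ C (F a).1 x + toFn ℤ C (F b).1 x : ℤ) : ℚ) := by
      push_cast
      rw [h2, h3, h4, map_add, Submodule.coe_add, map_add, Pi.add_apply]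
      ring
    have h6 : toFn ℤ C (F (a + b)).1 x = toFn ℤ C (F a).1 x + toFn ℤ C (F b).1 x := by
      exact_mod_cast h5
    rw [h6, Submodule.coe_add, map_add, Pi.add_apply]
  let F' : iso_L W →+ iso_L W' := AddMonoidHom.mk' F hadd
  have hG : ∀ (y : G) (u : iso_L W), F' (MonoidAlgebra.of ℤ G y • u) =
      MonoidAlgebra.of ℤ G y • F' u := by
    intro y u
    obtain ⟨v, hv⟩ := iso_ex W u
    apply Subtype.ext
    apply toFn_inj
    funext x
    have h2 := hF (MonoidAlgebra.of ℤ G y • u) (MonoidAlgebra.of ℚ G y • v) (fun x => by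
      rw [Submodule.coe_smul, Submodule.coe_smul, toFn_of, toFn_of, hv]) x
    have h5 : ((toFn ℤ C (F (MonoidAlgebra.of ℤ G y • u)).1 x : ℤ) : ℚ) =
        ((toFn ℤ C (MonoidAlgebra.of ℤ G y • (F u).1) x : ℤ) : ℚ) := by
      rw [h2, map_smul, Submodule.coe_smul, toFn_of, toFn_of, hF u v hv]
    exact_mod_cast h5
  refine ⟨{ toFun := F', map_add' := F'.map_add, map_smul' := fun r u => ?_ }, hF⟩
  exact iso_up (F := ℤ) F' (fun a u => map_zsmul F' a u) hG r u

/-- the reduction as a module over the integral group ring -/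
def iso_R (p : ℕ) (W : Submodule (RR ℚ G) (MM ℚ C)) : Type := red p W

noncomputable instance iso_R_add (p : ℕ) (W : Submodule (RR ℚ G) (MM ℚ C)) :
    AddCommGroup (iso_R p W) := inferInstanceAs (AddCommGroup (red p W))

/-- forget the synonym -/
def iso_out {p : ℕ} {W : Submodule (RR ℚ G) (MM ℚ C)} (v : iso_R p W) : red p W := v

noncomputable instance iso_R_mod (p : ℕ) (W : Submodule (RR ℚ G) (MM ℚ C)) :
    Module (RR ℤ G) (iso_R p W) :=
  Module.compHom (red p W) (MonoidAlgebra.mapRingHom G (Int.castRingHom (ZMod p)))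

lemma iso_R_of (p : ℕ) (W : Submodule (RR ℚ G) (MM ℚ C)) (y : G) (v : iso_R p W) :
    iso_out (MonoidAlgebra.of ℤ G y • v) = MonoidAlgebra.of (ZMod p) G y • iso_out v := by
  have h1 : (MonoidAlgebra.mapRingHom G (Int.castRingHom (ZMod p))) (MonoidAlgebra.of ℤ G y) =
      MonoidAlgebra.of (ZMod p) G y := by
    rw [MonoidAlgebra.of_apply, MonoidAlgebra.of_apply, MonoidAlgebra.mapRingHom_single]
    simp
  rw [← h1]
  rfl

lemma iso_out_ext {p : ℕ} {W : Submodule (RR ℚ G) (MM ℚ C)} {v w : iso_R p W}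
    (h : ∀ x, toFn (ZMod p) C (iso_out v).1 x = toFn (ZMod p) C (iso_out w).1 x) : v = w :=
  Subtype.ext (toFn_inj (funext h))

lemma iso_out_add {p : ℕ} {W : Submodule (RR ℚ G) (MM ℚ C)} (v w : iso_R p W) :
    iso_out (v + w) = iso_out v + iso_out w := rfl

lemma iso_out_nsmul {p : ℕ} {W : Submodule (RR ℚ G) (MM ℚ C)} (n : ℕ) (v : iso_R p W) :
    iso_out (n • v) = n • iso_out v := rfl

lemma iso_out_zero {p : ℕ} {W : Submodule (RR ℚ G) (MM ℚ C)} :
    iso_out (0 : iso_R p W) = 0 := rfl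

/-- saturation -/
lemma iso_sat {p : ℕ} (hp : p ≠ 0) {W : Submodule (RR ℚ G) (MM ℚ C)} {f : X → ℤ} (hf : f ∈ lat W)
    (h : ∀ x, (p : ℤ) ∣ f x) : ∃ f' ∈ lat W, f = (p : ℤ) • f' := by
  choose f' hf' using h
  obtain ⟨w, hw, hwf⟩ := hf
  refine ⟨f', ⟨(p : ℚ)⁻¹ • w, ?_, fun x => ?_⟩, ?_⟩
  · exact Submodule.smul_of_tower_mem W _ hw
  · rw [map_smul, Pi.smul_apply, hwf, hf']
    have : (p : ℚ) ≠ 0 := by exact_mod_cast hp
    push_cast
    rw [smul_eq_mul]
    field_simp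
  · funext x
    rw [hf']
    rfl

lemma iso_mem_pMul {S : Type} [Ring S] {p : ℕ} {L : Type} [AddCommGroup L] [Module S L] {v : L} :
    v ∈ pMul S p L ↔ ∃ w : L, p • w = v := Iff.rfl

/-- the lattice modulo `p` is the reduction -/
lemma iso_red (p : ℕ) [Fact p.Prime] (W : Submodule (RR ℚ G) (MM ℚ C)) :
    Nonempty ((iso_L W ⧸ pMul (RR ℤ G) p (iso_L W)) ≃ₗ[RR ℤ G] iso_R p W) := by
  classical
  have hp : p.Prime := Fact.out
  have hex : ∀ f : iso_L W, ∃ v : iso_R p W, ∀ x, toFn (ZMod p) C (iso_out v).1 x =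
      (toFn ℤ C f.1 x : ZMod p) := by
    intro f
    obtain ⟨v, hv⟩ := exists_toFn (C := C) (f := fun x => (toFn ℤ C f.1 x : ZMod p)) (by
      intro x
      rw [toFn_odd]
      push_cast
      rfl)
    exact ⟨⟨v, mem_red.2 ⟨toFn ℤ C f.1, mem_iso_L.1 f.2, fun x => by rw [hv]⟩⟩, fun x => by
      show toFn (ZMod p) C v x = _
      rw [hv]⟩
  choose v hv using hex
  have hadd : ∀ a b, v (a + b) = v a + v b := by
    intro a b
    apply iso_out_ext
    intro x
    rw [iso_out_add, Submodule.coe_add, map_add, Pi.add_apply, hv, hv, hv, Submodule.coe_add,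
      map_add, Pi.add_apply]
    push_cast
    rfl
  let v' : iso_L W →+ iso_R p W := AddMonoidHom.mk' v hadd
  have hG : ∀ (y : G) (u : iso_L W), v' (MonoidAlgebra.of ℤ G y • u) =
      MonoidAlgebra.of ℤ G y • v' u := by
    intro y u
    apply iso_out_ext
    intro x
    rw [iso_R_of]
    show toFn (ZMod p) C (iso_out (v (MonoidAlgebra.of ℤ G y • u))).1 x =
      toFn (ZMod p) C (MonoidAlgebra.of (ZMod p) G y • (iso_out (v u)).1) x
    rw [hv, toFn_of, hv, Submodule.coe_smul, toFn_of]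
  let ψ : iso_L W →ₗ[RR ℤ G] iso_R p W :=
    { toFun := v', map_add' := v'.map_add, map_smul' := fun r u =>
        iso_up (F := ℤ) v' (fun a u => map_zsmul v' a u) hG r u }
  have hψ : ∀ f x, toFn (ZMod p) C (iso_out (ψ f)).1 x = (toFn ℤ C f.1 x : ZMod p) := hv
  have hsurj : Function.Surjective ψ := by
    intro w
    obtain ⟨f, hf, hfw⟩ := mem_red.1 (iso_out w).2
    obtain ⟨u, hu⟩ := exists_toFn (C := C) (F := ℤ) (f := f) (fun x => lat_odd hf x)
    have hu' : u ∈ iso_L W := mem_iso_L.2 (by rw [hu]; exact hf)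
    refine ⟨⟨u, hu'⟩, ?_⟩
    apply iso_out_ext
    intro x
    rw [hψ, hfw]
    show ((toFn ℤ C u x : ℤ) : ZMod p) = _
    rw [hu]
  have hker : LinearMap.ker ψ = pMul (RR ℤ G) p (iso_L W) := by
    ext f
    rw [LinearMap.mem_ker, iso_mem_pMul]
    constructor
    · intro h0
      have h1 : ∀ x, (p : ℤ) ∣ toFn ℤ C f.1 x := by
        intro x
        rw [← ZMod.intCast_zmod_eq_zero_iff_dvd, ← hψ f x, h0, iso_out_zero]
        show toFn (ZMod p) C 0 x = 0
        rw [map_zero]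
        rfl
      obtain ⟨f', hf', hff⟩ := iso_sat hp.ne_zero (mem_iso_L.1 f.2) h1
      obtain ⟨u, hu⟩ := exists_toFn (C := C) (F := ℤ) (f := f') (fun x => lat_odd hf' x)
      have hu' : u ∈ iso_L W := mem_iso_L.2 (by rw [hu]; exact hf')
      refine ⟨⟨u, hu'⟩, ?_⟩
      apply Subtype.ext
      apply toFn_inj
      show toFn ℤ C (p • u) = toFn ℤ C f.1
      rw [map_nsmul, hu, hff, natCast_zsmul]
    · rintro ⟨w, rfl⟩
      rw [map_nsmul]
      apply iso_out_ext
      intro x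
      rw [iso_out_nsmul, iso_out_zero]
      show toFn (ZMod p) C (p • (iso_out (ψ w)).1) x = toFn (ZMod p) C 0 x
      rw [map_nsmul, map_zero, Pi.smul_apply, nsmul_eq_mul, CharP.cast_eq_zero, zero_mul]
      rfl
  exact ⟨(Submodule.quotEquivOfEq _ _ hker.symm).trans (ψ.quotKerEquivOfSurjective hsurj)⟩

lemma iso_pMul_map {S : Type} [Ring S] (p : ℕ) {L L' : Type} [AddCommGroup L] [Module S L]
    [AddCommGroup L'] [Module S L'] (e : L ≃ₗ[S] L') :
    (pMul S p L).map (e : L →ₗ[S] L') = pMul S p L' := by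
  ext v
  rw [Submodule.mem_map]
  constructor
  · rintro ⟨w, hw, rfl⟩
    obtain ⟨u, rfl⟩ := iso_mem_pMul.1 hw
    exact iso_mem_pMul.2 ⟨e u, by simp⟩
  · intro hv
    obtain ⟨u, rfl⟩ := iso_mem_pMul.1 hv
    exact ⟨p • e.symm u, iso_mem_pMul.2 ⟨_, rfl⟩, by simp⟩

lemma iso_quot_range {S : Type} [Ring S] (p : ℕ) {L L' : Type} [AddCommGroup L] [Module S L]
    [AddCommGroup L'] [Module S L'] (ψ : L →ₗ[S] L') (hψ : Function.Injective ψ) :
    Nonempty ((L ⧸ pMul S p L) ≃ₗ[S]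
      (LinearMap.range ψ ⧸ pMul S p (LinearMap.range ψ))) :=
  ⟨Submodule.Quotient.equiv _ _ (LinearEquiv.ofInjective ψ hψ)
    (iso_pMul_map p (LinearEquiv.ofInjective ψ hψ))⟩

end

section

variable {G X : Type} [Group G] [Fintype G] [MulAction G X] [Fintype X] {C : Ctx G X}

/-- ISO -/
theorem red_iso_pr (p : ℕ) [Fact p.Prime] {W W' : Submodule (RR ℚ G) (MM ℚ C)}
    (hp : ¬ p ∣ (kr W).index) (h : Nonempty (W ≃ₗ[RR ℚ G] W')) :
    Nonempty (red p W ≃ₗ[RR (ZMod p) G] red p W') := by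
  classical
  obtain ⟨φ⟩ := h
  obtain ⟨N, hN, ψ, hψ⟩ := iso_map φ
  obtain ⟨N', hN', ψ', hψ'⟩ := iso_map φ.symm
  have hNQ : (N : ℚ) ≠ 0 := by exact_mod_cast hN.ne'
  have hinj : Function.Injective ψ := by
    intro a b hab
    obtain ⟨va, ha⟩ := iso_ex W a
    obtain ⟨vb, hb⟩ := iso_ex W b
    have h1 : φ va = φ vb := by
      apply Subtype.ext
      apply toFn_inj
      funext x
      have h2 := hψ a va ha x
      have h3 := hψ b vb hb x
      rw [hab, h3] at h2
      exact (mul_left_cancel₀ hNQ h2).symm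
    have h2 := φ.injective h1
    apply Subtype.ext
    apply toFn_inj
    funext x
    have h3 := ha x
    rw [h2, hb] at h3
    exact_mod_cast h3.symm
  obtain ⟨q⟩ := iso_quot_range p ψ hinj
  have hfin : ∀ v : iso_L W', (N * N') • v ∈ LinearMap.range ψ := by
    intro v
    obtain ⟨w, hw⟩ := iso_ex W' v
    refine ⟨ψ' v, ?_⟩
    apply Subtype.ext
    apply toFn_inj
    funext x
    have h1 := hψ' v w hw
    have h2 := hψ (ψ' v) ((N' : ℚ) • φ.symm w) (fun x => by
      rw [h1 x]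
      show toFn ℚ C ((N' : ℚ) • (φ.symm w).1) x = _
      rw [map_smul, Pi.smul_apply, smul_eq_mul]) x
    have h3 : φ ((N' : ℚ) • φ.symm w) = (N' : ℚ) • w := by
      have h4 : ((N' : ℚ) • φ.symm w) = ((N' : RR ℚ G)) • φ.symm w := by
        rw [Nat.cast_smul_eq_nsmul, Nat.cast_smul_eq_nsmul]
      rw [h4, map_smul, LinearEquiv.apply_symm_apply, Nat.cast_smul_eq_nsmul,
        Nat.cast_smul_eq_nsmul]
    rw [h3] at h2
    have h5 : ((toFn ℤ C (ψ (ψ' v)).1 x : ℤ) : ℚ) = (((N * N' : ℕ) • toFn ℤ C v.1) x : ℤ) := by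
      rw [h2]
      show N * toFn ℚ C ((N' : ℚ) • w.1) x = _
      rw [map_smul, Pi.smul_apply, smul_eq_mul, hw, Pi.smul_apply, nsmul_eq_mul]
      push_cast
      ring
    have h6 : toFn ℤ C (ψ (ψ' v)).1 x = ((N * N' : ℕ) • toFn ℤ C v.1) x := by exact_mod_cast h5
    rw [h6]
    show _ = toFn ℤ C ((N * N') • v.1) x
    rw [map_nsmul]
  -- the lattice is free of finite rank
  let j : iso_L W' →ₗ[ℤ] (X → ℤ) :=
    { toFun := fun v => toFn ℤ C v.1
      map_add' := fun a b => by rw [Submodule.coe_add, map_add]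
      map_smul' := fun c a => by
        rw [RingHom.id_apply]
        show toFn ℤ C (c • a.1) = _
        rw [map_zsmul] }
  have hj : Function.Injective j := fun a b hab => Subtype.ext (toFn_inj hab)
  have hfr : Module.Free ℤ (iso_L W') :=
    Module.Free.of_equiv (LinearEquiv.ofInjective j hj).symm
  have hfi : Module.Finite ℤ (iso_L W') := Module.Finite.of_injective j hj
  have htriv : ∀ k ∈ kr W, ∀ v : iso_L W', MonoidAlgebra.of ℤ G k • v = v := by
    intro k hk v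
    obtain ⟨w, hw⟩ := iso_ex W' v
    apply Subtype.ext
    apply toFn_inj
    funext x
    have h1 : MonoidAlgebra.of ℚ G k • w = w := by
      have h2 : MonoidAlgebra.of ℚ G k • φ.symm w = φ.symm w :=
        Subtype.ext (hk (φ.symm w).1 (φ.symm w).2)
      rw [← map_smul] at h2
      exact φ.symm.injective h2
    have h2 := congrArg (fun u : W' => toFn ℚ C u.1 x) h1
    have h3 : toFn ℚ C w.1 (k⁻¹ • x) = toFn ℚ C w.1 x := by
      rw [← toFn_of]
      exact h2
    rw [hw, hw] at h3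
    rw [Submodule.coe_smul, toFn_of]
    exact_mod_cast h3
  have : (kr W).Normal := kr_normal W
  obtain ⟨E⟩ := brauer_nesbitt p (kr W) hp htriv (LinearMap.range ψ) (N * N')
    (Nat.mul_pos hN hN') hfin
  obtain ⟨r⟩ := iso_red p W
  obtain ⟨r'⟩ := iso_red p W'
  let T : iso_R p W ≃ₗ[RR ℤ G] iso_R p W' := r.symm.trans (q.trans (E.symm.trans r'))
  let T' : red p W ≃+ red p W' := T.toAddEquiv
  have hG : ∀ (y : G) (u : red p W), T' (MonoidAlgebra.of (ZMod p) G y • u) =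
      MonoidAlgebra.of (ZMod p) G y • T' u := by
    intro y u
    have h1 := congrArg iso_out (T.map_smul (MonoidAlgebra.of ℤ G y) (show iso_R p W from
      MonoidAlgebra.of (ZMod p) G (1 : G) • u))
    have h0 : MonoidAlgebra.of (ZMod p) G (1 : G) • u = u := by rw [map_one, one_smul]
    have h2 := iso_R_of p W y (show iso_R p W from u)
    have h3 := congrArg (fun w : iso_R p W => iso_out (T w)) (show
      (MonoidAlgebra.of ℤ G y • (show iso_R p W from u) : iso_R p W) =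
        (show iso_R p W from MonoidAlgebra.of (ZMod p) G y • u) from h2)
    have h4 := congrArg iso_out (T.map_smul (MonoidAlgebra.of ℤ G y) (show iso_R p W from u))
    rw [iso_R_of] at h4
    exact h3.symm.trans h4
  refine ⟨{ T' with map_smul' := fun r u => ?_ }⟩
  exact iso_up (F := ZMod p) (T' : red p W →+ red p W')
    (fun a u => ZMod.map_smul (T' : red p W →+ red p W') a u) hG r u

end

end Pool.Agent.AAC

namespace Pool.Agent.AAC

alias red_iso := Pool.Agent.AAC.red_iso_pr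

end Pool.Agent.AAC
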