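import Mathlib

set_option autoImplicit false

namespace Pool.Agent.AAC

open Finset

/-- UNI: counting submodules isomorphic to `U` -/
theorem count_sub_pr {R V : Type} [Ring R] [AddCommGroup V] [Module R V] [Finite V]
    (U : Submodule R V) (V' : Submodule R V) (s : Finset (Submodule R V))
    (hs : ∀ U' ∈ s, U' ≤ V' ∧ Nonempty (U ≃ₗ[R] U')) :
    s.card * Nat.card (U ≃ₗ[R] U) ≤ Nat.card (U →ₗ[R] V') := by
  classical
  have hfin : Finite (U →ₗ[R] V') :=
    Finite.of_injective (fun f : U →ₗ[R] V' => (f : U → V')) DFunLike.coe_injective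
  let ψ : ∀ U' : {x // x ∈ s}, U ≃ₗ[R] U'.1 := fun U' => (hs U'.1 U'.2).2.some
  let F : {x // x ∈ s} × (U ≃ₗ[R] U) → (U →ₗ[R] V') := fun q =>
    (Submodule.inclusion (hs q.1.1 q.1.2).1).comp
      ((ψ q.1).toLinearMap.comp q.2.toLinearMap)
  have hF : ∀ q : {x // x ∈ s} × (U ≃ₗ[R] U), ∀ u : U, ((F q u : V') : V) = (ψ q.1 (q.2 u) : V) :=
    fun q u => rfl
  have hinj : Function.Injective F := by
    rintro ⟨⟨A, hA⟩, a⟩ ⟨⟨B, hB⟩, b⟩ hab
    have h1 : ∀ u : U, (ψ ⟨A, hA⟩ (a u) : V) = (ψ ⟨B, hB⟩ (b u) : V) := by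
      intro u
      rw [← hF (⟨A, hA⟩, a) u, ← hF (⟨B, hB⟩, b) u, hab]
    have hAB : A = B := by
      apply le_antisymm
      · intro v hv
        have h2 := h1 (a.symm ((ψ ⟨A, hA⟩).symm ⟨v, hv⟩))
        rw [LinearEquiv.apply_symm_apply, LinearEquiv.apply_symm_apply] at h2
        rw [show v = ((⟨v, hv⟩ : A) : V) from rfl, h2]
        exact (ψ ⟨B, hB⟩ _).2
      · intro v hv
        have h2 := h1 (b.symm ((ψ ⟨B, hB⟩).symm ⟨v, hv⟩))
        rw [LinearEquiv.apply_symm_apply, LinearEquiv.apply_symm_apply] at h2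
        rw [show v = ((⟨v, hv⟩ : B) : V) from rfl, ← h2]
        exact (ψ ⟨A, hA⟩ _).2
    subst hAB
    have h3 : a = b := by
      ext u
      have h4 := Subtype.ext (h1 u)
      exact congrArg Subtype.val ((ψ ⟨A, hA⟩).injective h4)
    rw [h3]
  have := Nat.card_le_card_of_injective F hinj
  rw [Nat.card_prod, Nat.card_eq_fintype_card, Fintype.card_coe] at this
  exact this

end Pool.Agent.AAC

namespace Pool.Agent.AAC

alias count_sub := Pool.Agent.AAC.count_sub_pr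

end Pool.Agent.AAC
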