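import Pool.Agent.Lib_helper7.AAC.Basic
import Pool.Agent.Lib_helper7.AACF.FH
import Pool.Agent.Lib_helper7.AACF.HOM
import Pool.Agent.Lib_helper7.AACF.IDX
import Pool.Agent.Lib_helper7.AACF.ISA
import Pool.Agent.Lib_helper7.AACF.ISD
import Pool.Agent.Lib_helper7.AACF.ISO
import Pool.Agent.Lib_helper7.AACF.RED
import Pool.Agent.Lib_helper7.AACF.UNI

set_option autoImplicit false
set_option linter.unusedSectionVars false

/-!
# AAC, block ONE: the one digit bound
-/

namespace Pool.Agent.AAC.ONE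

open Finset

variable {G X : Type} [Group G] [Fintype G] [MulAction G X] [Fintype X] {C : Ctx G X}

lemma le_ic (W : Submodule (RR ℚ G) (MM ℚ C)) : W ≤ ic W :=
  Submodule.le_isotypicComponent W

/-- the kernel of the isotypic component -/
lemma kr_ic (W : Submodule (RR ℚ G) (MM ℚ C)) : kr (ic W) = kr W := by
  apply le_antisymm
  · intro y hy v hv
    exact hy v (le_ic W hv)
  · intro y hy v hv
    have hv' : v ∈ (⨆ m : {m : Submodule (RR ℚ G) (MM ℚ C) | Nonempty (m ≃ₗ[RR ℚ G] W)},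
        (m : Submodule (RR ℚ G) (MM ℚ C))) := by
      rw [← sSup_eq_iSup']
      exact hv
    refine Submodule.iSup_induction
      (fun m : {m : Submodule (RR ℚ G) (MM ℚ C) | Nonempty (m ≃ₗ[RR ℚ G] W)} =>
        (m : Submodule (RR ℚ G) (MM ℚ C)))
      (motive := fun v => MonoidAlgebra.of ℚ G y • v = v) hv' ?_ (smul_zero _) ?_
    · rintro ⟨m, ⟨e⟩⟩ v hv
      have h1 : MonoidAlgebra.of ℚ G y • ((e ⟨v, hv⟩ : W) : MM ℚ C) = ((e ⟨v, hv⟩ : W) : MM ℚ C) :=
        hy _ (e ⟨v, hv⟩).2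
      have h2 : e (MonoidAlgebra.of ℚ G y • (⟨v, hv⟩ : m)) = e ⟨v, hv⟩ := by
        rw [map_smul]
        exact Subtype.ext h1
      have h3 := congrArg Subtype.val (e.injective h2)
      exact h3
    · intro a b ha hb
      rw [smul_add, ha, hb]

theorem one_digit_pr (p : ℕ) [Fact p.Prime] {W : Submodule (RR ℚ G) (MM ℚ C)}
    (hW : IsSimpleModule (RR ℚ G) W) (hp : ¬ p ∣ (kr W).index) :
    PB (ic W) * Nat.card (red p W ≃ₗ[RR (ZMod p) G] red p W) ≤
      (p : ℝ) ^ hh W * (Th p (C.g / dd W) / p) ^ dd W := by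
  classical
  have hfin : {U : Submodule (RR (ZMod p) G) (MM (ZMod p) C) | ∃ W' ≤ ic W,
      IsSimpleModule (RR ℚ G) W' ∧ U = red p W'}.Finite := Set.toFinite _
  set s := hfin.toFinset with hs
  have hmem : ∀ U, U ∈ s ↔ ∃ W' ≤ ic W, IsSimpleModule (RR ℚ G) W' ∧ U = red p W' := by
    intro U
    rw [hs, Set.Finite.mem_toFinset, Set.mem_ofPred_eq]
  -- the number of the reductions
  have h1 : s.card * Nat.card (red p W ≃ₗ[RR (ZMod p) G] red p W) ≤
      Nat.card (red p W →ₗ[RR (ZMod p) G] red p (ic W)) := by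
    apply count_sub
    intro U hU
    obtain ⟨W', hW'le, hW', rfl⟩ := (hmem U).1 hU
    exact ⟨red_mono p hW'le, red_iso p hp (iso_of_le hW hW' hW'le)⟩
  have h2 : Nat.card (red p W →ₗ[RR (ZMod p) G] red p (ic W)) ≤ p ^ hh W := by
    apply card_hom_le p (le_ic W)
    rw [kr_ic]
    exact hp
  -- the dimension is positive
  have hdd : 0 < dd W := by
    have : Nontrivial W := hW.nontrivial
    exact Module.finrank_pos
  -- the probability
  have h3 : PB (ic W) ≤ ∑ U ∈ s, Pr C (fun Φ => Perp Φ U) := by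
    refine le_trans ?_ (Pr_union s fun U Φ => Perp Φ U)
    apply Pr_mono
    rintro Φ _ ⟨W', hW'le, hW', hperp⟩
    exact ⟨red p W', (hmem _).2 ⟨W', hW'le, hW', rfl⟩, perp_red p hperp⟩
  have h4 : ∀ U ∈ s, Pr C (fun Φ => Perp Φ U) ≤ (Th p (C.g / dd W) / p) ^ dd W := by
    intro U hU
    obtain ⟨W', hW'le, hW', rfl⟩ := (hmem U).1 hU
    have h5 : dd W = dd W' := (inv_eq (iso_of_le hW hW' hW'le)).1
    apply fh C (red p W') (dd W) _ hdd
    rw [red_finrank, h5]
  have h6 : PB (ic W) ≤ s.card * (Th p (C.g / dd W) / p) ^ dd W := by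
    refine h3.trans ((Finset.sum_le_sum h4).trans ?_)
    rw [Finset.sum_const, nsmul_eq_mul]
  have hnn : (0 : ℝ) ≤ (Th p (C.g / dd W) / p) ^ dd W := by
    have : 0 ≤ Th p (C.g / dd W) := by
      unfold Th ThS
      exact Finset.sum_nonneg fun u _ => by positivity
    positivity
  calc PB (ic W) * Nat.card (red p W ≃ₗ[RR (ZMod p) G] red p W)
      ≤ (s.card * (Th p (C.g / dd W) / p) ^ dd W) *
        Nat.card (red p W ≃ₗ[RR (ZMod p) G] red p W) := by gcongr
    _ = ((s.card * Nat.card (red p W ≃ₗ[RR (ZMod p) G] red p W) : ℕ) : ℝ) *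
        (Th p (C.g / dd W) / p) ^ dd W := by push_cast; ring
    _ ≤ ((p ^ hh W : ℕ) : ℝ) * (Th p (C.g / dd W) / p) ^ dd W := by
        gcongr
        exact h1.trans h2
    _ = (p : ℝ) ^ hh W * (Th p (C.g / dd W) / p) ^ dd W := by push_cast; rfl

end Pool.Agent.AAC.ONE

namespace Pool.Agent.AAC

alias one_digit := Pool.Agent.AAC.ONE.one_digit_pr

end Pool.Agent.AAC
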