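import Pool.Agent.Lib_helper7.AAC.Basic
import Pool.Agent.Lib_helper7.AACF.DEG
import Pool.Agent.Lib_helper7.AACF.IDX
import Pool.Agent.Lib_helper7.AACF.ONE
import Pool.Agent.Lib_helper7.AACF.Trig

set_option autoImplicit false
set_option linter.unusedSectionVars false

/-!
# Simple modules of small multiplicity
-/

namespace Pool.Agent.AAC

section

variable {G X : Type} [Group G] [Fintype G] [MulAction G X] [Fintype X] {C : Ctx G X}

/-- CASEL -/
theorem large_ratio_pr {W : Submodule (RR ℚ G) (MM ℚ C)} (hW : IsSimpleModule (RR ℚ G) W)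
    (h : 12 * Real.logb 2 (2 * C.g) * hh W < dd W) : PB (ic W) ≤ 1 / (C.g : ℝ) ^ 2 := by
  classical
  have hg : (1 : ℝ) ≤ C.g := by exact_mod_cast C.gpos
  set L := Real.logb 2 (2 * C.g) with hL
  have hL1 : 1 ≤ L := by
    rw [hL, Real.le_logb_iff_rpow_le (by norm_num) (by positivity), Real.rpow_one]
    linarith
  -- the multiplicity is positive
  have hh1 : 1 ≤ hh W := by
    have : Nontrivial W := hW.nontrivial
    have h1 : (W.subtype : W →ₗ[RR ℚ G] MM ℚ C) ≠ 0 := by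
      intro h0
      obtain ⟨w, hw⟩ := exists_ne (0 : W)
      apply hw
      apply Subtype.ext
      exact LinearMap.congr_fun h0 w
    have : Nontrivial (W →ₗ[RR ℚ G] MM ℚ C) := ⟨⟨_, _, h1⟩⟩
    have h2 : 0 < Module.finrank ℚ (W →ₗ[RR ℚ G] MM ℚ C) := Module.finrank_pos
    exact h2
  have hh1' : (1 : ℝ) ≤ hh W := by exact_mod_cast hh1
  have hd0 : 0 < dd W := by
    have : (0 : ℝ) < dd W := lt_of_le_of_lt (by positivity) h
    exact_mod_cast this
  have hdg : dd W ≤ C.g := by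
    have h1 : dd W ≤ Module.finrank ℚ (MM ℚ C) :=
      LinearMap.finrank_le_finrank_of_injective (f := W.subtype.restrictScalars ℚ)
        Subtype.val_injective
    rwa [finrank_MM] at h1
  -- the prime
  obtain ⟨p, hp, hp1, hp2⟩ := Nat.exists_prime_lt_and_le_two_mul (2 * C.g)
    (by have := C.gpos; omega)
  have : Fact p.Prime := ⟨hp⟩
  have hpd : ¬ p ∣ (kr W).index := by
    intro hd
    have := (Nat.Prime.dvd_factorial hp).1 (hd.trans (index_kr_dvd W))
    omega
  have hp3 : 3 ≤ p := by have := C.gpos; omega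
  have hodd : Odd p := hp.odd_of_ne_two (by omega)
  have hone := one_digit p hW hpd
  have hPB : 0 ≤ PB (ic W) := Pr_nonneg _
  have : Finite (red p W ≃ₗ[RR (ZMod p) G] red p W) :=
    Finite.of_injective (fun e => (e : red p W → red p W)) DFunLike.coe_injective
  have hcard : (1 : ℝ) ≤ Nat.card (red p W ≃ₗ[RR (ZMod p) G] red p W) := by
    have : 0 < Nat.card (red p W ≃ₗ[RR (ZMod p) G] red p W) := Nat.card_pos
    exact_mod_cast this
  have hs : (1 : ℝ) ≤ C.g / dd W := by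
    rw [le_div_iff₀ (by exact_mod_cast hd0), one_mul]
    exact_mod_cast hdg
  have hTh := th_one p hodd hp3 _ hs
  have hTh0 : 0 ≤ Th p (C.g / dd W) := by
    unfold Th ThS
    exact Finset.sum_nonneg fun _ _ => Real.rpow_nonneg (abs_nonneg _) _
  have hp0 : (0 : ℝ) < p := by exact_mod_cast hp.pos
  have h2 : Th p (C.g / dd W) / p ≤ (2 : ℝ) ^ (-(1 / 2) : ℝ) := by
    rw [div_le_iff₀ hp0, Real.rpow_neg (by norm_num), ← Real.sqrt_eq_rpow]
    rw [mul_comm, ← div_eq_mul_inv]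
    exact hTh
  have h3 : PB (ic W) ≤ (p : ℝ) ^ hh W * (Th p (C.g / dd W) / p) ^ dd W :=
    (le_mul_of_one_le_right hPB hcard).trans hone
  have h4 : (Th p (C.g / dd W) / p) ^ dd W ≤ (2 : ℝ) ^ (-(1 / 2) * (dd W : ℝ)) := by
    rw [Real.rpow_mul (by norm_num), Real.rpow_natCast]
    exact pow_le_pow_left₀ (div_nonneg hTh0 hp0.le) h2 _
  have h5 : (p : ℝ) ≤ (2 : ℝ) ^ (2 * L) := by
    have h6 : (2 : ℝ) ^ L = 2 * C.g := by
      rw [hL]
      exact Real.rpow_logb (by norm_num) (by norm_num) (by positivity)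
    have h7 : (2 : ℝ) ^ (2 * L) = (2 * C.g) * (2 * C.g) := by
      rw [two_mul, Real.rpow_add (by norm_num), h6]
    rw [h7]
    have h8 : (p : ℝ) ≤ 2 * (2 * C.g) := by exact_mod_cast hp2
    nlinarith
  have h6 : (p : ℝ) ^ hh W ≤ (2 : ℝ) ^ (2 * L * (hh W : ℝ)) := by
    rw [Real.rpow_mul (by norm_num), Real.rpow_natCast]
    exact pow_le_pow_left₀ hp0.le h5 _
  have h7 : PB (ic W) ≤ (2 : ℝ) ^ (2 * L * (hh W : ℝ) + -(1 / 2) * (dd W : ℝ)) := by
    rw [Real.rpow_add (by norm_num)]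
    exact h3.trans (mul_le_mul h6 h4 (by positivity) (by positivity))
  have h8 : (2 : ℝ) ^ (2 * L * (hh W : ℝ) + -(1 / 2) * (dd W : ℝ)) ≤ (2 : ℝ) ^ (-(4 * L)) := by
    apply Real.rpow_le_rpow_of_exponent_le (by norm_num)
    nlinarith
  have h9 : (2 : ℝ) ^ (-(4 * L)) ≤ 1 / (C.g : ℝ) ^ 2 := by
    have h6 : (2 : ℝ) ^ L = 2 * C.g := by
      rw [hL]
      exact Real.rpow_logb (by norm_num) (by norm_num) (by positivity)
    rw [Real.rpow_neg (by norm_num), mul_comm, Real.rpow_mul (by norm_num), h6, one_div]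
    apply inv_anti₀ (by positivity)
    have : ((2 * C.g : ℝ)) ^ (4 : ℝ) = (2 * (C.g : ℝ)) ^ 4 := by
      exact_mod_cast Real.rpow_natCast (2 * (C.g : ℝ)) 4
    rw [this]
    have h10 : (C.g : ℝ) ^ 2 ≤ (C.g : ℝ) ^ 4 := pow_le_pow_right₀ hg (by norm_num)
    nlinarith
  exact h7.trans (h8.trans h9)

end

end Pool.Agent.AAC

namespace Pool.Agent.AAC

alias large_ratio := Pool.Agent.AAC.large_ratio_pr

end Pool.Agent.AAC
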