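import Mathlib

set_option autoImplicit false

/-!
# Rational vectors independent over `ℚ` are independent over `ℝ`
-/

namespace Pool.Agent.AAC

/-- EXT: rational vectors independent over `ℚ` are independent over `ℝ` -/
theorem linearIndependent_real_pr {ι X : Type} [Finite ι] [Finite X] (v : ι → X → ℚ)
    (hv : LinearIndependent ℚ v) : LinearIndependent ℝ (fun i (x : X) => ((v i x : ℚ) : ℝ)) := by
  classical
  cases nonempty_fintype ι
  cases nonempty_fintype X
  rw [Fintype.linearIndependent_iff]
  intro c hc i
  obtain ⟨g, hg⟩ := LinearMap.exists_leftInverse_of_injective (Fintype.linearCombination ℚ v)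
    (LinearMap.ker_eq_bot.2 (linearIndependent_iff_injective_fintypeLinearCombination.1 hv))
  have h1 : ∀ j, g (v j) = Pi.single j 1 := by
    intro j
    have := LinearMap.congr_fun hg (Pi.single j 1)
    rw [LinearMap.comp_apply, Fintype.linearCombination_apply_single, one_smul,
      LinearMap.id_apply] at this
    exact this
  have h2 : ∀ j, ∑ x, v j x * g (Pi.single x 1) i = if j = i then 1 else 0 := by
    intro j
    have h3 : v j = ∑ x, v j x • (Pi.single x 1 : X → ℚ) := by
      funext x'
      rw [Finset.sum_apply]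
      simp [Pi.single_apply]
    have h4 := congrFun (h1 j) i
    rw [h3, map_sum, Finset.sum_apply] at h4
    simp only [map_smul, Pi.smul_apply, smul_eq_mul] at h4
    rw [h4, Pi.single_apply]
    simp only [eq_comm]
  have h5 : ∑ x, ((g (Pi.single x 1) i : ℚ) : ℝ) * ∑ j, c j * ((v j x : ℚ) : ℝ) = 0 := by
    refine Finset.sum_eq_zero fun x _ => ?_
    have h6 := congrFun hc x
    rw [Finset.sum_apply] at h6
    simp only [Pi.smul_apply, smul_eq_mul, Pi.zero_apply] at h6
    rw [h6, mul_zero]
  have h7 : ∑ x, ((g (Pi.single x 1) i : ℚ) : ℝ) * ∑ j, c j * ((v j x : ℚ) : ℝ) =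
      ∑ j, c j * ((∑ x, v j x * g (Pi.single x 1) i : ℚ) : ℝ) := by
    simp only [Finset.mul_sum, Rat.cast_sum, Rat.cast_mul]
    rw [Finset.sum_comm]
    refine Finset.sum_congr rfl fun j _ => Finset.sum_congr rfl fun x _ => ?_
    ring
  rw [h7] at h5
  have h8 : ∀ j, (((if j = i then 1 else 0 : ℚ)) : ℝ) = if j = i then 1 else 0 := by
    intro j
    split_ifs <;> simp
  simp only [h2, h8] at h5
  simpa using h5

end Pool.Agent.AAC

namespace Pool.Agent.AAC

alias linearIndependent_real := Pool.Agent.AAC.linearIndependent_real_pr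

end Pool.Agent.AAC
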