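import Pool.Agent.Lib_helper7.AAC.Basic

set_option autoImplicit false
set_option linter.unusedSectionVars false
set_option linter.unusedVariables false

/-!
# GREEDY
-/

namespace Pool.Agent.AAC

open Finset

/-- the trace of a symmetric contraction is at most its rank -/
lemma gre_trace {E : Type} [NormedAddCommGroup E] [InnerProductSpace ℝ E]
    [FiniteDimensional ℝ E] (A : E →ₗ[ℝ] E) (hA : A.IsSymmetric)
    (h1 : ∀ v, inner ℝ v (A v) ≤ ‖v‖ ^ 2) :
    LinearMap.trace ℝ E A ≤ Module.finrank ℝ (LinearMap.range A) := by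
  classical
  set b := hA.eigenvectorBasis rfl with hb
  set μ := hA.eigenvalues rfl with hμ
  have h2 : ∀ i, A (b i) = μ i • b i := fun i => hA.apply_eigenvectorBasis rfl i
  have h3 : ∀ i, inner ℝ (b i) (A (b i)) = μ i := by
    intro i
    rw [h2, real_inner_smul_right, real_inner_self_eq_norm_sq, b.norm_eq_one]
    ring
  have h4 : ∀ i, μ i ≤ 1 := by
    intro i
    have h5 := h1 (b i)
    rw [h3, b.norm_eq_one] at h5
    linarith
  rw [LinearMap.trace_eq_sum_inner A b, Finset.sum_congr rfl (fun i _ => h3 i)]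
  have h6 : ∑ i, μ i ≤ ∑ i ∈ univ.filter (fun i => μ i ≠ 0), (1 : ℝ) := by
    rw [← Finset.sum_filter_add_sum_filter_not univ (fun i => μ i ≠ 0)]
    have h7 : ∑ i ∈ univ.filter (fun i => ¬ μ i ≠ 0), μ i = 0 := by
      apply Finset.sum_eq_zero
      intro i hi
      rw [mem_filter] at hi
      exact not_not.1 hi.2
    rw [h7, add_zero]
    exact Finset.sum_le_sum fun i _ => h4 i
  refine h6.trans ?_
  rw [Finset.sum_const, nsmul_eq_mul, mul_one]
  -- independent vectors in the range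
  have h8 : ∀ i : {i // μ i ≠ 0}, b i.1 ∈ LinearMap.range A := by
    intro i
    refine ⟨(μ i.1)⁻¹ • b i.1, ?_⟩
    rw [map_smul, h2, smul_smul, inv_mul_cancel₀ i.2, one_smul]
  let w : {i // μ i ≠ 0} → LinearMap.range A := fun i => ⟨b i.1, h8 i⟩
  have h9 : LinearIndependent ℝ w := by
    apply LinearIndependent.of_comp (LinearMap.range A).subtype
    exact b.orthonormal.linearIndependent.comp (fun i : {i // μ i ≠ 0} => i.1)
      Subtype.val_injective
  have h11 := h9.fintype_card_le_finrank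
  rw [Fintype.card_subtype] at h11
  exact_mod_cast h11

section

variable {G X V : Type} [Group G] [Fintype G] [MulAction G X] [Fintype X] [Nonempty X]
    [NormedAddCommGroup V] [InnerProductSpace ℝ V] [FiniteDimensional ℝ V]

/-- the stabilizer -/
noncomputable def gre_S (G : Type) {X : Type} [Group G] [Fintype G] [MulAction G X] (x : X) :
    Finset G := by
  classical exact univ.filter fun y => y • x = x

lemma gre_mem_S {x : X} {y : G} : y ∈ gre_S G x ↔ y • x = x := by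
  classical
  simp [gre_S]

lemma gre_card_pos (x : X) : (0 : ℝ) < (gre_S G x).card := by
  have : 0 < (gre_S G x).card := Finset.card_pos.2 ⟨1, gre_mem_S.2 (one_smul _ _)⟩
  exact_mod_cast this

/-- the projection to the fixed space -/
noncomputable def gre_P (ρ : G →* (V →ₗ[ℝ] V)) (x : X) : V →ₗ[ℝ] V :=
  ((gre_S G x).card : ℝ)⁻¹ • ∑ y ∈ gre_S G x, ρ y

lemma gre_P_apply (ρ : G →* (V →ₗ[ℝ] V)) (x : X) (v : V) :
    gre_P ρ x v = ((gre_S G x).card : ℝ)⁻¹ • ∑ y ∈ gre_S G x, ρ y v := by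
  rw [gre_P, LinearMap.smul_apply, LinearMap.sum_apply]

lemma gre_mul (ρ : G →* (V →ₗ[ℝ] V)) (y y' : G) (v : V) : ρ y (ρ y' v) = ρ (y * y') v := by
  rw [map_mul]
  rfl

lemma gre_one (ρ : G →* (V →ₗ[ℝ] V)) (v : V) : ρ 1 v = v := by
  rw [map_one]
  rfl

lemma gre_fix (ρ : G →* (V →ₗ[ℝ] V)) (x : X) (v : V) (s : G) (hs : s • x = x) :
    ρ s (gre_P ρ x v) = gre_P ρ x v := by
  rw [gre_P_apply, map_smul, map_sum]
  congr 1
  refine Finset.sum_equiv (Equiv.mulLeft s) ?_ ?_
  · intro y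
    rw [gre_mem_S, gre_mem_S, Equiv.coe_mulLeft, mul_smul]
    constructor
    · intro h
      rw [h, hs]
    · intro h
      have h1 : s⁻¹ • x = x := by
        rw [inv_smul_eq_iff, hs]
      rw [← h1]
      conv_lhs => rw [h1]
      exact eq_inv_smul_iff.2 h
  · intro y _
    rw [gre_mul]
    rfl

lemma gre_of_fix (ρ : G →* (V →ₗ[ℝ] V)) (x : X) (v : V)
    (h : ∀ s : G, s • x = x → ρ s v = v) : gre_P ρ x v = v := by
  rw [gre_P_apply, Finset.sum_congr rfl (fun y hy => h y (gre_mem_S.1 hy)), Finset.sum_const,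
    ← Nat.cast_smul_eq_nsmul ℝ, smul_smul, inv_mul_cancel₀ (gre_card_pos x).ne', one_smul]

lemma gre_idem (ρ : G →* (V →ₗ[ℝ] V)) (x : X) (v : V) :
    gre_P ρ x (gre_P ρ x v) = gre_P ρ x v :=
  gre_of_fix ρ x _ fun s hs => gre_fix ρ x v s hs

lemma gre_inner (ρ : G →* (V →ₗ[ℝ] V)) (hρ : ∀ y v w, inner ℝ (ρ y v) (ρ y w) = inner ℝ v w)
    (y : G) (v w : V) : inner ℝ (ρ y v) w = inner ℝ v (ρ y⁻¹ w) := by
  rw [← hρ y v (ρ y⁻¹ w), gre_mul, mul_inv_cancel, gre_one]

lemma gre_symm (ρ : G →* (V →ₗ[ℝ] V)) (hρ : ∀ y v w, inner ℝ (ρ y v) (ρ y w) = inner ℝ v w)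
    (x : X) : (gre_P ρ x).IsSymmetric := by
  intro v w
  rw [gre_P_apply, gre_P_apply, real_inner_smul_left, real_inner_smul_right, sum_inner, inner_sum]
  congr 1
  refine Finset.sum_equiv (Equiv.inv G) ?_ ?_
  · intro y
    rw [gre_mem_S, gre_mem_S, Equiv.inv_apply, inv_smul_eq_iff, eq_comm]
  · intro y _
    rw [gre_inner ρ hρ]
    rfl

lemma gre_equiv (ρ : G →* (V →ₗ[ℝ] V)) (x : X) (g : G) (v : V) :
    ρ g (gre_P ρ x v) = gre_P ρ (g • x) (ρ g v) := by
  have h1 : ∀ y : G, y ∈ gre_S G x ↔ (MulAut.conj g) y ∈ gre_S G (g • x) := by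
    intro y
    rw [gre_mem_S, gre_mem_S, MulAut.conj_apply, mul_smul, mul_smul, inv_smul_smul,
      smul_left_cancel_iff]
  have h2 : (gre_S G x).card = (gre_S G (g • x)).card :=
    Finset.card_equiv (MulAut.conj g).toEquiv (fun y => h1 y)
  rw [gre_P_apply, gre_P_apply, map_smul, map_sum, h2]
  congr 1
  refine Finset.sum_equiv (MulAut.conj g).toEquiv (fun y => h1 y) ?_
  intro y _
  rw [gre_mul, gre_mul]
  show ρ (g * y) v = ρ (g * y * g⁻¹ * g) v
  rw [inv_mul_cancel_right]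

lemma gre_stable (ρ : G →* (V →ₗ[ℝ] V)) (W : Submodule ℝ V) (hW : ∀ y, ∀ v ∈ W, ρ y v ∈ W)
    (x : X) (v : V) (hv : v ∈ W) : gre_P ρ x v ∈ W := by
  rw [gre_P_apply]
  exact W.smul_mem _ (W.sum_mem fun y _ => hW y v hv)

lemma gre_contr (ρ : G →* (V →ₗ[ℝ] V)) (hρ : ∀ y v w, inner ℝ (ρ y v) (ρ y w) = inner ℝ v w)
    (x : X) (v : V) : inner ℝ v (gre_P ρ x v) ≤ ‖v‖ ^ 2 := by
  have h1 : inner ℝ v (gre_P ρ x v) = ‖gre_P ρ x v‖ ^ 2 := by
    rw [← real_inner_self_eq_norm_sq, gre_symm ρ hρ x v (gre_P ρ x v), gre_idem]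
  have h2 : inner ℝ v (gre_P ρ x v) ≤ ‖v‖ * ‖gre_P ρ x v‖ := real_inner_le_norm _ _
  rcases eq_or_lt_of_le (norm_nonneg (gre_P ρ x v)) with h3 | h3
  · rw [h1, ← h3]
    nlinarith [sq_nonneg ‖v‖]
  · have h4 : ‖gre_P ρ x v‖ ≤ ‖v‖ := by
      rw [h1] at h2
      nlinarith
    rw [h1]
    exact pow_le_pow_left₀ h3.le h4 2

/-- one step -/
lemma gre_step (ρ : G →* (V →ₗ[ℝ] V)) (hρ : ∀ y v w, inner ℝ (ρ y v) (ρ y w) = inner ℝ v w)
    (V₀ : Submodule ℝ V) (hV₀ : ∀ y, ∀ v ∈ V₀, ρ y v ∈ V₀) (c : ℝ)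
    (hc : ∀ v ∈ V₀, ∑ x : X, gre_P ρ x v = (Fintype.card X * c) • v)
    (F : Submodule ℝ V) (hF : F ≤ V₀) :
    ∃ x : X, ∃ F' : Submodule ℝ V, F ≤ F' ∧ F' ≤ V₀ ∧
      (∀ v ∈ F', ∃ f ∈ F, ∃ u ∈ V₀, v = f + u ∧ ∀ y : G, y • x = x → ρ y u = u) ∧
      ((Module.finrank ℝ V₀ : ℝ) - Module.finrank ℝ F') ≤
        (Module.finrank ℝ V₀ - Module.finrank ℝ F) * (1 - c) := by
  classical
  -- the orthogonal complement of `F` in `V₀`
  set E : Submodule ℝ V := Fᗮ ⊓ V₀ with hE
  have hq : Module.finrank ℝ F + Module.finrank ℝ E = Module.finrank ℝ V₀ :=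
    Submodule.finrank_add_inf_finrank_orthogonal hF
  let pE : V →ₗ[ℝ] E := (E.orthogonalProjectionOnto : V →ₗ[ℝ] E)
  have hpE : ∀ (e : E) (v : V), inner ℝ e (pE v) = inner ℝ (e : V) v := fun e v =>
    Submodule.inner_orthogonalProjectionOnto_eq_of_mem_left e v
  -- compressions
  let A : X → E →ₗ[ℝ] E := fun x => pE.comp ((gre_P ρ x).comp E.subtype)
  have hA : ∀ x e, A x e = pE (gre_P ρ x (e : V)) := fun x e => rfl
  have hAs : ∀ x, (A x).IsSymmetric := by
    intro x e e'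
    rw [hA, hA, hpE, real_inner_comm, hpE, real_inner_comm]
    exact gre_symm ρ hρ x e e'
  have hAc : ∀ x (e : E), inner ℝ e (A x e) ≤ ‖e‖ ^ 2 := by
    intro x e
    rw [hA, hpE]
    exact gre_contr ρ hρ x e
  have hsum : ∑ x, LinearMap.trace ℝ E (A x) = Fintype.card X * c * Module.finrank ℝ E := by
    have b := stdOrthonormalBasis ℝ E
    have h1 : ∀ x, LinearMap.trace ℝ E (A x) =
        ∑ i : Fin (Module.finrank ℝ E), inner ℝ (b i : V) (gre_P ρ x (b i : V)) := by
      intro x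
      rw [LinearMap.trace_eq_sum_inner (A x) b]
      exact Finset.sum_congr rfl fun i _ => by rw [hA, hpE]
    rw [Finset.sum_congr rfl fun x _ => h1 x, Finset.sum_comm]
    have h2 : ∀ i : Fin (Module.finrank ℝ E),
        ∑ x : X, inner ℝ (b i : V) (gre_P ρ x (b i : V)) = Fintype.card X * c := by
      intro i
      rw [← inner_sum, hc _ (b i).2.2, real_inner_smul_right]
      have h3 : inner ℝ (b i : V) (b i : V) = (1 : ℝ) := by
        rw [← Submodule.coe_inner, real_inner_self_eq_norm_sq, b.norm_eq_one]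
        norm_num
      rw [h3, mul_one]
    rw [Finset.sum_congr rfl fun i _ => h2 i, Finset.sum_const, card_univ, Fintype.card_fin,
      nsmul_eq_mul]
    ring
  -- a good point
  obtain ⟨x, hx⟩ : ∃ x, c * Module.finrank ℝ E ≤ LinearMap.trace ℝ E (A x) := by
    by_contra hcon
    push Not at hcon
    have h1 : ∑ x, LinearMap.trace ℝ E (A x) < ∑ x : X, c * Module.finrank ℝ E :=
      Finset.sum_lt_sum_of_nonempty univ_nonempty fun x _ => hcon x
    rw [hsum, Finset.sum_const, card_univ, nsmul_eq_mul] at h1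
    linarith
  -- the fixed vectors
  let U : Submodule ℝ V := V₀ ⊓ LinearMap.range (gre_P ρ x)
  have hU : ∀ u ∈ U, ∀ y : G, y • x = x → ρ y u = u := by
    rintro u ⟨_, v, rfl⟩ y hy
    exact gre_fix ρ x v y hy
  refine ⟨x, F ⊔ U, le_sup_left, sup_le hF inf_le_left, ?_, ?_⟩
  · intro v hv
    obtain ⟨f, hf, u, hu, rfl⟩ := Submodule.mem_sup.1 hv
    exact ⟨f, hf, u, hu.1, rfl, hU u hu⟩
  · have h1 := (hx.trans (gre_trace (A x) (hAs x) (hAc x)))
    -- the range of the compression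
    let B : (F ⊔ U : Submodule ℝ V) →ₗ[ℝ] E := pE.comp (F ⊔ U).subtype
    have h2 : LinearMap.range (A x) ≤ LinearMap.range B := by
      rintro _ ⟨e, rfl⟩
      refine ⟨⟨gre_P ρ x (e : V), Submodule.mem_sup_right ⟨gre_stable ρ V₀ hV₀ x _ e.2.2,
        ⟨_, rfl⟩⟩⟩, rfl⟩
    have h3 : Module.finrank ℝ F ≤ Module.finrank ℝ (LinearMap.ker B) := by
      let ι : F →ₗ[ℝ] LinearMap.ker B := LinearMap.codRestrict (LinearMap.ker B)
        (Submodule.inclusion (le_sup_left : F ≤ F ⊔ U)) (by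
          intro f
          rw [LinearMap.mem_ker]
          apply ext_inner_left ℝ
          intro e
          show inner ℝ e (pE (f : V)) = inner ℝ e 0
          rw [hpE, inner_zero_right]
          exact (Submodule.mem_orthogonal' F (e : V)).1 e.2.1 f f.2)
      apply LinearMap.finrank_le_finrank_of_injective (f := ι)
      intro f f' h
      have h4 := congrArg (fun z : LinearMap.ker B => ((z : (F ⊔ U : Submodule ℝ V)) : V)) h
      exact Subtype.ext h4
    have h5 := LinearMap.finrank_range_add_finrank_ker B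
    have h6 := Submodule.finrank_mono h2
    have h7 : Module.finrank ℝ (LinearMap.range (A x)) + Module.finrank ℝ F ≤
        Module.finrank ℝ (F ⊔ U : Submodule ℝ V) := by omega
    have h8 : (Module.finrank ℝ (LinearMap.range (A x)) : ℝ) + Module.finrank ℝ F ≤
        Module.finrank ℝ (F ⊔ U : Submodule ℝ V) := by exact_mod_cast h7
    have h9 : (Module.finrank ℝ F : ℝ) + Module.finrank ℝ E = Module.finrank ℝ V₀ := by
      exact_mod_cast hq
    have h10 : (Module.finrank ℝ V₀ : ℝ) - Module.finrank ℝ F = Module.finrank ℝ E := by linarith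
    rw [h10]
    linarith

/-- GREEDY -/
theorem greedy_pr (ρ : G →* (V →ₗ[ℝ] V)) (hρ : ∀ y v w, inner ℝ (ρ y v) (ρ y w) = inner ℝ v w)
    (htr : ∀ x x' : X, ∃ y : G, y • x = x') (h d l : ℕ) (hh0 : 0 < h)
    (hd : Module.finrank ℝ V ≤ d)
    (hh : ∀ x : X, ∃ U : Submodule ℝ V, h ≤ Module.finrank ℝ U ∧
      ∀ v ∈ U, ∀ y : G, y • x = x → ρ y v = v)
    (hl : (d : ℝ) / h * Real.log d < l) :
    ∃ V₀ : Submodule ℝ V, V₀ ≠ ⊥ ∧ (∀ y, ∀ v ∈ V₀, ρ y v ∈ V₀) ∧
      ∃ xs : Fin l → X, ∀ y : G, (∀ i, y • xs i = xs i) → ∀ v ∈ V₀, ρ y v = v := by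
  classical
  set n := Module.finrank ℝ V with hn
  obtain ⟨x₀⟩ := ‹Nonempty X›
  have hhn : h ≤ n := by
    obtain ⟨U, hU, _⟩ := hh x₀
    exact hU.trans (Submodule.finrank_le U)
  have hn0 : (0 : ℝ) < n := by exact_mod_cast hh0.trans_le hhn
  have hh0' : (0 : ℝ) < h := by exact_mod_cast hh0
  have hX : (0 : ℝ) < Fintype.card X := by exact_mod_cast Fintype.card_pos_iff.2 ⟨x₀⟩
  -- the operator
  set T : V →ₗ[ℝ] V := ∑ x : X, gre_P ρ x with hT
  have hTa : ∀ v, T v = ∑ x : X, gre_P ρ x v := fun v => LinearMap.sum_apply _ _ _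
  have hTs : T.IsSymmetric := by
    intro v w
    rw [hTa, hTa, sum_inner, inner_sum]
    exact Finset.sum_congr rfl fun x _ => gre_symm ρ hρ x v w
  have hTe : ∀ g v, ρ g (T v) = T (ρ g v) := by
    intro g v
    rw [hTa, hTa, map_sum]
    exact (Finset.sum_congr rfl fun x _ => gre_equiv ρ x g v).trans
      (Equiv.sum_comp (MulAction.toPerm g : Equiv.Perm X) (fun x => gre_P ρ x (ρ g v)))
  have hPt : ∀ x : X, (h : ℝ) ≤ LinearMap.trace ℝ V (gre_P ρ x) := by
    intro x
    obtain ⟨U, hU, hU'⟩ := hh x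
    have h1 : LinearMap.IsProj (LinearMap.range (gre_P ρ x)) (gre_P ρ x) := by
      refine ⟨fun v => ⟨v, rfl⟩, ?_⟩
      rintro _ ⟨v, rfl⟩
      exact gre_idem ρ x v
    rw [h1.trace]
    have h2 : U ≤ LinearMap.range (gre_P ρ x) := fun u hu =>
      ⟨u, gre_of_fix ρ x u fun s hs => hU' u hu s hs⟩
    exact_mod_cast hU.trans (Submodule.finrank_mono h2)
  have hTt : (Fintype.card X : ℝ) * h ≤ LinearMap.trace ℝ V T := by
    rw [hT, map_sum]
    calc (Fintype.card X : ℝ) * h = ∑ x : X, (h : ℝ) := by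
          rw [Finset.sum_const, card_univ, nsmul_eq_mul]
      _ ≤ _ := Finset.sum_le_sum fun x _ => hPt x
  -- a large eigenvalue
  obtain ⟨i, hi⟩ : ∃ i, (Fintype.card X : ℝ) * (h / n) ≤ hTs.eigenvalues rfl i := by
    by_contra hcon
    push Not at hcon
    have h1 : LinearMap.trace ℝ V T = ∑ i, hTs.eigenvalues rfl i := by
      rw [LinearMap.trace_eq_sum_inner T (hTs.eigenvectorBasis rfl)]
      refine Finset.sum_congr rfl fun i _ => ?_
      rw [hTs.apply_eigenvectorBasis, real_inner_smul_right, real_inner_self_eq_norm_sq,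
        (hTs.eigenvectorBasis rfl).norm_eq_one]
      simp
    have : Nonempty (Fin (Module.finrank ℝ V)) := ⟨⟨0, by omega⟩⟩
    have h2 : ∑ i, hTs.eigenvalues rfl i < ∑ i : Fin (Module.finrank ℝ V),
        (Fintype.card X : ℝ) * (h / n) :=
      Finset.sum_lt_sum_of_nonempty univ_nonempty fun i _ => hcon i
    rw [← h1, Finset.sum_const, card_univ, Fintype.card_fin, nsmul_eq_mul, ← hn] at h2
    have h3 : (n : ℝ) * ((Fintype.card X : ℝ) * (h / n)) = Fintype.card X * h := by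
      field_simp
    linarith
  set μ := hTs.eigenvalues rfl i with hμ
  set V₀ : Submodule ℝ V := Module.End.eigenspace T μ with hV₀
  have hmem : ∀ v, v ∈ V₀ ↔ T v = μ • v := fun v => Module.End.mem_eigenspace_iff
  have hst : ∀ y, ∀ v ∈ V₀, ρ y v ∈ V₀ := by
    intro y v hv
    rw [hmem] at hv ⊢
    rw [← hTe, hv, map_smul]
  have hne : V₀ ≠ ⊥ := by
    have h1 : hTs.eigenvectorBasis rfl i ∈ V₀ := by
      rw [hmem, hTs.apply_eigenvectorBasis]
      rfl
    intro h2
    rw [h2, Submodule.mem_bot] at h1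
    have h3 := (hTs.eigenvectorBasis rfl).norm_eq_one i
    rw [h1, norm_zero] at h3
    exact zero_ne_one h3
  refine ⟨V₀, hne, hst, ?_⟩
  -- the induction
  have hc : ∀ v ∈ V₀, ∑ x : X, gre_P ρ x v = (Fintype.card X * (μ / Fintype.card X)) • v := by
    intro v hv
    rw [← hTa, (hmem v).1 hv]
    congr 1
    field_simp
  have hc1 : (h : ℝ) / n ≤ μ / Fintype.card X := by
    rw [le_div_iff₀ hX]
    linarith
  have hind : ∀ k : ℕ, ∃ xs : Fin k → X, ∃ F : Submodule ℝ V, F ≤ V₀ ∧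
      (∀ y : G, (∀ i, y • xs i = xs i) → ∀ v ∈ F, ρ y v = v) ∧
      ((Module.finrank ℝ V₀ : ℝ) - Module.finrank ℝ F) ≤ n * (1 - (h : ℝ) / n) ^ k := by
    intro k
    induction k with
    | zero =>
      refine ⟨Fin.elim0, ⊥, bot_le, ?_, ?_⟩
      · intro y _ v hv
        rw [(Submodule.mem_bot ℝ).1 hv, map_zero]
      · rw [pow_zero, mul_one, finrank_bot]
        have : (Module.finrank ℝ V₀ : ℝ) ≤ n := by exact_mod_cast Submodule.finrank_le V₀
        simpa using this
    | succ k ih =>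
      obtain ⟨xs, F, hF, h1, h2⟩ := ih
      obtain ⟨x, F', h3, h4, h5, h6⟩ := gre_step ρ hρ V₀ hst _ hc F hF
      refine ⟨Fin.cons x xs, F', h4, ?_, ?_⟩
      · intro y hy v hv
        obtain ⟨f, hf, u, _, rfl, hu⟩ := h5 v hv
        have h7 : y • x = x := by
          have := hy 0
          rwa [Fin.cons_zero] at this
        have h8 : ∀ i, y • xs i = xs i := by
          intro i
          have := hy i.succ
          rwa [Fin.cons_succ] at this
        rw [map_add, h1 y h8 f hf, hu y h7]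
      · refine h6.trans ?_
        have h9 : (0 : ℝ) ≤ (Module.finrank ℝ V₀ : ℝ) - Module.finrank ℝ F := by
          have : (Module.finrank ℝ F : ℝ) ≤ Module.finrank ℝ V₀ := by
            exact_mod_cast Submodule.finrank_mono hF
          linarith
        have h10 : (0 : ℝ) ≤ 1 - (h : ℝ) / n := by
          rw [sub_nonneg, div_le_one hn0]
          exact_mod_cast hhn
        calc ((Module.finrank ℝ V₀ : ℝ) - Module.finrank ℝ F) * (1 - μ / Fintype.card X)
            ≤ ((Module.finrank ℝ V₀ : ℝ) - Module.finrank ℝ F) * (1 - (h : ℝ) / n) :=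
              mul_le_mul_of_nonneg_left (by linarith) h9
          _ ≤ (n * (1 - (h : ℝ) / n) ^ k) * (1 - (h : ℝ) / n) :=
              mul_le_mul_of_nonneg_right h2 h10
          _ = n * (1 - (h : ℝ) / n) ^ (k + 1) := by ring
  obtain ⟨xs, F, hF, h1, h2⟩ := hind l
  have h3 : n * (1 - (h : ℝ) / n) ^ l < 1 := by
    have h4 : (1 - (h : ℝ) / n) ^ l ≤ Real.exp (-((h : ℝ) / n * l)) := by
      have h5 : 1 - (h : ℝ) / n ≤ Real.exp (-((h : ℝ) / n)) := Real.one_sub_le_exp_neg _
      have h10 : (0 : ℝ) ≤ 1 - (h : ℝ) / n := by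
        rw [sub_nonneg, div_le_one hn0]
        exact_mod_cast hhn
      calc (1 - (h : ℝ) / n) ^ l ≤ Real.exp (-((h : ℝ) / n)) ^ l := pow_le_pow_left₀ h10 h5 l
        _ = Real.exp (-((h : ℝ) / n * l)) := by
            rw [← Real.exp_nat_mul]
            congr 1
            ring
    have h6 : Real.log n < (h : ℝ) / n * l := by
      have hnd : (n : ℝ) ≤ d := by exact_mod_cast hd
      have h7 : (n : ℝ) / h * Real.log n ≤ (d : ℝ) / h * Real.log d := by
        apply mul_le_mul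
        · exact div_le_div_of_nonneg_right hnd hh0'.le
        · exact Real.log_le_log hn0 hnd
        · apply Real.log_nonneg
          have : 1 ≤ n := by omega
          exact_mod_cast this
        · positivity
      have h8 := h7.trans_lt hl
      have h9 : (h : ℝ) / n * ((n : ℝ) / h * Real.log n) < (h : ℝ) / n * l :=
        mul_lt_mul_of_pos_left h8 (by positivity)
      have h10 : (h : ℝ) / n * ((n : ℝ) / h * Real.log n) = Real.log n := by
        field_simp
      rwa [h10] at h9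
    calc n * (1 - (h : ℝ) / n) ^ l ≤ n * Real.exp (-((h : ℝ) / n * l)) :=
          mul_le_mul_of_nonneg_left h4 hn0.le
      _ < n * Real.exp (-(Real.log n)) := by
          apply mul_lt_mul_of_pos_left _ hn0
          rw [Real.exp_lt_exp]
          linarith
      _ = 1 := by
          rw [Real.exp_neg, Real.exp_log hn0, mul_inv_cancel₀ hn0.ne']
  have h4 : Module.finrank ℝ V₀ ≤ Module.finrank ℝ F := by
    have h5 : (Module.finrank ℝ V₀ : ℝ) < Module.finrank ℝ F + 1 := by linarith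
    have h6 : Module.finrank ℝ V₀ < Module.finrank ℝ F + 1 := by exact_mod_cast h5
    omega
  have h7 : F = V₀ := Submodule.eq_of_le_of_finrank_le hF h4
  refine ⟨xs, ?_⟩
  rw [← h7]
  exact h1

end

end Pool.Agent.AAC

namespace Pool.Agent.AAC

alias greedy := Pool.Agent.AAC.greedy_pr

end Pool.Agent.AAC
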