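import Pool.Agent.Lib_helper7.AAC.Basic
import Pool.Agent.Lib_helper7.AACF.EXT
import Pool.Agent.Lib_helper7.AACF.GRE
import Pool.Agent.Lib_helper7.AACF.IDX

set_option autoImplicit false
set_option linter.unusedSectionVars false

/-!
# Block GAM: the index of the kernel
-/

namespace Pool.Agent.AAC

open Finset

section

variable {G X : Type} [Group G] [MulAction G X] [Fintype X] {C : Ctx G X}

/-- permutation of the coordinates -/
noncomputable def gam_R (y : G) : EuclideanSpace ℝ X ≃ₗᵢ[ℝ] EuclideanSpace ℝ X :=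
  LinearIsometryEquiv.piLpCongrLeft 2 ℝ ℝ (MulAction.toPerm y)

lemma gam_R_apply (y : G) (v : EuclideanSpace ℝ X) (x : X) : gam_R y v x = v (y⁻¹ • x) := rfl

/-- the real vector of a rational function -/
noncomputable def gam_e (w : MM ℚ C) : EuclideanSpace ℝ X :=
  WithLp.toLp 2 (fun x => ((toFn ℚ C w x : ℚ) : ℝ))

lemma gam_e_apply (w : MM ℚ C) (x : X) : gam_e w x = ((toFn ℚ C w x : ℚ) : ℝ) := rfl

lemma gam_e_of (y : G) (w : MM ℚ C) : gam_e (MonoidAlgebra.of ℚ G y • w) = gam_R y (gam_e w) := by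
  ext x
  rw [gam_R_apply, gam_e_apply, gam_e_apply, toFn_of]

lemma gam_e_add (v w : MM ℚ C) : gam_e (v + w) = gam_e v + gam_e w := by
  ext x
  rw [PiLp.add_apply, gam_e_apply, gam_e_apply, gam_e_apply, map_add, Pi.add_apply]
  push_cast
  rfl

lemma gam_e_smul (a : ℚ) (w : MM ℚ C) : gam_e (a • w) = (a : ℝ) • gam_e w := by
  ext x
  rw [PiLp.smul_apply, gam_e_apply, gam_e_apply, map_smul, Pi.smul_apply, smul_eq_mul, smul_eq_mul]
  push_cast
  rfl

lemma gam_e_zero : gam_e (0 : MM ℚ C) = 0 := by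
  have h := gam_e_smul (C := C) 0 0
  rw [smul_zero] at h
  rw [h]
  simp

lemma gam_e_sum {ι : Type} (s : Finset ι) (f : ι → MM ℚ C) :
    gam_e (∑ i ∈ s, f i) = ∑ i ∈ s, gam_e (f i) := by
  classical
  induction s using Finset.induction_on with
  | empty => simp [gam_e_zero]
  | insert a s ha ih => rw [Finset.sum_insert ha, Finset.sum_insert ha, gam_e_add, ih]

/-- the real span -/
noncomputable def gam_V (W : Submodule (RR ℚ G) (MM ℚ C)) : Submodule ℝ (EuclideanSpace ℝ X) :=
  Submodule.span ℝ (Set.range fun i : Fin (Module.finrank ℚ W) =>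
    gam_e ((Module.finBasis ℚ W i : W) : MM ℚ C))

lemma gam_mem {W : Submodule (RR ℚ G) (MM ℚ C)} (w : W) : gam_e w.1 ∈ gam_V W := by
  have h1 := (Module.finBasis ℚ W).sum_repr w
  have h2 : w.1 = ∑ i, (Module.finBasis ℚ W).repr w i • ((Module.finBasis ℚ W i : W) : MM ℚ C) := by
    conv_lhs => rw [← h1]
    rw [Submodule.coe_sum]
    rfl
  rw [h2, gam_e_sum]
  refine Submodule.sum_mem _ fun i _ => ?_
  rw [gam_e_smul]
  exact Submodule.smul_mem _ _ (Submodule.subset_span ⟨i, rfl⟩)

lemma gam_dim (W : Submodule (RR ℚ G) (MM ℚ C)) : Module.finrank ℝ (gam_V W) ≤ dd W := by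
  classical
  have h1 := finrank_range_le_card (R := ℝ) (fun i : Fin (Module.finrank ℚ W) =>
    gam_e ((Module.finBasis ℚ W i : W) : MM ℚ C))
  rw [Fintype.card_fin] at h1
  exact h1

lemma gam_stable (W : Submodule (RR ℚ G) (MM ℚ C)) (y : G) :
    ∀ v ∈ gam_V W, (gam_R y).toLinearEquiv.toLinearMap v ∈ gam_V W := by
  have h1 : gam_V W ≤ (gam_V W).comap (gam_R y).toLinearEquiv.toLinearMap := by
    apply Submodule.span_le.2
    rintro _ ⟨i, rfl⟩
    show gam_R y (gam_e _) ∈ gam_V W
    rw [← gam_e_of]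
    exact gam_mem (MonoidAlgebra.of ℚ G y • Module.finBasis ℚ W i)
  exact h1

/-- the representation on the real span -/
noncomputable def gam_rho (W : Submodule (RR ℚ G) (MM ℚ C)) : G →* (gam_V W →ₗ[ℝ] gam_V W) where
  toFun y := ((gam_R y).toLinearEquiv.toLinearMap).restrict (gam_stable W y)
  map_one' := by
    refine LinearMap.ext fun v => Subtype.ext ?_
    ext x
    show v.1 ((1 : G)⁻¹ • x) = v.1 x
    rw [inv_one, one_smul]
  map_mul' := by
    intro a b
    refine LinearMap.ext fun v => Subtype.ext ?_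
    ext x
    show v.1 ((a * b)⁻¹ • x) = v.1 (b⁻¹ • a⁻¹ • x)
    rw [mul_inv_rev, mul_smul]

lemma gam_rho_coe (W : Submodule (RR ℚ G) (MM ℚ C)) (y : G) (v : gam_V W) :
    (gam_rho W y v).1 = gam_R y v.1 := rfl

lemma gam_rho_inner (W : Submodule (RR ℚ G) (MM ℚ C)) (y : G) (v w : gam_V W) :
    inner ℝ (gam_rho W y v) (gam_rho W y w) = inner ℝ v w := by
  show inner ℝ (gam_rho W y v).1 (gam_rho W y w).1 = inner ℝ v.1 w.1
  rw [gam_rho_coe, gam_rho_coe, LinearIsometryEquiv.inner_map_map]

/-- the scalar product over the rational numbers -/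
noncomputable def gam_B (W : Submodule (RR ℚ G) (MM ℚ C)) : W →ₗ[ℚ] Module.Dual ℚ W :=
  LinearMap.mk₂ ℚ (fun w v : W => ∑ x, toFn ℚ C w.1 x * toFn ℚ C v.1 x)
    (by
      intro a b c
      rw [← Finset.sum_add_distrib]
      refine Finset.sum_congr rfl fun x _ => ?_
      rw [Submodule.coe_add, map_add, Pi.add_apply]
      ring)
    (by
      intro a b c
      rw [smul_eq_mul, Finset.mul_sum]
      refine Finset.sum_congr rfl fun x _ => ?_
      show toFn ℚ C (a • b.1) x * _ = _
      rw [map_smul, Pi.smul_apply, smul_eq_mul]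
      ring)
    (by
      intro a b c
      rw [← Finset.sum_add_distrib]
      refine Finset.sum_congr rfl fun x _ => ?_
      rw [Submodule.coe_add, map_add, Pi.add_apply]
      ring)
    (by
      intro a b c
      rw [smul_eq_mul, Finset.mul_sum]
      refine Finset.sum_congr rfl fun x _ => ?_
      show _ * toFn ℚ C (a • c.1) x = _
      rw [map_smul, Pi.smul_apply, smul_eq_mul]
      ring)

lemma gam_B_apply (W : Submodule (RR ℚ G) (MM ℚ C)) (w v : W) :
    gam_B W w v = ∑ x, toFn ℚ C w.1 x * toFn ℚ C v.1 x := rfl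

lemma gam_B_inj (W : Submodule (RR ℚ G) (MM ℚ C)) : Function.Injective (gam_B W) := by
  rw [injective_iff_map_eq_zero]
  intro w hw
  have h1 : gam_B W w w = 0 := by rw [hw]; rfl
  rw [gam_B_apply, Finset.sum_eq_zero_iff_of_nonneg (fun x _ => mul_self_nonneg _)] at h1
  apply Subtype.ext
  apply toFn_inj
  funext x
  have h2 := mul_self_eq_zero.1 (h1 x (Finset.mem_univ x))
  rw [h2]
  show (0 : ℚ) = toFn ℚ C 0 x
  rw [map_zero]
  rfl

lemma gam_B_surj (W : Submodule (RR ℚ G) (MM ℚ C)) : Function.Surjective (gam_B W) :=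
  (LinearMap.injective_iff_surjective_of_finrank_eq_finrank
    (Subspace.dual_finrank_eq (K := ℚ) (V := W)).symm).1 (gam_B_inj W)

/-- evaluation at a point -/
noncomputable def gam_ev (W : Submodule (RR ℚ G) (MM ℚ C)) (x : X) :
    (W →ₗ[RR ℚ G] MM ℚ C) →ₗ[ℚ] Module.Dual ℚ W :=
  LinearMap.mk₂ ℚ (fun (φ : W →ₗ[RR ℚ G] MM ℚ C) (v : W) => toFn ℚ C (φ v) x)
    (by
      intro a b c
      rw [LinearMap.add_apply, map_add, Pi.add_apply])
    (by
      intro a b c
      rw [LinearMap.smul_apply, map_smul, Pi.smul_apply])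
    (by
      intro a b c
      rw [map_add, map_add, Pi.add_apply])
    (by
      intro a b c
      have h1 : b (a • c) = a • b c := LinearMap.map_smul_of_tower b a c
      rw [h1, map_smul, Pi.smul_apply])

lemma gam_ev_apply (W : Submodule (RR ℚ G) (MM ℚ C)) (x : X) (φ : W →ₗ[RR ℚ G] MM ℚ C) (v : W) :
    gam_ev W x φ v = toFn ℚ C (φ v) x := rfl

lemma gam_ev_inj (W : Submodule (RR ℚ G) (MM ℚ C)) (x : X) :
    Function.Injective (gam_ev W x) := by
  rw [injective_iff_map_eq_zero]
  intro φ hφ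
  refine LinearMap.ext fun v => toFn_inj (funext fun x' => ?_)
  obtain ⟨y, hy⟩ := C.tr x' x
  have h1 : gam_ev W x φ (MonoidAlgebra.of ℚ G y • v) = 0 := by rw [hφ]; rfl
  rw [gam_ev_apply, map_smul, toFn_of, ← hy, inv_smul_smul] at h1
  rw [h1]
  show (0 : ℚ) = toFn ℚ C 0 x'
  rw [map_zero]
  rfl

lemma gam_fix (W : Submodule (RR ℚ G) (MM ℚ C)) (x : X) (w : W) (φ : W →ₗ[RR ℚ G] MM ℚ C)
    (h : gam_B W w = gam_ev W x φ) (y : G) (hy : y • x = x) :
    MonoidAlgebra.of ℚ G y • w = w := by
  apply gam_B_inj W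
  rw [h]
  refine LinearMap.ext fun v => ?_
  have h1 := congrArg (fun f : Module.Dual ℚ W => f (MonoidAlgebra.of ℚ G y⁻¹ • v)) h
  simp only [gam_B_apply, gam_ev_apply] at h1
  rw [map_smul, toFn_of, inv_inv, hy] at h1
  rw [gam_ev_apply, ← h1, gam_B_apply]
  refine Fintype.sum_equiv (MulAction.toPerm y⁻¹) _ _ fun x' => ?_
  rw [Submodule.coe_smul, Submodule.coe_smul, toFn_of, toFn_of, inv_inv]
  show _ = toFn ℚ C w.1 (y⁻¹ • x') * toFn ℚ C v.1 (y • y⁻¹ • x')
  rw [smul_inv_smul]

lemma gam_U (W : Submodule (RR ℚ G) (MM ℚ C)) (x : X) :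
    ∃ U : Submodule ℝ (gam_V W), hh W ≤ Module.finrank ℝ U ∧
      ∀ v ∈ U, ∀ y : G, y • x = x → gam_rho W y v = v := by
  classical
  have h1 : ∀ φ : W →ₗ[RR ℚ G] MM ℚ C, ∃ w : W, gam_B W w = gam_ev W x φ :=
    fun φ => gam_B_surj W _
  let b := Module.finBasis ℚ (W →ₗ[RR ℚ G] MM ℚ C)
  choose w hw using fun i => h1 (b i)
  have h2 : LinearIndependent ℚ w := by
    have h3 : LinearIndependent ℚ (fun i => gam_ev W x (b i)) :=
      b.linearIndependent.map' (gam_ev W x) (LinearMap.ker_eq_bot.2 (gam_ev_inj W x))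
    have h4 : (fun i => gam_ev W x (b i)) = (gam_B W) ∘ w := by
      funext i
      exact (hw i).symm
    rw [h4] at h3
    exact h3.of_comp _
  have h3 : LinearIndependent ℚ (fun i => toFn ℚ C (w i).1) := by
    have h5 : LinearIndependent ℚ (fun i => (w i).1) :=
      h2.map' ((W.restrictScalars ℚ).subtype) (LinearMap.ker_eq_bot.2 Subtype.val_injective)
    exact h5.map' (toFn ℚ C) (LinearMap.ker_eq_bot.2 toFn_inj)
  have h4 := linearIndependent_real _ h3
  have h5 : LinearIndependent ℝ (fun i => (⟨gam_e (w i).1, gam_mem (w i)⟩ : gam_V W)) := by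
    have h6 : LinearIndependent ℝ (fun i => gam_e (w i).1) := by
      have h7 : (fun (i : Fin (Module.finrank ℚ (W →ₗ[RR ℚ G] MM ℚ C))) (x : X) =>
          ((toFn ℚ C (w i).1 x : ℚ) : ℝ)) =
          (WithLp.linearEquiv 2 ℝ (X → ℝ)).toLinearMap ∘ (fun i => gam_e (w i).1) := rfl
      rw [h7] at h4
      exact h4.of_comp _
    exact LinearIndependent.of_comp (gam_V W).subtype h6
  refine ⟨Submodule.span ℝ (Set.range fun i => (⟨gam_e (w i).1, gam_mem (w i)⟩ : gam_V W)), ?_, ?_⟩
  · rw [finrank_span_eq_card h5, Fintype.card_fin]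
    exact le_refl _
  · intro v hv y hy
    induction hv using Submodule.span_induction with
    | mem v hv =>
      obtain ⟨i, rfl⟩ := hv
      apply Subtype.ext
      rw [gam_rho_coe]
      show gam_R y (gam_e (w i).1) = gam_e (w i).1
      rw [← gam_e_of]
      have h6 := congrArg (fun u : W => gam_e u.1) (gam_fix W x (w i) (b i) (hw i) y hy)
      exact h6
    | zero => rw [map_zero]
    | add a b _ _ ha hb => rw [map_add, ha, hb]
    | smul c a _ ha => rw [map_smul, ha]

end

section

variable {G X : Type} [Group G] [Fintype G] [MulAction G X] [Fintype X] {C : Ctx G X}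

lemma gam_hh_pos {W : Submodule (RR ℚ G) (MM ℚ C)} (hW : IsSimpleModule (RR ℚ G) W) :
    0 < hh W := by
  have h1 : W.subtype ≠ 0 := by
    intro h
    have h2 : Nontrivial W := IsSimpleModule.nontrivial (RR ℚ G) W
    obtain ⟨w, hw⟩ := exists_ne (0 : W)
    apply hw
    apply Subtype.ext
    have h3 := congrArg (fun f : W →ₗ[RR ℚ G] MM ℚ C => f w) h
    exact h3
  have h3 : Nontrivial (W →ₗ[RR ℚ G] MM ℚ C) := ⟨⟨_, _, h1⟩⟩
  exact Module.finrank_pos

/-- GAM -/
theorem index_le_pr {W : Submodule (RR ℚ G) (MM ℚ C)} (hW : IsSimpleModule (RR ℚ G) W) (l : ℕ)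
    (hl : (dd W : ℝ) / hh W * Real.log (dd W) < l) : (kr W).index ≤ (2 * C.g) ^ l := by
  classical
  have hX : Nonempty X := by
    rw [← Fintype.card_pos_iff, C.card]
    have := C.gpos
    omega
  obtain ⟨V₀, hV₀, hst, xs, hxs⟩ := greedy (gam_rho W) (gam_rho_inner W) C.tr (hh W) (dd W) l
    (gam_hh_pos hW) (gam_dim W) (gam_U W) hl
  let N₀ : Subgroup G :=
    { carrier := {y | ∀ v ∈ V₀, gam_rho W y v = v}
      one_mem' := by
        intro v _
        rw [map_one]
        rfl
      mul_mem' := by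
        intro a b ha hb v hv
        rw [map_mul]
        show gam_rho W a (gam_rho W b v) = v
        rw [hb v hv, ha v hv]
      inv_mem' := by
        intro a ha v hv
        have h1 := congrArg (gam_rho W a⁻¹) (ha v hv)
        have h2 : gam_rho W a⁻¹ (gam_rho W a v) = v := by
          show (gam_rho W a⁻¹ * gam_rho W a) v = v
          rw [← map_mul, inv_mul_cancel, map_one]
          rfl
        rw [h2] at h1
        exact h1.symm }
  have hN₀ : ∀ y ∈ N₀, ∀ g : G, g⁻¹ * y * g ∈ N₀ := by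
    intro y hy g v hv
    rw [map_mul, map_mul]
    show gam_rho W g⁻¹ (gam_rho W y (gam_rho W g v)) = v
    rw [hy _ (hst g v hv)]
    show (gam_rho W g⁻¹ * gam_rho W g) v = v
    rw [← map_mul, inv_mul_cancel, map_one]
    rfl
  let F : Submodule (RR ℚ G) W := mkSub (F := ℚ)
    { carrier := {w : W | ∀ y ∈ N₀, MonoidAlgebra.of ℚ G y • w = w}
      add_mem' := by
        intro a b ha hb y hy
        rw [smul_add, ha y hy, hb y hy]
      zero_mem' := by
        intro y _
        rw [smul_zero]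
      smul_mem' := by
        intro c a ha y hy
        rw [smul_comm, ha y hy] } (by
      intro g w hw y hy
      have h1 := hw _ (hN₀ y hy g)
      have h2 := congrArg (fun u => MonoidAlgebra.of ℚ G g • u) h1
      simp only [← mul_smul, ← map_mul] at h2
      have h3 : g * (g⁻¹ * y * g) = y * g := by group
      rw [h3] at h2
      rw [← mul_smul, ← map_mul]
      exact h2)
  have hFmem : ∀ w : W, w ∈ F ↔ ∀ y ∈ N₀, MonoidAlgebra.of ℚ G y • w = w := fun w => Iff.rfl
  have hle : N₀ ≤ kr W := by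
    rcases eq_bot_or_eq_top F with hF | hF
    · exfalso
      obtain ⟨v, hv, hv0⟩ := V₀.ne_bot_iff.1 hV₀
      -- the sum over the group kills the real span
      let T : EuclideanSpace ℝ X →ₗ[ℝ] EuclideanSpace ℝ X :=
        ∑ y : N₀, (gam_R (y : G)).toLinearEquiv.toLinearMap
      have hT : ∀ u, T u = ∑ y : N₀, gam_R (y : G) u := fun u => by
        rw [LinearMap.sum_apply]
        rfl
      have h1 : ∀ w : W, ∑ y : N₀, MonoidAlgebra.of ℚ G (y : G) • w = 0 := by
        intro w
        have h2 : ∑ y : N₀, MonoidAlgebra.of ℚ G (y : G) • w ∈ F := by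
          rw [hFmem]
          intro z hz
          rw [Finset.smul_sum]
          refine Fintype.sum_equiv (Equiv.mulLeft (⟨z, hz⟩ : N₀)) _ _ fun y => ?_
          rw [← mul_smul, ← map_mul]
          rfl
        rw [hF, Submodule.mem_bot] at h2
        exact h2
      have h2 : ∀ u ∈ gam_V W, T u = 0 := by
        have h3 : gam_V W ≤ LinearMap.ker T := by
          apply Submodule.span_le.2
          rintro _ ⟨i, rfl⟩
          show T _ = 0
          rw [hT]
          have h4 := congrArg (fun u : W => gam_e u.1) (h1 (Module.finBasis ℚ W i))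
          simp only [Submodule.coe_sum, Submodule.coe_smul, Submodule.coe_zero] at h4
          rw [gam_e_sum, gam_e_zero] at h4
          simp only [gam_e_of] at h4
          exact h4
        exact h3
      have h3 := h2 v.1 v.2
      rw [hT] at h3
      have h4 : ∀ y : N₀, gam_R (y : G) v.1 = v.1 := by
        intro y
        have h5 := congrArg Subtype.val (y.2 v hv)
        exact h5
      rw [Finset.sum_congr rfl (fun y _ => h4 y), Finset.sum_const, Finset.card_univ] at h3
      have h5 : Fintype.card N₀ ≠ 0 := Fintype.card_ne_zero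
      rw [← Nat.cast_smul_eq_nsmul ℝ, smul_eq_zero] at h3
      rcases h3 with h3 | h3
      · exact h5 (by exact_mod_cast h3)
      · exact hv0 (Subtype.ext h3)
    · intro y hy v hv
      have h1 : (⟨v, hv⟩ : W) ∈ F := by rw [hF]; exact Submodule.mem_top
      have h2 := congrArg Subtype.val ((hFmem _).1 h1 y hy)
      exact h2
  have hle2 : (⨅ i : Fin l, MulAction.stabilizer G (xs i)) ≤ kr W := by
    refine le_trans ?_ hle
    intro y hy
    rw [Subgroup.mem_iInf] at hy
    exact hxs y (fun i => MulAction.mem_stabilizer_iff.1 (hy i))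
  have h1 : (kr W).index ≤ (⨅ i : Fin l, MulAction.stabilizer G (xs i)).index :=
    Nat.le_of_dvd (Nat.pos_of_ne_zero Subgroup.index_ne_zero_of_finite)
      (Subgroup.index_dvd_of_le hle2)
  refine h1.trans ((Subgroup.index_iInf_le _).trans ?_)
  calc ∏ i : Fin l, (MulAction.stabilizer G (xs i)).index ≤ ∏ _i : Fin l, (2 * C.g) := by
        refine Finset.prod_le_prod' fun i _ => ?_
        rw [MulAction.index_stabilizer, ← C.card, ← Nat.card_eq_fintype_card]
        exact Set.ncard_le_card _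
    _ = (2 * C.g) ^ l := by
        rw [Finset.prod_const, Finset.card_univ, Fintype.card_fin]

end

end Pool.Agent.AAC

namespace Pool.Agent.AAC

alias index_le := Pool.Agent.AAC.index_le_pr

end Pool.Agent.AAC
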