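import Pool.Agent.Lib_helper7.AAC.Basic
import Pool.Agent.Lib_helper7.AACF.Trig

set_option autoImplicit false
set_option linter.unusedSectionVars false

namespace Pool.Agent.Lib_helper38.AAC

open Finset Pool.Agent.AAC

theorem N12_sum {ι : Type} {p : ℕ} [NeZero p] (S : Finset ι) (f : ι → ZMod p)
    (hf : ∀ a ∈ S, ∀ b ∈ S, f a = f b → a = b) (hS : S.card = p) (H : ZMod p → ℝ) :
    ∑ i ∈ S, H (f i) = ∑ z : ZMod p, H z := by
  classical
  rw [← Finset.sum_image (f := H) (g := f) (s := S) (fun a ha b hb h => hf a ha b hb h)]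
  have h1 : S.image f = Finset.univ := by
    apply Finset.eq_univ_of_card
    rw [Finset.card_image_of_injOn (fun a ha b hb h => hf a ha b hb h), hS, ZMod.card]
  rw [h1]

theorem N12_reindex {p q : ℕ} (hp : p = 2 * q + 1) (h : ℤ → ℝ) (hh : ∀ k n : ℤ, h (k + n * p) = h k)
    (m : ℤ) : ∑ u ∈ range p, h (2 * u + m) = ∑ v ∈ Finset.Icc (-(q : ℤ)) q, h v := by
  have : NeZero p := ⟨by omega⟩
  let H : ZMod p → ℝ := fun z => h (z.val : ℤ)
  have hH : ∀ k : ℤ, H (k : ZMod p) = h k := by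
    intro k
    show h (((k : ZMod p).val : ℤ)) = h k
    rw [ZMod.val_intCast]
    have e := Int.emod_add_mul_ediv k p
    conv_rhs => rw [← e, mul_comm]
    rw [hh]
  have e1 : ∑ u ∈ range p, h (2 * u + m) = ∑ u ∈ range p, H (((2 * u + m : ℤ)) : ZMod p) :=
    Finset.sum_congr rfl fun u _ => (hH _).symm
  have e2 : ∑ v ∈ Finset.Icc (-(q : ℤ)) q, h v =
      ∑ v ∈ Finset.Icc (-(q : ℤ)) q, H ((v : ℤ) : ZMod p) :=
    Finset.sum_congr rfl fun u _ => (hH _).symm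
  rw [e1, e2, N12_sum (range p) (fun u => (((2 * u + m : ℤ)) : ZMod p)) ?_ (by simp) H,
    N12_sum (Finset.Icc (-(q : ℤ)) q) (fun v => ((v : ℤ) : ZMod p)) ?_ ?_ H]
  · intro a ha b hb hab
    rw [Finset.mem_Icc] at ha hb
    have h1 : ((a - b : ℤ) : ZMod p) = 0 := by push_cast; exact sub_eq_zero.2 hab
    rw [ZMod.intCast_zmod_eq_zero_iff_dvd] at h1
    have h2 : a - b = 0 := by
      apply Int.eq_zero_of_abs_lt_dvd h1
      rw [abs_lt]
      constructor <;> omega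
    omega
  · rw [Int.card_Icc]
    omega
  · intro a ha b hb hab
    rw [Finset.mem_range] at ha hb
    have h1 : ((2 * ((a : ℤ) - b) : ℤ) : ZMod p) = 0 := by
      have h0 : (((2 * a + m : ℤ)) : ZMod p) = (((2 * b + m : ℤ)) : ZMod p) := hab
      push_cast at h0 ⊢
      linear_combination h0
    rw [ZMod.intCast_zmod_eq_zero_iff_dvd] at h1
    have hcop : IsCoprime (p : ℤ) 2 := by
      rw [Int.isCoprime_iff_gcd_eq_one]
      have : Nat.Coprime p 2 := by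
        rw [Nat.coprime_two_right, hp]
        exact ⟨q, rfl⟩
      simpa [Int.gcd] using this
    have h2 : (p : ℤ) ∣ (a : ℤ) - b := hcop.dvd_of_dvd_mul_left h1
    have h3 : (a : ℤ) - b = 0 := by
      apply Int.eq_zero_of_abs_lt_dvd h2
      rw [abs_lt]
      constructor <;> omega
    omega

theorem N12_geom (T : ℤ → ℝ) (B : ℝ) (hB : 0 ≤ B) (q : ℕ)
    (hT : ∀ v : ℤ, v ≠ 0 → |v| ≤ q → T v ≤ B * (1 / 2) ^ (v.natAbs - 1)) :
    ∑ v ∈ Finset.Icc (-(q : ℤ)) q, T v ≤ T 0 + 4 * B := by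
  have key : ∀ r : ℕ, r ≤ q → ∑ v ∈ Finset.Icc (-(r : ℤ)) r, T v ≤
      T 0 + 4 * B * (1 - (1 / 2) ^ r) := by
    intro r
    induction r with
    | zero => intro _; simp
    | succ r ih =>
      intro hr
      have h1 := ih (by omega)
      have e : Finset.Icc (-((r + 1 : ℕ) : ℤ)) ((r + 1 : ℕ) : ℤ) =
          insert (((r + 1 : ℕ) : ℤ)) (insert (-((r + 1 : ℕ) : ℤ)) (Finset.Icc (-(r : ℤ)) r)) := by
        ext x
        simp only [Finset.mem_Icc, Finset.mem_insert]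
        push_cast
        omega
      rw [e, Finset.sum_insert, Finset.sum_insert]
      · have h2 := hT (((r + 1 : ℕ) : ℤ)) (by push_cast; omega) (by
          rw [abs_of_nonneg (by positivity)]; exact_mod_cast hr)
        have h3 := hT (-((r + 1 : ℕ) : ℤ)) (by push_cast; omega) (by
          rw [abs_neg, abs_of_nonneg (by positivity)]; exact_mod_cast hr)
        rw [Int.natAbs_natCast, Nat.add_sub_cancel] at h2
        rw [Int.natAbs_neg, Int.natAbs_natCast, Nat.add_sub_cancel] at h3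
        have h4 : ((1 : ℝ) / 2) ^ (r + 1) = (1 / 2) ^ r * (1 / 2) := pow_succ _ _
        rw [h4]
        nlinarith
      · simp only [Finset.mem_Icc]
        push_cast
        omega
      · simp only [Finset.mem_Icc, Finset.mem_insert]
        push_cast
        omega
  have h1 := key q le_rfl
  have h2 : (0 : ℝ) ≤ (1 / 2) ^ q := by positivity
  nlinarith [mul_nonneg hB h2]

theorem N12_nd {t : ℝ} (ht : |t| ≤ 1 / 2) : |t| ≤ nd t := by
  unfold nd
  by_cases h0 : round t = 0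
  · rw [h0]; simp
  · have h1 : (1 : ℝ) ≤ |((round t : ℤ) : ℝ)| := by
      have : (1 : ℤ) ≤ |round t| := Int.one_le_abs h0
      exact_mod_cast this
    have h2 : |((round t : ℤ) : ℝ)| ≤ |t - round t| + |t| := by
      have := abs_sub_abs_le_abs_sub ((round t : ℤ) : ℝ) t
      rw [abs_sub_comm t]
      linarith
    linarith

/-- one term -/
theorem N12_term {p q : ℕ} (hp : p = 2 * q + 1) (s ε : ℝ) (hs : 0 < s) (hε : |ε| ≤ 1 / 2) (v : ℤ)
    (hv : |v| ≤ q) : |Real.cos (Real.pi * ((v + ε) / p))| ^ s ≤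
      Real.exp (-(s / p ^ 2 * (Real.pi ^ 2 / 2 * (v + ε) ^ 2))) := by
  have hp0 : (0 : ℝ) < p := by rw [hp]; push_cast; positivity
  have hv' : |(v : ℝ)| ≤ q := by exact_mod_cast hv
  have h1 : |((v : ℝ) + ε) / p| ≤ 1 / 2 := by
    rw [abs_div, abs_of_pos hp0, div_le_iff₀ hp0]
    calc |(v : ℝ) + ε| ≤ |(v : ℝ)| + |ε| := abs_add_le _ _
      _ ≤ q + 1 / 2 := add_le_add hv' hε
      _ = 1 / 2 * p := by rw [hp]; push_cast; ring
  have h2 := N12_nd h1
  have h3 := cos_nd (((v : ℝ) + ε) / p)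
  have h4 : |Real.cos (Real.pi * ((v + ε) / p))| ≤
      Real.exp (-(Real.pi ^ 2 * (((v : ℝ) + ε) / p) ^ 2 / 2)) := by
    refine h3.trans (Real.exp_le_exp.2 ?_)
    have h5 : (((v : ℝ) + ε) / p) ^ 2 ≤ nd (((v : ℝ) + ε) / p) ^ 2 := by
      rw [← sq_abs]
      exact pow_le_pow_left₀ (abs_nonneg _) h2 2
    nlinarith [mul_le_mul_of_nonneg_left h5 (sq_nonneg Real.pi)]
  calc |Real.cos (Real.pi * ((v + ε) / p))| ^ s
      ≤ (Real.exp (-(Real.pi ^ 2 * (((v : ℝ) + ε) / p) ^ 2 / 2))) ^ s :=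
        Real.rpow_le_rpow (abs_nonneg _) h4 hs.le
    _ = Real.exp (-(s / p ^ 2 * (Real.pi ^ 2 / 2 * (v + ε) ^ 2))) := by
        rw [← Real.exp_mul]
        congr 1
        field_simp

theorem N12_pi : (4.9 : ℝ) ≤ Real.pi ^ 2 / 2 := by
  have h := Real.pi_gt_d2
  nlinarith

theorem N12_half {x : ℝ} (hx : 1 ≤ x) : Real.exp (-x) ≤ 1 / 2 := by
  rw [Real.exp_neg, one_div]
  have h1 := Real.add_one_le_exp x
  exact inv_anti₀ (by norm_num) (by linarith)

/-- the sum in symmetric form -/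
theorem N12_ThS {p q : ℕ} (hp : p = 2 * q + 1) (s b : ℝ) :
    ThS p s b = ∑ v ∈ Finset.Icc (-(q : ℤ)) q,
      |Real.cos (Real.pi * ((v + (2 * p * b - round (2 * p * b))) / p))| ^ s := by
  have hp0 : (0 : ℝ) < p := by rw [hp]; push_cast; positivity
  have h1 := N12_reindex hp (fun k : ℤ => |Real.cos (Real.pi * (((k : ℝ) +
    (2 * p * b - round (2 * p * b))) / p))| ^ s) (by
      intro k n
      show |Real.cos (Real.pi * ((((k + n * p : ℤ) : ℝ) + (2 * p * b - round (2 * p * b))) / p))| ^ s = _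
      have e : Real.pi * ((((k + n * p : ℤ) : ℝ) + (2 * p * b - round (2 * p * b))) / p) =
          Real.pi * (((k : ℝ) + (2 * p * b - round (2 * p * b))) / p) + n * Real.pi := by
        push_cast
        field_simp
        ring
      rw [e, Real.cos_add_int_mul_pi, abs_mul]
      have e2 : |((-1 : ℝ)) ^ n| = 1 := by
        rw [abs_zpow, abs_neg, abs_one, one_zpow]
      rw [e2, one_mul]) (round (2 * p * b))
  rw [← h1]
  unfold ThS
  refine Finset.sum_congr rfl fun u _ => ?_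
  congr 3
  push_cast
  field_simp
  ring

theorem th_big_pr (p : ℕ) (hp : Odd p) (s : ℝ) (hs : (p : ℝ) ^ 2 ≤ s) :
    Th p s ≤ 1 + 3 * Real.exp (-(4 * s / p ^ 2)) := by
  obtain ⟨q, hq⟩ := hp
  have hp0 : (0 : ℝ) < p := by rw [hq]; push_cast; positivity
  have hs0 : 0 < s := lt_of_lt_of_le (by positivity) hs
  have ha : 1 ≤ s / p ^ 2 := by rw [le_div_iff₀ (by positivity), one_mul]; exact hs
  obtain ⟨a, hae⟩ : ∃ a, a = s / (p : ℝ) ^ 2 := ⟨_, rfl⟩
  rw [← hae] at ha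
  unfold Th
  rw [N12_ThS hq]
  simp only [mul_zero, round_zero, Int.cast_zero, sub_zero, add_zero]
  have h1 := N12_geom (fun v : ℤ => |Real.cos (Real.pi * ((v : ℝ) / p))| ^ s)
    (3 / 4 * Real.exp (-(4 * s / p ^ 2))) (by positivity) q (by
      intro v hv0 hv
      have h2 := N12_term hq s 0 hs0 (by simp) v hv
      rw [add_zero] at h2
      refine h2.trans ?_
      rw [← hae]
      have e1 : 4 * s / (p : ℝ) ^ 2 = 4 * a := by rw [hae]; ring
      rw [e1]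
      -- `v ^ 2 ≥ |v|`
      obtain ⟨w, hw⟩ : ∃ w : ℕ, v.natAbs = w + 1 :=
        ⟨v.natAbs - 1, by have := Int.natAbs_pos.2 hv0; omega⟩
      have hv2 : (v : ℝ) ^ 2 = ((w : ℝ) + 1) ^ 2 := by
        have h3 : (v : ℤ) ^ 2 = ((w + 1 : ℕ) : ℤ) ^ 2 := by rw [← hw, Int.natAbs_sq]
        exact_mod_cast h3
      rw [hw, Nat.add_sub_cancel, hv2]
      have h4 : -(a * (Real.pi ^ 2 / 2 * ((w : ℝ) + 1) ^ 2)) ≤ -(4 * a) + -(9 / 10) + (w : ℝ) * (-1) := by
        have hw0 : (0 : ℝ) ≤ w := Nat.cast_nonneg w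
        have h5 := N12_pi
        have h6 : (4.9 : ℝ) * ((w : ℝ) + 1) ^ 2 ≤ Real.pi ^ 2 / 2 * ((w : ℝ) + 1) ^ 2 :=
          mul_le_mul_of_nonneg_right h5 (by positivity)
        have h7 : a * ((4.9 : ℝ) * ((w : ℝ) + 1) ^ 2) ≤ a * (Real.pi ^ 2 / 2 * ((w : ℝ) + 1) ^ 2) :=
          mul_le_mul_of_nonneg_left h6 (by linarith)
        have h8 : (4.9 : ℝ) + 4.9 * w ≤ 4.9 * ((w : ℝ) + 1) ^ 2 := by nlinarith
        have h9 : a * (4.9 + 4.9 * w) ≤ a * (4.9 * ((w : ℝ) + 1) ^ 2) :=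
          mul_le_mul_of_nonneg_left h8 (by linarith)
        nlinarith
      calc Real.exp (-(a * (Real.pi ^ 2 / 2 * ((w : ℝ) + 1) ^ 2)))
          ≤ Real.exp (-(4 * a) + -(9 / 10) + (w : ℝ) * (-1)) := Real.exp_le_exp.2 h4
        _ = Real.exp (-(4 * a)) * Real.exp (-(9 / 10)) * Real.exp (-1) ^ w := by
            rw [Real.exp_add, Real.exp_add, Real.exp_nat_mul]
        _ ≤ Real.exp (-(4 * a)) * (3 / 4) * (1 / 2) ^ w := by
            have h10 : Real.exp (-(9 / 10)) ≤ 3 / 4 := by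
              rw [Real.exp_neg]
              have := Real.add_one_le_exp (9 / 10 : ℝ)
              calc (Real.exp (9 / 10))⁻¹ ≤ (19 / 10)⁻¹ := inv_anti₀ (by norm_num) (by linarith)
                _ ≤ 3 / 4 := by norm_num
            have h11 : Real.exp (-1) ^ w ≤ (1 / 2) ^ w :=
              pow_le_pow_left₀ (Real.exp_pos _).le (N12_half le_rfl) w
            have h12 := (Real.exp_pos (-(4 * a))).le
            exact mul_le_mul (mul_le_mul_of_nonneg_left h10 h12) h11 (by positivity) (by positivity)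
        _ = 3 / 4 * Real.exp (-(4 * a)) * (1 / 2) ^ w := by ring)
  refine h1.trans ?_
  have h2 : |Real.cos (Real.pi * (((0 : ℤ) : ℝ) / p))| ^ s = 1 := by
    simp
  rw [h2]
  linarith

theorem ths_big_pr (p : ℕ) (hp : Odd p) (s : ℝ) (hs : (p : ℝ) ^ 2 ≤ s) (b : ℝ) :
    ThS p s b ≤ (1 + 6 * Real.exp (-(s / (2 * p ^ 2)))) *
      Real.exp (-(s * nd (2 * p * b) ^ 2 / p ^ 2)) := by
  obtain ⟨q, hq⟩ := hp
  have hp0 : (0 : ℝ) < p := by rw [hq]; push_cast; positivity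
  have hs0 : 0 < s := lt_of_lt_of_le (by positivity) hs
  have ha : 1 ≤ s / p ^ 2 := by rw [le_div_iff₀ (by positivity), one_mul]; exact hs
  obtain ⟨a, hae⟩ : ∃ a, a = s / (p : ℝ) ^ 2 := ⟨_, rfl⟩
  rw [← hae] at ha
  rw [N12_ThS hq]
  obtain ⟨ε, hεe⟩ : ∃ ε, ε = 2 * (p : ℝ) * b - round (2 * (p : ℝ) * b) := ⟨_, rfl⟩
  have hnd : nd (2 * p * b) = |ε| := by rw [hεe]; rfl
  have hε : |ε| ≤ 1 / 2 := by rw [hεe]; exact abs_sub_round _
  rw [hnd, ← hεe]
  obtain ⟨θ, hθ⟩ : ∃ θ, θ = |ε| := ⟨_, rfl⟩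
  rw [← hθ] at hε
  have hθ0 : 0 ≤ θ := by rw [hθ]; exact abs_nonneg _
  have e2 : s * |ε| ^ 2 / (p : ℝ) ^ 2 = a * θ ^ 2 := by rw [hae, hθ]; ring
  have e3 : s / (2 * (p : ℝ) ^ 2) = a / 2 := by rw [hae]; field_simp
  rw [e2, e3]
  have hpi := N12_pi
  have hsq : ε ^ 2 = θ ^ 2 := by rw [hθ, sq_abs]
  have h0 : |Real.cos (Real.pi * ((((0 : ℤ) : ℝ) + ε) / p))| ^ s ≤ Real.exp (-(a * θ ^ 2)) := by
    refine (N12_term hq s ε hs0 (by rw [← hθ]; exact hε) 0 (by simp)).trans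
      (Real.exp_le_exp.2 ?_)
    rw [← hae, Int.cast_zero, zero_add, hsq]
    have h1 : θ ^ 2 ≤ Real.pi ^ 2 / 2 * θ ^ 2 := by nlinarith [sq_nonneg θ]
    have h2 := mul_le_mul_of_nonneg_left h1 (by linarith : (0 : ℝ) ≤ a)
    linarith
  have h1 := N12_geom (fun v : ℤ => |Real.cos (Real.pi * (((v : ℝ) + ε) / p))| ^ s)
    (Real.exp (-(a / 2)) * Real.exp (-(a * θ ^ 2))) (by positivity) q (by
      intro v hv0 hv
      refine (N12_term hq s ε hs0 (by rw [← hθ]; exact hε) v hv).trans ?_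
      rw [← hae]
      obtain ⟨w, hw⟩ : ∃ w : ℕ, v.natAbs = w + 1 :=
        ⟨v.natAbs - 1, by have := Int.natAbs_pos.2 hv0; omega⟩
      have hv1 : |(v : ℝ)| = (w : ℝ) + 1 := by
        have h3 : |v| = ((w + 1 : ℕ) : ℤ) := by rw [← hw]; exact Int.abs_eq_natAbs v
        exact_mod_cast h3
      have h2 : (w : ℝ) + 1 - θ ≤ |(v : ℝ) + ε| := by
        have h3 := abs_sub_abs_le_abs_sub (v : ℝ) (-ε)
        rw [abs_neg, sub_neg_eq_add, hv1, ← hθ] at h3
        exact h3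
      have hw0 : (0 : ℝ) ≤ w := Nat.cast_nonneg w
      have h3 : ((w : ℝ) + 1 - θ) ^ 2 ≤ ((v : ℝ) + ε) ^ 2 := by
        rw [← sq_abs ((v : ℝ) + ε)]
        exact pow_le_pow_left₀ (by linarith) h2 2
      rw [hw, Nat.add_sub_cancel]
      have h4 : θ ^ 2 + 1 / 2 + w ≤ Real.pi ^ 2 / 2 * ((v : ℝ) + ε) ^ 2 := by
        have h5 : (4.9 : ℝ) * ((w : ℝ) + 1 - θ) ^ 2 ≤ Real.pi ^ 2 / 2 * ((v : ℝ) + ε) ^ 2 :=
          mul_le_mul hpi h3 (sq_nonneg _) (by positivity)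
        nlinarith [mul_nonneg hw0 hθ0, mul_nonneg hw0 hw0]
      have h6 : -(a * (Real.pi ^ 2 / 2 * ((v : ℝ) + ε) ^ 2)) ≤
          -(a / 2) + -(a * θ ^ 2) + (w : ℝ) * (-1) := by
        have h7 := mul_le_mul_of_nonneg_left h4 (by linarith : (0 : ℝ) ≤ a)
        nlinarith
      calc Real.exp (-(a * (Real.pi ^ 2 / 2 * ((v : ℝ) + ε) ^ 2)))
          ≤ Real.exp (-(a / 2) + -(a * θ ^ 2) + (w : ℝ) * (-1)) := Real.exp_le_exp.2 h6
        _ = Real.exp (-(a / 2)) * Real.exp (-(a * θ ^ 2)) * Real.exp (-1) ^ w := by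
            rw [Real.exp_add, Real.exp_add, Real.exp_nat_mul]
        _ ≤ Real.exp (-(a / 2)) * Real.exp (-(a * θ ^ 2)) * (1 / 2) ^ w := by
            have h11 : Real.exp (-1) ^ w ≤ (1 / 2) ^ w :=
              pow_le_pow_left₀ (Real.exp_pos _).le (N12_half le_rfl) w
            exact mul_le_mul_of_nonneg_left h11 (by positivity))
  refine h1.trans ?_
  have h2 : 0 < Real.exp (-(a / 2)) * Real.exp (-(a * θ ^ 2)) := by positivity
  nlinarith [h0, h2]

end Pool.Agent.Lib_helper38.AAC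

namespace Pool.Agent.AAC

alias th_big := Pool.Agent.Lib_helper38.AAC.th_big_pr
alias ths_big := Pool.Agent.Lib_helper38.AAC.ths_big_pr

end Pool.Agent.AAC
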