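import Pool.Agent.Lib_helper7.AAC.Basic

set_option autoImplicit false
set_option linter.unusedSectionVars false

/-!
# Block END: the endomorphisms of the reduction
-/

namespace Pool.Agent.AAC

open Finset

/-- the integral vectors of a rational subspace -/
def END_L {κ : Type} (S : Submodule ℚ (κ → ℚ)) : Submodule ℤ (κ → ℤ) where
  carrier := {f | (fun k => (f k : ℚ)) ∈ S}
  add_mem' := by
    intro f f' h h'
    show (fun k => (((f + f') k : ℤ) : ℚ)) ∈ S
    have := S.add_mem h h'
    convert this using 1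
    funext k
    simp
  zero_mem' := by
    show (fun k => (((0 : κ → ℤ) k : ℤ) : ℚ)) ∈ S
    convert S.zero_mem using 1
    funext k
    simp
  smul_mem' := by
    intro a f h
    show (fun k => (((a • f) k : ℤ) : ℚ)) ∈ S
    have := S.smul_mem (a : ℚ) h
    convert this using 1
    funext k
    simp

lemma END_mem_L {κ : Type} (S : Submodule ℚ (κ → ℚ)) (f : κ → ℤ) :
    f ∈ END_L S ↔ (fun k => (f k : ℚ)) ∈ S := Iff.rfl

/-- common denominators -/
lemma END_den {κ : Type} [Finite κ] (v : κ → ℚ) :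
    ∃ N : ℕ, 0 < N ∧ ∃ f : κ → ℤ, ∀ k, (N : ℚ) * v k = f k := by
  classical
  have : Fintype κ := Fintype.ofFinite κ
  refine ⟨∏ k, (v k).den, Finset.prod_pos fun k _ => (v k).den_pos,
    fun k => (∏ j ∈ Finset.univ.erase k, ((v j).den : ℤ)) * (v k).num, fun k => ?_⟩
  rw [← Finset.mul_prod_erase Finset.univ _ (Finset.mem_univ k)]
  push_cast
  have h := Rat.mul_den_eq_num (v k)
  calc ((v k).den : ℚ) * (∏ j ∈ Finset.univ.erase k, ((v j).den : ℚ)) * v k
      = (∏ j ∈ Finset.univ.erase k, ((v j).den : ℚ)) * (v k * (v k).den) := by ring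
    _ = _ := by rw [h]

lemma END_finrank_le {κ : Type} [Finite κ] (S : Submodule ℚ (κ → ℚ)) :
    Module.finrank ℚ S ≤ Module.finrank ℤ (END_L S) := by
  classical
  have : Fintype κ := Fintype.ofFinite κ
  let b := Module.finBasis ℚ S
  choose N hN f hf using fun i => END_den ((b i : κ → ℚ))
  have hmem : ∀ i, f i ∈ END_L S := by
    intro i
    rw [END_mem_L]
    have := S.smul_mem (N i : ℚ) (b i).2
    convert this using 1
    funext k
    rw [Pi.smul_apply, smul_eq_mul, hf]
  have hli : LinearIndependent ℤ (fun i => (⟨f i, hmem i⟩ : END_L S)) := by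
    rw [Fintype.linearIndependent_iff]
    intro g hg i
    have h1 : ∑ j, ((g j : ℚ) * N j) • (b j) = 0 := by
      apply Subtype.ext
      funext k
      have h2 := congrFun (congrArg Subtype.val hg) k
      rw [AddSubmonoidClass.coe_finsetSum, Finset.sum_apply] at h2
      rw [AddSubmonoidClass.coe_finsetSum, Finset.sum_apply]
      have h3 : ((∑ j, g j * f j k : ℤ) : ℚ) = 0 := by
        have h4 : ∑ j, g j * f j k = 0 := by
          rw [← show ((0 : END_L S) : κ → ℤ) k = 0 from rfl, ← h2]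
          exact Finset.sum_congr rfl fun j _ => by simp
        rw [h4, Int.cast_zero]
      rw [show ((0 : S) : κ → ℚ) k = 0 from rfl, ← h3, Int.cast_sum]
      refine Finset.sum_congr rfl fun j _ => ?_
      rw [Submodule.coe_smul, Pi.smul_apply, smul_eq_mul, Int.cast_mul, ← hf, mul_assoc]
    have h2 := (Fintype.linearIndependent_iff.1 b.linearIndependent) _ h1 i
    have h3 : (N i : ℚ) ≠ 0 := by exact_mod_cast (hN i).ne'
    have h4 := (mul_eq_zero.1 h2).resolve_right h3
    exact_mod_cast h4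
  have := hli.fintype_card_le_finrank
  rwa [Fintype.card_fin] at this

/-- the reductions of the integral vectors of a subspace of dimension `e` are at least `p ^ e` -/
lemma END_card {κ : Type} [Finite κ] (S : Submodule ℚ (κ → ℚ)) (p : ℕ) [Fact p.Prime] :
    p ^ Module.finrank ℚ S ≤
      Nat.card {w : κ → ZMod p | ∃ f ∈ END_L S, ∀ k, w k = (f k : ZMod p)} := by
  classical
  have : Fintype κ := Fintype.ofFinite κ
  have hp : p.Prime := Fact.out
  let β := Module.finBasis ℤ (END_L S)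
  set r := Module.finrank ℤ (END_L S) with hr
  have h1 : p ^ Module.finrank ℚ S ≤ p ^ r :=
    Nat.pow_le_pow_right hp.pos (END_finrank_le S)
  refine h1.trans ?_
  have h2 : Nat.card (Fin r → ZMod p) = p ^ r := by
    rw [Nat.card_eq_fintype_card, Fintype.card_fun, ZMod.card, Fintype.card_fin]
  rw [← h2]
  let F : (Fin r → ZMod p) → {w : κ → ZMod p | ∃ f ∈ END_L S, ∀ k, w k = (f k : ZMod p)} :=
    fun c => ⟨fun k => (((∑ i, ((c i).val : ℤ) • β i : END_L S) : κ → ℤ) k : ZMod p),
      ((∑ i, ((c i).val : ℤ) • β i : END_L S) : κ → ℤ),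
      (∑ i, ((c i).val : ℤ) • β i : END_L S).2, fun k => rfl⟩
  refine Nat.card_le_card_of_injective F ?_
  intro c c' hcc
  have h3 : ∀ k, (((∑ i, ((c i).val : ℤ) • β i - ∑ i, ((c' i).val : ℤ) • β i : END_L S) :
      κ → ℤ) k : ZMod p) = 0 := by
    intro k
    have := congrFun (congrArg Subtype.val hcc) k
    rw [Submodule.coe_sub, Pi.sub_apply, Int.cast_sub, sub_eq_zero]
    exact this
  set D : END_L S := ∑ i, ((c i).val : ℤ) • β i - ∑ i, ((c' i).val : ℤ) • β i with hD
  have h4 : ∀ k, ∃ m : ℤ, (D : κ → ℤ) k = p * m := fun k =>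
    (ZMod.intCast_zmod_eq_zero_iff_dvd _ p).1 (h3 k)
  choose m hm using h4
  have hm' : m ∈ END_L S := by
    rw [END_mem_L]
    have h5 := S.smul_mem ((p : ℚ)⁻¹) ((END_mem_L S _).1 D.2)
    convert h5 using 1
    funext k
    rw [Pi.smul_apply, smul_eq_mul, hm k]
    have : (p : ℚ) ≠ 0 := by exact_mod_cast hp.ne_zero
    push_cast
    field_simp
  have h5 : D = (p : ℤ) • (⟨m, hm'⟩ : END_L S) := by
    apply Subtype.ext
    funext k
    rw [hm k]
    rfl
  funext i
  have h6 := congrArg (fun v => β.repr v i) h5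
  have h7 : β.repr D i = ((c i).val : ℤ) - ((c' i).val : ℤ) := by
    rw [hD, ← Finset.sum_sub_distrib]
    simp only [← sub_smul]
    rw [β.repr_sum_self]
  simp only [map_smul] at h6
  rw [h7, Finsupp.smul_apply, smul_eq_mul] at h6
  have h8 : (((c i).val : ℤ) : ZMod p) - (((c' i).val : ℤ) : ZMod p) = 0 := by
    rw [← Int.cast_sub, h6]
    simp
  rw [sub_eq_zero, Int.cast_natCast, Int.cast_natCast, ZMod.natCast_zmod_val,
    ZMod.natCast_zmod_val] at h8
  exact h8

section

variable {G X : Type} [Group G] [Fintype G] [MulAction G X] [Fintype X] {C : Ctx G X}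

lemma END_ex (W : Submodule (RR ℚ G) (MM ℚ C)) (f : lat W) :
    ∃ v : W, ∀ x, toFn ℚ C v.1 x = (f.1 x : ℚ) := by
  obtain ⟨v, hv, h⟩ := f.2
  exact ⟨⟨v, hv⟩, h⟩

lemma END_ext {W : Submodule (RR ℚ G) (MM ℚ C)} {v w : W}
    (h : ∀ x, toFn ℚ C v.1 x = toFn ℚ C w.1 x) : v = w :=
  Subtype.ext (toFn_inj (funext h))

/-- the vector of `W` of an integral function -/
noncomputable def END_lf (W : Submodule (RR ℚ G) (MM ℚ C)) : lat W →ₗ[ℤ] W where
  toFun f := (END_ex W f).choose
  map_add' := by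
    intro f f'
    apply END_ext
    intro x
    rw [(END_ex W (f + f')).choose_spec, Submodule.coe_add, Submodule.coe_add, map_add,
      Pi.add_apply]
    have h1 := (END_ex W f).choose_spec x
    have h2 := (END_ex W f').choose_spec x
    show _ = toFn ℚ C ((END_ex W f).choose : W).1 x + toFn ℚ C ((END_ex W f').choose : W).1 x
    rw [h1, h2]
    exact Int.cast_add _ _
  map_smul' := by
    intro a f
    apply END_ext
    intro x
    rw [(END_ex W (a • f)).choose_spec, RingHom.id_apply]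
    have h1 : ((a • (END_ex W f).choose : W) : MM ℚ C) = a • ((END_ex W f).choose : MM ℚ C) := rfl
    rw [h1, map_zsmul, Pi.smul_apply, (END_ex W f).choose_spec, Submodule.coe_smul,
      Pi.smul_apply]
    simp

lemma END_lf_spec (W : Submodule (RR ℚ G) (MM ℚ C)) (f : lat W) (x : X) :
    toFn ℚ C (END_lf W f).1 x = (f.1 x : ℚ) := (END_ex W f).choose_spec x

lemma END_lf_inj (W : Submodule (RR ℚ G) (MM ℚ C)) : Function.Injective (END_lf W) := by
  intro f f' h
  apply Subtype.ext
  funext x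
  have h1 := END_lf_spec W f x
  rw [h, END_lf_spec] at h1
  exact_mod_cast h1.symm

/-- every integral vector comes from the lattice -/
lemma END_lf_surj (W : Submodule (RR ℚ G) (MM ℚ C)) (v : W) (f : X → ℤ)
    (h : ∀ x, toFn ℚ C v.1 x = (f x : ℚ)) : ∃ f' : lat W, f'.1 = f ∧ END_lf W f' = v :=
  ⟨⟨f, v.1, v.2, h⟩, rfl, END_ext fun x => by rw [END_lf_spec, h]⟩

/-- the action of the group on the lattice -/
def END_ga (W : Submodule (RR ℚ G) (MM ℚ C)) (y : G) (f : lat W) : lat W :=
  ⟨fun x => f.1 (y⁻¹ • x), lat_smul f.2 y⁻¹⟩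

lemma END_lf_ga (W : Submodule (RR ℚ G) (MM ℚ C)) (y : G) (f : lat W) :
    END_lf W (END_ga W y f) = MonoidAlgebra.of ℚ G y • END_lf W f := by
  apply END_ext
  intro x
  rw [END_lf_spec, Submodule.coe_smul, toFn_of, END_lf_spec]
  rfl

lemma END_rd_ex (p : ℕ) (W : Submodule (RR ℚ G) (MM ℚ C)) (f : lat W) :
    ∃ v : red p W, ∀ x, toFn (ZMod p) C v.1 x = (f.1 x : ZMod p) := by
  obtain ⟨v, hv⟩ := exists_toFn (F := ZMod p) (C := C) (f := fun x => (f.1 x : ZMod p))
    (fun x => by rw [lat_odd f.2 x]; push_cast; rfl)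
  exact ⟨⟨v, mem_red.2 ⟨f.1, f.2, fun x => by rw [hv]⟩⟩, fun x => by rw [hv]⟩

/-- reduction -/
noncomputable def END_rd (p : ℕ) (W : Submodule (RR ℚ G) (MM ℚ C)) (f : lat W) : red p W :=
  (END_rd_ex p W f).choose

lemma END_rd_spec (p : ℕ) (W : Submodule (RR ℚ G) (MM ℚ C)) (f : lat W) (x : X) :
    toFn (ZMod p) C (END_rd p W f).1 x = (f.1 x : ZMod p) := (END_rd_ex p W f).choose_spec x

lemma END_ext' {p : ℕ} {W : Submodule (RR ℚ G) (MM ℚ C)} {v w : red p W}
    (h : ∀ x, toFn (ZMod p) C v.1 x = toFn (ZMod p) C w.1 x) : v = w :=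
  Subtype.ext (toFn_inj (funext h))

lemma END_rd_surj (p : ℕ) (W : Submodule (RR ℚ G) (MM ℚ C)) (v : red p W) :
    ∃ f : lat W, END_rd p W f = v := by
  obtain ⟨f, hf, h⟩ := mem_red.1 v.2
  exact ⟨⟨f, hf⟩, END_ext' fun x => by rw [END_rd_spec, h]⟩

lemma END_rd_add (p : ℕ) (W : Submodule (RR ℚ G) (MM ℚ C)) (f f' : lat W) :
    END_rd p W (f + f') = END_rd p W f + END_rd p W f' := by
  apply END_ext'
  intro x
  rw [END_rd_spec, Submodule.coe_add, Submodule.coe_add, map_add, Pi.add_apply, Pi.add_apply,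
    END_rd_spec, END_rd_spec]
  push_cast
  rfl

lemma END_rd_ga (p : ℕ) (W : Submodule (RR ℚ G) (MM ℚ C)) (y : G) (f : lat W) :
    END_rd p W (END_ga W y f) = MonoidAlgebra.of (ZMod p) G y • END_rd p W f := by
  apply END_ext'
  intro x
  rw [END_rd_spec, Submodule.coe_smul, toFn_of, END_rd_spec]
  rfl

/-- the kernel of the reduction -/
lemma END_rd_eq (p : ℕ) [Fact p.Prime] (W : Submodule (RR ℚ G) (MM ℚ C)) (f f' : lat W)
    (h : END_rd p W f = END_rd p W f') : ∃ w : lat W, f = f' + (p : ℤ) • w := by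
  have hp : p.Prime := Fact.out
  have h1 : ∀ x, ∃ m : ℤ, f.1 x - f'.1 x = p * m := by
    intro x
    have h2 := END_rd_spec p W f x
    rw [h, END_rd_spec] at h2
    exact (ZMod.intCast_zmod_eq_zero_iff_dvd _ p).1 (by push_cast; rw [h2, sub_self])
  choose m hm using h1
  have h2 : m ∈ lat W := by
    refine ⟨(p : ℚ)⁻¹ • ((END_lf W f).1 - (END_lf W f').1), ?_, fun x => ?_⟩
    · rw [← one_smul (RR ℚ G) ((END_lf W f).1 - (END_lf W f').1), ← smul_assoc]
      exact W.smul_mem _ (W.sub_mem (END_lf W f).2 (END_lf W f').2)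
    · rw [map_smul, map_sub, Pi.smul_apply, Pi.sub_apply, END_lf_spec, END_lf_spec,
        ← Int.cast_sub, hm x, smul_eq_mul]
      have : (p : ℚ) ≠ 0 := by exact_mod_cast hp.ne_zero
      push_cast
      field_simp
  refine ⟨⟨m, h2⟩, Subtype.ext (funext fun x => ?_)⟩
  have h3 := hm x
  have h4 : (f' + (p : ℤ) • (⟨m, h2⟩ : lat W)).1 x = f'.1 x + p * m x := rfl
  rw [h4]
  linarith

/-- an endomorphism preserving the integral vectors induces one of the reduction -/
lemma END_ind (p : ℕ) [Fact p.Prime] (W : Submodule (RR ℚ G) (MM ℚ C))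
    (φ : Module.End (RR ℚ G) W) (φL : lat W → lat W)
    (hφ : ∀ f, END_lf W (φL f) = φ (END_lf W f)) :
    ∃ E : Module.End (RR (ZMod p) G) (red p W), ∀ f, E (END_rd p W f) = END_rd p W (φL f) := by
  classical
  choose s hs using END_rd_surj p W
  have hadd : ∀ f f', φL (f + f') = φL f + φL f' := by
    intro f f'
    apply END_lf_inj W
    rw [map_add, hφ, hφ, hφ, map_add, map_add]
  have hga : ∀ y f, φL (END_ga W y f) = END_ga W y (φL f) := by
    intro y f
    apply END_lf_inj W
    rw [END_lf_ga, hφ, hφ, END_lf_ga, map_smul]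
  have hint : ∀ (a : ℤ) f, φL (a • f) = a • φL f := by
    intro a f
    apply END_lf_inj W
    rw [map_smul, hφ, hφ, map_smul, map_zsmul]
  have hrp : ∀ w : lat W, END_rd p W ((p : ℤ) • w) = 0 := by
    intro w
    apply END_ext'
    intro x
    rw [END_rd_spec]
    have h4 : ((p : ℤ) • w).1 x = p * w.1 x := rfl
    rw [h4]
    have h5 : toFn (ZMod p) C (0 : red p W).1 x = 0 := by
      rw [Submodule.coe_zero, map_zero]; rfl
    rw [h5]
    simp
  have hkey : ∀ f, END_rd p W (φL (s (END_rd p W f))) = END_rd p W (φL f) := by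
    intro f
    obtain ⟨w, hw⟩ := END_rd_eq p W (s (END_rd p W f)) f (hs _)
    rw [hw, hadd, hint, END_rd_add, hrp, add_zero]
  have hrsmul : ∀ (a : ℤ) f, END_rd p W (a • f) = (a : ZMod p) • END_rd p W f := by
    intro a f
    apply END_ext'
    intro x
    have h4 : (a • f).1 x = a * f.1 x := rfl
    rw [END_rd_spec, h4]
    have h5 : (((a : ZMod p) • END_rd p W f : red p W) : MM (ZMod p) C) =
      (a : ZMod p) • ((END_rd p W f : red p W) : MM (ZMod p) C) := rfl
    rw [h5, map_smul, Pi.smul_apply, END_rd_spec, smul_eq_mul]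
    push_cast
    rfl
  let E₀ : red p W → red p W := fun v => END_rd p W (φL (s v))
  have hE₀ : ∀ f, E₀ (END_rd p W f) = END_rd p W (φL f) := hkey
  have hE₀add : ∀ v v', E₀ (v + v') = E₀ v + E₀ v' := by
    intro v v'
    obtain ⟨f, rfl⟩ := END_rd_surj p W v
    obtain ⟨f', rfl⟩ := END_rd_surj p W v'
    rw [← END_rd_add, hE₀, hE₀, hE₀, hadd, END_rd_add]
  refine ⟨{ toFun := E₀, map_add' := hE₀add, map_smul' := ?_ }, hE₀⟩
  intro r v
  rw [RingHom.id_apply]
  induction r using MonoidAlgebra.induction_on generalizing v with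
  | of g =>
    obtain ⟨f, rfl⟩ := END_rd_surj p W v
    rw [← END_rd_ga, hE₀, hE₀, hga, END_rd_ga]
  | add a b ha hb => rw [add_smul, add_smul, hE₀add, ha, hb]
  | smul a b hb =>
    obtain ⟨a, rfl⟩ := ZMod.intCast_surjective a
    rw [smul_assoc, smul_assoc, ← hb]
    obtain ⟨f, hf⟩ := END_rd_surj p W (b • v)
    rw [← hf, ← hrsmul, hE₀, hE₀, hint, hrsmul]

/-- END -/
theorem le_card_end_pr (p : ℕ) [Fact p.Prime] (W : Submodule (RR ℚ G) (MM ℚ C)) :
    p ^ ee W ≤ Nat.card (Module.End (RR (ZMod p) G) (red p W)) := by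
  classical
  let b := Module.finBasis ℤ (lat W)
  set s := Module.finrank ℤ (lat W) with hs
  -- coordinates
  let Ψ : Module.End (RR ℚ G) W →ₗ[ℚ] (Fin s × X → ℚ) :=
    { toFun := fun φ k => toFn ℚ C (φ (END_lf W (b k.1))).1 k.2
      map_add' := by
        intro φ φ'
        funext k
        rw [LinearMap.add_apply, Submodule.coe_add, map_add]
        rfl
      map_smul' := by
        intro a φ
        funext k
        have h1 : (((a • φ) (END_lf W (b k.1)) : W) : MM ℚ C) =
          a • ((φ (END_lf W (b k.1)) : W) : MM ℚ C) := rfl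
        rw [h1, map_smul]
        rfl }
  -- every vector has an integral multiple
  have hmult : ∀ v : W, ∃ N : ℕ, 0 < N ∧ ∃ f : lat W, END_lf W f = (N : ℤ) • v := by
    intro v
    obtain ⟨N, hN, f, hf⟩ := END_den (toFn ℚ C v.1)
    obtain ⟨f', _, hf'⟩ := END_lf_surj W ((N : ℤ) • v) f (fun x => by
      have h1 : (((N : ℤ) • v : W) : MM ℚ C) = (N : ℤ) • (v : MM ℚ C) := rfl
      rw [h1, map_zsmul, Pi.smul_apply, ← hf x]
      simp)
    exact ⟨N, hN, f', hf'⟩
  have hΨ : Function.Injective Ψ := by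
    intro φ φ' hφ
    have h1 : ∀ i, φ (END_lf W (b i)) = φ' (END_lf W (b i)) := by
      intro i
      apply END_ext
      intro x
      exact congrFun hφ (i, x)
    have h2 : ∀ f, φ (END_lf W f) = φ' (END_lf W f) := by
      intro f
      rw [← b.sum_repr f, map_sum, map_sum, map_sum]
      refine Finset.sum_congr rfl fun i _ => ?_
      rw [map_smul, map_zsmul, map_zsmul, h1]
    refine LinearMap.ext fun v => ?_
    obtain ⟨N, hN, f, hf⟩ := hmult v
    have h3 := h2 f
    rw [hf, map_zsmul, map_zsmul] at h3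
    have h4 : ((N : ℤ) : ℚ) • ((φ v : W) : MM ℚ C) = ((N : ℤ) : ℚ) • ((φ' v : W) : MM ℚ C) := by
      have := congrArg Subtype.val h3
      rw [Int.cast_smul_eq_zsmul, Int.cast_smul_eq_zsmul]
      exact this
    have h5 : ((N : ℤ) : ℚ) ≠ 0 := by exact_mod_cast hN.ne'
    exact Subtype.ext (smul_right_injective _ h5 h4)
  have hdim : Module.finrank ℚ (LinearMap.range Ψ) = ee W := by
    rw [LinearMap.finrank_range_of_inj hΨ]
    rfl
  rw [← hdim]
  refine (END_card (LinearMap.range Ψ) p).trans ?_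
  -- the map to the endomorphisms
  have hex : ∀ w : {w : Fin s × X → ZMod p | ∃ f ∈ END_L (LinearMap.range Ψ),
      ∀ k, w k = (f k : ZMod p)}, ∃ E : Module.End (RR (ZMod p) G) (red p W),
      ∀ i x, toFn (ZMod p) C (E (END_rd p W (b i))).1 x = w.1 (i, x) := by
    rintro ⟨w, f, hf, hw⟩
    obtain ⟨φ, hφ⟩ := (END_mem_L _ _).1 hf
    have h1 : ∀ i, ∃ f' : lat W, f'.1 = (fun x => f (i, x)) ∧ END_lf W f' = φ (END_lf W (b i)) :=
      fun i => END_lf_surj W _ _ fun x => congrFun hφ (i, x)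
    choose β hβ1 hβ2 using h1
    have h2 : ∀ f : lat W, END_lf W (∑ i, b.repr f i • β i) = φ (END_lf W f) := by
      intro f
      conv_rhs => rw [← b.sum_repr f]
      rw [map_sum, map_sum, map_sum]
      refine Finset.sum_congr rfl fun i _ => ?_
      rw [map_smul, map_smul, map_zsmul, hβ2]
    obtain ⟨E, hE⟩ := END_ind p W φ _ h2
    refine ⟨E, fun i x => ?_⟩
    have h3 : ∑ j, b.repr (b i) j • β j = β i := by
      apply END_lf_inj W
      rw [h2, hβ2]
    rw [hE, h3, END_rd_spec, hβ1]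
    exact (hw (i, x)).symm
  choose Θ hΘ using hex
  have hfin : Finite (Module.End (RR (ZMod p) G) (red p W)) :=
    Finite.of_injective (fun E : Module.End (RR (ZMod p) G) (red p W) => (E : red p W → red p W))
      DFunLike.coe_injective
  refine Nat.card_le_card_of_injective Θ ?_
  intro w w' h
  apply Subtype.ext
  funext ⟨i, x⟩
  rw [← hΘ, h, hΘ]

end

end Pool.Agent.AAC

namespace Pool.Agent.AAC

alias le_card_end := Pool.Agent.AAC.le_card_end_pr

end Pool.Agent.AAC
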