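import Pool.Agent.Lib_helper7.AAC.Basic

set_option autoImplicit false

/-! AAC block UNIT: units_le, units_le' -/

namespace Pool.Agent.AAC

open Finset

/-- UNIT: units of a finite ring of characteristic `p` -/
theorem units_le_pr (p : ℕ) [Fact p.Prime] {A : Type} [Ring A] [Finite A] [Nontrivial A]
    [CharP A p] : p - 1 ≤ Nat.card Aˣ := by
  have h1 : Function.Injective (Units.map (ZMod.castHom (dvd_refl p) A).toMonoidHom) := by
    apply Units.map_injective
    exact (ZMod.castHom (dvd_refl p) A).injective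
  have h2 := Nat.card_le_card_of_injective _ h1
  rwa [Nat.card_eq_fintype_card, ZMod.card_units_eq_totient, Nat.totient_prime Fact.out] at h2

lemma UNIT_pow {A : Type} [Monoid A] [Finite A] (a : A) :
    ∃ N : ℕ, 0 < N ∧ IsIdempotentElem (a ^ N) := by
  have h0 : ¬ Function.Injective (fun n : ℕ => a ^ n) := not_injective_infinite_finite _
  obtain ⟨i, j, hij, hlt⟩ : ∃ i j : ℕ, a ^ i = a ^ j ∧ i < j := by
    simp only [Function.Injective, not_forall] at h0
    obtain ⟨i, j, h, hne⟩ := h0
    rcases lt_or_gt_of_ne hne with h' | h'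
    · exact ⟨i, j, h, h'⟩
    · exact ⟨j, i, h.symm, h'⟩
  obtain ⟨d, hd, rfl⟩ : ∃ d : ℕ, 0 < d ∧ j = i + d := ⟨j - i, by omega, by omega⟩
  have h1 : ∀ m : ℕ, a ^ (i + m * d) = a ^ i := by
    intro m
    induction m with
    | zero => simp
    | succ m ih =>
      have : i + (m + 1) * d = (i + m * d) + d := by ring
      rw [this, pow_add, ih, ← pow_add, ← hij]
  refine ⟨(i + 1) * d, by positivity, ?_⟩
  have h2 : i ≤ (i + 1) * d := by nlinarith
  obtain ⟨c, hc⟩ : ∃ c : ℕ, (i + 1) * d = i + c := ⟨(i + 1) * d - i, by omega⟩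
  show a ^ ((i + 1) * d) * a ^ ((i + 1) * d) = a ^ ((i + 1) * d)
  calc a ^ ((i + 1) * d) * a ^ ((i + 1) * d) = a ^ (i + (i + 1) * d) * a ^ c := by
        rw [← pow_add, ← pow_add]
        congr 1
        omega
    _ = a ^ i * a ^ c := by rw [h1]
    _ = a ^ ((i + 1) * d) := by rw [← pow_add, hc]

theorem units_le'_pr (p : ℕ) [Fact p.Prime] {A : Type} [Ring A] [Finite A] [Nontrivial A]
    [CharP A p] (h : p ^ 2 ≤ Nat.card A) : (p - 1) ^ 2 ≤ Nat.card Aˣ := by
  classical
  letI : Algebra (ZMod p) A := ZMod.algebra A p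
  have hp : p.Prime := Fact.out
  by_cases hid : ∃ e : A, IsIdempotentElem e ∧ e ≠ 0 ∧ e ≠ 1
  · obtain ⟨e, he, he0, he1⟩ := hid
    have hee : e * e = e := he
    have h1e : (1 - e) ≠ 0 := fun h => he1 (sub_eq_zero.1 h).symm
    have hz1 : e * (1 - e) = 0 := by rw [mul_sub, mul_one, hee, sub_self]
    have hz2 : (1 - e) * e = 0 := by rw [sub_mul, one_mul, hee, sub_self]
    have hff : (1 - e) * (1 - e) = 1 - e := by rw [mul_sub, mul_one, hz2, sub_zero]
    have hmul : ∀ x y x' y' : ZMod p,
        (x • e + y • (1 - e)) * (x' • e + y' • (1 - e)) = (x * x') • e + (y * y') • (1 - e) := by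
      intro x y x' y'
      simp only [add_mul, mul_add, smul_mul_smul_comm, hee, hz1, hz2, hff, smul_zero, add_zero,
        zero_add]
    have hone : ∀ x y : (ZMod p)ˣ, ((x : ZMod p) • e + (y : ZMod p) • (1 - e)) *
        (((x⁻¹ : (ZMod p)ˣ) : ZMod p) • e + ((y⁻¹ : (ZMod p)ˣ) : ZMod p) • (1 - e)) = 1 := by
      intro x y
      rw [hmul, Units.mul_inv, Units.mul_inv, one_smul, one_smul, add_sub_cancel]
    let F : (ZMod p)ˣ × (ZMod p)ˣ → Aˣ := fun z =>
      { val := (z.1 : ZMod p) • e + (z.2 : ZMod p) • (1 - e)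
        inv := ((z.1⁻¹ : (ZMod p)ˣ) : ZMod p) • e + ((z.2⁻¹ : (ZMod p)ˣ) : ZMod p) • (1 - e)
        val_inv := hone z.1 z.2
        inv_val := by
          have := hone z.1⁻¹ z.2⁻¹
          rwa [inv_inv, inv_inv] at this }
    have hF : Function.Injective F := by
      rintro ⟨x, y⟩ ⟨x', y'⟩ hxy
      have h1 : (x : ZMod p) • e + (y : ZMod p) • (1 - e) =
          (x' : ZMod p) • e + (y' : ZMod p) • (1 - e) := congrArg Units.val hxy
      have h2 := congrArg (fun t => t * e) h1
      have h3 := congrArg (fun t => t * (1 - e)) h1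
      simp only [add_mul, smul_mul_assoc, hee, hz1, hz2, hff, smul_zero, add_zero,
        zero_add] at h2 h3
      have h4 : (x : ZMod p) = x' := by
        have := sub_eq_zero.2 h2
        rw [← sub_smul] at this
        rcases smul_eq_zero.1 this with h5 | h5
        · exact sub_eq_zero.1 h5
        · exact absurd h5 he0
      have h5 : (y : ZMod p) = y' := by
        have := sub_eq_zero.2 h3
        rw [← sub_smul] at this
        rcases smul_eq_zero.1 this with h5 | h5
        · exact sub_eq_zero.1 h5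
        · exact absurd h5 h1e
      rw [Units.ext h4, Units.ext h5]
    have h2 := Nat.card_le_card_of_injective _ hF
    rw [Nat.card_prod, Nat.card_eq_fintype_card, ZMod.card_units_eq_totient,
      Nat.totient_prime hp] at h2
    rwa [sq]
  · push Not at hid
    have hnu : ∀ a : A, IsNilpotent a ∨ IsUnit a := by
      intro a
      obtain ⟨N, hN, hi⟩ := UNIT_pow a
      by_cases h0 : a ^ N = 0
      · exact Or.inl ⟨N, h0⟩
      · right
        have h1 := hid _ hi h0
        exact IsUnit.of_pow_eq_one h1 hN.ne'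
    have hadd : ∀ a b : A, ¬ IsUnit a → ¬ IsUnit b → ¬ IsUnit (a + b) := by
      rintro a b ha hb ⟨u, hu⟩
      have h1 : (↑u⁻¹ : A) * a + ↑u⁻¹ * b = 1 := by
        rw [← mul_add, ← hu, Units.inv_mul]
      have h2 : ¬ IsUnit ((↑u⁻¹ : A) * a) := by
        intro h
        apply ha
        have h3 := (Units.isUnit u).mul h
        rwa [← mul_assoc, Units.mul_inv, one_mul] at h3
      have h3 : IsNilpotent ((↑u⁻¹ : A) * a) := (hnu _).resolve_right h2
      have h4 : IsUnit (1 - (↑u⁻¹ : A) * a) := h3.isUnit_one_sub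
      have h5 : 1 - (↑u⁻¹ : A) * a = ↑u⁻¹ * b := by
        rw [← h1]; abel
      rw [h5] at h4
      apply hb
      have h6 := (Units.isUnit u).mul h4
      rwa [← mul_assoc, Units.mul_inv, one_mul] at h6
    let N : AddSubgroup A :=
      { carrier := {a | ¬ IsUnit a}
        add_mem' := fun {a b} ha hb => hadd a b ha hb
        zero_mem' := not_isUnit_zero
        neg_mem' := by
          intro a ha h
          exact ha ((IsUnit.neg_iff a).1 h) }
    have hcard : Nat.card A = Nat.card Aˣ + Nat.card N := by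
      have h1 : Nat.card Aˣ = ({a : A | IsUnit a} : Set A).ncard := by
        rw [← Nat.card_coe_set_eq]
        have : ({a : A | IsUnit a} : Set A) = Set.range (Units.val : Aˣ → A) := by
          ext a
          rfl
        rw [this]
        exact (Nat.card_range_of_injective Units.val_injective).symm
      have h2 : Nat.card N = (({a : A | IsUnit a} : Set A)ᶜ).ncard := by
        rw [← Nat.card_coe_set_eq]
        rfl
      rw [h1, h2, Set.ncard_add_ncard_compl]
    have hidx : Nat.card N * N.index = Nat.card A := N.card_mul_index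
    have hpow : ∃ n : ℕ, Nat.card A = p ^ n := by
      haveI : Module.Finite (ZMod p) A := Module.Finite.of_finite
      refine ⟨Module.finrank (ZMod p) A, ?_⟩
      have := Module.natCard_eq_pow_finrank (K := ZMod p) (V := A)
      rwa [Nat.card_zmod] at this
    obtain ⟨n, hn⟩ := hpow
    have hpi : p ∣ N.index := by
      have h1 : N.index ∣ p ^ n := by rw [← hn, ← hidx]; exact Dvd.intro_left _ rfl
      obtain ⟨k, -, hk⟩ := (Nat.dvd_prime_pow hp).1 h1
      rcases Nat.eq_zero_or_pos k with rfl | hk0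
      · rw [pow_zero] at hk
        have h2 : N = ⊤ := AddSubgroup.index_eq_one.1 hk
        have h3 : (1 : A) ∈ N := by rw [h2]; trivial
        exact absurd isUnit_one h3
      · rw [hk]
        exact dvd_pow_self p hk0.ne'
    have hle : p ≤ N.index := by
      apply Nat.le_of_dvd _ hpi
      apply Nat.pos_of_ne_zero
      intro h0
      rw [h0, mul_zero] at hidx
      exact absurd hidx.symm Nat.card_pos.ne'
    have h5 : p * Nat.card N ≤ Nat.card A := by
      rw [← hidx, mul_comm]
      exact Nat.mul_le_mul_left _ hle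
    obtain ⟨q, rfl⟩ : ∃ q, p = q + 1 := ⟨p - 1, by have := hp.pos; omega⟩
    simp only [Nat.add_sub_cancel]
    have hq : 0 < q := by
      have := hp.two_le
      omega
    -- (q+1) U >= q |A| >= q (q+1)^2
    have h6 : q * Nat.card A ≤ (q + 1) * Nat.card Aˣ := by
      nlinarith
    have h7 : q * (q + 1) ^ 2 ≤ (q + 1) * Nat.card Aˣ :=
      (Nat.mul_le_mul_left q h).trans h6
    have h8 : (q + 1) * (q * (q + 1)) ≤ (q + 1) * Nat.card Aˣ := by
      calc (q + 1) * (q * (q + 1)) = q * (q + 1) ^ 2 := by ring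
        _ ≤ _ := h7
    have h9 : q * (q + 1) ≤ Nat.card Aˣ := Nat.le_of_mul_le_mul_left h8 (by omega)
    calc q ^ 2 ≤ q * (q + 1) := by nlinarith
      _ ≤ _ := h9

end Pool.Agent.AAC

namespace Pool.Agent.AAC

alias units_le := Pool.Agent.AAC.units_le_pr
alias units_le' := Pool.Agent.AAC.units_le'_pr

end Pool.Agent.AAC
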