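import Pool.Agent.Lib_helper7.AAC.Basic
import Pool.Agent.Lib_helper7.AACF.DEG
import Pool.Agent.Lib_helper7.AACF.END
import Pool.Agent.Lib_helper7.AACF.IDX
import Pool.Agent.Lib_helper7.AACF.ONE
import Pool.Agent.Lib_helper7.AACF.RED
import Pool.Agent.Lib_helper7.AACF.UNIT

set_option autoImplicit false
set_option linter.unusedSectionVars false

/-!
# ONEC
-/

namespace Pool.Agent.AAC.H80

open Finset

section

variable {G X : Type} [Group G] [Fintype G] [MulAction G X] [Fintype X] {C : Ctx G X}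

lemma ThS_nonneg (p : ℕ) (s b : ℝ) : 0 ≤ ThS p s b := by
  unfold ThS
  exact Finset.sum_nonneg fun u _ => Real.rpow_nonneg (abs_nonneg _) _

lemma Th_nonneg (p : ℕ) (s : ℝ) : 0 ≤ Th p s := ThS_nonneg p s 0

/-- ONEC -/
theorem one_digit'_pr (p : ℕ) [Fact p.Prime] {W : Submodule (RR ℚ G) (MM ℚ C)}
    (hW : IsSimpleModule (RR ℚ G) W) (hp : ¬ p ∣ (kr W).index)
    (h : 2 ≤ ee W ∨ hh W < dd W) :
    ((p : ℝ) - 1) ^ 2 * PB (ic W) ≤ Th p (C.g / dd W) ^ dd W := by
  have hpp : p.Prime := Fact.out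
  have hp0 : (0 : ℝ) < p := by exact_mod_cast hpp.pos
  have hp1 : (1 : ℝ) ≤ p := by exact_mod_cast hpp.one_lt.le
  have hone := one_digit p hW hp
  have hT := Th_nonneg p (C.g / dd W)
  have hPB : 0 ≤ PB (ic W) := Pr_nonneg _
  -- nontriviality
  have hWnt : Nontrivial W := IsSimpleModule.nontrivial (RR ℚ G) W
  have hdd : 0 < dd W := by
    unfold dd
    exact Module.finrank_pos
  have hrf := red_finrank p W
  haveI hrnt : Nontrivial (red p W) := by
    apply Module.nontrivial_of_finrank_pos (R := ZMod p)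
    rw [hrf]
    exact hdd
  haveI : Finite (Module.End (RR (ZMod p) G) (red p W)) :=
    Finite.of_injective (fun f => (f : red p W → red p W)) DFunLike.coe_injective
  haveI : Nontrivial (Module.End (RR (ZMod p) G) (red p W)) := inferInstance
  haveI : CharP (Module.End (RR (ZMod p) G) (red p W)) p :=
    charP_of_injective_algebraMap
      (algebraMap (ZMod p) (Module.End (RR (ZMod p) G) (red p W))).injective p
  have hcard : Nat.card (Module.End (RR (ZMod p) G) (red p W))ˣ =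
      Nat.card (red p W ≃ₗ[RR (ZMod p) G] red p W) :=
    Nat.card_congr (LinearMap.GeneralLinearGroup.generalLinearEquiv _ _).toEquiv
  have hu1 := units_le p (A := Module.End (RR (ZMod p) G) (red p W))
  rw [hcard] at hu1
  have e1 : (p : ℝ) ^ hh W * (Th p (C.g / dd W) / p) ^ dd W =
      Th p (C.g / dd W) ^ dd W * ((p : ℝ) ^ hh W / (p : ℝ) ^ dd W) := by
    rw [div_pow]
    ring
  rw [e1] at hone
  have hTd : 0 ≤ Th p (C.g / dd W) ^ dd W := pow_nonneg hT _
  have hsub : ((p - 1 : ℕ) : ℝ) = (p : ℝ) - 1 := by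
    rw [Nat.cast_sub hpp.one_lt.le, Nat.cast_one]
  rcases h with h | h
  · have hu2 := units_le' p (A := Module.End (RR (ZMod p) G) (red p W))
      ((Nat.pow_le_pow_right hpp.pos h).trans (le_card_end p W))
    rw [hcard] at hu2
    have hu2' : ((p : ℝ) - 1) ^ 2 ≤ (Nat.card (red p W ≃ₗ[RR (ZMod p) G] red p W) : ℝ) := by
      rw [← hsub]
      exact_mod_cast hu2
    have h3 : (p : ℝ) ^ hh W / (p : ℝ) ^ dd W ≤ 1 := by
      rw [div_le_one (by positivity)]
      exact pow_le_pow_right₀ hp1 (hh_le W)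
    calc ((p : ℝ) - 1) ^ 2 * PB (ic W) ≤
          (Nat.card (red p W ≃ₗ[RR (ZMod p) G] red p W) : ℝ) * PB (ic W) :=
        mul_le_mul_of_nonneg_right hu2' hPB
      _ = PB (ic W) * Nat.card (red p W ≃ₗ[RR (ZMod p) G] red p W) := mul_comm _ _
      _ ≤ _ := hone
      _ ≤ Th p (C.g / dd W) ^ dd W * 1 := mul_le_mul_of_nonneg_left h3 hTd
      _ = _ := mul_one _
  · have hu1' : (p : ℝ) - 1 ≤ (Nat.card (red p W ≃ₗ[RR (ZMod p) G] red p W) : ℝ) := by
      rw [← hsub]
      exact_mod_cast hu1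
    have h3 : (p : ℝ) ^ hh W / (p : ℝ) ^ dd W ≤ 1 / p := by
      rw [div_le_div_iff₀ (by positivity) hp0, one_mul, ← pow_succ]
      exact pow_le_pow_right₀ hp1 h
    have h4 : ((p : ℝ) - 1) * PB (ic W) ≤ Th p (C.g / dd W) ^ dd W * (1 / p) := by
      calc ((p : ℝ) - 1) * PB (ic W) ≤
            (Nat.card (red p W ≃ₗ[RR (ZMod p) G] red p W) : ℝ) * PB (ic W) :=
          mul_le_mul_of_nonneg_right hu1' hPB
        _ = PB (ic W) * Nat.card (red p W ≃ₗ[RR (ZMod p) G] red p W) := mul_comm _ _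
        _ ≤ _ := hone
        _ ≤ Th p (C.g / dd W) ^ dd W * (1 / p) := mul_le_mul_of_nonneg_left h3 hTd
    have h5 : 0 ≤ (p : ℝ) - 1 := by linarith
    calc ((p : ℝ) - 1) ^ 2 * PB (ic W) = ((p : ℝ) - 1) * (((p : ℝ) - 1) * PB (ic W)) := by ring
      _ ≤ ((p : ℝ) - 1) * (Th p (C.g / dd W) ^ dd W * (1 / p)) :=
        mul_le_mul_of_nonneg_left h4 h5
      _ = Th p (C.g / dd W) ^ dd W * (((p : ℝ) - 1) / p) := by ring
      _ ≤ Th p (C.g / dd W) ^ dd W * 1 := by
        apply mul_le_mul_of_nonneg_left _ hTd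
        rw [div_le_one hp0]
        linarith
      _ = _ := mul_one _

end

end Pool.Agent.AAC.H80

namespace Pool.Agent.AAC

alias one_digit' := Pool.Agent.AAC.H80.one_digit'_pr

end Pool.Agent.AAC
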