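import Mathlib

set_option autoImplicit false

namespace Pool.Agent.AAC

open Finset

lemma theta_diff_ge {x : ℝ} (hx : 100 ^ 4 ≤ x) :
    x ≤ Chebyshev.theta (4 * x) - Chebyshev.theta x := by
  have hx0 : 0 < x := by linarith [show (0 : ℝ) < 100 ^ 4 by norm_num]
  obtain ⟨w, hw, hwx⟩ : ∃ w : ℝ, 100 ≤ w ∧ x = w ^ 4 := by
    refine ⟨√(√x), ?_, ?_⟩
    · apply Real.le_sqrt_of_sq_le
      apply Real.le_sqrt_of_sq_le
      calc ((100 : ℝ) ^ 2) ^ 2 = 100 ^ 4 := by norm_num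
        _ ≤ x := hx
    · rw [show (√(√x)) ^ 4 = ((√(√x)) ^ 2) ^ 2 by ring, Real.sq_sqrt (Real.sqrt_nonneg _),
        Real.sq_sqrt hx0.le]
  have hw0 : 0 < w := by linarith
  have h1 := Chebyshev.theta_ge' (x := 4 * x) (by linarith)
  have h2 := Chebyshev.theta_le_log4_mul_x (x := x) hx0.le
  have hlog4 : Real.log 4 = 2 * Real.log 2 := by
    rw [show (4 : ℝ) = 2 ^ 2 by norm_num, Real.log_pow]
    norm_num
  have hl2 : 0.6931471803 < Real.log 2 := Real.log_two_gt_d9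
  have hl2' : Real.log 2 < 0.6931471808 := Real.log_two_lt_d9
  have hlx : Real.log x ≤ 4 * w := by
    rw [hwx, Real.log_pow]
    have := Real.log_le_sub_one_of_pos hw0
    push_cast
    linarith
  have hl4x : Real.log (4 * x) ≤ 2 + 4 * w := by
    rw [Real.log_mul (by norm_num) hx0.ne', hlog4]
    linarith
  have hl4x2 : Real.log (4 * x + 2) ≤ 3 + 4 * w := by
    calc Real.log (4 * x + 2) ≤ Real.log (8 * x) := by
          apply Real.log_le_log (by positivity)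
          linarith [show (1 : ℝ) ≤ 100 ^ 4 by norm_num]
      _ = 3 * Real.log 2 + Real.log x := by
          rw [Real.log_mul (by norm_num) hx0.ne', show (8 : ℝ) = 2 ^ 3 by norm_num, Real.log_pow]
          norm_num
      _ ≤ 3 + 4 * w := by linarith
  have hs : √(4 * x) = 2 * w ^ 2 := by
    rw [hwx, show 4 * w ^ 4 = (2 * w ^ 2) ^ 2 by ring]
    exact Real.sqrt_sq (by positivity)
  have h3 : 2 * √(4 * x) * Real.log (4 * x) ≤ 2 * (2 * w ^ 2) * (2 + 4 * w) := by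
    rw [hs]
    exact mul_le_mul_of_nonneg_left hl4x (by positivity)
  have h4 : 5 + 4 * w + 8 * w ^ 2 + 16 * w ^ 3 ≤ 0.38 * w ^ 4 := by
    have e1 : 100 * w ^ 3 ≤ w ^ 4 := by nlinarith [pow_pos hw0 3]
    have e2 : 100 * w ^ 2 ≤ w ^ 3 := by nlinarith [pow_pos hw0 2]
    have e3 : 100 * w ≤ w ^ 2 := by nlinarith
    linarith
  have h5 : 1.38 * x ≤ 2 * Real.log 2 * x := by
    apply mul_le_mul_of_nonneg_right _ hx0.le
    linarith
  rw [hlog4] at h2
  rw [← hwx] at h4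
  nlinarith

/-- PRM: Chebyshev -/
theorem exists_prime_not_dvd_pr : ∃ x₀ : ℝ, ∀ x : ℝ, x₀ ≤ x → ∀ N : ℕ, 0 < N →
    Real.log N < x → ∃ p : ℕ, p.Prime ∧ x < p ∧ (p : ℝ) ≤ 4 * x ∧ ¬ p ∣ N := by
  refine ⟨100 ^ 4, fun x hx N hN hlog => ?_⟩
  by_contra hcon
  push Not at hcon
  have hx0 : 0 < x := by linarith [show (0 : ℝ) < 100 ^ 4 by norm_num]
  set A : Finset ℕ := (Finset.Ioc ⌊x⌋₊ ⌊4 * x⌋₊).filter Nat.Prime with hA
  have hdvd : ∏ p ∈ A, p ∣ N := by
    apply Finset.prod_primes_dvd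
    · intro p hp
      rw [hA, mem_filter] at hp
      exact hp.2.prime
    · intro p hp
      rw [hA, mem_filter, mem_Ioc] at hp
      exact hcon p hp.2 ((Nat.floor_lt hx0.le).1 hp.1.1)
        ((Nat.le_floor_iff (by positivity)).1 hp.1.2)
  have hle : ∏ p ∈ A, p ≤ N := Nat.le_of_dvd hN hdvd
  have hpos : 0 < ∏ p ∈ A, p := by
    apply Finset.prod_pos
    intro p hp
    rw [hA, mem_filter] at hp
    exact hp.2.pos
  have h1 : Real.log ((∏ p ∈ A, p : ℕ) : ℝ) ≤ Real.log N :=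
    Real.log_le_log (by exact_mod_cast hpos) (by exact_mod_cast hle)
  have h2 : Real.log ((∏ p ∈ A, p : ℕ) : ℝ) = ∑ p ∈ A, Real.log p := by
    rw [Nat.cast_prod, Real.log_prod]
    intro p hp
    rw [hA, mem_filter] at hp
    exact_mod_cast hp.2.ne_zero
  have h3 : Chebyshev.theta (4 * x) = Chebyshev.theta x + ∑ p ∈ A, Real.log p := by
    unfold Chebyshev.theta
    have hle' : ⌊x⌋₊ ≤ ⌊4 * x⌋₊ := Nat.floor_mono (by linarith)
    rw [← Finset.Ioc_union_Ioc_eq_Ioc (Nat.zero_le _) hle', filter_union, sum_union]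
    apply Finset.disjoint_filter_filter
    rw [Finset.disjoint_left]
    intro a ha hb
    rw [mem_Ioc] at ha hb
    omega
  have h4 := theta_diff_ge hx
  linarith

end Pool.Agent.AAC

namespace Pool.Agent.AAC

alias exists_prime_not_dvd := Pool.Agent.AAC.exists_prime_not_dvd_pr

end Pool.Agent.AAC
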