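import Pool.Agent.Lib_helper7.AAC.Basic

set_option autoImplicit false
set_option linter.unusedSectionVars false

/-!
# Block TDET: a singular integral matrix has many pairs of null vectors
-/

namespace Pool.Agent.AAC

open Finset Matrix

/-- a nonzero integral vector of a saturated set of vectors can be made nonzero modulo `p` -/
theorem TDET_prim {n p : ℕ} (hp : 1 < p) (P : (Fin n → ℤ) → Prop)
    (hP : ∀ v : Fin n → ℤ, P ((p : ℤ) • v) → P v) (v : Fin n → ℤ) (hv : v ≠ 0) (h : P v) :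
    ∃ w : Fin n → ℤ, P w ∧ (fun i => ((w i : ℤ) : ZMod p)) ≠ 0 := by
  obtain ⟨k, hk⟩ : ∃ k, (∑ i, (v i).natAbs) = k := ⟨_, rfl⟩
  induction k using Nat.strong_induction_on generalizing v with
  | _ k ih =>
    by_cases h0 : (fun i => ((v i : ℤ) : ZMod p)) = 0
    · have h1 : ∀ i, (p : ℤ) ∣ v i := fun i =>
        (ZMod.intCast_zmod_eq_zero_iff_dvd (v i) p).1 (congrFun h0 i)
      choose w hw using h1
      have hvw : v = (p : ℤ) • w := by
        funext i
        rw [Pi.smul_apply, smul_eq_mul]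
        exact hw i
      have hw0 : w ≠ 0 := by
        rintro rfl
        exact hv (by rw [hvw, smul_zero])
      have hsum : (∑ i, (v i).natAbs) = p * ∑ i, (w i).natAbs := by
        rw [Finset.mul_sum]
        refine Finset.sum_congr rfl fun i _ => ?_
        rw [hw i, Int.natAbs_mul, Int.natAbs_natCast]
      have hpos : 0 < ∑ i, (w i).natAbs := by
        obtain ⟨i, hi⟩ := Function.ne_iff.1 hw0
        exact Finset.sum_pos' (fun _ _ => Nat.zero_le _) ⟨i, Finset.mem_univ i, Int.natAbs_pos.2 hi⟩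
      refine ih (∑ i, (w i).natAbs) ?_ w hw0 (hP w (hvw ▸ h)) rfl
      rw [← hk, hsum]
      nlinarith
    · exact ⟨v, h, h0⟩

theorem TDET_lft {n p : ℕ} [NeZero p] (s : Fin n → ZMod p) (s₀ : Fin n → ℤ) (l : ZMod p)
    (h : s = fun i => l * ((s₀ i : ℤ) : ZMod p)) :
    ∃ a : Fin n → ℤ, lft s = ((l.val : ℤ)) • s₀ + (p : ℤ) • a := by
  have h1 : ∀ i, (p : ℤ) ∣ lft s i - (l.val : ℤ) * s₀ i := by
    intro i
    rw [← ZMod.intCast_zmod_eq_zero_iff_dvd, lft, h]
    push_cast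
    rw [ZMod.natCast_zmod_val, ZMod.natCast_zmod_val, sub_self]
  choose a ha using h1
  refine ⟨a, funext fun i => ?_⟩
  have h2 := ha i
  rw [Pi.add_apply, Pi.smul_apply, Pi.smul_apply, smul_eq_mul, smul_eq_mul]
  linarith

/-- TDET: a singular integral matrix has many pairs of null vectors -/
theorem card_pairs_pr {n p : ℕ} [Fact p.Prime] (M : Matrix (Fin n) (Fin n) ℤ) (hM : M.det = 0) :
    (p - 1) ^ 2 ≤ Nat.card {st : (Fin n → ZMod p) × (Fin n → ZMod p) //
      st.1 ≠ 0 ∧ st.2 ≠ 0 ∧ Ev2 st.1 st.2 M} := by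
  classical
  have hp1 : 1 < p := (Fact.out : p.Prime).one_lt
  have hpz : (p : ℤ) ≠ 0 := by exact_mod_cast (Fact.out : p.Prime).ne_zero
  obtain ⟨v, hv0, hv⟩ := Matrix.exists_vecMul_eq_zero_iff.2 hM
  obtain ⟨u, hu0, hu⟩ := Matrix.exists_mulVec_eq_zero_iff.2 hM
  obtain ⟨s₀, hs, hs0⟩ := TDET_prim hp1 (fun v => v ᵥ* M = 0)
    (fun v hv => by
      rw [Matrix.smul_vecMul] at hv
      exact (smul_eq_zero.1 hv).resolve_left hpz) v hv0 hv
  obtain ⟨t₀, ht, ht0⟩ := TDET_prim hp1 (fun v => M *ᵥ v = 0)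
    (fun v hv => by
      rw [Matrix.mulVec_smul] at hv
      exact (smul_eq_zero.1 hv).resolve_left hpz) u hu0 hu
  have hsm : (fun i => ((s₀ i : ℤ) : ZMod p)) ᵥ* (M.map (Int.cast : ℤ → ZMod p)) = 0 := by
    funext j
    have h1 := congrArg (Int.cast : ℤ → ZMod p) (congrFun hs j)
    simp only [Matrix.vecMul, dotProduct, Matrix.map_apply, Pi.zero_apply] at h1 ⊢
    push_cast at h1
    exact h1
  have htm : (M.map (Int.cast : ℤ → ZMod p)) *ᵥ (fun i => ((t₀ i : ℤ) : ZMod p)) = 0 := by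
    funext j
    have h1 := congrArg (Int.cast : ℤ → ZMod p) (congrFun ht j)
    simp only [Matrix.mulVec, dotProduct, Matrix.map_apply, Pi.zero_apply] at h1 ⊢
    push_cast at h1
    exact h1
  -- the pairs
  have key : ∀ l m : (ZMod p)ˣ,
      ((l : ZMod p) • fun i => ((s₀ i : ℤ) : ZMod p)) ≠ 0 ∧
      ((m : ZMod p) • fun i => ((t₀ i : ℤ) : ZMod p)) ≠ 0 ∧
      Ev2 ((l : ZMod p) • fun i => ((s₀ i : ℤ) : ZMod p))
        ((m : ZMod p) • fun i => ((t₀ i : ℤ) : ZMod p)) M := by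
    intro l m
    refine ⟨?_, ?_, ⟨?_, ?_⟩, ?_⟩
    · intro h
      exact (smul_eq_zero.1 h).elim l.ne_zero hs0
    · intro h
      exact (smul_eq_zero.1 h).elim m.ne_zero ht0
    · rw [Matrix.smul_vecMul, hsm, smul_zero]
    · rw [Matrix.mulVec_smul, htm, smul_zero]
    · obtain ⟨a, ha⟩ := TDET_lft ((l : ZMod p) • fun i => ((s₀ i : ℤ) : ZMod p)) s₀ l
        (by funext i; rfl)
      obtain ⟨b, hb⟩ := TDET_lft ((m : ZMod p) • fun i => ((t₀ i : ℤ) : ZMod p)) t₀ m
        (by funext i; rfl)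
      have h1 : bz ((l : ZMod p) • fun i => ((s₀ i : ℤ) : ZMod p))
          ((m : ZMod p) • fun i => ((t₀ i : ℤ) : ZMod p)) M = (p : ℤ) ^ 2 * (a ⬝ᵥ (M *ᵥ b)) := by
        unfold bz
        rw [ha, hb, Matrix.mulVec_add, Matrix.mulVec_smul, Matrix.mulVec_smul, ht, smul_zero,
          zero_add, dotProduct_smul, add_dotProduct, smul_dotProduct, smul_dotProduct,
          Matrix.dotProduct_mulVec, hs, zero_dotProduct, smul_zero, zero_add]
        simp only [smul_eq_mul]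
        ring
      rw [h1]
      exact dvd_mul_right _ _
  have hcard : Nat.card ((ZMod p)ˣ × (ZMod p)ˣ) = (p - 1) ^ 2 := by
    rw [Nat.card_prod, Nat.card_eq_fintype_card, ZMod.card_units p, sq]
  rw [← hcard]
  refine Nat.card_le_card_of_injective (fun lm : (ZMod p)ˣ × (ZMod p)ˣ =>
    (⟨((lm.1 : ZMod p) • fun i => ((s₀ i : ℤ) : ZMod p),
      (lm.2 : ZMod p) • fun i => ((t₀ i : ℤ) : ZMod p)), key lm.1 lm.2⟩ :
      {st : (Fin n → ZMod p) × (Fin n → ZMod p) // st.1 ≠ 0 ∧ st.2 ≠ 0 ∧ Ev2 st.1 st.2 M})) ?_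
  rintro ⟨l, m⟩ ⟨l', m'⟩ h
  have h1 := congrArg Subtype.val h
  have h2 := congrArg Prod.fst h1
  have h3 := congrArg Prod.snd h1
  have h4 : (l : ZMod p) = l' := by
    have := sub_eq_zero.2 h2
    rw [← sub_smul] at this
    exact sub_eq_zero.1 ((smul_eq_zero.1 this).resolve_right hs0)
  have h5 : (m : ZMod p) = m' := by
    have := sub_eq_zero.2 h3
    rw [← sub_smul] at this
    exact sub_eq_zero.1 ((smul_eq_zero.1 this).resolve_right ht0)
  rw [Units.ext h4, Units.ext h5]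

end Pool.Agent.AAC

namespace Pool.Agent.AAC

alias card_pairs := Pool.Agent.AAC.card_pairs_pr

end Pool.Agent.AAC
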