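import Pool.Agent.Lib_helper7.AAC.Basic
import Pool.Agent.Lib_helper7.AACF.AVG

set_option autoImplicit false
set_option linter.unusedSectionVars false

/-!
# Block TEXP: Fourier expansion of the two digit events
-/

namespace Pool.Agent.AAC

open Finset Matrix

section

variable {G X : Type} [Group G] [Fintype G] [MulAction G X] [Fintype X] {C : Ctx G X}
variable {n : ℕ} (D : MatRep C n) {p : ℕ} [Fact p.Prime]

theorem TEXP_R_odd (x : X) : D.R (C.c x) = - D.R x := by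
  rw [← C.hz, D.hR, D.hz, neg_mul, one_mul]

theorem TEXP_R_y (y : G) : D.R (y • D.x₀) = D.ρ y := by
  rw [D.hR, D.hx₀, mul_one]

theorem TEXP_bz_zero (s t : Fin n → ZMod p) : bz s t 0 = 0 := by
  simp [bz]

theorem TEXP_bz_add (s t : Fin n → ZMod p) (A B : Matrix (Fin n) (Fin n) ℤ) :
    bz s t (A + B) = bz s t A + bz s t B := by
  simp [bz, Matrix.add_mulVec]

theorem TEXP_bz_neg (s t : Fin n → ZMod p) (A : Matrix (Fin n) (Fin n) ℤ) :
    bz s t (-A) = - bz s t A := by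
  simp [bz, Matrix.neg_mulVec]

theorem TEXP_bz_sum {ι : Type} (s t : Fin n → ZMod p) (S : Finset ι)
    (A : ι → Matrix (Fin n) (Fin n) ℤ) :
    bz s t (∑ i ∈ S, A i) = ∑ i ∈ S, bz s t (A i) := by
  classical
  induction S using Finset.induction_on with
  | empty => simp [TEXP_bz_zero]
  | insert a S ha ih => rw [Finset.sum_insert ha, Finset.sum_insert ha, TEXP_bz_add, ih]

theorem TEXP_lft (s : Fin n → ZMod p) (i : Fin n) : ((lft s i : ℤ) : ZMod p) = s i := by
  simp [lft]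

theorem TEXP_bz_cast (s t : Fin n → ZMod p) (A : Matrix (Fin n) (Fin n) ℤ) :
    ((bz s t A : ℤ) : ZMod p) = (s ᵥ* (A.map (Int.cast : ℤ → ZMod p))) ⬝ᵥ t := by
  rw [← Matrix.dotProduct_mulVec]
  simp only [bz, dotProduct, Matrix.mulVec, Int.cast_sum, Int.cast_mul, TEXP_lft, Matrix.map_apply]

theorem TEXP_bz_cast' (s t : Fin n → ZMod p) (A : Matrix (Fin n) (Fin n) ℤ) :
    ((bz s t A : ℤ) : ZMod p) = ((A.map (Int.cast : ℤ → ZMod p)) *ᵥ t) ⬝ᵥ s := by
  rw [TEXP_bz_cast, ← Matrix.dotProduct_mulVec, dotProduct_comm]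

/-- the phases -/
noncomputable def TEXP_th (s t : Fin n → ZMod p) (k : ℕ) (ξ η : Fin n → ZMod p) (x : X) : ℝ :=
  ((bz s ξ (D.R x) + bz η t (D.R x) : ℤ) : ℝ) / p + k * (bz s t (D.R x) : ℝ) / p ^ 2

theorem TEXP_th_odd (s t : Fin n → ZMod p) (k : ℕ) (ξ η : Fin n → ZMod p) (x : X) :
    TEXP_th D s t k ξ η (C.c x) = - TEXP_th D s t k ξ η x := by
  simp only [TEXP_th, TEXP_R_odd, TEXP_bz_neg]
  push_cast
  ring

theorem TEXP_th_sum (s t : Fin n → ZMod p) (k : ℕ) (ξ η : Fin n → ZMod p) (Φ : Finset X) :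
    ∑ x ∈ Φ, TEXP_th D s t k ξ η x =
      ((bz s ξ (D.Msum Φ) + bz η t (D.Msum Φ) : ℤ) : ℝ) / p +
        k * (bz s t (D.Msum Φ) : ℝ) / p ^ 2 := by
  simp only [TEXP_th, MatRep.Msum, TEXP_bz_sum]
  push_cast
  simp only [Finset.sum_add_distrib, Finset.sum_div, Finset.mul_sum, add_div]

theorem TEXP_prod (s t : Fin n → ZMod p) (k : ℕ) (ξ η : Fin n → ZMod p) :
    (∏ y : G, |Real.cos (2 * Real.pi * TEXP_th D s t k ξ η (y • D.x₀))|) ^
      ((C.g : ℝ) / Fintype.card G) = D.Wt s t ξ η k := by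
  simp only [TEXP_th, TEXP_R_y, MatRep.Wt]

theorem TEXP_char (v : Fin n → ZMod p) (hv : v ≠ 0) :
    ∑ ξ : Fin n → ZMod p, ZMod.stdAddChar (N := p) (v ⬝ᵥ ξ) = 0 := by
  obtain ⟨i, hi⟩ : ∃ i, v i ≠ 0 := by
    by_contra h
    push Not at h
    exact hv (funext h)
  let f : (Fin n → ZMod p) →+ ZMod p :=
    { toFun := fun ξ => v ⬝ᵥ ξ
      map_zero' := dotProduct_zero v
      map_add' := fun a b => dotProduct_add v a b }
  have h1 : (ZMod.stdAddChar (N := p)).compAddMonoidHom f ≠ 1 := by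
    intro h
    have h2 : ((ZMod.stdAddChar (N := p)).compAddMonoidHom f) (Pi.single i (v i)⁻¹) = 1 := by
      rw [h]; rfl
    have h3 : ((ZMod.stdAddChar (N := p)).compAddMonoidHom f) (Pi.single i (v i)⁻¹) =
        ZMod.stdAddChar (N := p) (1 : ZMod p) := by
      rw [AddChar.compAddMonoidHom_apply]
      congr 1
      show v ⬝ᵥ (Pi.single i (v i)⁻¹) = 1
      rw [dotProduct_single]
      exact mul_inv_cancel₀ hi
    rw [h3] at h2
    have h4 := ZMod.injective_stdAddChar (N := p)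
    have h5 : (1 : ZMod p) = 0 := h4 (by rw [h2, AddChar.map_zero_eq_one])
    exact one_ne_zero h5
  have h2 := AddChar.sum_eq_zero_of_ne_one h1
  exact h2

theorem TEXP_exp (s t : Fin n → ZMod p) (k : ℕ) (ξ η : Fin n → ZMod p) (Φ : Finset X) :
    Complex.exp (2 * Real.pi * Complex.I * ((∑ x ∈ Φ, TEXP_th D s t k ξ η x : ℝ) : ℂ)) =
      (ZMod.stdAddChar (N := p) ((s ᵥ* ((D.Msum Φ).map (Int.cast : ℤ → ZMod p))) ⬝ᵥ ξ) *
      ZMod.stdAddChar (N := p) ((((D.Msum Φ).map (Int.cast : ℤ → ZMod p)) *ᵥ t) ⬝ᵥ η)) *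
      Complex.exp (2 * Real.pi * Complex.I * (k * (bz s t (D.Msum Φ) : ℂ) / p ^ 2)) := by
  rw [TEXP_th_sum, ← TEXP_bz_cast, ← TEXP_bz_cast', ZMod.stdAddChar_coe, ZMod.stdAddChar_coe,
    ← Complex.exp_add, ← Complex.exp_add]
  congr 1
  push_cast
  ring

/-- the sum over the vectors -/
theorem TEXP_sum (s t : Fin n → ZMod p) (k : ℕ) (Φ : Finset X) (h : ¬ Ev1 s t (D.Msum Φ)) :
    ∑ ξ : Fin n → ZMod p, ∑ η : Fin n → ZMod p,
      Complex.exp (2 * Real.pi * Complex.I * ((∑ x ∈ Φ, TEXP_th D s t k ξ η x : ℝ) : ℂ)) = 0 := by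
  simp only [TEXP_exp]
  simp only [← Finset.sum_mul, ← Finset.mul_sum]
  rw [Ev1, not_and_or] at h
  rcases h with h | h
  · rw [TEXP_char _ h, zero_mul, zero_mul]
  · rw [TEXP_char _ h, mul_zero, zero_mul]

theorem TEXP_dvd1 (s t ξ η : Fin n → ZMod p) {M : Matrix (Fin n) (Fin n) ℤ} (h : Ev1 s t M) :
    ∃ m : ℤ, bz s ξ M + bz η t M = p * m := by
  have h1 : ((bz s ξ M + bz η t M : ℤ) : ZMod p) = 0 := by
    rw [Int.cast_add, TEXP_bz_cast, TEXP_bz_cast', h.1, h.2, zero_dotProduct, zero_dotProduct,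
      add_zero]
  exact (ZMod.intCast_zmod_eq_zero_iff_dvd _ p).1 h1

theorem TEXP_dvd2 (s t : Fin n → ZMod p) {M : Matrix (Fin n) (Fin n) ℤ} (h : Ev1 s t M) :
    ∃ m : ℤ, bz s t M = p * m := by
  have h1 : ((bz s t M : ℤ) : ZMod p) = 0 := by
    rw [TEXP_bz_cast, h.1, zero_dotProduct]
  exact (ZMod.intCast_zmod_eq_zero_iff_dvd _ p).1 h1

/-- TEXP1 -/
theorem pr_ev1_pr (s t : Fin n → ZMod p) :
    Pr C (fun Φ => Ev1 s t (D.Msum Φ)) ≤
      (∑ ξ : Fin n → ZMod p, ∑ η : Fin n → ZMod p, D.Wt s t ξ η 0) / (p : ℝ) ^ (2 * n) := by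
  have hp0 : (p : ℝ) ≠ 0 := by exact_mod_cast (Fact.out : p.Prime).ne_zero
  have h := pr_le_of_phases C (Finset.univ : Finset ((Fin n → ZMod p) × (Fin n → ZMod p)))
    Finset.univ_nonempty (fun i x => TEXP_th D s t 0 i.1 i.2 x)
    (fun i _ x => TEXP_th_odd D s t 0 i.1 i.2 x) D.x₀ (fun Φ => Ev1 s t (D.Msum Φ)) ?_
  · simp only [TEXP_prod] at h
    rw [Fintype.sum_prod_type] at h
    have hc : ((Finset.univ : Finset ((Fin n → ZMod p) × (Fin n → ZMod p))).card : ℝ) =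
        (p : ℝ) ^ (2 * n) := by
      rw [Finset.card_univ, Fintype.card_prod, Fintype.card_fun, ZMod.card, Fintype.card_fin]
      push_cast
      rw [two_mul, pow_add]
    rw [hc] at h
    exact h
  · intro Φ _
    refine ⟨fun hE i _ => ?_, fun hE => ?_⟩
    · obtain ⟨m, hm⟩ := TEXP_dvd1 s t i.1 i.2 hE
      refine ⟨m, ?_⟩
      rw [TEXP_th_sum, hm]
      push_cast
      rw [mul_div_cancel_left₀ _ hp0]
      ring
    · rw [Fintype.sum_prod_type]
      exact TEXP_sum D s t 0 Φ hE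

/-- TEXP2 -/
theorem pr_ev2_pr (s t : Fin n → ZMod p) :
    Pr C (fun Φ => Ev2 s t (D.Msum Φ)) ≤
      (∑ k ∈ range p, ∑ ξ : Fin n → ZMod p, ∑ η : Fin n → ZMod p, D.Wt s t ξ η k) /
        (p : ℝ) ^ (2 * n + 1) := by
  have hp : p.Prime := Fact.out
  have hp0 : (p : ℝ) ≠ 0 := by exact_mod_cast hp.ne_zero
  have hpc : (p : ℂ) ≠ 0 := by exact_mod_cast hp.ne_zero
  have h := pr_le_of_phases C ((range p) ×ˢ
    (Finset.univ : Finset ((Fin n → ZMod p) × (Fin n → ZMod p))))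
    (Finset.Nonempty.product ⟨0, Finset.mem_range.2 hp.pos⟩ Finset.univ_nonempty)
    (fun i x => TEXP_th D s t i.1 i.2.1 i.2.2 x)
    (fun i _ x => TEXP_th_odd D s t i.1 i.2.1 i.2.2 x) D.x₀ (fun Φ => Ev2 s t (D.Msum Φ)) ?_
  · simp only [TEXP_prod] at h
    rw [Finset.sum_product] at h
    simp only [Fintype.sum_prod_type] at h
    have hc : (((range p) ×ˢ (Finset.univ : Finset ((Fin n → ZMod p) × (Fin n → ZMod p)))).card
        : ℝ) = (p : ℝ) ^ (2 * n + 1) := by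
      rw [Finset.card_product, Finset.card_range, Finset.card_univ, Fintype.card_prod,
        Fintype.card_fun, ZMod.card, Fintype.card_fin]
      push_cast
      ring
    rw [hc] at h
    exact h
  · intro Φ _
    refine ⟨fun hE i _ => ?_, fun hE => ?_⟩
    · obtain ⟨m, hm⟩ := TEXP_dvd1 s t i.2.1 i.2.2 hE.1
      obtain ⟨m', hm'⟩ := hE.2
      refine ⟨m + i.1 * m', ?_⟩
      rw [TEXP_th_sum, hm, hm']
      push_cast
      rw [mul_div_cancel_left₀ _ hp0]
      field_simp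
    · rw [Finset.sum_product]
      simp only [Fintype.sum_prod_type]
      by_cases h1 : Ev1 s t (D.Msum Φ)
      · obtain ⟨m, hm⟩ := TEXP_dvd2 s t h1
        have hm2 : ((m : ℤ) : ZMod p) ≠ 0 := by
          intro h2
          rw [ZMod.intCast_zmod_eq_zero_iff_dvd] at h2
          obtain ⟨m', rfl⟩ := h2
          exact hE ⟨h1, m', by rw [hm]; ring⟩
        set ω : ℂ := ZMod.stdAddChar (N := p) (m : ZMod p) with hω
        have hω1 : ω ≠ 1 := by
          intro h2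
          exact hm2 (ZMod.injective_stdAddChar (N := p) (by rw [← hω, h2, AddChar.map_zero_eq_one]))
        have hωp : ω ^ p = 1 := by
          rw [hω, ← AddChar.map_nsmul_eq_pow]
          simp
        have h3 : ∀ k : ℕ, Complex.exp (2 * Real.pi * Complex.I *
            (k * (bz s t (D.Msum Φ) : ℂ) / p ^ 2)) = ω ^ k := by
          intro k
          rw [hω, ZMod.stdAddChar_coe, ← Complex.exp_nat_mul, hm]
          congr 1
          push_cast
          field_simp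
        have h4 : ∑ k ∈ range p, ω ^ k = 0 := by
          have h5 := geom_sum_mul ω p
          rw [hωp, sub_self] at h5
          rcases mul_eq_zero.1 h5 with h6 | h6
          · exact h6
          · exact absurd (sub_eq_zero.1 h6) hω1
        simp only [TEXP_exp, h3]
        rw [Finset.sum_comm]
        refine Finset.sum_eq_zero fun ξ _ => ?_
        rw [Finset.sum_comm]
        refine Finset.sum_eq_zero fun η _ => ?_
        rw [← Finset.mul_sum, h4, mul_zero]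
      · exact Finset.sum_eq_zero fun k _ => TEXP_sum D s t k Φ h1

end

end Pool.Agent.AAC

namespace Pool.Agent.AAC

alias pr_ev1 := Pool.Agent.AAC.pr_ev1_pr
alias pr_ev2 := Pool.Agent.AAC.pr_ev2_pr

end Pool.Agent.AAC
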