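import Pool.Agent.Lib_helper7.AAC.Basic
import Pool.Agent.Lib_helper7.AACF.FAM
import Pool.Agent.Lib_helper7.AACF.N12

set_option autoImplicit false
set_option linter.unusedSectionVars false

/-!
# Blocks TSR, TSL, TS2, TUNS: sums over one vector and over two vectors
-/

namespace Pool.Agent.AAC

open Finset Matrix

namespace TS

lemma bz_cast {n p : ℕ} [Fact p.Prime] (s t : Fin n → ZMod p) (A : Matrix (Fin n) (Fin n) ℤ) :
    ((bz s t A : ℤ) : ZMod p) = s ⬝ᵥ (A.map (Int.cast : ℤ → ZMod p) *ᵥ t) := by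
  unfold bz lft
  simp only [dotProduct, mulVec, Matrix.map_apply]
  push_cast
  simp only [ZMod.natCast_val, ZMod.cast_id', id_eq]

lemma cos_congr {p : ℕ} [Fact p.Prime] {m m' : ℤ} (h : (m : ZMod p) = (m' : ZMod p)) (b : ℝ) :
    |Real.cos (2 * Real.pi * ((m : ℝ) / p + b))| = |Real.cos (2 * Real.pi * ((m' : ℝ) / p + b))| := by
  have hp : (p : ℝ) ≠ 0 := by exact_mod_cast (Fact.out : p.Prime).ne_zero
  rw [ZMod.intCast_eq_intCast_iff_dvd_sub] at h
  obtain ⟨q, hq⟩ := h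
  have h1 : (m' : ℝ) = m + p * q := by
    have : (m' : ℤ) = m + p * q := by linarith
    exact_mod_cast this
  congr 1
  rw [h1, show 2 * Real.pi * ((m + p * q : ℝ) / p + b) =
    2 * Real.pi * ((m : ℝ) / p + b) + q * (2 * Real.pi) by field_simp; ring]
  rw [Real.cos_add_int_mul_two_pi]

lemma sum_zmod {p : ℕ} [Fact p.Prime] (f : ℕ → ℝ) :
    ∑ u : ZMod p, f u.val = ∑ u ∈ range p, f u := by
  refine Finset.sum_nbij' (fun u => u.val) (fun u => (u : ZMod p)) ?_ ?_ ?_ ?_ ?_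
  · intro u _
    exact mem_range.2 (ZMod.val_lt u)
  · intro u _
    exact mem_univ _
  · intro u _
    simp
  · intro u hu
    exact ZMod.val_cast_of_lt (mem_range.1 hu)
  · intro u _
    rfl

/-- the weight -/
noncomputable def wt (p : ℕ) (b : ℝ) (u : ZMod p) : ℝ :=
  |Real.cos (2 * Real.pi * ((u.val : ℝ) / p + b))|

lemma wt_nonneg (p : ℕ) (b : ℝ) (u : ZMod p) : 0 ≤ wt p b u := abs_nonneg _

lemma sum_wt {p : ℕ} [Fact p.Prime] (s b : ℝ) : ∑ u : ZMod p, (wt p b u) ^ s = ThS p s b := by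
  unfold wt ThS
  exact sum_zmod (fun u => |Real.cos (2 * Real.pi * ((u : ℝ) / p + b))| ^ s)

lemma wt_eq {p : ℕ} [Fact p.Prime] (m : ℤ) (b : ℝ) :
    |Real.cos (2 * Real.pi * ((m : ℝ) / p + b))| = wt p b (m : ZMod p) := by
  unfold wt
  have h := cos_congr (p := p) (m := m) (m' := ((m : ZMod p).val : ℤ)) (by simp) b
  rw [h]
  push_cast
  rfl

section

variable {G X : Type} [Group G] [Fintype G] [MulAction G X] [Fintype X] {C : Ctx G X}
variable {n : ℕ} (D : MatRep C n) {p : ℕ} [Fact p.Prime]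

lemma rm_one : D.rm p 1 = 1 := by
  unfold MatRep.rm
  rw [map_one]
  exact Matrix.map_one _ (by simp) (by simp)

lemma rm_mul (y y' : G) : D.rm p (y * y') = D.rm p y * D.rm p y' := by
  unfold MatRep.rm
  rw [map_mul]
  exact Matrix.map_mul (f := Int.castRingHom (ZMod p))

lemma bz_rho (s t : Fin n → ZMod p) (y : G) :
    ((bz s t (D.ρ y) : ℤ) : ZMod p) = s ⬝ᵥ (D.rm p y *ᵥ t) := bz_cast s t _

/-- a linear condition on the matrices of the group holds for all matrices -/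
lemma all_of_rm (hsp : Submodule.span (ZMod p) (Set.range (D.rm p)) = ⊤)
    (f : Matrix (Fin n) (Fin n) (ZMod p) →ₗ[ZMod p] ZMod p) (h : ∀ y, f (D.rm p y) = 0) :
    f = 0 := by
  apply LinearMap.ext_on_range (v := D.rm p) hsp
  intro y
  rw [h, LinearMap.zero_apply]

/-- the linear form on the matrices -/
def bil (s t : Fin n → ZMod p) : Matrix (Fin n) (Fin n) (ZMod p) →ₗ[ZMod p] ZMod p where
  toFun A := s ⬝ᵥ (A *ᵥ t)
  map_add' := by
    intro A B
    rw [Matrix.add_mulVec, dotProduct_add]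
  map_smul' := by
    intro a A
    rw [Matrix.smul_mulVec, dotProduct_smul, RingHom.id_apply]

lemma bil_apply (s t : Fin n → ZMod p) (A : Matrix (Fin n) (Fin n) (ZMod p)) :
    bil s t A = s ⬝ᵥ (A *ᵥ t) := rfl

lemma bil_single (s t : Fin n → ZMod p) (i j : Fin n) :
    bil s t (Matrix.single i j 1) = s i * t j := by
  rw [bil_apply, Matrix.single_mulVec]
  simp [dotProduct, Function.update_apply]

/-- right multiplication -/
def actR (τ : G) : (Fin n → ZMod p) ≃ₗ[ZMod p] (Fin n → ZMod p) :=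
  LinearEquiv.ofLinearMap (Matrix.mulVecLin (D.rm p τ)) (Matrix.mulVecLin (D.rm p τ⁻¹))
    (by rw [← Matrix.mulVecLin_mul, ← rm_mul, mul_inv_cancel, rm_one, Matrix.mulVecLin_one])
    (by rw [← Matrix.mulVecLin_mul, ← rm_mul, inv_mul_cancel, rm_one, Matrix.mulVecLin_one])

lemma actR_apply (τ : G) (v : Fin n → ZMod p) : actR D τ v = D.rm p τ *ᵥ v := rfl

/-- left multiplication -/
def actL (τ : G) : (Fin n → ZMod p) ≃ₗ[ZMod p] (Fin n → ZMod p) :=
  LinearEquiv.ofLinearMap (Matrix.vecMulLinear (D.rm p τ)) (Matrix.vecMulLinear (D.rm p τ⁻¹))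
    (by
      apply LinearMap.ext
      intro v
      show (v ᵥ* (D.rm p τ⁻¹)) ᵥ* (D.rm p τ) = v
      rw [Matrix.vecMul_vecMul, ← rm_mul, inv_mul_cancel, rm_one, Matrix.vecMul_one])
    (by
      apply LinearMap.ext
      intro v
      show (v ᵥ* (D.rm p τ)) ᵥ* (D.rm p τ⁻¹) = v
      rw [Matrix.vecMul_vecMul, ← rm_mul, mul_inv_cancel, rm_one, Matrix.vecMul_one])

lemma actL_apply (τ : G) (v : Fin n → ZMod p) : actL D τ v = v ᵥ* D.rm p τ := rfl

end

end TS

section

variable {G X : Type} [Group G] [Fintype G] [MulAction G X] [Fintype X] {C : Ctx G X}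
variable {n : ℕ} (D : MatRep C n) {p : ℕ} [Fact p.Prime]

open TS

lemma pos_of_ne {s : Fin n → ZMod p} (hs : s ≠ 0) : 0 < n := by
  rcases Nat.eq_zero_or_pos n with rfl | h
  · exact absurd (funext fun i => i.elim0) hs
  · exact h

/-- TSR: sum over the right vector -/
theorem sum_right_pr (hsp : Submodule.span (ZMod p) (Set.range (D.rm p)) = ⊤)
    (s : Fin n → ZMod p) (hs : s ≠ 0) (b : G → ℝ) :
    ∑ ξ : Fin n → ZMod p, (∏ y : G, |Real.cos (2 * Real.pi * ((bz s ξ (D.ρ y) : ℝ) / p +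
      b y))|) ^ ((C.g : ℝ) / Fintype.card G) ≤
      ∏ y : G, ThS p (C.g / n) (b y) ^ ((n : ℝ) / Fintype.card G) := by
  have hn : 0 < n := pos_of_ne hs
  -- the forms
  let φ : G → (Fin n → ZMod p) →ₗ[ZMod p] ZMod p := fun y =>
    (dotProductBilin (ZMod p) (ZMod p) s).comp (Matrix.mulVecLin (D.rm p y))
  have hφ : ∀ y v, φ y v = s ⬝ᵥ (D.rm p y *ᵥ v) := fun y v => rfl
  have hker : ∀ v : Fin n → ZMod p, (∀ y, φ y v = 0) → v = 0 := by
    intro v hv
    have h1 := all_of_rm D hsp (bil s v) (fun y => hv y)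
    obtain ⟨i, hi⟩ := Function.ne_iff.1 hs
    funext j
    have h2 := bil_single s v i j
    rw [h1, LinearMap.zero_apply] at h2
    exact (mul_eq_zero.1 h2.symm).resolve_left hi
  have heq : ∀ τ : G, ∃ α : (Fin n → ZMod p) ≃ₗ[ZMod p] (Fin n → ZMod p),
      ∀ y v, φ (y * τ) v = φ y (α v) := by
    intro τ
    refine ⟨actR D τ, fun y v => ?_⟩
    rw [hφ, hφ, actR_apply, rm_mul, Matrix.mulVec_mulVec]
  have h := fam φ hker heq n (by simp) hn (fun y u => wt p (b y) u)
    (fun y u => wt_nonneg p (b y) u) (C.g : ℝ) (by exact_mod_cast C.gpos)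
  simp only [sum_wt] at h
  refine le_trans (le_of_eq ?_) h
  refine Finset.sum_congr rfl fun ξ _ => ?_
  congr 1
  refine Finset.prod_congr rfl fun y _ => ?_
  rw [wt_eq, bz_rho, hφ]

/-- TSL: sum over the left vector -/
theorem sum_left_pr (hsp : Submodule.span (ZMod p) (Set.range (D.rm p)) = ⊤)
    (t : Fin n → ZMod p) (ht : t ≠ 0) (b : G → ℝ) :
    ∑ η : Fin n → ZMod p, (∏ y : G, |Real.cos (2 * Real.pi * ((bz η t (D.ρ y) : ℝ) / p +
      b y))|) ^ ((C.g : ℝ) / Fintype.card G) ≤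
      ∏ y : G, ThS p (C.g / n) (b y) ^ ((n : ℝ) / Fintype.card G) := by
  have hn : 0 < n := pos_of_ne ht
  let φ : G → (Fin n → ZMod p) →ₗ[ZMod p] ZMod p := fun y =>
    (dotProductBilin (ZMod p) (ZMod p)).flip (D.rm p y *ᵥ t)
  have hφ : ∀ y v, φ y v = v ⬝ᵥ (D.rm p y *ᵥ t) := fun y v => rfl
  have hker : ∀ v : Fin n → ZMod p, (∀ y, φ y v = 0) → v = 0 := by
    intro v hv
    have h1 := all_of_rm D hsp (bil v t) (fun y => hv y)
    obtain ⟨j, hj⟩ := Function.ne_iff.1 ht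
    funext i
    have h2 := bil_single v t i j
    rw [h1, LinearMap.zero_apply] at h2
    exact (mul_eq_zero.1 h2.symm).resolve_right hj
  have heq : ∀ τ : G, ∃ α : (Fin n → ZMod p) ≃ₗ[ZMod p] (Fin n → ZMod p),
      ∀ y v, φ (τ * y) v = φ y (α v) := by
    intro τ
    refine ⟨actL D τ, fun y v => ?_⟩
    rw [hφ, hφ, actL_apply, rm_mul, ← Matrix.mulVec_mulVec, Matrix.dotProduct_mulVec]
  have h := fam_left φ hker heq n (by simp) hn (fun y u => wt p (b y) u)
    (fun y u => wt_nonneg p (b y) u) (C.g : ℝ) (by exact_mod_cast C.gpos)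
  simp only [sum_wt] at h
  refine le_trans (le_of_eq ?_) h
  refine Finset.sum_congr rfl fun η _ => ?_
  congr 1
  refine Finset.prod_congr rfl fun y _ => ?_
  rw [wt_eq, bz_rho, hφ]

/-- TS2: independent left vectors -/
theorem sum_two_pr (hsp : Submodule.span (ZMod p) (Set.range (D.rm p)) = ⊤)
    (s η : Fin n → ZMod p) (h : LinearIndependent (ZMod p) ![s, η]) :
    ∑ ξ : Fin n → ZMod p, ∑ t : Fin n → ZMod p, D.Wt s t ξ η 0 ≤
      Th p (C.g / (2 * n)) ^ (2 * n) := by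
  have hs : s ≠ 0 := by
    have := h.ne_zero 0
    simpa using this
  have hn : 0 < n := pos_of_ne hs
  let φ : G → ((Fin n → ZMod p) × (Fin n → ZMod p)) →ₗ[ZMod p] ZMod p := fun y =>
    ((dotProductBilin (ZMod p) (ZMod p) s).comp (Matrix.mulVecLin (D.rm p y))).coprod
      ((dotProductBilin (ZMod p) (ZMod p) η).comp (Matrix.mulVecLin (D.rm p y)))
  have hφ : ∀ y v, φ y v = s ⬝ᵥ (D.rm p y *ᵥ v.1) + η ⬝ᵥ (D.rm p y *ᵥ v.2) := fun y v => rfl
  have hker : ∀ v : (Fin n → ZMod p) × (Fin n → ZMod p), (∀ y, φ y v = 0) → v = 0 := by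
    rintro ⟨ξ, t⟩ hv
    have h1 := all_of_rm D hsp (bil s ξ + bil η t) (fun y => hv y)
    have h2 : ∀ j, ξ j • s + t j • η = 0 := by
      intro j
      funext i
      have h3 := congrArg (fun f => f (Matrix.single i j 1)) h1
      simp only [LinearMap.add_apply, bil_single, LinearMap.zero_apply] at h3
      simp only [Pi.add_apply, Pi.smul_apply, smul_eq_mul, Pi.zero_apply]
      linear_combination h3
    have h4 := LinearIndependent.pair_iff.1 h
    have h5 : ∀ j, ξ j = 0 ∧ t j = 0 := fun j => h4 _ _ (h2 j)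
    refine Prod.ext (funext fun j => (h5 j).1) (funext fun j => (h5 j).2)
  have heq : ∀ τ : G, ∃ α : ((Fin n → ZMod p) × (Fin n → ZMod p)) ≃ₗ[ZMod p]
      ((Fin n → ZMod p) × (Fin n → ZMod p)), ∀ y v, φ (y * τ) v = φ y (α v) := by
    intro τ
    refine ⟨(actR D τ).prodCongr (actR D τ), fun y v => ?_⟩
    rw [hφ, hφ, LinearEquiv.prodCongr_apply, actR_apply, actR_apply, rm_mul,
      Matrix.mulVec_mulVec, Matrix.mulVec_mulVec]
  have h := fam φ hker heq (2 * n) (by
      rw [Module.finrank_prod]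
      simp
      ring) (by omega) (fun _ u => wt p 0 u)
    (fun _ u => wt_nonneg p 0 u) (C.g : ℝ) (by exact_mod_cast C.gpos)
  simp only [sum_wt] at h
  rw [Fintype.sum_prod_type] at h
  have hG : (Fintype.card G : ℝ) ≠ 0 := by exact_mod_cast Fintype.card_ne_zero
  refine le_trans (le_of_eq ?_) (h.trans (le_of_eq ?_))
  · refine Finset.sum_congr rfl fun ξ _ => Finset.sum_congr rfl fun t _ => ?_
    unfold MatRep.Wt
    congr 1
    refine Finset.prod_congr rfl fun y _ => ?_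
    have h6 := wt_eq (p := p) (bz s ξ (D.ρ y) + bz η t (D.ρ y)) 0
    have h7 : ((bz s ξ (D.ρ y) + bz η t (D.ρ y) : ℤ) : ZMod p) = φ y (ξ, t) := by
      rw [Int.cast_add, bz_rho, bz_rho, hφ]
    rw [← h7, ← h6]
    congr 4
    simp
  · rw [Finset.prod_const, Finset.card_univ, ← Real.rpow_natCast, ← Real.rpow_mul]
    · rw [← Real.rpow_natCast]
      push_cast
      congr 1
      field_simp
    · exact Finset.sum_nonneg fun u _ => by positivity

/-- TUNS: the terms with `k ≠ 0` -/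
theorem sum_k_pr (hsp : Submodule.span (ZMod p) (Set.range (D.rm p)) = ⊤) (hp : p ≠ 2)
    (hg : (p : ℝ) ^ 2 * n ≤ C.g)
    (h2 : (1 + 6 * Real.exp (-((C.g / n) / (2 * p ^ 2) : ℝ))) ^ n ≤ 2)
    (s t ξ : Fin n → ZMod p) (ht : t ≠ 0) (k : ℕ) :
    ∑ η : Fin n → ZMod p, D.Wt s t ξ η k ≤
      2 * Real.exp (-(C.g * D.Av ((k : ZMod p) • s) t / p ^ 2)) := by
  have hn : 0 < n := pos_of_ne ht
  have hnR : (0 : ℝ) < n := by exact_mod_cast hn
  have hpp : p.Prime := Fact.out
  have hodd : Odd p := hpp.odd_of_ne_two hp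
  have hp0 : (p : ℝ) ≠ 0 := by exact_mod_cast hpp.ne_zero
  have hG : (0 : ℝ) < Fintype.card G := by exact_mod_cast Fintype.card_pos
  have hgn : (p : ℝ) ^ 2 ≤ C.g / n := by
    rw [le_div_iff₀ hnR]
    exact hg
  let b : G → ℝ := fun y => (bz s ξ (D.ρ y) : ℝ) / p + k * (bz s t (D.ρ y) : ℝ) / p ^ 2
  have h := Pool.Agent.AAC.sum_left_pr D hsp t ht b
  have h3 : ∑ η : Fin n → ZMod p, D.Wt s t ξ η k = ∑ η : Fin n → ZMod p,
      (∏ y : G, |Real.cos (2 * Real.pi * ((bz η t (D.ρ y) : ℝ) / p + b y))|) ^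
        ((C.g : ℝ) / Fintype.card G) := by
    refine Finset.sum_congr rfl fun η _ => ?_
    unfold MatRep.Wt
    congr 1
    refine Finset.prod_congr rfl fun y _ => ?_
    congr 3
    simp only [b]
    push_cast
    ring
  rw [h3]
  refine h.trans ?_
  -- the distances
  have h4 : ∀ y, nd (2 * p * b y) = nd (2 * (bz ((k : ZMod p) • s) t (D.ρ y) : ℝ) / p) := by
    intro y
    have h5 : ((bz ((k : ZMod p) • s) t (D.ρ y) : ℤ) : ZMod p) =
        ((k * bz s t (D.ρ y) : ℤ) : ZMod p) := by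
      rw [bz_rho]
      push_cast
      rw [bz_rho, smul_dotProduct, smul_eq_mul]
    rw [ZMod.intCast_eq_intCast_iff_dvd_sub] at h5
    obtain ⟨q, hq⟩ := h5
    have h6 : (k : ℝ) * (bz s t (D.ρ y) : ℝ) = bz ((k : ZMod p) • s) t (D.ρ y) + p * q := by
      have : (k : ℤ) * bz s t (D.ρ y) = bz ((k : ZMod p) • s) t (D.ρ y) + p * q := by linarith
      exact_mod_cast this
    have h7 : 2 * (p : ℝ) * b y = 2 * (bz ((k : ZMod p) • s) t (D.ρ y) : ℝ) / p +
        ((2 * bz s ξ (D.ρ y) + 2 * q : ℤ) : ℝ) := by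
      simp only [b]
      push_cast
      rw [h6]
      field_simp
      ring
    rw [h7]
    unfold nd
    rw [round_add_intCast]
    congr 1
    push_cast
    ring
  set K : ℝ := 1 + 6 * Real.exp (-((C.g / n) / (2 * p ^ 2) : ℝ)) with hK
  have hK0 : 0 < K := by positivity
  have h8 : ∀ y, ThS p (C.g / n) (b y) ^ ((n : ℝ) / Fintype.card G) ≤
      K ^ ((n : ℝ) / Fintype.card G) *
      Real.exp (-(C.g / p ^ 2 / Fintype.card G *
        nd (2 * (bz ((k : ZMod p) • s) t (D.ρ y) : ℝ) / p) ^ 2)) := by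
    intro y
    have h9 := ths_big p hodd (C.g / n) hgn (b y)
    rw [h4 y] at h9
    have h10 : 0 ≤ ThS p (C.g / n) (b y) := Finset.sum_nonneg fun u _ => by positivity
    refine (Real.rpow_le_rpow h10 h9 (by positivity)).trans (le_of_eq ?_)
    rw [Real.mul_rpow hK0.le (Real.exp_pos _).le, ← Real.exp_mul]
    congr 2
    field_simp
  refine (Finset.prod_le_prod (fun y _ => Real.rpow_nonneg
    (Finset.sum_nonneg fun u _ => by positivity) _) (fun y _ => h8 y)).trans ?_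
  rw [Finset.prod_mul_distrib, ← Real.exp_sum, Finset.prod_const, Finset.card_univ,
    ← Real.rpow_natCast (K ^ _), ← Real.rpow_mul hK0.le, Finset.sum_neg_distrib,
    ← Finset.mul_sum]
  have h11 : (n : ℝ) / Fintype.card G * (Fintype.card G : ℕ) = n := by
    field_simp
  rw [h11, Real.rpow_natCast]
  have h12 : C.g / (p : ℝ) ^ 2 / Fintype.card G *
      ∑ y : G, nd (2 * (bz ((k : ZMod p) • s) t (D.ρ y) : ℝ) / p) ^ 2 =
      C.g * D.Av ((k : ZMod p) • s) t / p ^ 2 := by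
    unfold MatRep.Av
    ring
  rw [h12]
  exact mul_le_mul_of_nonneg_right h2 (Real.exp_pos _).le

end

end Pool.Agent.AAC

namespace Pool.Agent.AAC

alias sum_right := Pool.Agent.AAC.sum_right_pr
alias sum_left := Pool.Agent.AAC.sum_left_pr
alias sum_two := Pool.Agent.AAC.sum_two_pr
alias sum_k := Pool.Agent.AAC.sum_k_pr

end Pool.Agent.AAC
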