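import Pool.Agent.Lib_helper7.AAC.Basic
import Pool.Agent.Lib_helper7.AACF.FAM
import Pool.Agent.Lib_helper7.AACF.Trig

set_option autoImplicit false
set_option linter.unusedSectionVars false

/-!
# TSTR
-/

namespace Pool.Agent.AAC.H80

open Finset Matrix

lemma nd_add_int (t : ℝ) (m : ℤ) : nd (t + m) = nd t := by
  unfold nd
  rw [round_add_intCast]
  push_cast
  congr 1
  ring

lemma sum_zmod_val {p : ℕ} [NeZero p] (f : ℕ → ℝ) :
    ∑ u : ZMod p, f u.val = ∑ u ∈ range p, f u := by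
  refine Finset.sum_nbij' (fun u => u.val) (fun n => (n : ZMod p)) ?_ ?_ ?_ ?_ ?_
  · intro u _
    exact mem_range.2 (ZMod.val_lt u)
  · intro n _
    exact mem_univ _
  · intro u _
    exact ZMod.natCast_zmod_val u
  · intro n hn
    exact ZMod.val_natCast_of_lt (mem_range.1 hn)
  · intro u _
    rfl

section

variable {G X : Type} [Group G] [Fintype G] [MulAction G X] [Fintype X] {C : Ctx G X}
variable {n : ℕ} (D : MatRep C n) {p : ℕ} [Fact p.Prime]

lemma rm_mul (y y' : G) : D.rm p (y * y') = D.rm p y * D.rm p y' := by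
  unfold MatRep.rm
  rw [map_mul]
  exact Matrix.map_mul (f := Int.castRingHom (ZMod p))

lemma rm_one : D.rm p 1 = 1 := by
  unfold MatRep.rm
  rw [map_one]
  exact Matrix.map_one _ (by simp) (by simp)

lemma cast_bz (s t : Fin n → ZMod p) (A : Matrix (Fin n) (Fin n) ℤ) :
    ((bz s t A : ℤ) : ZMod p) = s ⬝ᵥ (A.map (Int.cast : ℤ → ZMod p) *ᵥ t) := by
  unfold bz lft
  simp only [dotProduct, mulVec, Matrix.map_apply]
  push_cast
  simp only [ZMod.natCast_val, ZMod.cast_id', id_eq]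

lemma nd_bz (s t : Fin n → ZMod p) (y : G) :
    nd (2 * (bz s t (D.ρ y) : ℝ) / p) = nd (2 * ((s ⬝ᵥ (D.rm p y *ᵥ t)).val : ℝ) / p) := by
  have hpp : p.Prime := Fact.out
  have hp0 : (p : ℝ) ≠ 0 := by exact_mod_cast hpp.ne_zero
  have h1 : ((bz s t (D.ρ y) : ℤ) : ZMod p) = (((s ⬝ᵥ (D.rm p y *ᵥ t)).val : ℤ) : ZMod p) := by
    rw [cast_bz]
    simp only [ZMod.natCast_val, ZMod.intCast_cast, ZMod.cast_id', id_eq]
    rfl
  rw [ZMod.intCast_eq_intCast_iff_dvd_sub] at h1
  obtain ⟨k, hk⟩ := h1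
  have h2 : (bz s t (D.ρ y) : ℝ) = ((s ⬝ᵥ (D.rm p y *ᵥ t)).val : ℝ) - p * k := by
    have h3 : (((((s ⬝ᵥ (D.rm p y *ᵥ t)).val : ℤ) - bz s t (D.ρ y) : ℤ)) : ℝ) = ((p * k : ℤ) : ℝ) := by
      rw [hk]
    push_cast at h3
    linarith
  have h4 : 2 * (bz s t (D.ρ y) : ℝ) / p =
      2 * ((s ⬝ᵥ (D.rm p y *ᵥ t)).val : ℝ) / p + ((-(2 * k) : ℤ) : ℝ) := by
    rw [h2]
    push_cast
    field_simp
    ring
  rw [h4, nd_add_int]

/-- the linear form -/
def phi (s : Fin n → ZMod p) (y : G) : (Fin n → ZMod p) →ₗ[ZMod p] ZMod p where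
  toFun t := s ⬝ᵥ (D.rm p y *ᵥ t)
  map_add' := by
    intro a b
    rw [mulVec_add, dotProduct_add]
  map_smul' := by
    intro a b
    rw [mulVec_smul, dotProduct_smul]
    rfl

/-- the matrix as an equivalence -/
noncomputable def rmEquiv (τ : G) : (Fin n → ZMod p) ≃ₗ[ZMod p] (Fin n → ZMod p) :=
  LinearEquiv.ofLinearMap (Matrix.mulVecLin (D.rm p τ)) (Matrix.mulVecLin (D.rm p τ⁻¹))
    (by rw [← Matrix.mulVecLin_mul, ← rm_mul, mul_inv_cancel, rm_one, Matrix.mulVecLin_one])
    (by rw [← Matrix.mulVecLin_mul, ← rm_mul, inv_mul_cancel, rm_one, Matrix.mulVecLin_one])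

lemma ker_phi (hsp : Submodule.span (ZMod p) (Set.range (D.rm p)) = ⊤)
    (s : Fin n → ZMod p) (hs : s ≠ 0) (t : Fin n → ZMod p) (h : ∀ y, phi D s y t = 0) :
    t = 0 := by
  have h1 : ∀ M : Matrix (Fin n) (Fin n) (ZMod p), s ⬝ᵥ (M *ᵥ t) = 0 := by
    intro M
    have hM : M ∈ Submodule.span (ZMod p) (Set.range (D.rm p)) := by
      rw [hsp]
      trivial
    induction hM using Submodule.span_induction with
    | mem x hx =>
      obtain ⟨y, rfl⟩ := hx
      exact h y
    | zero => rw [zero_mulVec, dotProduct_zero]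
    | add x y _ _ hx hy => rw [add_mulVec, dotProduct_add, hx, hy, add_zero]
    | smul a x _ hx => rw [smul_mulVec, dotProduct_smul, hx, smul_zero]
  obtain ⟨i, hi⟩ := Function.ne_iff.1 hs
  funext j
  have h2 := h1 (vecMulVec (Pi.single i 1) (Pi.single j 1))
  have h3 : (vecMulVec (Pi.single i 1) (Pi.single j 1) : Matrix (Fin n) (Fin n) (ZMod p)) *ᵥ t =
      Pi.single i (t j) := by
    funext k
    rw [mulVec, dotProduct]
    simp only [vecMulVec_apply, Pi.single_apply]
    simp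
  rw [h3, dotProduct_single] at h2
  rcases mul_eq_zero.1 h2 with h4 | h4
  · exact absurd h4 hi
  · exact h4

/-- TSTR: few structured vectors -/
theorem card_structured_pr (hsp : Submodule.span (ZMod p) (Set.range (D.rm p)) = ⊤) (hp : p ≠ 2)
    (s : Fin n → ZMod p) (hs : s ≠ 0) (A : ℝ) (hA : 0 < A) :
    (Nat.card {t : Fin n → ZMod p // D.Av s t < A} : ℝ) ≤
      (Real.exp 1 * (1 + p * √(Real.pi * A))) ^ n := by
  classical
  have hpp : p.Prime := Fact.out
  have hodd : Odd p := hpp.odd_of_ne_two hp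
  have hn : 0 < n := by
    rcases Nat.eq_zero_or_pos n with h | h
    · subst h
      exact absurd (Subsingleton.elim s 0) hs
    · exact h
  have hn0 : (0 : ℝ) < n := by exact_mod_cast hn
  have hG : (0 : ℝ) < Fintype.card G := by exact_mod_cast Fintype.card_pos
  have hfam := fam (V := Fin n → ZMod p) (phi D s) (ker_phi D hsp s hs)
    (fun τ => ⟨rmEquiv D τ, fun y v => by
      show s ⬝ᵥ (D.rm p (y * τ) *ᵥ v) = s ⬝ᵥ (D.rm p y *ᵥ (D.rm p τ *ᵥ v))
      rw [rm_mul, mulVec_mulVec]⟩) n (by simp) hn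
    (fun _ u => Real.exp (-(nd (2 * (u.val : ℝ) / p) ^ 2))) (fun _ _ => (Real.exp_pos _).le)
    (n / A) (by positivity)
  have hl : ∀ t : Fin n → ZMod p,
      (∏ y : G, Real.exp (-(nd (2 * ((phi D s y t).val : ℝ) / p) ^ 2))) ^
        ((n / A) / (Fintype.card G : ℝ)) = Real.exp (-(n / A * D.Av s t)) := by
    intro t
    rw [← Real.exp_sum, ← Real.exp_mul, Finset.sum_neg_distrib]
    congr 1
    have h1 : ∀ y : G, nd (2 * ((phi D s y t).val : ℝ) / p) ^ 2 =
        nd (2 * (bz s t (D.ρ y) : ℝ) / p) ^ 2 := by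
      intro y
      rw [nd_bz]
      rfl
    rw [Finset.sum_congr rfl (fun y _ => h1 y), MatRep.Av]
    field_simp
  have hr : ∀ y : G, (∑ u : ZMod p, Real.exp (-(nd (2 * (u.val : ℝ) / p) ^ 2)) ^ ((n / A) / (n : ℝ))) ^
      ((n : ℝ) / Fintype.card G) ≤ (1 + p * √(Real.pi * A)) ^ ((n : ℝ) / Fintype.card G) := by
    intro _
    apply Real.rpow_le_rpow _ _ (by positivity)
    · exact Finset.sum_nonneg fun u _ => Real.rpow_nonneg (Real.exp_pos _).le _
    · have h1 : ∀ u : ZMod p, Real.exp (-(nd (2 * (u.val : ℝ) / p) ^ 2)) ^ ((n / A) / (n : ℝ)) =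
          (fun k : ℕ => Real.exp (-(1 / A * nd (2 * (k : ℝ) / p) ^ 2))) u.val := by
        intro u
        rw [← Real.exp_mul]
        simp only
        congr 1
        field_simp
      rw [Finset.sum_congr rfl (fun u _ => h1 u)]
      refine le_trans (le_of_eq (sum_zmod_val (p := p)
        (fun k : ℕ => Real.exp (-(1 / A * nd (2 * (k : ℝ) / p) ^ 2))))) ?_
      have h2 := sum_gauss p hodd (1 / A) (by positivity)
      rw [show Real.pi / (1 / A) = Real.pi * A by field_simp] at h2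
      exact h2
  rw [Finset.sum_congr rfl (fun t _ => hl t)] at hfam
  have hR : ∏ y : G, (∑ u : ZMod p, Real.exp (-(nd (2 * (u.val : ℝ) / p) ^ 2)) ^ ((n / A) / (n : ℝ))) ^
      ((n : ℝ) / Fintype.card G) ≤ (1 + p * √(Real.pi * A)) ^ n := by
    calc _ ≤ ∏ y : G, (1 + p * √(Real.pi * A)) ^ ((n : ℝ) / Fintype.card G) := by
          apply Finset.prod_le_prod
          · intro y _
            exact Real.rpow_nonneg (Finset.sum_nonneg fun u _ =>
              Real.rpow_nonneg (Real.exp_pos _).le _) _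
          · intro y _
            exact hr y
      _ = (1 + p * √(Real.pi * A)) ^ n := by
          rw [Finset.prod_const, Finset.card_univ, ← Real.rpow_natCast, ← Real.rpow_mul (by positivity),
            div_mul_cancel₀ _ hG.ne', Real.rpow_natCast]
  have hsum := hfam.trans hR
  -- the number of the structured vectors
  have hcount : (Nat.card {t : Fin n → ZMod p // D.Av s t < A} : ℝ) * Real.exp (-(n : ℝ)) ≤
      ∑ t : Fin n → ZMod p, Real.exp (-(n / A * D.Av s t)) := by
    rw [Nat.card_eq_fintype_card, Fintype.card_subtype, ← nsmul_eq_mul, ← Finset.sum_const]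
    calc ∑ _t ∈ univ.filter (fun t : Fin n → ZMod p => D.Av s t < A), Real.exp (-(n : ℝ)) ≤
        ∑ t ∈ univ.filter (fun t : Fin n → ZMod p => D.Av s t < A),
          Real.exp (-(n / A * D.Av s t)) := by
          apply Finset.sum_le_sum
          intro t ht
          rw [Real.exp_le_exp, neg_le_neg_iff]
          have h1 : D.Av s t ≤ A := (mem_filter.1 ht).2.le
          calc n / A * D.Av s t ≤ n / A * A := mul_le_mul_of_nonneg_left h1 (by positivity)
            _ = n := by field_simp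
      _ ≤ _ := Finset.sum_le_sum_of_subset_of_nonneg (filter_subset _ _)
          fun _ _ _ => (Real.exp_pos _).le
  have h3 := hcount.trans hsum
  rw [Real.exp_neg, ← div_eq_mul_inv, div_le_iff₀ (Real.exp_pos _)] at h3
  calc _ ≤ _ := h3
    _ = (Real.exp 1 * (1 + p * √(Real.pi * A))) ^ n := by
      rw [mul_pow, ← Real.exp_nat_mul, mul_one]
      ring

end

end Pool.Agent.AAC.H80

namespace Pool.Agent.AAC

alias card_structured := Pool.Agent.AAC.H80.card_structured_pr

end Pool.Agent.AAC
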