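import Pool.Agent.Lib_helper7.AAC.Basic
import Pool.Agent.Lib_helper7.AACF.TS

set_option autoImplicit false
set_option linter.unusedSectionVars false

/-! Block TZERO: the terms with `k = 0`. -/

namespace Pool.Agent.AAC

open Finset Matrix

section

variable {G X : Type} [Group G] [Fintype G] [MulAction G X] [Fintype X] {C : Ctx G X}
variable {n : ℕ} (D : MatRep C n) {p : ℕ} [Fact p.Prime]

theorem TZERO_cos (p : ℕ) (hp : 0 < p) (a b : ℤ) (h : (a : ZMod p) = (b : ZMod p)) :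
    |Real.cos (2 * Real.pi * ((a : ℝ) / p))| = |Real.cos (2 * Real.pi * ((b : ℝ) / p))| := by
  have h1 : ((p : ℕ) : ℤ) ∣ b - a := (ZMod.intCast_eq_intCast_iff_dvd_sub a b p).1 h
  obtain ⟨c, hc⟩ := h1
  have hb : (b : ℝ) = a + p * c := by
    have : (b : ℤ) = a + p * c := by linarith
    exact_mod_cast this
  have hp0 : (p : ℝ) ≠ 0 := by positivity
  have e : 2 * Real.pi * ((b : ℝ) / p) = 2 * Real.pi * ((a : ℝ) / p) + c * (2 * Real.pi) := by
    rw [hb]
    field_simp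
  rw [e, Real.cos_add_int_mul_two_pi]

/-- the value modulo `p` -/
theorem TZERO_bz (s t : Fin n → ZMod p) (A : Matrix (Fin n) (Fin n) ℤ) :
    ((bz s t A : ℤ) : ZMod p) = s ⬝ᵥ ((A.map (Int.cast : ℤ → ZMod p)) *ᵥ t) := by
  have h : ∀ a : ZMod p, (((a.val : ℕ) : ℤ) : ZMod p) = a := by
    intro a
    rw [Int.cast_natCast, ZMod.natCast_zmod_val]
  unfold bz lft
  simp only [dotProduct, mulVec, Int.cast_sum, Int.cast_mul, h, Matrix.map_apply]

/-- the weight with `k = 0` depends on the forms modulo `p` only -/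
theorem TZERO_Wt (s t ξ η s' t' ξ' η' : Fin n → ZMod p)
    (h : ∀ y : G, s ⬝ᵥ (D.rm p y *ᵥ ξ) + η ⬝ᵥ (D.rm p y *ᵥ t) =
      s' ⬝ᵥ (D.rm p y *ᵥ ξ') + η' ⬝ᵥ (D.rm p y *ᵥ t')) :
    D.Wt s t ξ η 0 = D.Wt s' t' ξ' η' 0 := by
  unfold MatRep.Wt
  congr 1
  refine Finset.prod_congr rfl fun y _ => ?_
  have hp : 0 < p := (Fact.out : p.Prime).pos
  have e : ∀ (a b : ℤ), (((a : ℝ) / p) + ((0 : ℕ) : ℝ) * (b : ℝ) / (p : ℝ) ^ 2) = (a : ℝ) / p := by
    intro a b
    simp
  rw [e, e]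
  apply TZERO_cos p hp
  have := h y
  push_cast
  rw [TZERO_bz, TZERO_bz, TZERO_bz, TZERO_bz]
  exact this

theorem TZERO_nonneg (s t ξ η : Fin n → ZMod p) (k : ℕ) : 0 ≤ D.Wt s t ξ η k := by
  unfold MatRep.Wt
  positivity

theorem TZERO_Th1 (q : ℕ) (hq : 0 < q) (s : ℝ) : 1 ≤ Th q s := by
  unfold Th ThS
  have h0 : 0 ∈ Finset.range q := Finset.mem_range.2 hq
  refine le_trans (le_of_eq ?_) (Finset.single_le_sum (f := fun u : ℕ =>
    |Real.cos (2 * Real.pi * ((u : ℝ) / q + 0))| ^ s)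
    (fun u _ => Real.rpow_nonneg (abs_nonneg _) _) h0)
  simp

/-- dependent left vectors -/
theorem TZERO_dep (hsp : Submodule.span (ZMod p) (Set.range (D.rm p)) = ⊤)
    (s t : Fin n → ZMod p) (hs : s ≠ 0) (a : ZMod p) :
    ∑ ξ : Fin n → ZMod p, D.Wt s t ξ (a • s) 0 ≤ Th p (C.g / n) ^ n := by
  have h1 : ∀ ξ : Fin n → ZMod p, D.Wt s t ξ (a • s) 0 = D.Wt s t (ξ + a • t) 0 0 := by
    intro ξ
    apply TZERO_Wt
    intro y
    rw [mulVec_add, dotProduct_add, mulVec_smul, dotProduct_smul, smul_dotProduct, zero_dotProduct,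
      add_zero]
  rw [Finset.sum_congr rfl fun ξ _ => h1 ξ]
  have h2 : ∑ ξ : Fin n → ZMod p, D.Wt s t (ξ + a • t) 0 0 = ∑ ξ : Fin n → ZMod p, D.Wt s t ξ 0 0 :=
    Equiv.sum_comp (Equiv.addRight (a • t)) (fun ξ => D.Wt s t ξ 0 0)
  rw [h2]
  have h3 := sum_right D hsp s hs (fun _ => 0)
  have h4 : ∀ ξ : Fin n → ZMod p, D.Wt s t ξ 0 0 =
      (∏ y : G, |Real.cos (2 * Real.pi * ((bz s ξ (D.ρ y) : ℝ) / p + 0))|) ^
        ((C.g : ℝ) / Fintype.card G) := by
    intro ξ
    unfold MatRep.Wt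
    have h0 : ∀ y : G, bz (0 : Fin n → ZMod p) t (D.ρ y) = 0 := by
      intro y
      unfold bz lft
      simp [dotProduct]
    congr 1
    refine Finset.prod_congr rfl fun y _ => ?_
    rw [h0]
    simp
  rw [Finset.sum_congr rfl fun ξ _ => h4 ξ]
  refine h3.trans (le_of_eq ?_)
  rw [Finset.prod_const, Finset.card_univ]
  have hT : 0 ≤ Th p (C.g / n) := le_trans zero_le_one (TZERO_Th1 p (Fact.out : p.Prime).pos _)
  have hG : (Fintype.card G : ℝ) ≠ 0 := by
    have : 0 < Fintype.card G := Fintype.card_pos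
    positivity
  have e : ThS p (C.g / n) 0 = Th p (C.g / n) := rfl
  rw [e, ← Real.rpow_natCast, ← Real.rpow_mul hT, div_mul_cancel₀ _ hG, Real.rpow_natCast]

/-- independent left vectors -/
theorem TZERO_indep (hsp : Submodule.span (ZMod p) (Set.range (D.rm p)) = ⊤)
    (s η : Fin n → ZMod p) (h : LinearIndependent (ZMod p) ![s, η]) :
    ∑ t ∈ Finset.univ.erase (0 : Fin n → ZMod p), ∑ ξ : Fin n → ZMod p, D.Wt s t ξ η 0 ≤
      Th p (C.g / (2 * n)) ^ (2 * n) - 1 := by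
  have h1 := sum_two D hsp s η h
  rw [Finset.sum_comm] at h1
  have h2 := Finset.add_sum_erase Finset.univ
    (fun t : Fin n → ZMod p => ∑ ξ : Fin n → ZMod p, D.Wt s t ξ η 0) (Finset.mem_univ 0)
  rw [← h2] at h1
  have h3 : 1 ≤ ∑ ξ : Fin n → ZMod p, D.Wt s 0 ξ η 0 := by
    have h4 : D.Wt s 0 0 η 0 = 1 := by
      unfold MatRep.Wt
      have h0 : ∀ y : G, |Real.cos (2 * Real.pi * (((bz s (0 : Fin n → ZMod p) (D.ρ y) +
          bz η (0 : Fin n → ZMod p) (D.ρ y) : ℤ) : ℝ) / p +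
          ((0 : ℕ) : ℝ) * (bz s (0 : Fin n → ZMod p) (D.ρ y) : ℝ) / (p : ℝ) ^ 2))| = 1 := by
        intro y
        have e : ∀ s' : Fin n → ZMod p, bz s' (0 : Fin n → ZMod p) (D.ρ y) = 0 := by
          intro s'
          unfold bz lft
          simp [dotProduct, mulVec]
        rw [e, e]
        simp
      rw [Finset.prod_congr rfl fun y _ => h0 y, Finset.prod_const_one, Real.one_rpow]
    rw [← h4]
    exact Finset.single_le_sum (f := fun ξ : Fin n → ZMod p => D.Wt s 0 ξ η 0)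
      (fun ξ _ => TZERO_nonneg D s 0 ξ η 0) (Finset.mem_univ 0)
  linarith

/-- TZERO: the terms with `k = 0` -/
theorem sum_zero_pr (hsp : Submodule.span (ZMod p) (Set.range (D.rm p)) = ⊤)
    (S : Finset ((Fin n → ZMod p) × (Fin n → ZMod p))) (hS : ∀ st ∈ S, st.1 ≠ 0 ∧ st.2 ≠ 0) :
    ∑ st ∈ S, ∑ ξ : Fin n → ZMod p, ∑ η : Fin n → ZMod p, D.Wt st.1 st.2 ξ η 0 ≤
      S.card * p * Th p (C.g / n) ^ n +
        (p : ℝ) ^ (2 * n) * (Th p (C.g / (2 * n)) ^ (2 * n) - 1) := by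
  classical
  have hpr : p.Prime := Fact.out
  obtain ⟨T1, hT1⟩ : ∃ T1, T1 = Th p (C.g / n) ^ n := ⟨_, rfl⟩
  obtain ⟨T2, hT2⟩ : ∃ T2, T2 = Th p (C.g / (2 * n)) ^ (2 * n) - 1 := ⟨_, rfl⟩
  have hT20 : 0 ≤ T2 := by
    rw [hT2]
    linarith [one_le_pow₀ (n := 2 * n) (TZERO_Th1 p hpr.pos (C.g / (2 * n)))]
  have hT10 : 0 ≤ T1 := by
    rw [hT1]
    exact pow_nonneg (le_trans zero_le_one (TZERO_Th1 p hpr.pos _)) _
  rw [← hT1, ← hT2]
  have hcardV : (Fintype.card (Fin n → ZMod p) : ℝ) = (p : ℝ) ^ n := by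
    rw [Fintype.card_fun, ZMod.card, Fintype.card_fin]
    push_cast
    rfl
  obtain ⟨dep, hdep⟩ : ∃ dep : (Fin n → ZMod p) → Finset (Fin n → ZMod p),
    dep = fun s => Finset.univ.image fun a : ZMod p => a • s := ⟨_, rfl⟩
  obtain ⟨F, hF⟩ : ∃ F : (Fin n → ZMod p) → (Fin n → ZMod p) → (Fin n → ZMod p) → ℝ,
    F = fun s t η => ∑ ξ : Fin n → ZMod p, D.Wt s t ξ η 0 := ⟨_, rfl⟩
  have hF0 : ∀ s t η, 0 ≤ F s t η := by
    intro s t η
    rw [hF]
    exact Finset.sum_nonneg fun ξ _ => TZERO_nonneg D s t ξ η 0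
  have hsplit : ∀ st ∈ S, ∑ ξ : Fin n → ZMod p, ∑ η : Fin n → ZMod p, D.Wt st.1 st.2 ξ η 0 ≤
      p * T1 + ∑ η ∈ Finset.univ.filter (fun η => η ∉ dep st.1), F st.1 st.2 η := by
    intro st hst
    rw [Finset.sum_comm]
    have e : ∑ η : Fin n → ZMod p, ∑ ξ : Fin n → ZMod p, D.Wt st.1 st.2 ξ η 0 =
        ∑ η ∈ Finset.univ.filter (fun η => η ∈ dep st.1), F st.1 st.2 η +
        ∑ η ∈ Finset.univ.filter (fun η => η ∉ dep st.1), F st.1 st.2 η := by
      rw [Finset.sum_filter_add_sum_filter_not, hF]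
    rw [e]
    gcongr
    have h1 : ∀ η ∈ Finset.univ.filter (fun η => η ∈ dep st.1), F st.1 st.2 η ≤ T1 := by
      intro η hη
      rw [Finset.mem_filter, hdep] at hη
      obtain ⟨a, _, rfl⟩ := Finset.mem_image.1 hη.2
      rw [hF, hT1]
      exact TZERO_dep D hsp st.1 st.2 (hS st hst).1 a
    refine (Finset.sum_le_sum h1).trans ?_
    rw [Finset.sum_const, nsmul_eq_mul]
    have h2 : ((Finset.univ.filter (fun η => η ∈ dep st.1)).card : ℝ) ≤ p := by
      have h3 : Finset.univ.filter (fun η => η ∈ dep st.1) = dep st.1 := by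
        ext η
        simp
      rw [h3, hdep]
      have h4 : (Finset.univ.image fun a : ZMod p => a • st.1).card ≤ p := by
        refine Finset.card_image_le.trans ?_
        rw [Finset.card_univ, ZMod.card]
      exact_mod_cast h4
    gcongr
  refine (Finset.sum_le_sum hsplit).trans ?_
  rw [Finset.sum_add_distrib, Finset.sum_const, nsmul_eq_mul, ← mul_assoc]
  gcongr
  -- the independent part
  have hsub : S ⊆ (Finset.univ.erase (0 : Fin n → ZMod p)) ×ˢ
      (Finset.univ.erase (0 : Fin n → ZMod p)) := by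
    intro st hst
    have := hS st hst
    simp [this.1, this.2]
  calc ∑ st ∈ S, ∑ η ∈ Finset.univ.filter (fun η => η ∉ dep st.1), F st.1 st.2 η
      ≤ ∑ st ∈ (Finset.univ.erase (0 : Fin n → ZMod p)) ×ˢ
          (Finset.univ.erase (0 : Fin n → ZMod p)),
          ∑ η ∈ Finset.univ.filter (fun η => η ∉ dep st.1), F st.1 st.2 η :=
        Finset.sum_le_sum_of_subset_of_nonneg hsub fun st _ _ =>
          Finset.sum_nonneg fun η _ => hF0 _ _ _
    _ = ∑ s ∈ Finset.univ.erase (0 : Fin n → ZMod p),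
          ∑ η ∈ Finset.univ.filter (fun η => η ∉ dep s),
          ∑ t ∈ Finset.univ.erase (0 : Fin n → ZMod p), F s t η := by
        rw [Finset.sum_product]
        refine Finset.sum_congr rfl fun s _ => ?_
        rw [Finset.sum_comm]
    _ ≤ ∑ s ∈ Finset.univ.erase (0 : Fin n → ZMod p),
          ∑ η ∈ Finset.univ.filter (fun η => η ∉ dep s), T2 := by
        refine Finset.sum_le_sum fun s hs => Finset.sum_le_sum fun η hη => ?_
        rw [Finset.mem_erase] at hs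
        rw [Finset.mem_filter, hdep] at hη
        rw [hF, hT2]
        apply TZERO_indep D hsp s η
        rw [LinearIndependent.pair_iff]
        intro a b hab
        by_cases hb : b = 0
        · rw [hb, zero_smul, add_zero] at hab
          exact ⟨(smul_eq_zero.1 hab).resolve_right hs.1, hb⟩
        · exfalso
          apply hη.2
          refine Finset.mem_image.2 ⟨-(b⁻¹ * a), Finset.mem_univ _, ?_⟩
          have h1 : b • η = -(a • s) := by
            rw [add_comm] at hab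
            exact eq_neg_of_add_eq_zero_left hab
          calc -(b⁻¹ * a) • s = b⁻¹ • (-(a • s)) := by
                rw [neg_smul, smul_neg, mul_smul]
            _ = b⁻¹ • (b • η) := by rw [h1]
            _ = η := by rw [smul_smul, inv_mul_cancel₀ hb, one_smul]
    _ ≤ ∑ s ∈ Finset.univ.erase (0 : Fin n → ZMod p), (p : ℝ) ^ n * T2 := by
        refine Finset.sum_le_sum fun s _ => ?_
        rw [Finset.sum_const, nsmul_eq_mul]
        have : ((Finset.univ.filter (fun η => η ∉ dep s)).card : ℝ) ≤ (p : ℝ) ^ n := by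
          rw [← hcardV]
          exact_mod_cast Finset.card_le_univ _
        gcongr
    _ ≤ (p : ℝ) ^ (2 * n) * T2 := by
        rw [Finset.sum_const, nsmul_eq_mul, two_mul, pow_add, mul_assoc]
        have : ((Finset.univ.erase (0 : Fin n → ZMod p)).card : ℝ) ≤ (p : ℝ) ^ n := by
          rw [← hcardV]
          exact_mod_cast Finset.card_le_univ _
        gcongr

end

end Pool.Agent.AAC

namespace Pool.Agent.AAC

alias sum_zero := Pool.Agent.AAC.sum_zero_pr

end Pool.Agent.AAC
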