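import Pool.Agent.Lib_helper7.AAC.Basic
import Pool.Agent.Lib_helper7.AACF.TDET
import Pool.Agent.Lib_helper7.AACF.TEXP
import Pool.Agent.Lib_helper7.AACF.TS
import Pool.Agent.Lib_helper7.AACF.TSTR
import Pool.Agent.Lib_helper7.AACF.TZERO

set_option autoImplicit false
set_option linter.unusedSectionVars false

/-! Block TMAIN: the two digit inequality. -/

namespace Pool.Agent.AAC

open Finset Matrix

theorem TMAIN_card {α : Type} [Fintype α] (Q : α → Prop) [DecidablePred Q] :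
    Nat.card {x // Q x} = (Finset.univ.filter Q).card := by
  rw [Nat.card_eq_fintype_card, Fintype.card_subtype]

theorem TMAIN_Th0 (p : ℕ) (s : ℝ) : 0 ≤ Th p s := by
  unfold Th ThS
  exact Finset.sum_nonneg fun u _ => Real.rpow_nonneg (abs_nonneg _) _

section

variable {G X : Type} [Group G] [Fintype G] [MulAction G X] [Fintype X] {C : Ctx G X}
variable {n : ℕ} (D : MatRep C n) {p : ℕ} [Fact p.Prime]

open Classical in
/-- double counting of the null vectors -/
theorem TMAIN_count (P : Finset ((Fin n → ZMod p) × (Fin n → ZMod p)))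
    (hP : ∀ st, st ∈ P ↔ st.1 ≠ 0 ∧ st.2 ≠ 0) :
    ((p : ℝ) - 1) ^ 2 * Pr C (fun Φ => (D.Msum Φ).det = 0) ≤
      ∑ st ∈ P, Pr C (fun Φ => Ev2 st.1 st.2 (D.Msum Φ)) := by
  have hp1 : 1 ≤ p := (Fact.out : p.Prime).one_lt.le
  rw [Pr_eq, Finset.sum_congr rfl (fun st _ => Pr_eq (fun Φ => Ev2 st.1 st.2 (D.Msum Φ))),
    ← Finset.sum_div, ← mul_div_assoc]
  apply div_le_div_of_nonneg_right _ (two_pow_pos' _).le
  have hcast : ((p : ℝ) - 1) ^ 2 = (((p - 1) ^ 2 : ℕ) : ℝ) := by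
    rw [Nat.cast_pow, Nat.cast_sub hp1, Nat.cast_one]
  rw [hcast]
  have h : (p - 1) ^ 2 * ((types C).filter (fun Φ => (D.Msum Φ).det = 0)).card ≤
      ∑ st ∈ P, ((types C).filter (fun Φ => Ev2 st.1 st.2 (D.Msum Φ))).card := by
    calc (p - 1) ^ 2 * ((types C).filter (fun Φ => (D.Msum Φ).det = 0)).card
        = ∑ Φ ∈ (types C).filter (fun Φ => (D.Msum Φ).det = 0), (p - 1) ^ 2 := by
          rw [Finset.sum_const, smul_eq_mul, mul_comm]
      _ ≤ ∑ Φ ∈ (types C).filter (fun Φ => (D.Msum Φ).det = 0),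
            (P.filter (fun st => Ev2 st.1 st.2 (D.Msum Φ))).card := by
          refine Finset.sum_le_sum fun Φ hΦ => ?_
          rw [Finset.mem_filter] at hΦ
          refine (card_pairs (p := p) (D.Msum Φ) hΦ.2).trans (le_of_eq ?_)
          rw [TMAIN_card]
          congr 1
          ext st
          rw [Finset.mem_filter, Finset.mem_filter, hP]
          simp [and_assoc]
      _ ≤ ∑ Φ ∈ types C, (P.filter (fun st => Ev2 st.1 st.2 (D.Msum Φ))).card :=
          Finset.sum_le_sum_of_subset (Finset.filter_subset _ _)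
      _ = ∑ st ∈ P, ((types C).filter (fun Φ => Ev2 st.1 st.2 (D.Msum Φ))).card := by
          simp only [Finset.card_filter]
          rw [Finset.sum_comm]
  exact_mod_cast h

open Classical in
/-- the structured pairs for one multiple -/
theorem TMAIN_str (hsp : Submodule.span (ZMod p) (Set.range (D.rm p)) = ⊤) (hp : p ≠ 2)
    (A : ℝ) (hA : 0 < A) (k : ℕ) (hk0 : 0 < k) (hkp : k < p) :
    ((Finset.univ.filter (fun st : (Fin n → ZMod p) × (Fin n → ZMod p) =>
      (st.1 ≠ 0 ∧ st.2 ≠ 0) ∧ D.Av ((k : ZMod p) • st.1) st.2 < A)).card : ℝ) ≤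
      (p : ℝ) ^ n * (Real.exp 1 * (1 + p * √(Real.pi * A))) ^ n := by
  have hk : (k : ZMod p) ≠ 0 := by
    intro h
    rw [ZMod.natCast_eq_zero_iff] at h
    exact absurd (Nat.le_of_dvd hk0 h) (by omega)
  rw [Finset.card_eq_sum_card_fiberwise (f := Prod.fst) (t := Finset.univ) (fun _ _ => Finset.mem_coe.2 (Finset.mem_univ _))]
  push_cast
  have hcard : (p : ℝ) ^ n = ((Finset.univ : Finset (Fin n → ZMod p)).card : ℝ) := by
    rw [Finset.card_univ, Fintype.card_fun, ZMod.card, Fintype.card_fin]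
    push_cast
    rfl
  rw [hcard, ← nsmul_eq_mul, ← Finset.sum_const]
  refine Finset.sum_le_sum fun s _ => ?_
  by_cases hs : s = 0
  · have he : (Finset.filter (fun x : (Fin n → ZMod p) × (Fin n → ZMod p) => x.1 = s)
        (Finset.univ.filter (fun st : (Fin n → ZMod p) × (Fin n → ZMod p) =>
        (st.1 ≠ 0 ∧ st.2 ≠ 0) ∧ D.Av ((k : ZMod p) • st.1) st.2 < A))) = ∅ := by
      rw [Finset.filter_eq_empty_iff]
      intro x hx h
      rw [Finset.mem_filter] at hx
      exact hx.2.1.1 (h.trans hs)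
    rw [he]
    simp only [Finset.card_empty, Nat.cast_zero]
    positivity
  · refine le_trans ?_ (card_structured D hsp hp ((k : ZMod p) • s) (smul_ne_zero hk hs) A hA)
    rw [TMAIN_card]
    have : (Finset.filter (fun x : (Fin n → ZMod p) × (Fin n → ZMod p) => x.1 = s)
        (Finset.univ.filter (fun st : (Fin n → ZMod p) × (Fin n → ZMod p) =>
        (st.1 ≠ 0 ∧ st.2 ≠ 0) ∧ D.Av ((k : ZMod p) • st.1) st.2 < A))).card ≤
        (Finset.univ.filter fun t : Fin n → ZMod p => D.Av ((k : ZMod p) • s) t < A).card := by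
      refine Finset.card_le_card_of_injOn Prod.snd ?_ ?_
      · intro x hx
        rw [Finset.mem_coe, Finset.mem_filter, Finset.mem_filter] at hx
        rw [Finset.mem_coe, Finset.mem_filter]
        refine ⟨Finset.mem_univ _, ?_⟩
        rw [← hx.2]
        exact hx.1.2.2
      · intro x hx y hy h
        rw [Finset.mem_coe, Finset.mem_filter] at hx hy
        exact Prod.ext (hx.2.trans hy.2.symm) h
    exact_mod_cast this

/-- TMAIN: the two digit inequality -/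
theorem two_digit_pr (hsp : Submodule.span (ZMod p) (Set.range (D.rm p)) = ⊤) (hp : p ≠ 2)
    (hg : (p : ℝ) ^ 2 * n ≤ C.g)
    (h2 : (1 + 6 * Real.exp (-((C.g / n) / (2 * p ^ 2) : ℝ))) ^ n ≤ 2) (A : ℝ) (hA : 0 < A) :
    ((p : ℝ) - 1) ^ 2 * Pr C (fun Φ => (D.Msum Φ).det = 0) ≤
      Th p (C.g / n) ^ n + (Th p (C.g / (2 * n)) ^ (2 * n) - 1) / p +
      ((p : ℝ) ^ 2 * ((Real.exp 1 * (1 + p * √(Real.pi * A))) / p) ^ n * Th p (C.g / n) ^ n +
        (Th p (C.g / (2 * n)) ^ (2 * n) - 1)) +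
      2 * (p : ℝ) ^ n * Real.exp (-(C.g * A / p ^ 2)) := by
  classical
  have hpr : p.Prime := Fact.out
  have hp0 : (0 : ℝ) < p := by exact_mod_cast hpr.pos
  obtain ⟨P, hPd⟩ : ∃ P : Finset ((Fin n → ZMod p) × (Fin n → ZMod p)),
    P = Finset.univ.filter (fun st => st.1 ≠ 0 ∧ st.2 ≠ 0) := ⟨_, rfl⟩
  have hP : ∀ st, st ∈ P ↔ st.1 ≠ 0 ∧ st.2 ≠ 0 := by
    intro st
    rw [hPd, Finset.mem_filter]
    simp
  refine (TMAIN_count D P hP).trans ?_
  obtain ⟨K, hK⟩ : ∃ K, K = Real.exp 1 * (1 + p * √(Real.pi * A)) := ⟨_, rfl⟩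
  have hK0 : 0 ≤ K := by rw [hK]; positivity
  obtain ⟨T1, hT1⟩ : ∃ T1, T1 = Th p (C.g / n) ^ n := ⟨_, rfl⟩
  obtain ⟨T2, hT2⟩ : ∃ T2, T2 = Th p (C.g / (2 * n)) ^ (2 * n) - 1 := ⟨_, rfl⟩
  have hT10 : 0 ≤ T1 := by rw [hT1]; exact pow_nonneg (TMAIN_Th0 _ _) _
  rw [← hK, ← hT1, ← hT2]
  obtain ⟨Q, hQ⟩ : ∃ Q : (Fin n → ZMod p) × (Fin n → ZMod p) → Prop,
    Q = fun st => ∃ k : ℕ, 0 < k ∧ k < p ∧ D.Av ((k : ZMod p) • st.1) st.2 < A := ⟨_, rfl⟩
  rw [← Finset.sum_filter_add_sum_filter_not P Q]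
  have hcardV : (Fintype.card (Fin n → ZMod p) : ℝ) = (p : ℝ) ^ n := by
    rw [Fintype.card_fun, ZMod.card, Fintype.card_fin]
    push_cast
    rfl
  -- the structured pairs
  have hStr : ((P.filter Q).card : ℝ) ≤ p * ((p : ℝ) ^ n * K ^ n) := by
    have h1 : P.filter Q ⊆ (Finset.range p).biUnion fun k => (if 0 < k then
        Finset.univ.filter (fun st : (Fin n → ZMod p) × (Fin n → ZMod p) =>
        (st.1 ≠ 0 ∧ st.2 ≠ 0) ∧ D.Av ((k : ZMod p) • st.1) st.2 < A) else ∅) := by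
      intro st hst
      rw [Finset.mem_filter, hP, hQ] at hst
      obtain ⟨h0, k, hk0, hkp, hk⟩ := hst
      rw [Finset.mem_biUnion]
      refine ⟨k, Finset.mem_range.2 hkp, ?_⟩
      rw [if_pos hk0, Finset.mem_filter]
      exact ⟨Finset.mem_univ _, h0, hk⟩
    have h2 : ((P.filter Q).card : ℝ) ≤ ∑ k ∈ Finset.range p, ((if 0 < k then
        Finset.univ.filter (fun st : (Fin n → ZMod p) × (Fin n → ZMod p) =>
        (st.1 ≠ 0 ∧ st.2 ≠ 0) ∧ D.Av ((k : ZMod p) • st.1) st.2 < A) else ∅).card : ℝ) := by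
      exact_mod_cast (Finset.card_le_card h1).trans Finset.card_biUnion_le
    refine h2.trans ?_
    have h3 : (p : ℝ) * ((p : ℝ) ^ n * K ^ n) = ∑ k ∈ Finset.range p, ((p : ℝ) ^ n * K ^ n) := by
      rw [Finset.sum_const, Finset.card_range, nsmul_eq_mul]
    rw [h3]
    refine Finset.sum_le_sum fun k hk => ?_
    rw [Finset.mem_range] at hk
    by_cases hk0 : 0 < k
    · rw [if_pos hk0, hK]
      exact TMAIN_str D hsp hp A hA k hk0 hk
    · rw [if_neg hk0]
      simp only [Finset.card_empty, Nat.cast_zero]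
      positivity
  have hA1 : ∑ st ∈ P.filter Q, Pr C (fun Φ => Ev2 st.1 st.2 (D.Msum Φ)) ≤
      (p : ℝ) ^ 2 * (K / p) ^ n * T1 + T2 := by
    have h1 : ∀ st ∈ P.filter Q, Pr C (fun Φ => Ev2 st.1 st.2 (D.Msum Φ)) ≤
        (∑ ξ : Fin n → ZMod p, ∑ η : Fin n → ZMod p, D.Wt st.1 st.2 ξ η 0) / (p : ℝ) ^ (2 * n) :=
      fun st _ => (Pr_mono fun Φ _ h => h.1).trans (pr_ev1 D st.1 st.2)
    refine (Finset.sum_le_sum h1).trans ?_
    rw [← Finset.sum_div]
    have h3 := sum_zero D hsp (P.filter Q) (fun st hst => (hP st).1 (Finset.mem_filter.1 hst).1)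
    rw [← hT1, ← hT2] at h3
    rw [div_le_iff₀ (by positivity)]
    refine h3.trans ?_
    have h4 : ((P.filter Q).card : ℝ) * p * T1 ≤ p * ((p : ℝ) ^ n * K ^ n) * p * T1 := by gcongr
    have h5 : ((p : ℝ) ^ 2 * (K / p) ^ n * T1 + T2) * (p : ℝ) ^ (2 * n) =
        p * ((p : ℝ) ^ n * K ^ n) * p * T1 + (p : ℝ) ^ (2 * n) * T2 := by
      rw [div_pow, two_mul, pow_add]
      field_simp
    rw [h5]
    linarith
  have hS : (((P.filter fun st => ¬ Q st)).card : ℝ) ≤ (p : ℝ) ^ (2 * n) := by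
    have h1 : (P.filter fun st => ¬ Q st).card ≤
        (Finset.univ : Finset ((Fin n → ZMod p) × (Fin n → ZMod p))).card :=
      Finset.card_le_card (Finset.subset_univ _)
    have h2 : ((Finset.univ : Finset ((Fin n → ZMod p) × (Fin n → ZMod p))).card : ℝ)
        = (p : ℝ) ^ (2 * n) := by
      rw [Finset.card_univ, Fintype.card_prod]
      push_cast
      rw [hcardV, two_mul, pow_add]
    rw [← h2]
    exact_mod_cast h1
  have hA2 : ∑ st ∈ P.filter (fun st => ¬ Q st), Pr C (fun Φ => Ev2 st.1 st.2 (D.Msum Φ)) ≤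
      T1 + T2 / p + 2 * (p : ℝ) ^ n * Real.exp (-(C.g * A / p ^ 2)) := by
    refine (Finset.sum_le_sum fun st _ => pr_ev2 D st.1 st.2).trans ?_
    rw [← Finset.sum_div, Finset.sum_comm]
    rw [div_le_iff₀ (by positivity)]
    have h0 : 0 ∈ Finset.range p := Finset.mem_range.2 hpr.pos
    rw [← Finset.add_sum_erase _ _ h0]
    have h3 := sum_zero D hsp (P.filter fun st => ¬ Q st)
      (fun st hst => (hP st).1 (Finset.mem_filter.1 hst).1)
    rw [← hT1, ← hT2] at h3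
    have h4 : (((P.filter fun st => ¬ Q st)).card : ℝ) * p * T1 ≤ (p : ℝ) ^ (2 * n) * p * T1 := by
      gcongr
    have h5 : ∀ k ∈ (Finset.range p).erase 0, ∑ st ∈ P.filter (fun st => ¬ Q st),
        ∑ ξ : Fin n → ZMod p, ∑ η : Fin n → ZMod p, D.Wt st.1 st.2 ξ η k ≤
        (p : ℝ) ^ (2 * n) * ((p : ℝ) ^ n * (2 * Real.exp (-(C.g * A / p ^ 2)))) := by
      intro k hk
      rw [Finset.mem_erase, Finset.mem_range] at hk
      have h6 : ∀ st ∈ P.filter (fun st => ¬ Q st),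
          ∑ ξ : Fin n → ZMod p, ∑ η : Fin n → ZMod p, D.Wt st.1 st.2 ξ η k ≤
          (p : ℝ) ^ n * (2 * Real.exp (-(C.g * A / p ^ 2))) := by
        intro st hst
        rw [Finset.mem_filter, hP, hQ] at hst
        have hAv : A ≤ D.Av ((k : ZMod p) • st.1) st.2 := by
          by_contra hlt
          push Not at hlt
          exact hst.2 ⟨k, Nat.pos_of_ne_zero hk.1, hk.2, hlt⟩
        calc ∑ ξ : Fin n → ZMod p, ∑ η : Fin n → ZMod p, D.Wt st.1 st.2 ξ η k
            ≤ ∑ ξ : Fin n → ZMod p, 2 * Real.exp (-(C.g * A / p ^ 2)) := by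
              refine Finset.sum_le_sum fun ξ _ => ?_
              refine (sum_k D hsp hp hg h2 st.1 st.2 ξ hst.1.2 k).trans ?_
              gcongr
          _ = (p : ℝ) ^ n * (2 * Real.exp (-(C.g * A / p ^ 2))) := by
              rw [Finset.sum_const, Finset.card_univ, nsmul_eq_mul, hcardV]
      calc ∑ st ∈ P.filter (fun st => ¬ Q st),
            ∑ ξ : Fin n → ZMod p, ∑ η : Fin n → ZMod p, D.Wt st.1 st.2 ξ η k
          ≤ ∑ st ∈ P.filter (fun st => ¬ Q st), (p : ℝ) ^ n * (2 * Real.exp (-(C.g * A / p ^ 2))) :=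
            Finset.sum_le_sum h6
        _ = ((P.filter fun st => ¬ Q st).card : ℝ) * ((p : ℝ) ^ n * (2 * Real.exp (-(C.g * A / p ^ 2)))) := by
            rw [Finset.sum_const, nsmul_eq_mul]
        _ ≤ _ := by gcongr
    have h7 : ∑ k ∈ (Finset.range p).erase 0, ∑ st ∈ P.filter (fun st => ¬ Q st),
        ∑ ξ : Fin n → ZMod p, ∑ η : Fin n → ZMod p, D.Wt st.1 st.2 ξ η k ≤
        p * ((p : ℝ) ^ (2 * n) * ((p : ℝ) ^ n * (2 * Real.exp (-(C.g * A / p ^ 2))))) := by
      refine (Finset.sum_le_sum h5).trans ?_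
      rw [Finset.sum_const, nsmul_eq_mul]
      have : (((Finset.range p).erase 0).card : ℝ) ≤ p := by
        have := Finset.card_erase_le (s := Finset.range p) (a := 0)
        rw [Finset.card_range] at this
        exact_mod_cast this
      gcongr
    have h8 : (T1 + T2 / p + 2 * (p : ℝ) ^ n * Real.exp (-(C.g * A / p ^ 2))) * (p : ℝ) ^ (2 * n + 1) =
        ((p : ℝ) ^ (2 * n) * p * T1 + (p : ℝ) ^ (2 * n) * T2) +
        p * ((p : ℝ) ^ (2 * n) * ((p : ℝ) ^ n * (2 * Real.exp (-(C.g * A / p ^ 2))))) := by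
      rw [pow_succ]
      field_simp
      ring
    rw [h8]
    exact add_le_add (h3.trans (by linarith)) h7
  linarith

end

end Pool.Agent.AAC

namespace Pool.Agent.AAC

alias two_digit := Pool.Agent.AAC.two_digit_pr

end Pool.Agent.AAC
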