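import Pool.Agent.Lib_helper7.AAC.Basic
import Pool.Agent.Lib_helper7.AACF.N12

set_option autoImplicit false
set_option linter.unusedSectionVars false

/-! Block TNUM: calculus for the two digit inequality. -/

namespace Pool.Agent.AAC

open Finset Filter

/-- all the conditions on `g` -/
theorem TNUM_ev (β : ℝ) (hβ : 0 < β) :
    ∃ g₀ : ℕ, ∀ g : ℕ, g₀ ≤ g → 1 ≤ g ∧
      6 * (g : ℝ) * Real.exp (-((g : ℝ) ^ (4 * β) / 2)) ≤ 1 / 20 ∧
      (Real.exp 1 * (1 + √Real.pi)) ^ (2 / β) ≤ (g : ℝ) / 10 ∧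
      Real.log g ≤ (g : ℝ) ^ (2 * β) / 2 ∧
      2 * Real.log 10 ≤ (g : ℝ) ^ (2 * β) ∧
      2 < (g : ℝ) ^ β ∧
      Real.exp 1 * (1 + √Real.pi) ≤ (g : ℝ) ^ β ∧
      2 ≤ (g : ℝ) ^ (4 * β) := by
  have hcast : Tendsto (fun g : ℕ => (g : ℝ)) atTop atTop := tendsto_natCast_atTop_atTop
  have hpow : ∀ r : ℝ, 0 < r → Tendsto (fun g : ℕ => (g : ℝ) ^ r) atTop atTop := fun r hr =>
    (tendsto_rpow_atTop hr).comp hcast
  have e1 : ∀ᶠ g : ℕ in atTop, 6 * (g : ℝ) * Real.exp (-((g : ℝ) ^ (4 * β) / 2)) ≤ 1 / 20 := by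
    have h := (tendsto_rpow_mul_exp_neg_mul_atTop_nhds_zero (1 / (4 * β)) (1 / 2) (by norm_num)).comp
      (hpow (4 * β) (by positivity))
    have h2 : ∀ᶠ g : ℕ in atTop, ((g : ℝ) ^ (4 * β)) ^ (1 / (4 * β)) *
        Real.exp (-(1 / 2) * (g : ℝ) ^ (4 * β)) < 1 / 120 :=
      (tendsto_order.1 h).2 _ (by norm_num)
    filter_upwards [h2] with g hg
    have e : ((g : ℝ) ^ (4 * β)) ^ (1 / (4 * β)) = g := by
      rw [← Real.rpow_mul (Nat.cast_nonneg g), mul_one_div_cancel (by positivity), Real.rpow_one]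
    rw [e] at hg
    have e' : -(1 / 2) * (g : ℝ) ^ (4 * β) = -((g : ℝ) ^ (4 * β) / 2) := by ring
    rw [e'] at hg
    linarith
  have e2 : ∀ᶠ g : ℕ in atTop, (Real.exp 1 * (1 + √Real.pi)) ^ (2 / β) ≤ (g : ℝ) / 10 := by
    filter_upwards [hcast.eventually_ge_atTop (10 * (Real.exp 1 * (1 + √Real.pi)) ^ (2 / β))] with g hg
    linarith
  have e3 : ∀ᶠ g : ℕ in atTop, Real.log g ≤ (g : ℝ) ^ (2 * β) / 2 := by
    have h := (isLittleO_log_rpow_atTop (show 0 < 2 * β by positivity)).bound (show (0 : ℝ) < 1 / 2 by norm_num)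
    filter_upwards [hcast.eventually h] with g hg
    have h1 := (le_abs_self _).trans hg
    rw [Real.norm_of_nonneg (by positivity)] at h1
    linarith
  have e4 := (hpow (2 * β) (by positivity)).eventually_ge_atTop (2 * Real.log 10)
  have e5 := (hpow β hβ).eventually_gt_atTop 2
  have e6 := (hpow β hβ).eventually_ge_atTop (Real.exp 1 * (1 + √Real.pi))
  have e7 := (hpow (4 * β) (by positivity)).eventually_ge_atTop 2
  obtain ⟨g₀, h⟩ := eventually_atTop.1 (e1.and (e2.and (e3.and (e4.and (e5.and (e6.and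
    (e7.and (eventually_ge_atTop 1))))))))
  refine ⟨g₀, fun g hg => ?_⟩
  obtain ⟨h1, h2, h3, h4, h5, h6, h7, h8⟩ := h g hg
  exact ⟨h8, h1, h2, h3, h4, h5, h6, h7⟩

/-- TNUM -/
theorem two_digit_num_pr (β : ℝ) (hβ : 0 < β) (hβ' : β ≤ 1 / 8) :
    ∃ g₀ : ℕ, ∀ g n p : ℕ, g₀ ≤ g → 2 / β ≤ n → p.Prime → (g : ℝ) ^ β ≤ p →
      (p : ℝ) ^ 2 * n ≤ (g : ℝ) ^ (1 - 4 * β) →
      p ≠ 2 ∧ (p : ℝ) ^ 2 * n ≤ g ∧
      (1 + 6 * Real.exp (-((g / n) / (2 * p ^ 2) : ℝ))) ^ n ≤ 2 ∧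
      Th p (g / n) ^ n + (Th p (g / (2 * n)) ^ (2 * n) - 1) / p +
      ((p : ℝ) ^ 2 * ((Real.exp 1 * (1 + p * √(Real.pi * (g : ℝ) ^ (-(2 * β))))) / p) ^ n *
        Th p (g / n) ^ n + (Th p (g / (2 * n)) ^ (2 * n) - 1)) +
      2 * (p : ℝ) ^ n * Real.exp (-(g * (g : ℝ) ^ (-(2 * β)) / p ^ 2)) ≤ 4 := by
  obtain ⟨g₀, hg₀⟩ := TNUM_ev β hβ
  refine ⟨g₀, fun g n p hg hn hp hgp hpn => ?_⟩
  obtain ⟨h1, hE, hK, hlog, h10, h2, hK1, hy2⟩ := hg₀ g hg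
  have hg1 : (1 : ℝ) ≤ g := by exact_mod_cast h1
  have hg0 : (0 : ℝ) < g := by linarith
  have hp2 : (2 : ℝ) < p := lt_of_lt_of_le h2 hgp
  have hp0 : (0 : ℝ) < p := by linarith
  have hpne : p ≠ 2 := by
    rintro rfl
    norm_num at hp2
  have hodd : Odd p := hp.odd_of_ne_two hpne
  have hn16 : (16 : ℝ) ≤ n := by
    have : (16 : ℝ) ≤ 2 / β := by
      rw [le_div_iff₀ hβ]
      linarith
    linarith
  have hn0 : (0 : ℝ) < n := by linarith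
  obtain ⟨y, hy⟩ : ∃ y, y = (g : ℝ) ^ (4 * β) := ⟨_, rfl⟩
  have hgy : (g : ℝ) ^ (1 - 4 * β) * y = g := by
    rw [hy, ← Real.rpow_add hg0, sub_add_cancel, Real.rpow_one]
  have hy0 : 0 < y := by rw [hy]; positivity
  rw [← hy] at hy2 hE
  have hpny : (p : ℝ) ^ 2 * n * y ≤ g := by
    rw [← hgy]
    exact mul_le_mul_of_nonneg_right hpn hy0.le
  have hpn0 : 0 < (p : ℝ) ^ 2 * n := by positivity
  have hpng : (p : ℝ) ^ 2 * n ≤ g := by
    calc (p : ℝ) ^ 2 * n = (p : ℝ) ^ 2 * n * 1 := (mul_one _).symm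
      _ ≤ (p : ℝ) ^ 2 * n * y := by gcongr; linarith
      _ ≤ g := hpny
  have h1p2 : (1 : ℝ) ≤ (p : ℝ) ^ 2 := one_le_pow₀ (by linarith)
  have hng : (n : ℝ) ≤ g := by
    calc (n : ℝ) = 1 * n := (one_mul _).symm
      _ ≤ (p : ℝ) ^ 2 * n := by gcongr
      _ ≤ g := hpng
  -- g/n >= p^2 y
  have hs1 : (p : ℝ) ^ 2 * y ≤ g / n := by
    rw [le_div_iff₀ hn0]
    linarith
  have hs2 : (p : ℝ) ^ 2 * (y / 2) ≤ g / (2 * n) := by
    rw [le_div_iff₀ (by positivity)]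
    linarith
  -- the common small exponential
  obtain ⟨E, hEd⟩ : ∃ E, E = Real.exp (-(y / 2)) := ⟨_, rfl⟩
  rw [← hEd] at hE
  have hE0 : 0 < E := by rw [hEd]; positivity
  have hnE : 6 * (n : ℝ) * E ≤ 1 / 20 := by
    have : 6 * (n : ℝ) * E ≤ 6 * g * E := by gcongr
    linarith
  have hexp20 : Real.exp (1 / 20) ≤ 11 / 10 := by
    have h := Real.exp_bound_div_one_sub_of_interval' (x := 1 / 20) (by norm_num) (by norm_num)
    have : (1 : ℝ) / (1 - 1 / 20) ≤ 11 / 10 := by norm_num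
    linarith
  have hpow20 : ∀ (x : ℝ) (m : ℕ), 0 ≤ x → (m : ℝ) * x ≤ 1 / 20 → (1 + x) ^ m ≤ 11 / 10 := by
    intro x m hx hm
    calc (1 + x) ^ m ≤ Real.exp x ^ m := by
          gcongr
          linarith [Real.add_one_le_exp x]
      _ = Real.exp (m * x) := by rw [← Real.exp_nat_mul]
      _ ≤ Real.exp (1 / 20) := Real.exp_le_exp.2 hm
      _ ≤ 11 / 10 := hexp20
  have hp2pos : (0 : ℝ) < (p : ℝ) ^ 2 := by positivity
  -- T1
  have hT1 : (1 + 6 * Real.exp (-((g / n) / (2 * p ^ 2) : ℝ))) ^ n ≤ 11 / 10 := by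
    have h : Real.exp (-((g / n) / (2 * p ^ 2) : ℝ)) ≤ E := by
      rw [hEd]
      apply Real.exp_le_exp.2
      apply neg_le_neg
      rw [le_div_iff₀ (by positivity)]
      linarith
    refine hpow20 _ n (by positivity) ?_
    calc (n : ℝ) * (6 * Real.exp (-((g / n) / (2 * p ^ 2) : ℝ))) ≤ n * (6 * E) := by gcongr
      _ = 6 * n * E := by ring
      _ ≤ 1 / 20 := hnE
  have hTh0 : ∀ s : ℝ, 0 ≤ Th p s := by
    intro s
    unfold Th ThS
    exact Finset.sum_nonneg fun u _ => Real.rpow_nonneg (abs_nonneg _) _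
  -- T2
  have hc1 : (p : ℝ) ^ 2 ≤ (g : ℝ) / n := by
    calc (p : ℝ) ^ 2 = (p : ℝ) ^ 2 * 1 := (mul_one _).symm
      _ ≤ (p : ℝ) ^ 2 * y := by gcongr; linarith
      _ ≤ g / n := hs1
  have hc2 : (p : ℝ) ^ 2 ≤ (g : ℝ) / (2 * n) := by
    calc (p : ℝ) ^ 2 = (p : ℝ) ^ 2 * 1 := (mul_one _).symm
      _ ≤ (p : ℝ) ^ 2 * (y / 2) := by gcongr; linarith
      _ ≤ g / (2 * n) := hs2
  have hp2y : 0 < (p : ℝ) ^ 2 * y := by positivity
  have hTh1 : Th p (g / n) ≤ 1 + 3 * E := by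
    refine (th_big p hodd _ hc1).trans ?_
    have : Real.exp (-(4 * ((g : ℝ) / n) / p ^ 2)) ≤ E := by
      rw [hEd]
      apply Real.exp_le_exp.2
      apply neg_le_neg
      rw [le_div_iff₀ hp2pos]
      linarith
    linarith
  have hTh2 : Th p (g / (2 * n)) ≤ 1 + 3 * E := by
    refine (th_big p hodd _ hc2).trans ?_
    have : Real.exp (-(4 * ((g : ℝ) / (2 * n)) / p ^ 2)) ≤ E := by
      rw [hEd]
      apply Real.exp_le_exp.2
      apply neg_le_neg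
      rw [le_div_iff₀ hp2pos]
      linarith
    linarith
  have hT2 : Th p (g / n) ^ n ≤ 11 / 10 := by
    refine (pow_le_pow_left₀ (hTh0 _) hTh1 n).trans (hpow20 _ n (by positivity) ?_)
    calc (n : ℝ) * (3 * E) ≤ 6 * n * E := by linarith [mul_pos hn0 hE0]
      _ ≤ 1 / 20 := hnE
  have hT3 : Th p (g / (2 * n)) ^ (2 * n) ≤ 11 / 10 := by
    refine (pow_le_pow_left₀ (hTh0 _) hTh2 (2 * n)).trans (hpow20 _ (2 * n) (by positivity) ?_)
    push_cast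
    calc (2 * (n : ℝ)) * (3 * E) = 6 * n * E := by ring
      _ ≤ 1 / 20 := hnE
  have hp2g : (p : ℝ) ^ 2 ≤ g := by
    calc (p : ℝ) ^ 2 = (p : ℝ) ^ 2 * 1 := (mul_one _).symm
      _ ≤ (p : ℝ) ^ 2 * n := by gcongr; linarith
      _ ≤ g := hpng
  have hpg : (p : ℝ) ≤ g := by
    calc (p : ℝ) = p * 1 := (mul_one _).symm
      _ ≤ p * p := by gcongr; linarith
      _ = (p : ℝ) ^ 2 := by ring
      _ ≤ g := hp2g
  -- T4
  have hgβ : (0 : ℝ) < (g : ℝ) ^ β := by positivity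
  have hsq : √(Real.pi * (g : ℝ) ^ (-(2 * β))) = √Real.pi * (g : ℝ) ^ (-β) := by
    rw [Real.sqrt_mul Real.pi_pos.le]
    congr 1
    have : (g : ℝ) ^ (-(2 * β)) = ((g : ℝ) ^ (-β)) ^ 2 := by
      rw [← Real.rpow_natCast, ← Real.rpow_mul hg0.le]
      congr 1
      push_cast
      ring
    rw [this, Real.sqrt_sq (by positivity)]
  have hT4 : (p : ℝ) ^ 2 * ((Real.exp 1 * (1 + p * √(Real.pi * (g : ℝ) ^ (-(2 * β))))) / p) ^ n ≤ 1 / 10 := by
    rw [hsq]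
    obtain ⟨K, hKd⟩ : ∃ K, K = Real.exp 1 * (1 + √Real.pi) := ⟨_, rfl⟩
    rw [← hKd] at hK hK1
    have hK0 : 0 < K := by rw [hKd]; positivity
    obtain ⟨x, hx⟩ : ∃ x, x = K * (g : ℝ) ^ (-β) := ⟨_, rfl⟩
    have hx0 : 0 < x := by rw [hx]; positivity
    have hx1 : x ≤ 1 := by
      rw [hx, Real.rpow_neg hg0.le, ← div_eq_mul_inv, div_le_one hgβ]
      exact hK1
    have hbase : Real.exp 1 * (1 + p * (√Real.pi * (g : ℝ) ^ (-β))) / p ≤ x := by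
      have h1p : 1 / (p : ℝ) ≤ (g : ℝ) ^ (-β) := by
        rw [Real.rpow_neg hg0.le, one_div]
        exact inv_anti₀ hgβ hgp
      have e : Real.exp 1 * (1 + p * (√Real.pi * (g : ℝ) ^ (-β))) / p
          = Real.exp 1 * (1 / p) + Real.exp 1 * √Real.pi * (g : ℝ) ^ (-β) := by
        field_simp
      rw [e, hx, hKd]
      have : Real.exp 1 * (1 / (p : ℝ)) ≤ Real.exp 1 * (g : ℝ) ^ (-β) := by gcongr
      linarith
    have hb0 : 0 ≤ Real.exp 1 * (1 + p * (√Real.pi * (g : ℝ) ^ (-β))) / p := by positivity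
    have hxn : x ^ n ≤ K ^ (2 / β) * ((g : ℝ) ^ (-2 : ℝ)) := by
      have h1 : x ^ n ≤ x ^ (2 / β) := by
        rw [← Real.rpow_natCast]
        exact Real.rpow_le_rpow_of_exponent_ge hx0 hx1 hn
      have h2 : x ^ (2 / β) = K ^ (2 / β) * ((g : ℝ) ^ (-2 : ℝ)) := by
        rw [hx, Real.mul_rpow hK0.le (by positivity), ← Real.rpow_mul hg0.le]
        congr 2
        field_simp
      rw [← h2]
      exact h1
    have hgm2 : (g : ℝ) ^ (-2 : ℝ) = ((g : ℝ) ^ 2)⁻¹ := by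
      rw [Real.rpow_neg hg0.le]
      norm_num
    rw [hgm2] at hxn
    calc (p : ℝ) ^ 2 * (Real.exp 1 * (1 + p * (√Real.pi * (g : ℝ) ^ (-β))) / p) ^ n
        ≤ g * x ^ n := by gcongr
      _ ≤ g * (K ^ (2 / β) * ((g : ℝ) ^ 2)⁻¹) := by gcongr
      _ ≤ g * (g / 10 * ((g : ℝ) ^ 2)⁻¹) := by gcongr
      _ = 1 / 10 := by field_simp
  -- T5
  have hT5 : (p : ℝ) ^ n * Real.exp (-(g * (g : ℝ) ^ (-(2 * β)) / p ^ 2)) ≤ 1 / 10 := by
    obtain ⟨w, hw⟩ : ∃ w, w = (g : ℝ) * (g : ℝ) ^ (-(2 * β)) / p ^ 2 := ⟨_, rfl⟩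
    rw [← hw]
    obtain ⟨z, hz⟩ : ∃ z, z = (g : ℝ) ^ (2 * β) := ⟨_, rfl⟩
    rw [← hz] at hlog h10
    have hz0 : 0 < z := by rw [hz]; positivity
    have hyz : y = z * z := by
      rw [hy, hz, ← Real.rpow_add hg0]
      congr 1
      ring
    have hgz : (g : ℝ) ^ (-(2 * β)) = z⁻¹ := by
      rw [hz, Real.rpow_neg hg0.le]
    have hwz : w * ((p : ℝ) ^ 2 * z) = g := by
      rw [hw, hgz]
      field_simp
    have hw1 : z ≤ w := by
      have h1 : z * ((p : ℝ) ^ 2 * z) ≤ w * ((p : ℝ) ^ 2 * z) := by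
        rw [hwz]
        calc z * ((p : ℝ) ^ 2 * z) = (p : ℝ) ^ 2 * 1 * y := by rw [hyz]; ring
          _ ≤ (p : ℝ) ^ 2 * n * y := by gcongr; linarith
          _ ≤ (g : ℝ) := hpny
      exact le_of_mul_le_mul_right h1 (by positivity)
    have hnlog : (n : ℝ) * Real.log p ≤ w / 2 := by
      have h1 : Real.log p ≤ z / 2 := (Real.log_le_log hp0 hpg).trans hlog
      have h2 : (n : ℝ) * z ≤ w := by
        have h3 : (n : ℝ) * z * ((p : ℝ) ^ 2 * z) ≤ w * ((p : ℝ) ^ 2 * z) := by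
          rw [hwz]
          calc (n : ℝ) * z * ((p : ℝ) ^ 2 * z) = (p : ℝ) ^ 2 * n * y := by rw [hyz]; ring
            _ ≤ (g : ℝ) := hpny
        exact le_of_mul_le_mul_right h3 (by positivity)
      calc (n : ℝ) * Real.log p ≤ n * (z / 2) := by gcongr
        _ = n * z / 2 := by ring
        _ ≤ w / 2 := by linarith
    have hpn : (p : ℝ) ^ n = Real.exp (n * Real.log p) := by
      rw [Real.exp_nat_mul, Real.exp_log hp0]
    rw [hpn, ← Real.exp_add]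
    have : Real.exp (-Real.log 10) = 1 / 10 := by
      rw [Real.exp_neg, Real.exp_log (by norm_num)]
      norm_num
    rw [← this]
    apply Real.exp_le_exp.2
    linarith
  refine ⟨hpne, hpng, hT1.trans (by norm_num), ?_⟩
  have hA : (Th p (g / (2 * n)) ^ (2 * n) - 1) / (p : ℝ) ≤ 1 / 10 := by
    rw [div_le_iff₀ hp0]
    linarith
  have hB : (p : ℝ) ^ 2 * ((Real.exp 1 * (1 + p * √(Real.pi * (g : ℝ) ^ (-(2 * β))))) / p) ^ n *
        Th p (g / n) ^ n ≤ 1 / 10 * (11 / 10) := by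
    apply mul_le_mul hT4 hT2 (pow_nonneg (hTh0 _) _) (by norm_num)
  have hC : 2 * (p : ℝ) ^ n * Real.exp (-(g * (g : ℝ) ^ (-(2 * β)) / p ^ 2)) ≤ 2 / 10 := by
    rw [mul_assoc]
    linarith
  linarith

end Pool.Agent.AAC

namespace Pool.Agent.AAC

alias two_digit_num := Pool.Agent.AAC.two_digit_num_pr

end Pool.Agent.AAC
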