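import Pool.Agent.Lib_helper7.AAC.Basic
import Pool.Agent.Lib_helper7.AAC.FDefs
import Pool.Agent.Lib_helper7.AACF.ASM1
import Pool.Agent.Lib_helper7.AACF.ASM2num
import Pool.Agent.Lib_helper7.AACF.BDim
import Pool.Agent.Lib_helper7.AACF.BRD
import Pool.Agent.Lib_helper7.AACF.BRP
import Pool.Agent.Lib_helper7.AACF.BUP
import Pool.Agent.Lib_helper7.AACF.CASEL
import Pool.Agent.Lib_helper7.AACF.DEG
import Pool.Agent.Lib_helper7.AACF.GAM
import Pool.Agent.Lib_helper7.AACF.IDX
import Pool.Agent.Lib_helper7.AACF.ISA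
import Pool.Agent.Lib_helper7.AACF.N12
import Pool.Agent.Lib_helper7.AACF.ONEC
import Pool.Agent.Lib_helper7.AACF.PRM
import Pool.Agent.Lib_helper7.AACF.TMAIN
import Pool.Agent.Lib_helper7.AACF.TNUM

set_option autoImplicit false
set_option linter.unusedSectionVars false

namespace Pool.Agent.AAC

open Finset

section

variable {G X : Type} [Group G] [Fintype G] [MulAction G X] [Fintype X] {C : Ctx G X}

lemma asm2_dd_le (W : Submodule (RR ℚ G) (MM ℚ C)) : dd W ≤ C.g := by
  rw [← finrank_MM (C := C)]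
  exact LinearMap.finrank_le_finrank_of_injective
    (f := (W.subtype.restrictScalars ℚ)) Subtype.val_injective

lemma asm2_ee_pos {W : Submodule (RR ℚ G) (MM ℚ C)} (hW : IsSimpleModule (RR ℚ G) W) :
    0 < ee W := by
  have : Nontrivial W := IsSimpleModule.nontrivial (RR ℚ G) W
  have : Nontrivial (Module.End (RR ℚ G) W) := inferInstance
  exact Module.finrank_pos (R := ℚ) (M := Module.End (RR ℚ G) W)

lemma asm2_hh_pos {W : Submodule (RR ℚ G) (MM ℚ C)} (hW : IsSimpleModule (RR ℚ G) W) :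
    0 < hh W := by
  have : Nontrivial W := IsSimpleModule.nontrivial (RR ℚ G) W
  have : Nontrivial (W →ₗ[RR ℚ G] MM ℚ C) := by
    refine ⟨W.subtype, 0, fun h => ?_⟩
    obtain ⟨w, hw⟩ := exists_ne (0 : W)
    apply hw
    have := congrArg (fun f : W →ₗ[RR ℚ G] MM ℚ C => f w) h
    exact Subtype.ext this
  exact Module.finrank_pos (R := ℚ) (M := W →ₗ[RR ℚ G] MM ℚ C)

lemma asm2_index_pos (W : Submodule (RR ℚ G) (MM ℚ C)) : 0 < (kr W).index :=
  Nat.pos_of_ne_zero Subgroup.index_ne_zero_of_finite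

end

/-- from the bound for `(p - 1) ^ 2 P` to the bound for `P` -/
lemma asm2_final {g d p P x β : ℝ} (hg : 1 ≤ g) (hd : 1 ≤ d) (hx : x = √(g ^ (1 - 4 * β) / d) / 4)
    (hx2 : 2 ≤ x) (hp : x < p) (hP : (p - 1) ^ 2 * P ≤ 4) (hP0 : 0 ≤ P) :
    P ≤ 256 * d * g ^ (4 * β - 1) := by
  have hg0 : 0 < g := by linarith
  have hpow : 0 < g ^ (1 - 4 * β) := by positivity
  have h1 : x ^ 2 = g ^ (1 - 4 * β) / d / 16 := by
    rw [hx, div_pow, Real.sq_sqrt (by positivity)]
    norm_num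
  have h2 : x / 2 ≤ p - 1 := by linarith
  have h3 : x ^ 2 / 4 ≤ (p - 1) ^ 2 := by
    have : (x / 2) ^ 2 ≤ (p - 1) ^ 2 := pow_le_pow_left₀ (by linarith) h2 2
    calc x ^ 2 / 4 = (x / 2) ^ 2 := by ring
      _ ≤ _ := this
  have h4 : x ^ 2 / 4 * P ≤ 4 := (mul_le_mul_of_nonneg_right h3 hP0).trans hP
  rw [h1] at h4
  have e : g ^ (4 * β - 1) = (g ^ (1 - 4 * β))⁻¹ := by
    rw [← Real.rpow_neg hg0.le]
    congr 1
    ring
  rw [e]
  have h5 : g ^ (1 - 4 * β) / d / 16 / 4 * P = P * (g ^ (1 - 4 * β) / (64 * d)) := by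
    field_simp
    ring
  rw [h5] at h4
  have h6 : P ≤ 4 / (g ^ (1 - 4 * β) / (64 * d)) := by
    rw [le_div_iff₀ (by positivity)]
    exact h4
  refine h6.trans (le_of_eq ?_)
  field_simp
  ring

theorem pb_nonsimple_pr (β : ℝ) (hβ : 0 < β) (hβ' : β ≤ 1 / 16) : ∃ (g₀ : ℕ) (K : ℝ), 0 < K ∧
    ∀ (G X : Type) [Group G] [Fintype G] [MulAction G X] [Fintype X] (C : Ctx G X)
      (W : Submodule (RR ℚ G) (MM ℚ C)), IsSimpleModule (RR ℚ G) W →
      ¬ IsSimpleModule (RR ℚ G) (ic W) → g₀ ≤ C.g → (dd W : ℝ) ≤ (C.g : ℝ) ^ (1 - 7 * β) →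
      PB (ic W) ≤ K * dd W * (C.g : ℝ) ^ (4 * β - 1) := by
  classical
  obtain ⟨x₀, hx₀⟩ := exists_prime_not_dvd
  obtain ⟨g₁, hg₁⟩ := two_digit_num β hβ (by linarith)
  obtain ⟨g₂, hg₂1, hg₂⟩ := asm2_num β x₀ hβ hβ'
  have hD1 : ∀ n : ℕ, ∃ K : ℝ, 0 < K ∧ (2 ≤ n → ∀ (G X : Type) [Group G] [Fintype G]
      [MulAction G X] [Fintype X] (C : Ctx G X) (D : MatRep C n),
      Pr C (fun Φ => (D.Msum Φ).det = 0) ≤ K * (C.g : ℝ) ^ (-1 + 4 * β)) := by
    intro n
    by_cases hn : 2 ≤ n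
    · obtain ⟨K, hK, h⟩ := bounded_dim n hn (4 * β) (by positivity)
      exact ⟨K, hK, fun _ => h⟩
    · exact ⟨1, one_pos, fun h => absurd h hn⟩
  choose Kf hKf hKf' using hD1
  set N : ℕ := ⌈2 / β⌉₊ with hN
  set K₁ : ℝ := ∑ n ∈ range (N + 1), Kf n with hK₁
  have hK₁pos : 0 ≤ K₁ := Finset.sum_nonneg fun n _ => (hKf n).le
  refine ⟨max g₁ g₂, K₁ + 256 + 1, by positivity, ?_⟩
  intro G X _ _ _ _ C W hW hns hgg hdd
  obtain ⟨h1, h2, h3, h4, h5⟩ := hg₂ C.g ((le_max_right _ _).trans hgg)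
  have hgg1 : g₁ ≤ C.g := (le_max_left _ _).trans hgg
  have hg1 : (1 : ℝ) ≤ C.g := by exact_mod_cast C.gpos
  have hg0 : (0 : ℝ) < C.g := by linarith
  have hdpos : 0 < dd W := asm1_pos hW
  have hd1 : (1 : ℝ) ≤ dd W := by exact_mod_cast hdpos
  have hhpos := asm2_hh_pos hW
  have hepos := asm2_ee_pos hW
  have hhle := hh_le W
  have hdg := asm2_dd_le W
  have h2e := two_ee_le hW hns
  have hrp : 0 < (C.g : ℝ) ^ (4 * β - 1) := by positivity
  have hPB0 : 0 ≤ PB (ic W) := asm1_nonneg _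
  by_cases hL : 12 * Real.logb 2 (2 * C.g) * hh W < dd W
  · refine (large_ratio hW hL).trans ?_
    have e1 : 1 / (C.g : ℝ) ^ 2 ≤ (C.g : ℝ) ^ (4 * β - 1) := by
      rw [one_div, ← Real.rpow_natCast, ← Real.rpow_neg hg0.le]
      apply Real.rpow_le_rpow_of_exponent_le hg1
      push_cast
      linarith
    refine e1.trans ?_
    have : 1 ≤ (K₁ + 256 + 1) * dd W := by nlinarith
    nlinarith
  · push Not at hL
    set ν : ℝ := (dd W : ℝ) / hh W with hν
    have hhR : (0 : ℝ) < hh W := by exact_mod_cast hhpos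
    have hν12 : ν ≤ 12 * Real.logb 2 (2 * C.g) := by
      rw [hν, div_le_iff₀ hhR]
      exact hL
    have hlogd0 : 0 ≤ Real.log (dd W) := Real.log_nonneg hd1
    have hlogdg : Real.log (dd W) ≤ Real.log C.g :=
      Real.log_le_log (by linarith) (by exact_mod_cast hdg)
    have hlogg0 : 0 ≤ Real.log (C.g : ℝ) := Real.log_nonneg hg1
    set l : ℕ := ⌊ν * Real.log (dd W)⌋₊ + 1 with hl
    have hlt : ν * Real.log (dd W) < l := by
      rw [hl]
      push_cast
      exact Nat.lt_floor_add_one _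
    have hν0 : 0 ≤ ν := by positivity
    have hlle : (l : ℝ) ≤ 12 * Real.logb 2 (2 * C.g) * Real.log C.g + 1 := by
      rw [hl]
      push_cast
      have e1 := Nat.floor_le (mul_nonneg hν0 hlogd0)
      have e2 : ν * Real.log (dd W) ≤ 12 * Real.logb 2 (2 * C.g) * Real.log C.g := by
        gcongr
        exact hν0.trans hν12
      linarith
    have hidx := index_le hW l hlt
    have hidxpos := asm2_index_pos W
    have hlog2g : 0 ≤ Real.log (2 * C.g) := Real.log_nonneg (by linarith)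
    have hlogidx : Real.log ((kr W).index : ℝ) < (C.g : ℝ) ^ (3 / 2 * β) / 4 := by
      refine lt_of_le_of_lt ?_ h4
      calc Real.log ((kr W).index : ℝ) ≤ Real.log ((2 * (C.g : ℝ)) ^ l) := by
            apply Real.log_le_log (by exact_mod_cast hidxpos)
            exact_mod_cast hidx
        _ = l * Real.log (2 * C.g) := Real.log_pow _ _
        _ ≤ _ := mul_le_mul_of_nonneg_right hlle hlog2g
    set x : ℝ := √((C.g : ℝ) ^ (1 - 4 * β) / dd W) / 4 with hx
    have hxge : (C.g : ℝ) ^ (3 / 2 * β) / 4 ≤ x := by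
      rw [hx]
      apply div_le_div_of_nonneg_right _ (by norm_num)
      apply Real.le_sqrt_of_sq_le
      rw [le_div_iff₀ (by linarith), ← Real.rpow_natCast, ← Real.rpow_mul hg0.le]
      calc (C.g : ℝ) ^ (3 / 2 * β * (2 : ℕ)) * dd W ≤
          (C.g : ℝ) ^ (3 / 2 * β * (2 : ℕ)) * (C.g : ℝ) ^ (1 - 7 * β) := by gcongr
        _ = (C.g : ℝ) ^ (1 - 4 * β) := by
          rw [← Real.rpow_add hg0]
          congr 1
          push_cast
          ring
    have hx2 : 2 ≤ x := (h3.trans h1).trans hxge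
    obtain ⟨p, hpp, hxp, hp4, hndvd⟩ := hx₀ x (h2.trans hxge) (kr W).index hidxpos
      (hlogidx.trans_le hxge)
    have : Fact p.Prime := ⟨hpp⟩
    have hpR : (0 : ℝ) < p := by linarith
    have hpow1 : 0 < (C.g : ℝ) ^ (1 - 4 * β) := by positivity
    have hp2d : (p : ℝ) ^ 2 * dd W ≤ (C.g : ℝ) ^ (1 - 4 * β) := by
      have e1 : x ^ 2 = (C.g : ℝ) ^ (1 - 4 * β) / dd W / 16 := by
        rw [hx, div_pow, Real.sq_sqrt (by positivity)]
        norm_num
      have e2 : (p : ℝ) ^ 2 ≤ (4 * x) ^ 2 := pow_le_pow_left₀ hpR.le hp4 2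
      calc (p : ℝ) ^ 2 * dd W ≤ (4 * x) ^ 2 * dd W := by gcongr
        _ = 16 * x ^ 2 * dd W := by ring
        _ = _ := by
          rw [e1]
          field_simp
    have hpb : (C.g : ℝ) ^ β ≤ p := (h1.trans hxge).trans hxp.le
    have hpne2 : p ≠ 2 := by
      rintro rfl
      push_cast at hxp
      linarith
    have finish : ((p : ℝ) - 1) ^ 2 * PB (ic W) ≤ 4 →
        PB (ic W) ≤ (K₁ + 256 + 1) * dd W * (C.g : ℝ) ^ (4 * β - 1) := by
      intro h
      refine (asm2_final hg1 hd1 hx hx2 hxp h hPB0).trans ?_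
      have : 256 * (dd W : ℝ) ≤ (K₁ + 256 + 1) * dd W := by
        apply mul_le_mul_of_nonneg_right _ (by linarith)
        linarith
      exact mul_le_mul_of_nonneg_right this hrp.le
    by_cases hfull : ee W = 1 ∧ hh W = dd W
    · obtain ⟨he, hhd⟩ := hfull
      obtain ⟨D, b, hcard, hb⟩ := exists_data hW he hhd
      have hPB : PB (ic W) ≤ Pr C (fun Φ => (D.Msum Φ).det = 0) :=
        Pr_mono fun Φ _ h => det_eq_zero hW D b hb Φ h
      by_cases hsmall : (dd W : ℝ) < 2 / β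
      · have hn2 : 2 ≤ dd W := by omega
        refine (hPB.trans (hKf' (dd W) hn2 G X C D)).trans ?_
        have hmem : dd W ∈ range (N + 1) := by
          rw [mem_range]
          have : (dd W : ℝ) ≤ N := hsmall.le.trans (Nat.le_ceil _)
          have : dd W ≤ N := by exact_mod_cast this
          omega
        have hKle : Kf (dd W) ≤ K₁ := Finset.single_le_sum (f := Kf)
          (fun n _ => (hKf n).le) hmem
        have e : (-1 + 4 * β) = 4 * β - 1 := by ring
        rw [e]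
        apply mul_le_mul_of_nonneg_right _ hrp.le
        nlinarith [hKf (dd W)]
      · push Not at hsmall
        apply finish
        obtain ⟨q1, q2, q3, q4⟩ := hg₁ C.g (dd W) p hgg1 hsmall hpp hpb hp2d
        have hsp := span_mod D p (by rw [hcard]; exact hndvd)
        have hA : 0 < (C.g : ℝ) ^ (-(2 * β)) := by positivity
        have := two_digit D hsp q1 q2 q3 ((C.g : ℝ) ^ (-(2 * β))) hA
        exact (mul_le_mul_of_nonneg_left hPB (sq_nonneg _)).trans (this.trans q4)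
    · apply finish
      have hcase : 2 ≤ ee W ∨ hh W < dd W := by omega
      have hone := one_digit' p hW hndvd hcase
      refine hone.trans ?_
      have hdR : (0 : ℝ) < dd W := by linarith
      have hgle : (C.g : ℝ) ^ (1 - 4 * β) ≤ C.g := by
        calc (C.g : ℝ) ^ (1 - 4 * β) ≤ (C.g : ℝ) ^ (1 : ℝ) :=
              Real.rpow_le_rpow_of_exponent_le hg1 (by linarith)
          _ = _ := Real.rpow_one _
      have hs : (p : ℝ) ^ 2 ≤ C.g / dd W := by
        rw [le_div_iff₀ hdR]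
        exact hp2d.trans hgle
      have hodd : Odd p := hpp.odd_of_ne_two hpne2
      have hth := th_big p hodd (C.g / dd W) hs
      have hratio : (C.g : ℝ) ^ (4 * β) ≤ C.g / dd W / p ^ 2 := by
        rw [div_div, le_div_iff₀ (by positivity)]
        calc (C.g : ℝ) ^ (4 * β) * (dd W * p ^ 2) = (C.g : ℝ) ^ (4 * β) * (p ^ 2 * dd W) := by ring
          _ ≤ (C.g : ℝ) ^ (4 * β) * (C.g : ℝ) ^ (1 - 4 * β) := by gcongr
          _ = (C.g : ℝ) ^ (1 : ℝ) := by
            rw [← Real.rpow_add hg0]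
            congr 1
            ring
          _ = _ := Real.rpow_one _
      set E : ℝ := Real.exp (-(4 * (C.g : ℝ) ^ (4 * β))) with hE
      have hE0 : 0 < E := Real.exp_pos _
      have hth2 : Th p (C.g / dd W) ≤ 1 + 3 * E := by
        refine hth.trans ?_
        have : Real.exp (-(4 * (C.g / dd W) / p ^ 2)) ≤ E := by
          rw [hE]
          apply Real.exp_le_exp.2
          have : 4 * (C.g / dd W) / (p : ℝ) ^ 2 = 4 * (C.g / dd W / p ^ 2) := by ring
          rw [this]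
          linarith
        linarith
      have hth0 : 0 ≤ Th p (C.g / dd W) := by
        unfold Th ThS
        exact Finset.sum_nonneg fun u _ => by positivity
      calc Th p (C.g / dd W) ^ dd W ≤ (1 + 3 * E) ^ dd W := pow_le_pow_left₀ hth0 hth2 _
        _ ≤ (Real.exp (3 * E)) ^ dd W := by
          apply pow_le_pow_left₀ (by positivity)
          have := Real.add_one_le_exp (3 * E)
          linarith
        _ = Real.exp (dd W * (3 * E)) := (Real.exp_nat_mul _ _).symm
        _ ≤ Real.exp (Real.log 2) := by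
          apply Real.exp_le_exp.2
          refine le_trans ?_ h5
          have : (dd W : ℝ) ≤ C.g := by exact_mod_cast hdg
          calc (dd W : ℝ) * (3 * E) ≤ C.g * (3 * E) := by gcongr
            _ = 3 * C.g * E := by ring
        _ = 2 := Real.exp_log (by norm_num)
        _ ≤ 4 := by norm_num

end Pool.Agent.AAC

namespace Pool.Agent.AAC

alias pb_nonsimple := Pool.Agent.AAC.pb_nonsimple_pr

end Pool.Agent.AAC
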