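import Pool.Agent.Lib_helper7.AACF.ASM1
import Pool.Agent.Lib_helper7.AACF.ASM2
import Pool.Agent.Lib_helper7.AACF.CASEL
import Pool.Agent.Lib_helper7.AACF.ISA
import Pool.Agent.Lib_helper7.AACF.ISD

set_option autoImplicit false
set_option linter.unusedSectionVars false

namespace Pool.Agent.AAC

open Finset Filter

/-- numerical facts for the sum over the components -/
theorem asm3_num (β : ℝ) (hβ : 0 < β) : ∃ g₀ : ℕ, 1 ≤ g₀ ∧ ∀ g : ℕ, g₀ ≤ g →
    12 * Real.logb 2 (2 * g) ≤ (g : ℝ) ^ (2 * β) := by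
  have hl2 : 0 < Real.log 2 := Real.log_pos (by norm_num)
  have key : ∀ᶠ y : ℝ in atTop, 12 * Real.logb 2 (2 * y) ≤ y ^ (2 * β) := by
    filter_upwards [ev_log_le (2 * β) (Real.log 2 / 24) (by positivity) (by positivity),
      eventually_ge_atTop (2 : ℝ)] with y h1 h2
    have h3 : Real.log (2 * y) ≤ 2 * Real.log y := by
      rw [Real.log_mul (by norm_num) (by positivity)]
      have : Real.log 2 ≤ Real.log y := Real.log_le_log (by norm_num) h2
      linarith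
    unfold Real.logb
    rw [← mul_div_assoc, div_le_iff₀ hl2]
    calc 12 * Real.log (2 * y) ≤ 24 * Real.log y := by linarith
      _ ≤ 24 * (Real.log 2 / 24 * y ^ (2 * β)) := by linarith
      _ = y ^ (2 * β) * Real.log 2 := by ring
  obtain ⟨Y, hY⟩ := eventually_atTop.1 key
  obtain ⟨N, hN⟩ := exists_nat_ge Y
  exact ⟨max N 1, le_max_right _ _, fun g hg =>
    hY g (hN.trans (by exact_mod_cast (le_max_left _ _).trans hg))⟩

section

variable {G X : Type} [Group G] [Fintype G] [MulAction G X] [Fintype X] {C : Ctx G X}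

lemma asm3_eB {W : Submodule (RR ℚ G) (MM ℚ C)} (hW : IsSimpleModule (RR ℚ G) W) :
    eB (ic W) = ee W := by
  unfold eB
  have h1 : {m | ∃ W' ≤ ic W, IsSimpleModule (RR ℚ G) W' ∧
      m = Module.finrank ℚ (Module.End (RR ℚ G) W')} = {ee W} := by
    ext m
    simp only [Set.mem_setOf_eq, Set.mem_singleton_iff]
    constructor
    · rintro ⟨W', h1, h2, rfl⟩
      exact (inv_eq (iso_of_le hW h2 h1)).2.1.symm
    · rintro rfl
      exact ⟨W, Submodule.le_isotypicComponent W, hW, rfl⟩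
  rw [h1, csInf_singleton]

lemma asm3_kk (C : Ctx G X) [DecidablePred fun B : Submodule (RR ℚ G) (MM ℚ C) =>
    IsSimpleModule (RR ℚ G) B] :
    kk C = ∑ B ∈ (comps_finite C).toFinset.filter
      (fun B : Submodule (RR ℚ G) (MM ℚ C) => ¬ IsSimpleModule (RR ℚ G) B), eB B := by
  unfold kk
  rw [← finsum_mem_coe_finset]
  congr 1
  funext B
  have : (B ∈ {B : Submodule (RR ℚ G) (MM ℚ C) |
      B ∈ isotypicComponents (RR ℚ G) (MM ℚ C) ∧ ¬ IsSimpleModule (RR ℚ G) B}) =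
      (B ∈ (↑((comps_finite C).toFinset.filter
        (fun B : Submodule (RR ℚ G) (MM ℚ C) => ¬ IsSimpleModule (RR ℚ G) B)) :
        Set (Submodule (RR ℚ G) (MM ℚ C)))) := by
    simp
  rw [this]

/-- the bound for one component with the dimension replaced by the other invariants -/
lemma asm3_dd {W : Submodule (RR ℚ G) (MM ℚ C)} (hW : IsSimpleModule (RR ℚ G) W)
    (hL : (dd W : ℝ) ≤ 12 * Real.logb 2 (2 * C.g) * hh W) :
    (dd W : ℝ) ^ 2 ≤ 12 * Real.logb 2 (2 * C.g) * (ee W * dd (ic W)) := by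
  have h1 := ic_dim hW
  have h2 : (dd (ic W) : ℝ) * ee W = hh W * dd W := by exact_mod_cast h1
  have h3 : (0 : ℝ) ≤ dd W := Nat.cast_nonneg _
  calc (dd W : ℝ) ^ 2 = dd W * dd W := by ring
    _ ≤ (12 * Real.logb 2 (2 * C.g) * hh W) * dd W := mul_le_mul_of_nonneg_right hL h3
    _ = 12 * Real.logb 2 (2 * C.g) * (hh W * dd W) := by ring
    _ = _ := by rw [← h2]; ring

end

theorem ctx_main_pr (δ : ℝ) (hδ : 0 < δ) : ∃ K : ℝ,
    ∀ (G X : Type) [Group G] [Fintype G] [MulAction G X] [Fintype X] (C : Ctx G X),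
      Pr C (fun Φ => ∃ W : Submodule (RR ℚ G) (MM ℚ C), IsSimpleModule (RR ℚ G) W ∧ Perp Φ W) ≤
        (nc C 1 + 1) / √C.g + 2 * nc C 2 / C.g + K * (C.g : ℝ) ^ δ * √(kk C / C.g) := by
  classical
  set β : ℝ := min (δ / 8) (1 / 16) with hβdef
  have hβ : 0 < β := lt_min (by positivity) (by norm_num)
  have hβ1 : β ≤ 1 / 16 := min_le_right _ _
  have hβδ : 8 * β ≤ δ := by
    have : β ≤ δ / 8 := min_le_left _ _
    linarith
  obtain ⟨g₀, K₀, hK₀, hmain⟩ := pb_nonsimple β hβ hβ1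
  obtain ⟨g₁, hg₁1, hg₁⟩ := asm3_num β hβ
  set g₂ : ℕ := max g₀ g₁ with hg₂
  set K : ℝ := max (1 + K₀) (√g₂) with hK
  have hK1 : 1 ≤ K := by
    rw [hK]
    exact le_max_of_le_left (by linarith)
  have hKK₀ : 1 + K₀ ≤ K := le_max_left _ _
  have hKg : √g₂ ≤ K := le_max_right _ _
  refine ⟨K, ?_⟩
  intro G X _ _ _ _ C
  have hg1 : (1 : ℝ) ≤ C.g := by exact_mod_cast C.gpos
  have hg0 : (0 : ℝ) < C.g := by linarith
  set S := (comps_finite C).toFinset with hS
  have hSmem : ∀ B, B ∈ S ↔ B ∈ isotypicComponents (RR ℚ G) (MM ℚ C) := fun B => by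
    rw [hS, Set.Finite.mem_toFinset]
  -- union bound
  have hunion : Pr C (fun Φ => ∃ W : Submodule (RR ℚ G) (MM ℚ C), IsSimpleModule (RR ℚ G) W ∧
      Perp Φ W) ≤ ∑ B ∈ S, PB B := by
    refine le_trans (Pr_mono ?_) (Pr_union S fun B Φ => ∃ W ≤ B, IsSimpleModule (RR ℚ G) W ∧
      Perp Φ W)
    rintro Φ _ ⟨W, hW, hp⟩
    refine ⟨ic W, (hSmem _).2 ⟨W, hW, rfl⟩, W, Submodule.le_isotypicComponent W, hW, hp⟩
  rw [← Finset.sum_filter_add_sum_filter_not S (fun B => IsSimpleModule (RR ℚ G) B)] at hunion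
  have hsimple := sum_simple (C := C) (S.filter fun B => IsSimpleModule (RR ℚ G) B)
    (fun B hB => ⟨(hSmem B).1 (mem_filter.1 hB).1, (mem_filter.1 hB).2⟩)
  have hkk := asm3_kk C
  rw [← hS] at hkk
  set T := S.filter (fun B : Submodule (RR ℚ G) (MM ℚ C) => ¬ IsSimpleModule (RR ℚ G) B) with hT
  have hTmem : ∀ B ∈ T, B ∈ isotypicComponents (RR ℚ G) (MM ℚ C) ∧
      ¬ IsSimpleModule (RR ℚ G) B := fun B hB =>
    ⟨(hSmem B).1 (mem_filter.1 hB).1, (mem_filter.1 hB).2⟩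
  have hf1 : 0 ≤ (nc C 1 + 1 : ℝ) / √C.g := by positivity
  have hf2 : 0 ≤ (2 * nc C 2 : ℝ) / C.g := by positivity
  -- a simple submodule of every component
  have hex : ∀ B : Submodule (RR ℚ G) (MM ℚ C), ∃ W : Submodule (RR ℚ G) (MM ℚ C),
      B ∈ isotypicComponents (RR ℚ G) (MM ℚ C) → IsSimpleModule (RR ℚ G) W ∧ B = ic W := by
    intro B
    by_cases hB : B ∈ isotypicComponents (RR ℚ G) (MM ℚ C)
    · obtain ⟨W, h1, h2⟩ := hB
      exact ⟨W, fun _ => ⟨h1, h2⟩⟩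
    · exact ⟨⊥, fun h => absurd h hB⟩
  choose r hr using hex
  have heB : ∀ B ∈ T, 1 ≤ eB B := by
    intro B hB
    obtain ⟨h1, h2⟩ := hr B (hTmem B hB).1
    rw [h2, asm3_eB h1]
    exact asm2_ee_pos h1
  have hcardT : (T.card : ℝ) ≤ kk C := by
    have : T.card ≤ kk C := by
      rw [hkk, Finset.card_eq_sum_ones]
      exact Finset.sum_le_sum heB
    exact_mod_cast this
  have hkk0 : (0 : ℝ) ≤ kk C := Nat.cast_nonneg _
  by_cases hk : kk C = 0
  · have hTe : T = ∅ := by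
      have h1 : (T.card : ℝ) ≤ 0 := by
        rw [hk] at hcardT
        exact_mod_cast hcardT
      have h2 : T.card = 0 := by
        have : T.card ≤ 0 := by exact_mod_cast h1
        omega
      exact Finset.card_eq_zero.1 h2
    rw [hTe, Finset.sum_empty, add_zero] at hunion
    have : 0 ≤ K * (C.g : ℝ) ^ δ * √(kk C / C.g) := by positivity
    linarith
  by_cases hbig : 1 ≤ K * (C.g : ℝ) ^ δ * √(kk C / C.g)
  · refine (Pr_le_one _).trans ?_
    linarith
  push Not at hbig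
  have hk1 : (1 : ℝ) ≤ kk C := by exact_mod_cast Nat.one_le_iff_ne_zero.2 hk
  have hgδ : 1 ≤ (C.g : ℝ) ^ δ := Real.one_le_rpow hg1 hδ.le
  -- g is large
  have hlarge : g₂ ≤ C.g := by
    by_contra hlt
    push Not at hlt
    have h1 : √(1 / (g₂ : ℝ)) ≤ √(kk C / C.g) := by
      apply Real.sqrt_le_sqrt
      have : (C.g : ℝ) ≤ g₂ := by exact_mod_cast hlt.le
      gcongr
    have hg2pos : (0 : ℝ) < g₂ := by
      have : (C.g : ℝ) ≤ g₂ := by exact_mod_cast hlt.le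
      linarith
    have h2 : √(g₂ : ℝ) * √(1 / (g₂ : ℝ)) = 1 := by
      rw [← Real.sqrt_mul hg2pos.le, mul_one_div_cancel hg2pos.ne', Real.sqrt_one]
    have h3 : √(g₂ : ℝ) * √(1 / (g₂ : ℝ)) ≤ K * (C.g : ℝ) ^ δ * √(kk C / C.g) := by
      have h4 : √(g₂ : ℝ) ≤ K * (C.g : ℝ) ^ δ := by
        calc √(g₂ : ℝ) ≤ K * 1 := by linarith
          _ ≤ _ := by gcongr
      gcongr
    linarith
  have hg₀' : g₀ ≤ C.g := (le_max_left _ _).trans hlarge
  have hg₁' := hg₁ C.g ((le_max_right _ _).trans hlarge)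
  -- kk is small
  have hkksmall : (kk C : ℝ) ≤ (C.g : ℝ) ^ (1 - 2 * δ) := by
    have h1 : (C.g : ℝ) ^ δ * √(kk C / C.g) ≤ 1 := by
      calc (C.g : ℝ) ^ δ * √(kk C / C.g) = 1 * ((C.g : ℝ) ^ δ * √(kk C / C.g)) := by ring
        _ ≤ K * ((C.g : ℝ) ^ δ * √(kk C / C.g)) := by gcongr
        _ = K * (C.g : ℝ) ^ δ * √(kk C / C.g) := by ring
        _ ≤ 1 := hbig.le
    have h2 : ((C.g : ℝ) ^ δ * √(kk C / C.g)) ^ 2 ≤ 1 := pow_le_one₀ (by positivity) h1
    rw [mul_pow, Real.sq_sqrt (by positivity), ← Real.rpow_natCast, ← Real.rpow_mul hg0.le] at h2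
    have h3 : (C.g : ℝ) ^ (1 - 2 * δ) = C.g / (C.g : ℝ) ^ (δ * (2 : ℕ)) := by
      rw [Real.rpow_sub hg0, Real.rpow_one]
      congr 2
      push_cast
      ring
    rw [h3, le_div_iff₀ (by positivity)]
    calc (kk C : ℝ) * (C.g : ℝ) ^ (δ * (2 : ℕ)) =
        (C.g : ℝ) ^ (δ * (2 : ℕ)) * (kk C / C.g) * C.g := by
          rw [mul_assoc, div_mul_cancel₀ _ hg0.ne', mul_comm]
      _ ≤ 1 * C.g := mul_le_mul_of_nonneg_right h2 hg0.le
      _ = C.g := one_mul _
  have hkkg : (kk C : ℝ) ≤ C.g := by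
    refine hkksmall.trans ?_
    calc (C.g : ℝ) ^ (1 - 2 * δ) ≤ (C.g : ℝ) ^ (1 : ℝ) :=
          Real.rpow_le_rpow_of_exponent_le hg1 (by linarith)
      _ = _ := Real.rpow_one _
  set Λ : ℝ := 12 * Real.logb 2 (2 * C.g) with hΛ
  have hΛ0 : 0 ≤ Λ := by
    rw [hΛ]
    have : 0 ≤ Real.logb 2 (2 * (C.g : ℝ)) := by
      apply Real.logb_nonneg (by norm_num)
      linarith
    positivity
  -- one component
  have hone : ∀ B ∈ T, PB B ≤ 1 / (C.g : ℝ) ^ 2 +
      K₀ * √Λ * (C.g : ℝ) ^ (4 * β - 1) * (√(eB B) * √(dd B)) := by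
    intro B hB
    obtain ⟨h1, h2⟩ := hr B (hTmem B hB).1
    have hns := (hTmem B hB).2
    rw [h2] at hns
    have hnn1 : 0 ≤ 1 / (C.g : ℝ) ^ 2 := by positivity
    have hnn2 : 0 ≤ K₀ * √Λ * (C.g : ℝ) ^ (4 * β - 1) * (√(eB B) * √(dd B)) := by positivity
    by_cases hL : Λ * hh (r B) < dd (r B)
    · have := large_ratio h1 hL
      rw [← h2] at this
      linarith
    · push Not at hL
      have hd2 := asm3_dd h1 hL
      rw [← h2] at hd2
      have he : eB B = ee (r B) := by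
        conv_lhs => rw [h2]
        exact asm3_eB h1
      rw [← he, ← hΛ] at hd2
      have hdd0 : (0 : ℝ) ≤ dd (r B) := Nat.cast_nonneg _
      have hdle : (dd (r B) : ℝ) ≤ √Λ * (√(eB B) * √(dd B)) := by
        rw [← Real.sqrt_mul (Nat.cast_nonneg _), ← Real.sqrt_mul hΛ0]
        exact Real.le_sqrt_of_sq_le hd2
      have hdsmall : (dd (r B) : ℝ) ≤ (C.g : ℝ) ^ (1 - 7 * β) := by
        have e1 : (eB B : ℝ) ≤ kk C := by
          have : eB B ≤ kk C := by
            rw [hkk]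
            exact Finset.single_le_sum (f := fun B => eB B) (fun _ _ => Nat.zero_le _) hB
          exact_mod_cast this
        have e2 : (dd B : ℝ) ≤ C.g := by exact_mod_cast asm2_dd_le B
        have e3 : (dd (r B) : ℝ) ^ 2 ≤ ((C.g : ℝ) ^ (1 - 7 * β)) ^ 2 := by
          calc (dd (r B) : ℝ) ^ 2 ≤ Λ * (eB B * dd B) := hd2
            _ ≤ (C.g : ℝ) ^ (2 * β) * ((C.g : ℝ) ^ (1 - 2 * δ) * C.g) := by
              have := e1.trans hkksmall
              gcongr
            _ ≤ (C.g : ℝ) ^ (2 * β) * ((C.g : ℝ) ^ (1 - 16 * β) * C.g) := by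
              have : (C.g : ℝ) ^ (1 - 2 * δ) ≤ (C.g : ℝ) ^ (1 - 16 * β) :=
                Real.rpow_le_rpow_of_exponent_le hg1 (by linarith)
              gcongr
            _ = ((C.g : ℝ) ^ (1 - 7 * β)) ^ 2 := by
              rw [← Real.rpow_natCast, ← Real.rpow_mul hg0.le]
              nth_rewrite 3 [← Real.rpow_one (C.g : ℝ)]
              rw [← Real.rpow_add hg0, ← Real.rpow_add hg0]
              congr 1
              push_cast
              ring
        exact (pow_le_pow_iff_left₀ hdd0 (by positivity) (by norm_num)).1 e3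
      have h3 := hmain G X C (r B) h1 hns hg₀' hdsmall
      rw [← h2] at h3
      refine h3.trans ?_
      have hrp : 0 ≤ (C.g : ℝ) ^ (4 * β - 1) := by positivity
      calc K₀ * dd (r B) * (C.g : ℝ) ^ (4 * β - 1) ≤
          K₀ * (√Λ * (√(eB B) * √(dd B))) * (C.g : ℝ) ^ (4 * β - 1) := by gcongr
        _ = K₀ * √Λ * (C.g : ℝ) ^ (4 * β - 1) * (√(eB B) * √(dd B)) := by ring
        _ ≤ _ := by linarith
  -- the sum
  have hsumT : ∑ B ∈ T, PB B ≤ K * (C.g : ℝ) ^ δ * √(kk C / C.g) := by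
    refine (Finset.sum_le_sum hone).trans ?_
    rw [Finset.sum_add_distrib, ← Finset.mul_sum, Finset.sum_const, nsmul_eq_mul]
    have hcs : ∑ B ∈ T, √(eB B : ℝ) * √(dd B : ℝ) ≤ √(kk C) * √C.g := by
      refine (Real.sum_sqrt_mul_sqrt_le T (fun B => Nat.cast_nonneg _)
        (fun B => Nat.cast_nonneg _)).trans ?_
      have e1 : ∑ B ∈ T, (eB B : ℝ) = kk C := by rw [hkk]; push_cast; rfl
      have e2 : ∑ B ∈ T, (dd B : ℝ) ≤ C.g := by
        exact_mod_cast comps_sum T fun B hB => (hTmem B hB).1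
      rw [e1]
      gcongr
    have hsq : √(kk C : ℝ) * √C.g = C.g * √(kk C / C.g) := by
      rw [Real.sqrt_div hkk0]
      have : √(C.g : ℝ) * √(C.g : ℝ) = C.g := Real.mul_self_sqrt hg0.le
      have hs0 : √(C.g : ℝ) ≠ 0 := (Real.sqrt_pos.2 hg0).ne'
      field_simp
      rw [sq, this]
    have hΛsq : √Λ ≤ (C.g : ℝ) ^ β := by
      apply Real.sqrt_le_iff.2
      refine ⟨by positivity, ?_⟩
      rw [← Real.rpow_natCast, ← Real.rpow_mul hg0.le]
      refine hg₁'.trans (le_of_eq ?_)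
      congr 1
      push_cast
      ring
    have hrp : 0 ≤ (C.g : ℝ) ^ (4 * β - 1) := by positivity
    have hsqk0 : 0 ≤ √((kk C : ℝ) / C.g) := Real.sqrt_nonneg _
    have part2 : K₀ * √Λ * (C.g : ℝ) ^ (4 * β - 1) * ∑ B ∈ T, √(eB B : ℝ) * √(dd B : ℝ) ≤
        K₀ * (C.g : ℝ) ^ δ * √(kk C / C.g) := by
      calc K₀ * √Λ * (C.g : ℝ) ^ (4 * β - 1) * ∑ B ∈ T, √(eB B : ℝ) * √(dd B : ℝ) ≤
          K₀ * (C.g : ℝ) ^ β * (C.g : ℝ) ^ (4 * β - 1) * (C.g * √(kk C / C.g)) := by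
            rw [← hsq]
            gcongr
        _ = K₀ * ((C.g : ℝ) ^ β * (C.g : ℝ) ^ (4 * β - 1) * (C.g : ℝ) ^ (1 : ℝ)) *
            √(kk C / C.g) := by
            rw [Real.rpow_one]
            ring
        _ = K₀ * (C.g : ℝ) ^ (5 * β) * √(kk C / C.g) := by
            rw [← Real.rpow_add hg0, ← Real.rpow_add hg0]
            congr 3
            ring
        _ ≤ K₀ * (C.g : ℝ) ^ δ * √(kk C / C.g) := by
            have : (C.g : ℝ) ^ (5 * β) ≤ (C.g : ℝ) ^ δ :=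
              Real.rpow_le_rpow_of_exponent_le hg1 (by linarith)
            gcongr
    have part1 : (T.card : ℝ) * (1 / (C.g : ℝ) ^ 2) ≤ (C.g : ℝ) ^ δ * √(kk C / C.g) := by
      have e1 : (T.card : ℝ) * (1 / (C.g : ℝ) ^ 2) ≤ kk C / C.g := by
        rw [mul_one_div, div_le_div_iff₀ (by positivity) hg0]
        calc (T.card : ℝ) * C.g ≤ kk C * C.g := by gcongr
          _ ≤ kk C * (C.g : ℝ) ^ 2 := by
            apply mul_le_mul_of_nonneg_left _ hkk0
            nlinarith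
      have e2 : (kk C : ℝ) / C.g ≤ √(kk C / C.g) := by
        have h01 : (kk C : ℝ) / C.g ≤ 1 := (div_le_one hg0).2 hkkg
        have h00 : 0 ≤ (kk C : ℝ) / C.g := by positivity
        apply Real.le_sqrt_of_sq_le
        nlinarith
      calc _ ≤ (kk C : ℝ) / C.g := e1
        _ ≤ √(kk C / C.g) := e2
        _ = 1 * √(kk C / C.g) := by ring
        _ ≤ _ := by gcongr
    calc _ ≤ (C.g : ℝ) ^ δ * √(kk C / C.g) + K₀ * (C.g : ℝ) ^ δ * √(kk C / C.g) :=
          add_le_add part1 part2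
      _ = (1 + K₀) * ((C.g : ℝ) ^ δ * √(kk C / C.g)) := by ring
      _ ≤ K * ((C.g : ℝ) ^ δ * √(kk C / C.g)) := by
        apply mul_le_mul_of_nonneg_right hKK₀ (by positivity)
      _ = _ := by ring
  linarith

end Pool.Agent.AAC

namespace Pool.Agent.AAC

alias ctx_main := Pool.Agent.AAC.ctx_main_pr

end Pool.Agent.AAC
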