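import Pool.Agent.Lib_helper7.AAC.Basic
import Pool.Agent.Lib_helper7.AACF.IDX

set_option autoImplicit false
set_option linter.unusedSectionVars false

/-!
# QF1: components of dimension one
-/

namespace Pool.Agent.AAC

open Finset

variable {G X : Type} [Group G] [Fintype G] [MulAction G X] [Fintype X] {C : Ctx G X}

namespace QF1Aux

/-- a generator of a submodule of dimension one -/
theorem gen {B : Submodule (RR ℚ G) (MM ℚ C)} (h1 : dd B = 1) : ∃ f : MM ℚ C, f ∈ B ∧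
    (∀ w ∈ B, ∃ a : ℚ, w = a • f) ∧ (∀ x, toFn ℚ C f x ≠ 0) ∧
    ∀ y : G, (y ∈ kr B ∧ ∀ x, toFn ℚ C f (y • x) = toFn ℚ C f x) ∨
      (y ∉ kr B ∧ ∀ x, toFn ℚ C f (y • x) = - toFn ℚ C f x) := by
  obtain ⟨⟨f, hf⟩, hf0, hgen⟩ := finrank_eq_one_iff'.1 h1
  have hf0' : f ≠ 0 := fun h => hf0 (Subtype.ext h)
  have hgen' : ∀ w ∈ B, ∃ a : ℚ, w = a • f := by
    intro w hw
    obtain ⟨a, ha⟩ := hgen ⟨w, hw⟩
    exact ⟨a, (congrArg Subtype.val ha).symm⟩
  have hne : ∃ x, toFn ℚ C f x ≠ 0 := by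
    by_contra h
    push Not at h
    exact hf0' (toFn_inj (by ext x; rw [h, map_zero]; rfl))
  obtain ⟨x1, hx1⟩ := hne
  -- the character
  have hchi : ∀ y : G, ∃ a : ℚ, (a = 1 ∨ a = -1) ∧ ∀ x, toFn ℚ C f (y • x) = a * toFn ℚ C f x := by
    intro y
    obtain ⟨a, ha⟩ := hgen' (MonoidAlgebra.of ℚ G y⁻¹ • f) (B.smul_mem _ hf)
    have h2 : ∀ x, toFn ℚ C f (y • x) = a * toFn ℚ C f x := by
      intro x
      have h3 := toFn_of y⁻¹ f x
      rw [inv_inv, ha, map_smul, Pi.smul_apply, smul_eq_mul] at h3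
      exact h3.symm
    refine ⟨a, ?_, h2⟩
    have h4 : ∀ (m : ℕ) (x : X), toFn ℚ C f (y ^ m • x) = a ^ m * toFn ℚ C f x := by
      intro m
      induction m with
      | zero => intro x; simp
      | succ m ih =>
        intro x
        rw [pow_succ, mul_smul, ih, h2, pow_succ, mul_assoc]
    have h5 := h4 (Fintype.card G) x1
    rw [pow_card_eq_one, one_smul] at h5
    have h6 : a ^ Fintype.card G = 1 := by
      have h7 : (a ^ Fintype.card G - 1) * toFn ℚ C f x1 = 0 := by rw [sub_mul, ← h5]; ring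
      exact sub_eq_zero.1 ((mul_eq_zero.1 h7).resolve_right hx1)
    have h8 : |a| ^ Fintype.card G = 1 := by rw [← abs_pow, h6, abs_one]
    have h9 : |a| = 1 := (pow_eq_one_iff_of_nonneg (abs_nonneg a) Fintype.card_ne_zero).1 h8
    exact (abs_eq zero_le_one).1 h9
  have hnz : ∀ x, toFn ℚ C f x ≠ 0 := by
    intro x hx
    obtain ⟨y, rfl⟩ := C.tr x x1
    obtain ⟨a, _, ha⟩ := hchi y
    rw [ha, hx, mul_zero] at hx1
    exact hx1 rfl
  refine ⟨f, hf, hgen', hnz, fun y => ?_⟩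
  obtain ⟨a, ha1, ha⟩ := hchi y
  have hyk : y ∈ kr B ↔ a = 1 := by
    constructor
    · intro h
      have h2 := h f hf
      have h3 := toFn_of y f (y • x1)
      rw [h2, inv_smul_smul, ha] at h3
      have h7 : (a - 1) * toFn ℚ C f x1 = 0 := by rw [sub_mul, h3]; ring
      exact sub_eq_zero.1 ((mul_eq_zero.1 h7).resolve_right hx1)
    · intro h v hv
      obtain ⟨b, rfl⟩ := hgen' v hv
      apply toFn_inj
      ext x
      rw [toFn_of, map_smul, Pi.smul_apply, Pi.smul_apply]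
      have h3 := ha (y⁻¹ • x)
      rw [smul_inv_smul, h, one_mul] at h3
      rw [h3]
  rcases ha1 with rfl | rfl
  · exact Or.inl ⟨hyk.2 rfl, fun x => by rw [ha, one_mul]⟩
  · exact Or.inr ⟨fun h => absurd (hyk.1 h) (by norm_num), fun x => by rw [ha, neg_one_mul]⟩

end QF1Aux

/-- QF1: components of dimension one -/
theorem dim_one {B : Submodule (RR ℚ G) (MM ℚ C)} (h1 : dd B = 1) :
    (kr B).index = 2 ∧ C.z ∉ kr B ∧ ∀ (x : X) (y : G), y • x = x → y ∈ kr B := by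
  obtain ⟨f, hf, _, hnz, hchi⟩ := QF1Aux.gen h1
  obtain ⟨x0⟩ : Nonempty X := by
    rw [← Fintype.card_pos_iff, C.card]
    have := C.gpos
    omega
  have hself : ∀ a : ℚ, a ≠ 0 → a ≠ -a := by
    intro a ha h
    apply ha
    linarith
  have hz : C.z ∉ kr B := by
    intro h
    rcases hchi C.z with ⟨_, h2⟩ | ⟨h2, _⟩
    · have h3 := h2 x0
      rw [C.hz, toFn_odd] at h3
      exact hself _ (hnz x0) h3.symm
    · exact h2 h
  have hz' : ∀ x, toFn ℚ C f (C.z • x) = - toFn ℚ C f x := by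
    intro x
    rw [C.hz, toFn_odd]
  refine ⟨?_, hz, ?_⟩
  · rw [Subgroup.index_eq_two_iff]
    refine ⟨C.z, fun b => ?_⟩
    rcases hchi b with ⟨hb, hb'⟩ | ⟨hb, hb'⟩
    · refine Or.inr ⟨hb, fun h => hz ?_⟩
      have := (kr B).mul_mem ((kr B).inv_mem hb) h
      rwa [inv_mul_cancel_left] at this
    · refine Or.inl ⟨?_, hb⟩
      rcases hchi (b * C.z) with ⟨h, _⟩ | ⟨_, h⟩
      · exact h
      · exfalso
        have h3 := h x0
        rw [mul_smul, hb', hz', neg_neg] at h3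
        exact hself _ (hnz x0) h3
  · intro x y hy
    rcases hchi y with ⟨h, _⟩ | ⟨_, h⟩
    · exact h
    · exfalso
      have h3 := h x
      rw [hy] at h3
      exact hself _ (hnz x) h3

theorem kr_inj {B B' : Submodule (RR ℚ G) (MM ℚ C)} (h1 : dd B = 1) (h1' : dd B' = 1)
    (h : kr B = kr B') : B = B' := by
  obtain ⟨f, hf, hgen, hnz, hchi⟩ := QF1Aux.gen h1
  obtain ⟨f', hf', hgen', hnz', hchi'⟩ := QF1Aux.gen h1'
  obtain ⟨x0⟩ : Nonempty X := by
    rw [← Fintype.card_pos_iff, C.card]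
    have := C.gpos
    omega
  have key : f' = (toFn ℚ C f' x0 / toFn ℚ C f x0) • f := by
    apply toFn_inj
    ext x
    rw [map_smul, Pi.smul_apply, smul_eq_mul]
    obtain ⟨y, rfl⟩ := C.tr x0 x
    rcases hchi y with ⟨ha, ha'⟩ | ⟨ha, ha'⟩
    · rcases hchi' y with ⟨hb, hb'⟩ | ⟨hb, hb'⟩
      · rw [ha', hb', div_mul_cancel₀ _ (hnz x0)]
      · rw [h] at ha
        exact absurd ha hb
    · rcases hchi' y with ⟨hb, hb'⟩ | ⟨hb, hb'⟩
      · rw [h] at ha
        exact absurd hb ha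
      · rw [ha', hb', mul_neg, div_mul_cancel₀ _ (hnz x0)]
  set a := toFn ℚ C f' x0 / toFn ℚ C f x0 with ha
  have ha0 : a ≠ 0 := div_ne_zero (hnz' x0) (hnz x0)
  have hsm : ∀ (D : Submodule (RR ℚ G) (MM ℚ C)) (b : ℚ) (w : MM ℚ C), w ∈ D → b • w ∈ D := by
    intro D b w hw
    rw [← one_smul (RR ℚ G) w, ← smul_assoc]
    exact D.smul_mem _ hw
  apply le_antisymm
  · intro w hw
    obtain ⟨b, rfl⟩ := hgen w hw
    have : f = a⁻¹ • f' := by rw [key, smul_smul, inv_mul_cancel₀ ha0, one_smul]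
    rw [this]
    exact hsm _ _ _ (hsm _ _ _ hf')
  · intro w hw
    obtain ⟨b, rfl⟩ := hgen' w hw
    rw [key]
    exact hsm _ _ _ (hsm _ _ _ hf)

end Pool.Agent.AAC
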