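import Pool.Agent.Lib_helper7.AAC.Basic
import Pool.Agent.Lib_helper7.AAC.FDefs
import Pool.Agent.Lib_helper7.AACF.IDX
import Pool.Agent.Lib_helper7.AACF.QF1

set_option autoImplicit false
set_option linter.unusedSectionVars false

/-!
# QF2: the components of dimension one come from imaginary quadratic subfields
-/

namespace Pool.Agent.AAC

open Finset

section field

open NumberField Pool.Agent.CMT

namespace QF2Aux

variable {K L : Type} [Field K] [NumberField K] [Field L] [NumberField L]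

theorem finite_sub : Finite (IntermediateField ℚ K) :=
  Field.finite_intermediateField_of_exists_primitive_element ℚ K
    (Field.exists_primitive_element ℚ K)

/-- the field attached to a subgroup -/
noncomputable def fld (s : K →ₐ[ℚ] L) (J : Subgroup Gal(L/ℚ)) : IntermediateField ℚ K :=
  (IntermediateField.fixedField J).comap s

theorem mem_fld (s : K →ₐ[ℚ] L) (J : Subgroup Gal(L/ℚ)) (x : K) :
    x ∈ fld s J ↔ s x ∈ IntermediateField.fixedField J := Iff.rfl

variable [IsGalois ℚ L]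

theorem fixed_le (s : K →ₐ[ℚ] L) (J : Subgroup Gal(L/ℚ))
    (hJ : ∀ y : Gal(L/ℚ), (y : L →ₐ[ℚ] L).comp s = s → y ∈ J) :
    IntermediateField.fixedField J ≤ s.fieldRange := by
  have h1 : s.fieldRange.fixingSubgroup ≤ J := by
    intro y hy
    apply hJ
    rw [IntermediateField.mem_fixingSubgroup_iff] at hy
    ext x
    exact hy _ ⟨x, rfl⟩
  have := IntermediateField.fixedField_le h1
  rwa [IsGalois.fixedField_fixingSubgroup] at this

theorem map_fld (s : K →ₐ[ℚ] L) (J : Subgroup Gal(L/ℚ))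
    (hJ : ∀ y : Gal(L/ℚ), (y : L →ₐ[ℚ] L).comp s = s → y ∈ J) :
    (fld s J).map s = IntermediateField.fixedField J := by
  ext x
  constructor
  · rintro ⟨y, hy, rfl⟩
    exact hy
  · intro hx
    obtain ⟨y, rfl⟩ := fixed_le s J hJ hx
    exact ⟨y, hx, rfl⟩

theorem finrank_fld (s : K →ₐ[ℚ] L) (J : Subgroup Gal(L/ℚ))
    (hJ : ∀ y : Gal(L/ℚ), (y : L →ₐ[ℚ] L).comp s = s → y ∈ J) :
    Module.finrank ℚ (fld s J) = J.index := by
  have h1 : Module.finrank ℚ (fld s J) = Module.finrank ℚ (IntermediateField.fixedField J) := by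
    rw [← map_fld s J hJ]
    exact (IntermediateField.equivMap (fld s J) s).toLinearEquiv.finrank_eq
  have h2 : Module.finrank (IntermediateField.fixedField J) L = Nat.card J :=
    IntermediateField.finrank_fixedField_eq_card J
  have h3 := Module.finrank_mul_finrank ℚ (IntermediateField.fixedField J) L
  have h4 : Nat.card Gal(L/ℚ) = Module.finrank ℚ L := IsGalois.card_aut_eq_finrank ℚ L
  have h5 := Subgroup.card_mul_index J
  rw [h2, ← h4, ← h5, mul_comm] at h3
  rw [h1]
  exact Nat.eq_of_mul_eq_mul_left (Nat.card_pos (α := J)) h3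

theorem fld_inj (s : K →ₐ[ℚ] L) (J J' : Subgroup Gal(L/ℚ))
    (hJ : ∀ y : Gal(L/ℚ), (y : L →ₐ[ℚ] L).comp s = s → y ∈ J)
    (hJ' : ∀ y : Gal(L/ℚ), (y : L →ₐ[ℚ] L).comp s = s → y ∈ J')
    (h : fld s J = fld s J') : J = J' := by
  have h1 : IntermediateField.fixedField J = IntermediateField.fixedField J' := by
    rw [← map_fld s J hJ, ← map_fld s J' hJ', h]
  rw [← IntermediateField.fixingSubgroup_fixedField J, h1,
    IntermediateField.fixingSubgroup_fixedField]

theorem not_real [IsCMField K] [Algebra K L] {z : Gal(L/ℚ)}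
    (hz : ∀ s : K →ₐ[ℚ] L, (z : L →ₐ[ℚ] L).comp s = cj s) (s : K →ₐ[ℚ] L)
    (J : Subgroup Gal(L/ℚ))
    (hJ : ∀ y : Gal(L/ℚ), (y : L →ₐ[ℚ] L).comp s = s → y ∈ J) (hzJ : z ∉ J) :
    ¬ IsTotallyReal (fld s J) := by
  intro hreal
  apply hzJ
  have hsub : IsTotallyReal (fld s J).toSubfield := hreal
  have hfix : ∀ x ∈ fld s J, conjK K x = x := by
    intro x hx
    rw [conjK_apply, IsCMField.complexConj_eq_self_iff]
    exact IsTotallyReal.le_maximalRealSubfield (fld s J).toSubfield hx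
  rw [← IntermediateField.fixingSubgroup_fixedField J,
    IntermediateField.mem_fixingSubgroup_iff]
  intro y hy
  obtain ⟨x, rfl⟩ := fixed_le s J hJ hy
  have hx : x ∈ fld s J := hy
  have h1 := congrArg (fun f : K →ₐ[ℚ] L => f x) (hz s)
  have h2 : cj s x = s x := by rw [cj_apply, hfix x hx]
  exact h1.trans h2

end QF2Aux

open QF2Aux in
/-- QF2 -/
theorem numComp_one_le (K L : Type) [Field K] [NumberField K] [IsCMField K] [Field L]
    [NumberField L] [Algebra K L] [IsGalois ℚ L] : numComp K L 1 ≤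
      Nat.card {F : IntermediateField ℚ K // Module.finrank ℚ F = 2 ∧ ¬ IsTotallyReal F} := by
  classical
  let _ := galAct K L
  obtain ⟨z, hz⟩ := CMN.exists_z (K := K) (L := L)
  obtain ⟨O, hOc⟩ := Large.exists_half (S := K →ₐ[ℚ] L) cj cj_cj cj_ne
  have hcardO := card_half (S := K →ₐ[ℚ] L) cj cj_cj O hOc
  have hK : Module.finrank ℚ K = 2 * O.card := by
    rw [← card_emb (K := K) (L := L)]
    exact hcardO
  have hg : 0 < O.card := by
    have := Module.finrank_pos (R := ℚ) (M := K)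
    omega
  rw [← nc_fctx hg hK hz 1]
  set C := fctx (L := L) hg hK hz with hC
  let s0 : K →ₐ[ℚ] L := IsScalarTower.toAlgHom ℚ K L
  have hfin : Finite (IntermediateField ℚ K) := finite_sub
  unfold nc
  rw [← Nat.card_coe_set_eq]
  have hst : ∀ B : Submodule (RR ℚ Gal(L/ℚ)) (MM ℚ C), dd B = 1 →
      ∀ y : Gal(L/ℚ), (y : L →ₐ[ℚ] L).comp s0 = s0 → y ∈ kr B :=
    fun B hB y hy => (dim_one hB).2.2 s0 y hy
  refine Nat.card_le_card_of_injective
    (fun B => (⟨fld s0 (kr B.1), ?_, ?_⟩ :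
      {F : IntermediateField ℚ K // Module.finrank ℚ F = 2 ∧ ¬ IsTotallyReal F})) ?_
  · rw [finrank_fld s0 _ (hst B.1 B.2.2)]
    exact (dim_one (B := B.1) B.2.2).1
  · exact not_real hz s0 _ (hst B.1 B.2.2) (dim_one (B := B.1) B.2.2).2.1
  · intro B B' h
    have h1 : fld s0 (kr B.1) = fld s0 (kr B'.1) := congrArg Subtype.val h
    exact Subtype.ext (kr_inj B.2.2 B'.2.2
      (fld_inj s0 _ _ (hst B.1 B.2.2) (hst B'.1 B'.2.2) h1))

end field

end Pool.Agent.AAC
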