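import Pool.Agent.Lib_helper7.AACF.ASM3
import Pool.Agent.Lib_helper7.AACF.DEG
import Pool.Agent.Lib_helper7.AACF.QF2

set_option autoImplicit false
set_option linter.unusedSectionVars false

namespace Pool.Agent.AAC

open Finset NumberField Pool.Agent.CMT

theorem final_pr (δ : ℝ) (hδ : 0 < δ) : ∃ c : ℝ,
    ∀ (K L : Type) [Field K] [NumberField K] [IsCMField K] [Field L] [NumberField L]
      [Algebra K L] [IsGalois ℚ L] (g : ℕ), Module.finrank ℚ K = 2 * g →
      (Nat.card {Φ : Finset (K →ₐ[ℚ] L) // IsCMType Φ ∧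
        ¬ (Nondegenerate Φ ∧ HodgeGenerated Φ ∧ TateGenerated Φ)} : ℝ) ≤
      ((Nat.card {F : IntermediateField ℚ K // Module.finrank ℚ F = 2 ∧ ¬ IsTotallyReal F} + 1)
          / √g + 2 * numComp K L 2 / g + c * (g : ℝ) ^ δ * √(multComp K L / g)) *
        Nat.card {Φ : Finset (K →ₐ[ℚ] L) // IsCMType Φ} := by
  classical
  obtain ⟨c, hc⟩ := ctx_main δ hδ
  refine ⟨c, ?_⟩
  intro K L _ _ _ _ _ _ _ g hK
  let _ := galAct K L
  have hg : 0 < g := by
    have := Module.finrank_pos (R := ℚ) (M := K)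
    omega
  obtain ⟨z, hz⟩ := CMN.exists_z (K := K) (L := L)
  set C : Ctx Gal(L/ℚ) (K →ₐ[ℚ] L) := fctx (L := L) hg hK hz with hC
  have hCg : C.g = g := rfl
  have h1 := hc Gal(L/ℚ) (K →ₐ[ℚ] L) C
  rw [hC, nc_fctx hg hK hz, nc_fctx hg hK hz, kk_fctx hg hK hz, ← hC, hCg] at h1
  have h2 := numComp_one_le K L
  have h2R : (numComp K L 1 : ℝ) ≤ Nat.card {F : IntermediateField ℚ K //
      Module.finrank ℚ F = 2 ∧ ¬ IsTotallyReal F} := by exact_mod_cast h2
  rw [card_cmTypes (K := K) (L := L) g hK]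
  have hmem : ∀ Φ : Finset (K →ₐ[ℚ] L), IsCMType Φ ↔ Φ ∈ types C := by
    intro Φ
    show (∀ x, x ∈ Φ ↔ C.c x ∉ Φ) ↔ Φ ∈ types C
    exact mem_types.symm
  -- the bad CM types
  have hbad : (Nat.card {Φ : Finset (K →ₐ[ℚ] L) // IsCMType Φ ∧
      ¬ (Nondegenerate Φ ∧ HodgeGenerated Φ ∧ TateGenerated Φ)} : ℝ) ≤
      Pr C (fun Φ => ∃ W : Submodule (RR ℚ Gal(L/ℚ)) (MM ℚ C),
        IsSimpleModule (RR ℚ Gal(L/ℚ)) W ∧ Perp Φ W) * 2 ^ g := by
    rw [Pr_eq, hCg, div_mul_cancel₀ _ (by positivity)]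
    rw [Nat.card_eq_fintype_card, Fintype.card_subtype]
    have : (univ.filter fun Φ : Finset (K →ₐ[ℚ] L) => IsCMType Φ ∧
        ¬ (Nondegenerate Φ ∧ HodgeGenerated Φ ∧ TateGenerated Φ)) ⊆
        (types C).filter fun Φ => ∃ W : Submodule (RR ℚ Gal(L/ℚ)) (MM ℚ C),
        IsSimpleModule (RR ℚ Gal(L/ℚ)) W ∧ Perp Φ W := by
      intro Φ hΦ
      rw [mem_filter] at hΦ ⊢
      obtain ⟨_, h3, h4⟩ := hΦ
      refine ⟨(hmem Φ).1 h3, ?_⟩
      have h5 : ¬ Nondegenerate Φ := fun h =>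
        h4 ⟨h, hodge_of_nondegenerate h3 h, tate_of_nondegenerate h3 h⟩
      unfold Nondegenerate at h5
      push Not at h5
      obtain ⟨n, hn, s, hs⟩ := h5
      refine deg (C := C) Φ (fun s => (n s : ℚ) - n (cj s)) ?_ ?_ ?_
      · intro h0
        apply hs
        have h6 : (n s : ℚ) - n (cj s) = 0 := congrFun h0 s
        have h7 : (n s : ℚ) = n (cj s) := by linarith
        exact_mod_cast h7.symm
      · intro s
        show (n (cj s) : ℚ) - n (cj (cj s)) = -((n s : ℚ) - n (cj s))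
        rw [cj_cj]
        ring
      · intro τ
        have h6 := hn τ
        rw [Finset.sum_sub_distrib, sub_eq_zero]
        have h7 := congrArg (Int.cast : ℤ → ℚ) h6
        push_cast at h7
        exact h7
    exact_mod_cast card_le_card this
  refine hbad.trans ?_
  push_cast
  apply mul_le_mul_of_nonneg_right _ (by positivity)
  refine h1.trans ?_
  have hg0 : (0 : ℝ) ≤ √g := Real.sqrt_nonneg _
  gcongr

end Pool.Agent.AAC

namespace Pool.Agent.AAC

alias final := Pool.Agent.AAC.final_pr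

end Pool.Agent.AAC
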