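import Pool.Agent.Lib_helper7.AACF.LB
import Pool.Agent.Lib_helper7.AACF.QF2
import Pool.Agent.Lib_helper7.AAC.FDefs

set_option autoImplicit false
set_option linter.unusedSectionVars false

/-!
# Lower bound for the number of the degenerate CM types
-/

open NumberField Pool.Agent.CMT

namespace Pool.Agent.AAC

namespace LBF

variable {K L : Type} [Field K] [NumberField K] [Field L] [NumberField L] [Algebra K L]
  [IsGalois ℚ L]

lemma card_two (E : IntermediateField ℚ K) (hE : Module.finrank ℚ E = 2) :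
    Nat.card (E →ₐ[ℚ] L) = 2 := by
  rw [Nat.card_eq_fintype_card, AlgHom.card_of_splits ℚ E L (fun x => ?_), hE]
  have := splits_of_normal (L := L) (x : K)
  have h2 : minpoly ℚ (x : K) = minpoly ℚ x :=
    minpoly.algHom_eq E.val E.val.injective x
  rwa [h2] at this

/-- in a set with two elements -/
lemma eq_of_ne (E : IntermediateField ℚ K) (hE : Module.finrank ℚ E = 2)
    {a b c : E →ₐ[ℚ] L} (hab : a ≠ b) (hcb : c ≠ b) : a = c := by
  by_contra h
  have h3 := Fintype.two_lt_card_iff.2 ⟨a, b, c, hab, h, hcb.symm⟩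
  rw [Fintype.card_eq_nat_card] at h3
  exact absurd h3 (not_lt.2 (le_of_eq (card_two E hE)))

open Classical in
/-- the sign function of a quadratic subfield -/
noncomputable def sg (E : IntermediateField ℚ K) (s₀ s : K →ₐ[ℚ] L) : ℤ :=
  if s.comp E.val = s₀.comp E.val then 1 else -1

lemma sg_cases (E : IntermediateField ℚ K) (s₀ s : K →ₐ[ℚ] L) : sg E s₀ s = 1 ∨ sg E s₀ s = -1 := by
  unfold sg
  split_ifs
  · exact Or.inl rfl
  · exact Or.inr rfl

lemma sg_self (E : IntermediateField ℚ K) (s₀ : K →ₐ[ℚ] L) : sg E s₀ s₀ = 1 := by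
  unfold sg
  rw [if_pos rfl]

lemma comp_inj (τ : Gal(L/ℚ)) {F : Type} [Field F] [Algebra ℚ F] {a b : F →ₐ[ℚ] L}
    (h : (τ : L →ₐ[ℚ] L).comp a = (τ : L →ₐ[ℚ] L).comp b) : a = b := by
  ext x
  have := congrArg (fun f : F →ₐ[ℚ] L => f x) h
  exact (τ : L →ₐ[ℚ] L).injective this

lemma comp_assoc' (E : IntermediateField ℚ K) (τ : Gal(L/ℚ)) (s : K →ₐ[ℚ] L) :
    ((τ : L →ₐ[ℚ] L).comp s).comp E.val = (τ : L →ₐ[ℚ] L).comp (s.comp E.val) := rfl

/-- `τ` fixes the restriction of `s₀` -/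
lemma sg_fix (E : IntermediateField ℚ K) (s₀ s : K →ₐ[ℚ] L) (τ : Gal(L/ℚ))
    (h : ((τ : L →ₐ[ℚ] L).comp s₀).comp E.val = s₀.comp E.val) :
    sg E s₀ ((τ : L →ₐ[ℚ] L).comp s) = sg E s₀ s := by
  unfold sg
  have : ((τ : L →ₐ[ℚ] L).comp s).comp E.val = s₀.comp E.val ↔ s.comp E.val = s₀.comp E.val := by
    constructor
    · intro h1
      rw [← h, comp_assoc', comp_assoc'] at h1
      exact comp_inj τ h1
    · intro h1
      rw [comp_assoc', h1, ← comp_assoc', h]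
  by_cases h2 : s.comp E.val = s₀.comp E.val
  · rw [if_pos h2, if_pos (this.2 h2)]
  · rw [if_neg h2, if_neg (fun h3 => h2 (this.1 h3))]

/-- `τ` does not fix the restriction of `s₀` -/
lemma sg_move (E : IntermediateField ℚ K) (hE : Module.finrank ℚ E = 2) (s₀ s : K →ₐ[ℚ] L)
    (τ : Gal(L/ℚ)) (h : ((τ : L →ₐ[ℚ] L).comp s₀).comp E.val ≠ s₀.comp E.val) :
    sg E s₀ ((τ : L →ₐ[ℚ] L).comp s) = - sg E s₀ s := by
  unfold sg
  by_cases h1 : s.comp E.val = s₀.comp E.val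
  · have h2 : ((τ : L →ₐ[ℚ] L).comp s).comp E.val ≠ s₀.comp E.val := by
      rw [comp_assoc', h1, ← comp_assoc']
      exact h
    rw [if_pos h1, if_neg h2]
  · have h2 : ((τ : L →ₐ[ℚ] L).comp s).comp E.val = s₀.comp E.val := by
      have h3 : ((τ : L →ₐ[ℚ] L).comp s).comp E.val ≠ ((τ : L →ₐ[ℚ] L).comp s₀).comp E.val := by
        intro h4
        rw [comp_assoc', comp_assoc'] at h4
        exact h1 (comp_inj τ h4)
      exact eq_of_ne E hE h3 h.symm
    rw [if_neg h1, if_pos h2]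
    norm_num

lemma exists_tau (E E' : IntermediateField ℚ K) (hE : Module.finrank ℚ E = 2)
    (hE' : Module.finrank ℚ E' = 2) (hne : E ≠ E') (s₀ : K →ₐ[ℚ] L) :
    ∃ τ : Gal(L/ℚ), ((τ : L →ₐ[ℚ] L).comp s₀).comp E.val = s₀.comp E.val ∧
      ((τ : L →ₐ[ℚ] L).comp s₀).comp E'.val ≠ s₀.comp E'.val := by
  by_contra hcon
  push Not at hcon
  apply hne
  have h1 : (E.map s₀).fixingSubgroup ≤ (E'.map s₀).fixingSubgroup := by
    intro τ hτ
    rw [IntermediateField.mem_fixingSubgroup_iff] at hτ ⊢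
    have h2 := hcon τ (by
      ext x
      exact hτ _ ⟨x, x.2, rfl⟩)
    rintro _ ⟨x, hx, rfl⟩
    exact congrArg (fun f : E' →ₐ[ℚ] L => f ⟨x, hx⟩) h2
  have h2 : E'.map s₀ ≤ E.map s₀ := by
    have := IntermediateField.fixedField_le h1
    rwa [IsGalois.fixedField_fixingSubgroup, IsGalois.fixedField_fixingSubgroup] at this
  have h3 : E' ≤ E := by
    intro x hx
    obtain ⟨y, hy, hxy⟩ := h2 ⟨x, hx, rfl⟩
    have : y = x := s₀.injective hxy
    rw [← this]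
    exact hy
  symm
  apply IntermediateField.eq_of_le_of_finrank_eq h3
  rw [hE, hE']

lemma sum_mul_eq_zero (E E' : IntermediateField ℚ K) (hE : Module.finrank ℚ E = 2)
    (hE' : Module.finrank ℚ E' = 2) (hne : E ≠ E') (s₀ : K →ₐ[ℚ] L) :
    ∑ s : K →ₐ[ℚ] L, sg E s₀ s * sg E' s₀ s = 0 := by
  let _ := galAct K L
  obtain ⟨τ, h1, h2⟩ := exists_tau E E' hE hE' hne s₀
  have h3 : ∑ s : K →ₐ[ℚ] L, sg E s₀ s * sg E' s₀ s =
      ∑ s : K →ₐ[ℚ] L, sg E s₀ ((τ : L →ₐ[ℚ] L).comp s) * sg E' s₀ ((τ : L →ₐ[ℚ] L).comp s) :=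
    (Equiv.sum_comp (MulAction.toPerm τ : Equiv.Perm (K →ₐ[ℚ] L))
      (fun s => sg E s₀ s * sg E' s₀ s)).symm
  have h4 : ∑ s : K →ₐ[ℚ] L, sg E s₀ ((τ : L →ₐ[ℚ] L).comp s) *
      sg E' s₀ ((τ : L →ₐ[ℚ] L).comp s) = - ∑ s : K →ₐ[ℚ] L, sg E s₀ s * sg E' s₀ s := by
    rw [← Finset.sum_neg_distrib]
    refine Finset.sum_congr rfl fun s _ => ?_
    rw [sg_fix E s₀ s τ h1, sg_move E' hE' s₀ s τ h2]
    ring
  have h5 := h3.trans h4
  linarith

variable [IsCMField K]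

lemma exists_conj (E : IntermediateField ℚ K) (hE : ¬ IsTotallyReal E) :
    ∃ x ∈ E, conjK K x ≠ x := by
  by_contra h
  push Not at h
  apply hE
  have h1 : E.toSubfield ≤ maximalRealSubfield K := by
    intro x hx
    rw [← IsCMField.complexConj_eq_self_iff, ← conjK_apply]
    exact h x hx
  exact isTotallyReal_iff_le_maximalRealSubfield.2 h1

lemma sg_odd (E : IntermediateField ℚ K) (hE : Module.finrank ℚ E = 2) (hEr : ¬ IsTotallyReal E)
    (s₀ s : K →ₐ[ℚ] L) : sg E s₀ (cj s) = - sg E s₀ s := by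
  have hne : ∀ s : K →ₐ[ℚ] L, s.comp E.val ≠ (cj s).comp E.val := by
    intro s h
    obtain ⟨x, hx, hx'⟩ := exists_conj E hEr
    have h1 := congrArg (fun f : E →ₐ[ℚ] L => f ⟨x, hx⟩) h
    have h2 : s x = s (conjK K x) := h1
    exact hx' (s.injective h2).symm
  unfold sg
  by_cases h1 : s.comp E.val = s₀.comp E.val
  · rw [if_pos h1, if_neg]
    intro h2
    exact hne s (h1.trans h2.symm)
  · rw [if_neg h1, if_pos]
    · norm_num
    · exact eq_of_ne E hE (hne s).symm (Ne.symm h1)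

/-- a CM type on which the sum of the sign function vanishes is degenerate -/
lemma degenerate (E : IntermediateField ℚ K) (hE : Module.finrank ℚ E = 2)
    (hEr : ¬ IsTotallyReal E) (s₀ : K →ₐ[ℚ] L) (Φ : Finset (K →ₐ[ℚ] L))
    (h : ∑ s ∈ Φ, sg E s₀ s = 0) : ¬ Nondegenerate Φ := by
  intro hn
  have h1 := hn (sg E s₀) (fun τ => by
    have h2 : ∑ s ∈ Φ, sg E s₀ ((τ : L →ₐ[ℚ] L).comp s) = 0 := by
      by_cases hτ : ((τ : L →ₐ[ℚ] L).comp s₀).comp E.val = s₀.comp E.val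
      · rw [Finset.sum_congr rfl fun s _ => sg_fix E s₀ s τ hτ, h]
      · rw [Finset.sum_congr rfl fun s _ => sg_move E hE s₀ s τ hτ, Finset.sum_neg_distrib, h,
          neg_zero]
    have h3 : ∑ s ∈ Φ, sg E s₀ ((τ : L →ₐ[ℚ] L).comp (s.comp (conjK K))) =
        - ∑ s ∈ Φ, sg E s₀ ((τ : L →ₐ[ℚ] L).comp s) := by
      rw [← Finset.sum_neg_distrib]
      exact Finset.sum_congr rfl fun s _ => sg_odd E hE hEr s₀ ((τ : L →ₐ[ℚ] L).comp s)
    rw [h3, h2, neg_zero]) s₀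
  have h2 : sg E s₀ (s₀.comp (conjK K)) = - sg E s₀ s₀ := sg_odd E hE hEr s₀ s₀
  rw [h2, sg_self] at h1
  norm_num at h1

end LBF

open LBF in
/-- lower bound for the number of the degenerate CM types -/
theorem card_degenerate_ge (K L : Type) [Field K] [NumberField K] [IsCMField K] [Field L]
    [NumberField L] [Algebra K L] [IsGalois ℚ L] (g : ℕ) (hK : Module.finrank ℚ K = 2 * g)
    (hg : Even g) :
    (Nat.card {F : IntermediateField ℚ K // Module.finrank ℚ F = 2 ∧ ¬ IsTotallyReal F} : ℝ) /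
      (√(2 * g) + 4 *
        Nat.card {F : IntermediateField ℚ K // Module.finrank ℚ F = 2 ∧ ¬ IsTotallyReal F}) *
      Nat.card {Φ : Finset (K →ₐ[ℚ] L) // IsCMType Φ} ≤
      Nat.card {Φ : Finset (K →ₐ[ℚ] L) // IsCMType Φ ∧ ¬ Nondegenerate Φ} := by
  classical
  let _ := galAct K L
  have hgp : 0 < g := by
    have := Module.finrank_pos (R := ℚ) (M := K)
    omega
  obtain ⟨z, hz⟩ := CMN.exists_z (K := K) (L := L)
  set C : Ctx Gal(L/ℚ) (K →ₐ[ℚ] L) := fctx (L := L) hgp hK hz with hC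
  have hCg : C.g = g := rfl
  have hfin : Finite (IntermediateField ℚ K) := QF2Aux.finite_sub
  have := Fintype.ofFinite {F : IntermediateField ℚ K // Module.finrank ℚ F = 2 ∧
    ¬ IsTotallyReal F}
  let s₀ : K →ₐ[ℚ] L := IsScalarTower.toAlgHom ℚ K L
  have h := lower_bound C (Finset.univ : Finset {F : IntermediateField ℚ K //
      Module.finrank ℚ F = 2 ∧ ¬ IsTotallyReal F}) (fun F s => sg F.1 s₀ s)
    (fun F _ s => sg_cases F.1 s₀ s) (fun F _ s => sg_odd F.1 F.2.1 F.2.2 s₀ s)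
    (fun F _ F' _ hne => sum_mul_eq_zero F.1 F'.1 F.2.1 F'.2.1
      (fun h => hne (Subtype.ext h)) s₀) hg
  rw [Finset.card_univ, ← Nat.card_eq_fintype_card, hCg] at h
  rw [card_cmTypes (K := K) (L := L) g hK]
  push_cast
  refine (mul_le_mul_of_nonneg_right h (by positivity)).trans ?_
  rw [Pr_eq, hCg, div_mul_cancel₀ _ (by positivity)]
  rw [Nat.card_eq_fintype_card (α := {Φ : Finset (K →ₐ[ℚ] L) // IsCMType Φ ∧ ¬ Nondegenerate Φ}),
    Fintype.card_subtype]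
  have : (types C).filter (fun Φ => ∃ F ∈ (Finset.univ : Finset {F : IntermediateField ℚ K //
      Module.finrank ℚ F = 2 ∧ ¬ IsTotallyReal F}), ∑ s ∈ Φ, sg F.1 s₀ s = 0) ⊆
      (Finset.univ.filter fun Φ : Finset (K →ₐ[ℚ] L) => IsCMType Φ ∧ ¬ Nondegenerate Φ) := by
    intro Φ hΦ
    rw [Finset.mem_filter] at hΦ ⊢
    obtain ⟨h1, F, _, h2⟩ := hΦ
    exact ⟨Finset.mem_univ _, mem_types.1 h1, degenerate F.1 F.2.1 F.2.2 s₀ Φ h2⟩
  exact_mod_cast Finset.card_le_card this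

end Pool.Agent.AAC
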