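import Pool.Agent.Lib_helper7.AAC.Basic

set_option autoImplicit false
set_option linter.unusedSectionVars false

/-!
# The module of the odd functions in terms of subspaces of functions: abstract part
-/

namespace Pool.Agent.AAC

namespace TR

variable {G X : Type} [Group G] [Fintype G] [MulAction G X] [Fintype X] {C : Ctx G X}

/-- stable space of odd functions -/
def Odd (C : Ctx G X) (W : Submodule ℚ (X → ℚ)) : Prop :=
  ∀ f ∈ W, (∀ x, f (C.c x) = - f x) ∧ ∀ y : G, (fun x => f (y • x)) ∈ W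

/-- irreducible -/
def Irr (C : Ctx G X) (W : Submodule ℚ (X → ℚ)) : Prop :=
  Odd C W ∧ W ≠ ⊥ ∧ ∀ W' ≤ W, Odd C W' → W' = ⊥ ∨ W' = W

/-- commutes with `G` -/
def Comm (G : Type) [Group G] [MulAction G X] (T : (X → ℚ) →ₗ[ℚ] (X → ℚ)) : Prop :=
  ∀ (y : G) f, T (fun x => f (y • x)) = fun x => T f (y • x)

/-- isotypic component -/
def Cmp (C : Ctx G X) (B : Submodule ℚ (X → ℚ)) : Prop :=
  ∃ W, Irr C W ∧ B = Submodule.span ℚ {f | ∃ T, Comm G T ∧ ∃ w ∈ W, f = T w}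

/-- orbit of the endomorphism algebra -/
def Orb (G : Type) [Group G] [MulAction G X] (W : Submodule ℚ (X → ℚ)) (w : X → ℚ) :
    Submodule ℚ (X → ℚ) :=
  Submodule.span ℚ {f | ∃ T, Comm G T ∧ (∀ v ∈ W, T v ∈ W) ∧ f = T w}

/-- the space of functions of a submodule -/
noncomputable def sp (W : Submodule (RR ℚ G) (MM ℚ C)) : Submodule ℚ (X → ℚ) :=
  (W.restrictScalars ℚ).map (toFn ℚ C)

lemma mem_sp {W : Submodule (RR ℚ G) (MM ℚ C)} {f : X → ℚ} :
    f ∈ sp W ↔ ∃ w ∈ W, toFn ℚ C w = f := Iff.rfl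

lemma toFn_mem_sp {W : Submodule (RR ℚ G) (MM ℚ C)} {v : MM ℚ C} :
    toFn ℚ C v ∈ sp W ↔ v ∈ W := by
  rw [mem_sp]
  constructor
  · rintro ⟨w, hw, h⟩
    rwa [← toFn_inj h]
  · intro h
    exact ⟨v, h, rfl⟩

lemma sp_le {W W' : Submodule (RR ℚ G) (MM ℚ C)} : sp W ≤ sp W' ↔ W ≤ W' := by
  constructor
  · intro h v hv
    exact toFn_mem_sp.1 (h (toFn_mem_sp.2 hv))
  · rintro h f ⟨w, hw, rfl⟩
    exact ⟨w, h hw, rfl⟩

lemma sp_inj : Function.Injective (sp : Submodule (RR ℚ G) (MM ℚ C) → Submodule ℚ (X → ℚ)) :=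
  fun _ _ h => le_antisymm (sp_le.1 h.le) (sp_le.1 h.ge)

lemma sp_bot : sp (⊥ : Submodule (RR ℚ G) (MM ℚ C)) = ⊥ := by
  rw [Submodule.eq_bot_iff]
  rintro f ⟨w, hw, rfl⟩
  have : w = 0 := hw
  rw [this, map_zero]

lemma sp_odd (W : Submodule (RR ℚ G) (MM ℚ C)) : Odd C (sp W) := by
  rintro f ⟨w, hw, rfl⟩
  refine ⟨toFn_odd w, fun y => ⟨MonoidAlgebra.of ℚ G y⁻¹ • w, W.smul_mem _ hw, ?_⟩⟩
  ext x
  rw [toFn_of, inv_inv]

lemma exists_sp {U : Submodule ℚ (X → ℚ)} (hU : Odd C U) :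
    ∃ W : Submodule (RR ℚ G) (MM ℚ C), sp W = U := by
  refine ⟨mkSub (U.comap (toFn ℚ C)) ?_, ?_⟩
  · intro y v hv
    have h1 := (hU _ hv).2 y⁻¹
    have h2 : toFn ℚ C (MonoidAlgebra.of ℚ G y • v) = fun x => toFn ℚ C v (y⁻¹ • x) := by
      ext x
      rw [toFn_of]
    show toFn ℚ C (MonoidAlgebra.of ℚ G y • v) ∈ U
    rw [h2]
    exact h1
  · ext f
    constructor
    · rintro ⟨w, hw, rfl⟩
      exact hw
    · intro hf
      obtain ⟨v, rfl⟩ := exists_toFn (C := C) (hU f hf).1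
      exact ⟨v, hf, rfl⟩

lemma finrank_sp (W : Submodule (RR ℚ G) (MM ℚ C)) :
    Module.finrank ℚ (sp W) = Module.finrank ℚ W := by
  exact ((Submodule.equivMapOfInjective (toFn ℚ C) toFn_inj
    (W.restrictScalars ℚ)).finrank_eq).symm

lemma simple_iff {W : Submodule (RR ℚ G) (MM ℚ C)} :
    IsSimpleModule (RR ℚ G) W ↔ Irr C (sp W) := by
  rw [isSimpleModule_iff_isAtom]
  constructor
  · intro h
    refine ⟨sp_odd W, ?_, ?_⟩
    · rw [← sp_bot (C := C)]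
      exact fun h' => h.1 (sp_inj h')
    · intro U hU hU'
      obtain ⟨W', rfl⟩ := exists_sp hU'
      rcases eq_or_ne W' W with h1 | h1
      · exact Or.inr (by rw [h1])
      · left
        have h2 : W' < W := lt_of_le_of_ne (sp_le.1 hU) h1
        rw [h.2 _ h2, sp_bot]
  · rintro ⟨_, h1, h2⟩
    refine ⟨fun h => h1 (by rw [h, sp_bot]), fun W' hW' => ?_⟩
    rcases h2 (sp W') (sp_le.2 hW'.le) (sp_odd W') with h3 | h3
    · rw [← sp_bot (C := C)] at h3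
      exact sp_inj h3
    · exact absurd (sp_inj h3) hW'.ne

/-- the odd part of a function -/
lemma exists_op (C : Ctx G X) : ∃ o : (X → ℚ) →ₗ[ℚ] MM ℚ C,
    (∀ f x, toFn ℚ C (o f) x = (f x - f (C.c x)) / 2) ∧ (∀ v, o (toFn ℚ C v) = v) := by
  have h1 : ∀ f : X → ℚ, ∃ v : MM ℚ C, toFn ℚ C v = fun x => (f x - f (C.c x)) / 2 := by
    intro f
    apply exists_toFn
    intro x
    rw [C.cc]
    ring
  choose o ho using h1
  refine ⟨{ toFun := o, map_add' := ?_, map_smul' := ?_ }, fun f x => congrFun (ho f) x, ?_⟩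
  · intro f f'
    apply toFn_inj
    rw [map_add, ho, ho, ho]
    ext x
    simp only [Pi.add_apply]
    ring
  · intro a f
    apply toFn_inj
    rw [map_smul, ho, ho]
    ext x
    simp only [Pi.smul_apply, smul_eq_mul, RingHom.id_apply]
    ring
  · intro v
    apply toFn_inj
    show toFn ℚ C (o (toFn ℚ C v)) = _
    rw [ho]
    ext x
    rw [toFn_odd]
    ring

/-- extension of an endomorphism of the module to all functions -/
lemma extend (φ : MM ℚ C →ₗ[RR ℚ G] MM ℚ C) :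
    ∃ T : (X → ℚ) →ₗ[ℚ] (X → ℚ), Comm G T ∧ ∀ v, T (toFn ℚ C v) = toFn ℚ C (φ v) := by
  obtain ⟨o, ho, ho'⟩ := exists_op C
  refine ⟨(toFn ℚ C) ∘ₗ (φ.restrictScalars ℚ) ∘ₗ o, ?_, ?_⟩
  · intro y f
    have h1 : o (fun x => f (y • x)) = MonoidAlgebra.of ℚ G y⁻¹ • o f := by
      apply toFn_inj
      ext x
      rw [ho, toFn_of, inv_inv, ho, C.cG]
    ext x
    show toFn ℚ C (φ (o (fun x => f (y • x)))) x = toFn ℚ C (φ (o f)) (y • x)
    rw [h1, map_smul, toFn_of, inv_inv]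
  · intro v
    show toFn ℚ C (φ (o (toFn ℚ C v))) = _
    rw [ho']

/-- restriction of a map commuting with the group -/
lemma restrict (C : Ctx G X) {T : (X → ℚ) →ₗ[ℚ] (X → ℚ)} (hT : Comm G T) :
    ∃ φ : MM ℚ C →ₗ[RR ℚ G] MM ℚ C, ∀ v, toFn ℚ C (φ v) = T (toFn ℚ C v) := by
  have h1 : ∀ v : MM ℚ C, ∃ v' : MM ℚ C, toFn ℚ C v' = T (toFn ℚ C v) := by
    intro v
    apply exists_toFn
    intro x
    have h2 := congrFun (hT C.z (toFn ℚ C v)) x
    have h3 : (fun x => toFn ℚ C v (C.z • x)) = - toFn ℚ C v := by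
      ext x
      rw [C.hz, toFn_odd]
      rfl
    rw [h3, map_neg] at h2
    rw [← C.hz]
    exact h2.symm
  choose φ hφ using h1
  refine ⟨{ toFun := φ, map_add' := ?_, map_smul' := ?_ }, hφ⟩
  · intro v v'
    apply toFn_inj
    rw [map_add, hφ, hφ, hφ, map_add, map_add]
  · intro r v
    have hadd : ∀ v v', φ (v + v') = φ v + φ v' := by
      intro v v'
      apply toFn_inj
      rw [map_add, hφ, hφ, hφ, map_add, map_add]
    show φ (r • v) = r • φ v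
    induction r using MonoidAlgebra.induction_on generalizing v with
    | of y =>
      apply toFn_inj
      have h2 := hT y⁻¹ (toFn ℚ C v)
      rw [hφ]
      have h3 : toFn ℚ C (MonoidAlgebra.of ℚ G y • v) = fun x => toFn ℚ C v (y⁻¹ • x) := by
        ext x
        rw [toFn_of]
      rw [h3, h2]
      ext x
      rw [toFn_of, hφ]
    | add a b ha hb => rw [add_smul, hadd, ha, hb, add_smul]
    | smul a b hb =>
      apply toFn_inj
      rw [smul_assoc, hφ, LinearMap.map_smul (toFn ℚ C) a (b • v), LinearMap.map_smul T a, ← hφ,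
        hb, smul_assoc, LinearMap.map_smul (toFn ℚ C) a (b • φ v)]

lemma semisimple (C : Ctx G X) : IsSemisimpleModule (RR ℚ G) (MM ℚ C) := by
  have : NeZero (Nat.card G : ℚ) := ⟨by
    have := Nat.card_pos (α := G)
    positivity⟩
  infer_instance

/-- extension of a map defined on a submodule -/
lemma extend_sub {W : Submodule (RR ℚ G) (MM ℚ C)} (φ : W →ₗ[RR ℚ G] MM ℚ C) :
    ∃ T : (X → ℚ) →ₗ[ℚ] (X → ℚ), Comm G T ∧ ∀ v : W, T (toFn ℚ C v) = toFn ℚ C (φ v) := by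
  have := semisimple C
  obtain ⟨W', hW'⟩ := exists_isCompl W
  obtain ⟨T, hT, hT'⟩ := extend (φ ∘ₗ Submodule.projectionOnto W W' hW')
  refine ⟨T, hT, fun v => ?_⟩
  rw [hT', LinearMap.comp_apply, Submodule.projectionOnto_apply_left]

lemma sp_component {W : Submodule (RR ℚ G) (MM ℚ C)} (hW : IsSimpleModule (RR ℚ G) W) :
    sp (isotypicComponent (RR ℚ G) (MM ℚ C) W) =
      Submodule.span ℚ {f | ∃ T, Comm G T ∧ ∃ w ∈ sp W, f = T w} := by
  apply le_antisymm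
  · -- each summand
    set U := Submodule.span ℚ {f | ∃ T, Comm G T ∧ ∃ w ∈ sp W, f = T w} with hU
    have hUodd : Odd C U := by
      intro f hf
      induction hf using Submodule.span_induction with
      | mem f hf =>
        obtain ⟨T, hT, w, ⟨v, hv, rfl⟩, rfl⟩ := hf
        obtain ⟨φ, hφ⟩ := restrict C hT
        rw [← hφ]
        refine ⟨toFn_odd _, fun y => ?_⟩
        apply Submodule.subset_span
        refine ⟨T, hT, toFn ℚ C (MonoidAlgebra.of ℚ G y⁻¹ • v), ⟨_, W.smul_mem _ hv, rfl⟩, ?_⟩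
        rw [← hφ, map_smul]
        ext x
        rw [toFn_of, inv_inv]
      | zero => exact ⟨fun x => by simp, fun y => U.zero_mem⟩
      | add f f' _ _ h1 h2 =>
        refine ⟨fun x => ?_, fun y => U.add_mem (h1.2 y) (h2.2 y)⟩
        rw [Pi.add_apply, Pi.add_apply, h1.1, h2.1]
        ring
      | smul a f _ h1 =>
        refine ⟨fun x => ?_, fun y => U.smul_mem a (h1.2 y)⟩
        rw [Pi.smul_apply, Pi.smul_apply, h1.1]
        simp
    obtain ⟨W', hW'⟩ := exists_sp hUodd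
    rw [← hW', sp_le]
    apply sSup_le
    rintro m ⟨e⟩
    intro v hv
    rw [← toFn_mem_sp, hW']
    apply Submodule.subset_span
    obtain ⟨T, hT, hT'⟩ := extend_sub (m.subtype ∘ₗ e.symm.toLinearMap)
    refine ⟨T, hT, toFn ℚ C (e ⟨v, hv⟩), ⟨_, (e ⟨v, hv⟩).2, rfl⟩, ?_⟩
    rw [hT']
    simp
  · rw [Submodule.span_le]
    rintro f ⟨T, hT, w, ⟨v, hv, rfl⟩, rfl⟩
    obtain ⟨φ, hφ⟩ := restrict C hT
    rw [← hφ, SetLike.mem_coe, toFn_mem_sp]
    exact W.map_le_isotypicComponent φ ⟨v, hv, rfl⟩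

lemma cmp_iff {B : Submodule ℚ (X → ℚ)} :
    Cmp C B ↔ ∃ B' ∈ isotypicComponents (RR ℚ G) (MM ℚ C), sp B' = B := by
  constructor
  · rintro ⟨U, hU, rfl⟩
    obtain ⟨W, rfl⟩ := exists_sp hU.1
    have hW := simple_iff.2 hU
    exact ⟨_, ⟨W, hW, rfl⟩, sp_component hW⟩
  · rintro ⟨_, ⟨W, hW, rfl⟩, rfl⟩
    exact ⟨sp W, simple_iff.1 hW, sp_component hW⟩

lemma finrank_orb {W : Submodule (RR ℚ G) (MM ℚ C)} (hW : IsSimpleModule (RR ℚ G) W) (w : W)
    (hw : w ≠ 0) : Module.finrank ℚ (Orb G (sp W) (toFn ℚ C w)) =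
      Module.finrank ℚ (Module.End (RR ℚ G) W) := by
  let ev : Module.End (RR ℚ G) W →ₗ[ℚ] (X → ℚ) :=
    { toFun := fun φ => toFn ℚ C (φ w)
      map_add' := fun φ φ' => by
        rw [LinearMap.add_apply, Submodule.coe_add, map_add]
      map_smul' := fun a φ => by
        rw [LinearMap.smul_apply]
        exact LinearMap.map_smul (toFn ℚ C) a (φ w : MM ℚ C) }
  have hev : ∀ φ, ev φ = toFn ℚ C (φ w) := fun φ => rfl
  have hinj : Function.Injective ev := by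
    intro φ ψ h
    have h1 : φ w = ψ w := Subtype.ext (toFn_inj h)
    have h2 : (φ - ψ) w = 0 := by rw [LinearMap.sub_apply, h1, sub_self]
    rcases (φ - ψ).injective_or_eq_zero with h3 | h3
    · exact absurd (h3 (h2.trans (map_zero (φ - ψ)).symm)) hw
    · exact sub_eq_zero.1 h3
  have hrange : Orb G (sp W) (toFn ℚ C w) = LinearMap.range ev := by
    apply le_antisymm
    · unfold Orb
      rw [Submodule.span_le]
      rintro f ⟨T, hT, hTW, rfl⟩
      obtain ⟨φ, hφ⟩ := restrict C hT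
      have h1 : ∀ v ∈ W, φ v ∈ W := by
        intro v hv
        rw [← toFn_mem_sp, hφ]
        exact hTW _ (toFn_mem_sp.2 hv)
      refine ⟨φ.restrict h1, ?_⟩
      rw [hev]
      exact hφ _
    · rintro _ ⟨φ, rfl⟩
      apply Submodule.subset_span
      obtain ⟨T, hT, hT'⟩ := extend_sub (W.subtype ∘ₗ φ)
      refine ⟨T, hT, ?_, ?_⟩
      · rintro _ ⟨v, hv, rfl⟩
        rw [hT' ⟨v, hv⟩]
        exact toFn_mem_sp.2 (φ ⟨v, hv⟩).2
      · rw [hT' w]
        rfl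
  rw [hrange, LinearMap.finrank_range_of_inj hinj]

/-- number of components -/
theorem nc_eq (C : Ctx G X) (m : ℕ) :
    Nat.card {B : Submodule ℚ (X → ℚ) // Cmp C B ∧ Module.finrank ℚ B = m} = nc C m := by
  unfold nc
  rw [← Set.ncard_image_of_injective _ (sp_inj (C := C)), ← Nat.card_coe_set_eq]
  apply Nat.card_congr
  apply Equiv.subtypeEquivRight
  intro B
  rw [cmp_iff]
  constructor
  · rintro ⟨⟨B', h1, rfl⟩, h2⟩
    exact ⟨B', ⟨h1, by rwa [finrank_sp] at h2⟩, rfl⟩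
  · rintro ⟨B', ⟨h1, h2⟩, rfl⟩
    exact ⟨⟨B', h1, rfl⟩, by rwa [finrank_sp]⟩

lemma eB_eq (B : Submodule (RR ℚ G) (MM ℚ C)) :
    sInf {m | ∃ W ≤ sp B, ∃ w ∈ W, Irr C W ∧ w ≠ 0 ∧ m = Module.finrank ℚ (Orb G W w)} = eB B := by
  unfold eB
  congr 1
  ext m
  constructor
  · rintro ⟨U, hU, w, hw, hirr, hw0, rfl⟩
    obtain ⟨W, rfl⟩ := exists_sp hirr.1
    obtain ⟨v, hv, rfl⟩ := hw
    have hs := simple_iff.2 hirr
    have hv0 : (⟨v, hv⟩ : W) ≠ 0 := by
      intro h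
      apply hw0
      have : v = 0 := congrArg Subtype.val h
      rw [this, map_zero]
    exact ⟨W, sp_le.1 hU, hs, finrank_orb hs ⟨v, hv⟩ hv0⟩
  · rintro ⟨W, hW, hs, rfl⟩
    have := IsSimpleModule.nontrivial (RR ℚ G) W
    obtain ⟨w, hw⟩ := exists_ne (0 : W)
    refine ⟨sp W, sp_le.2 hW, toFn ℚ C w, ⟨w, w.2, rfl⟩, simple_iff.1 hs, ?_,
      (finrank_orb hs w hw).symm⟩
    intro h
    apply hw
    apply Subtype.ext
    apply toFn_inj (C := C)
    rw [h]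
    exact (map_zero _).symm

/-- the sum -/
theorem kk_eq (C : Ctx G X) :
    ∑ᶠ B : {B : Submodule ℚ (X → ℚ) // Cmp C B ∧ ¬ Irr C B},
      sInf {m | ∃ W ≤ B.1, ∃ w ∈ W, Irr C W ∧ w ≠ 0 ∧ m = Module.finrank ℚ (Orb G W w)} =
        kk C := by
  unfold kk
  have h1 : {B : Submodule ℚ (X → ℚ) | Cmp C B ∧ ¬ Irr C B} =
      sp '' {B : Submodule (RR ℚ G) (MM ℚ C) | B ∈ isotypicComponents (RR ℚ G) (MM ℚ C) ∧
        ¬ IsSimpleModule (RR ℚ G) B} := by
    ext B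
    constructor
    · rintro ⟨h2, h3⟩
      obtain ⟨B', h4, rfl⟩ := cmp_iff.1 h2
      exact ⟨B', ⟨h4, fun h => h3 (simple_iff.1 h)⟩, rfl⟩
    · rintro ⟨B', ⟨h2, h3⟩, rfl⟩
      exact ⟨cmp_iff.2 ⟨B', h2, rfl⟩, fun h => h3 (simple_iff.2 h)⟩
  have h2 : ∑ᶠ B : {B : Submodule ℚ (X → ℚ) // Cmp C B ∧ ¬ Irr C B},
      sInf {m | ∃ W ≤ B.1, ∃ w ∈ W, Irr C W ∧ w ≠ 0 ∧ m = Module.finrank ℚ (Orb G W w)} =
      ∑ᶠ B ∈ {B : Submodule ℚ (X → ℚ) | Cmp C B ∧ ¬ Irr C B},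
      sInf {m | ∃ W ≤ B, ∃ w ∈ W, Irr C W ∧ w ≠ 0 ∧ m = Module.finrank ℚ (Orb G W w)} :=
    finsum_set_coe_eq_finsum_mem (f := fun B : Submodule ℚ (X → ℚ) =>
      sInf {m | ∃ W ≤ B, ∃ w ∈ W, Irr C W ∧ w ≠ 0 ∧ m = Module.finrank ℚ (Orb G W w)})
      {B : Submodule ℚ (X → ℚ) | Cmp C B ∧ ¬ Irr C B}
  rw [h2, h1, finsum_mem_image (sp_inj (C := C)).injOn]
  exact finsum_mem_congr rfl fun B _ => eB_eq B

end TR

end Pool.Agent.AAC
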