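import Pool.Agent.Lib_helper7.AACF.FIN
import Pool.Agent.Lib_helper7.AACF.LBF
import Pool.Agent.Lib_helper7.AACF.TR
import Pool.Agent.Lib_helper7.AAC.SDefs

set_option autoImplicit false
set_option linter.unusedSectionVars false

namespace Pool.Agent.AAC

open Finset NumberField Pool.Agent.CMT

section comp

variable (K L : Type) [Field K] [NumberField K] [IsCMField K] [Field L] [NumberField L]
  [Algebra K L] [IsGalois ℚ L]

include L in
theorem exists_fctx : ∃ g : ℕ, 0 < g ∧ Module.finrank ℚ K = 2 * g := by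
  classical
  obtain ⟨O, hOc⟩ := Large.exists_half (S := K →ₐ[ℚ] L) cj cj_cj cj_ne
  have hcardO := card_half (S := K →ₐ[ℚ] L) cj cj_cj O hOc
  have hK : Module.finrank ℚ K = 2 * O.card := by
    rw [← card_emb (K := K) (L := L)]
    exact hcardO
  refine ⟨O.card, ?_, hK⟩
  have := Module.finrank_pos (R := ℚ) (M := K)
  omega

theorem numComponents_eq (m : ℕ) : numComponents K L m = numComp K L m := by
  let _ := galAct K L
  obtain ⟨z, hz⟩ := CMN.exists_z (K := K) (L := L)
  obtain ⟨g, hg, hK⟩ := exists_fctx K L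
  exact TR.nc_eq (fctx (L := L) hg hK hz) m

theorem sumEnd_eq : sumEnd K L = multComp K L := by
  let _ := galAct K L
  obtain ⟨z, hz⟩ := CMN.exists_z (K := K) (L := L)
  obtain ⟨g, hg, hK⟩ := exists_fctx K L
  exact TR.kk_eq (fctx (L := L) hg hK hz)

end comp

theorem final2 (δ : ℝ) (hδ : 0 < δ) : ∃ c : ℝ,
    ∀ (K L : Type) [Field K] [NumberField K] [IsCMField K] [Field L] [NumberField L]
      [Algebra K L] [IsGalois ℚ L] (g n : ℕ) (P : ℝ), Module.finrank ℚ K = 2 * g →
      n = Nat.card {F : IntermediateField ℚ K // Module.finrank ℚ F = 2 ∧ ¬ IsTotallyReal F} →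
      P = (Nat.card {Φ : Finset (K →ₐ[ℚ] L) // IsCMType Φ ∧
          ¬ (Nondegenerate Φ ∧ HodgeGenerated Φ ∧ TateGenerated Φ)} : ℝ) /
        Nat.card {Φ : Finset (K →ₐ[ℚ] L) // IsCMType Φ} →
      P ≤ (n + 1) / √g + 2 * numComponents K L 2 / g + c * (g : ℝ) ^ δ * √(sumEnd K L / g) ∧
        (Even g → n / (√(2 * g) + 4 * n) ≤ P) := by
  classical
  obtain ⟨c, hc⟩ := final δ hδ
  refine ⟨c, fun K L _ _ _ _ _ _ _ g n P hK hn hP => ?_⟩
  have hpos : (0 : ℝ) < Nat.card {Φ : Finset (K →ₐ[ℚ] L) // IsCMType Φ} := by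
    rw [card_cmTypes (K := K) (L := L) g hK]
    positivity
  subst hn
  subst hP
  constructor
  · rw [div_le_iff₀ hpos, numComponents_eq, sumEnd_eq]
    exact hc K L g hK
  · intro hg
    rw [le_div_iff₀ hpos]
    refine (card_degenerate_ge K L g hK hg).trans ?_
    rw [Nat.card_eq_fintype_card, Nat.card_eq_fintype_card, Fintype.card_subtype,
      Fintype.card_subtype]
    have : (univ.filter fun Φ : Finset (K →ₐ[ℚ] L) => IsCMType Φ ∧ ¬ Nondegenerate Φ) ⊆
        univ.filter fun Φ : Finset (K →ₐ[ℚ] L) => IsCMType Φ ∧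
          ¬ (Nondegenerate Φ ∧ HodgeGenerated Φ ∧ TateGenerated Φ) := by
      intro Φ hΦ
      rw [mem_filter] at hΦ ⊢
      exact ⟨hΦ.1, hΦ.2.1, fun h => hΦ.2.2 h.1⟩
    exact_mod_cast card_le_card this

end Pool.Agent.AAC
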