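import Pool.Agent.Lib_helper7.AAC.Basic

set_option autoImplicit false
set_option linter.unusedSectionVars false

/-!
# AAC, block GH: the Hölder inequality over the right translates of a set
-/

namespace Pool.Agent.AAC

open Finset

namespace GHBlock

/-- the generalized Hölder inequality with equal exponents -/
theorem holder_eq {ι α : Type} [Fintype ι] [Nonempty ι] [Fintype α] (f : ι → α → ℝ)
    (hf : ∀ i a, 0 ≤ f i a) :
    ∑ a : α, ∏ i : ι, (f i a) ^ (1 / (Fintype.card ι : ℝ)) ≤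
      ∏ i : ι, (∑ a : α, f i a) ^ (1 / (Fintype.card ι : ℝ)) := by
  classical
  have hc : (0 : ℝ) < Fintype.card ι := by exact_mod_cast Fintype.card_pos
  have hS : ∀ i, 0 ≤ ∑ a : α, f i a := fun i => Finset.sum_nonneg fun a _ => hf i a
  by_cases h0 : ∃ i, ∑ a : α, f i a = 0
  · obtain ⟨i, hi⟩ := h0
    have h1 : ∀ a, f i a = 0 := by
      intro a
      exact (Finset.sum_eq_zero_iff_of_nonneg (fun a _ => hf i a)).1 hi a (mem_univ a)
    have h2 : ∀ a : α, ∏ i : ι, (f i a) ^ (1 / (Fintype.card ι : ℝ)) = 0 := by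
      intro a
      apply Finset.prod_eq_zero (mem_univ i)
      rw [h1, Real.zero_rpow]
      positivity
    rw [Finset.sum_congr rfl fun a _ => h2 a]
    simp only [Finset.sum_const_zero]
    exact Finset.prod_nonneg fun i _ => Real.rpow_nonneg (hS i) _
  · push Not at h0
    have hpos : ∀ i, 0 < ∑ a : α, f i a := fun i => lt_of_le_of_ne (hS i) (Ne.symm (h0 i))
    have key : ∀ a : α, ∏ i : ι, (f i a / ∑ b : α, f i b) ^ (1 / (Fintype.card ι : ℝ)) ≤
        ∑ i : ι, 1 / (Fintype.card ι : ℝ) * (f i a / ∑ b : α, f i b) := by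
      intro a
      apply Real.geom_mean_le_arith_mean_weighted
      · intro i _; positivity
      · rw [Finset.sum_const, nsmul_eq_mul, card_univ]
        field_simp
      · intro i _
        exact div_nonneg (hf i a) (hS i)
    have h3 : ∑ a : α, ∏ i : ι, (f i a / ∑ b : α, f i b) ^ (1 / (Fintype.card ι : ℝ)) ≤ 1 := by
      calc ∑ a : α, ∏ i : ι, (f i a / ∑ b : α, f i b) ^ (1 / (Fintype.card ι : ℝ))
          ≤ ∑ a : α, ∑ i : ι, 1 / (Fintype.card ι : ℝ) * (f i a / ∑ b : α, f i b) :=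
            Finset.sum_le_sum fun a _ => key a
        _ = ∑ i : ι, ∑ a : α, 1 / (Fintype.card ι : ℝ) * (f i a / ∑ b : α, f i b) :=
            Finset.sum_comm
        _ = ∑ i : ι, 1 / (Fintype.card ι : ℝ) := by
            apply Finset.sum_congr rfl
            intro i _
            rw [← Finset.mul_sum, ← Finset.sum_div, div_self (h0 i), mul_one]
        _ = 1 := by
            rw [Finset.sum_const, nsmul_eq_mul, card_univ]
            field_simp
    have h4 : ∀ a : α, ∏ i : ι, (f i a) ^ (1 / (Fintype.card ι : ℝ)) =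
        (∏ i : ι, (∑ b : α, f i b) ^ (1 / (Fintype.card ι : ℝ))) *
          ∏ i : ι, (f i a / ∑ b : α, f i b) ^ (1 / (Fintype.card ι : ℝ)) := by
      intro a
      rw [← Finset.prod_mul_distrib]
      apply Finset.prod_congr rfl
      intro i _
      rw [← Real.mul_rpow (hS i) (div_nonneg (hf i a) (hS i)), mul_div_cancel₀ _ (h0 i)]
    rw [Finset.sum_congr rfl fun a _ => h4 a, ← Finset.mul_sum]
    calc _ ≤ (∏ i : ι, (∑ b : α, f i b) ^ (1 / (Fintype.card ι : ℝ))) * 1 := by
          apply mul_le_mul_of_nonneg_left h3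
          exact Finset.prod_nonneg fun i _ => Real.rpow_nonneg (hS i) _
      _ = _ := mul_one _

end GHBlock

/-- GH -/
theorem gh_pr {G α : Type} [Group G] [Fintype G] [Fintype α] (J : Finset G) (hJ : J.Nonempty)
    (F : G → α → ℝ) (hF : ∀ y a, 0 ≤ F y a) (σ : ℝ) (hσ : 0 < σ) :
    ∑ a : α, (∏ y : G, F y a) ^ (σ / Fintype.card G) ≤
      ∏ τ : G, (∑ a : α, (∏ j ∈ J, F (j * τ) a) ^ (σ / J.card)) ^ (1 / (Fintype.card G : ℝ)) := by
  classical
  have hG : (0 : ℝ) < Fintype.card G := by exact_mod_cast Fintype.card_pos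
  have hJc : (0 : ℝ) < J.card := by exact_mod_cast hJ.card_pos
  refine le_trans (le_of_eq ?_) (GHBlock.holder_eq
    (fun (τ : G) (a : α) => (∏ j ∈ J, F (j * τ) a) ^ (σ / J.card)) (fun τ a =>
      Real.rpow_nonneg (Finset.prod_nonneg fun j _ => hF _ _) _))
  apply Finset.sum_congr rfl
  intro a _
  have h1 : ∀ τ : G, ((∏ j ∈ J, F (j * τ) a) ^ (σ / J.card)) ^ (1 / (Fintype.card G : ℝ)) =
      (∏ j ∈ J, F (j * τ) a) ^ (σ / J.card * (1 / (Fintype.card G : ℝ))) := by
    intro τ
    rw [← Real.rpow_mul (Finset.prod_nonneg fun j _ => hF _ _)]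
  rw [Finset.prod_congr rfl fun τ _ => h1 τ,
    Real.finsetProd_rpow _ _ (fun τ _ => Finset.prod_nonneg fun j _ => hF _ _)]
  have h2 : ∏ τ : G, ∏ j ∈ J, F (j * τ) a = (∏ y : G, F y a) ^ J.card := by
    rw [Finset.prod_comm]
    have : ∀ j ∈ J, ∏ τ : G, F (j * τ) a = ∏ y : G, F y a := by
      intro j _
      exact (Group.mulLeft_bijective j).prod_comp (fun y => F y a)
    rw [Finset.prod_congr rfl this, Finset.prod_const]
  rw [h2, ← Real.rpow_natCast, ← Real.rpow_mul (Finset.prod_nonneg fun y _ => hF _ _)]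
  congr 1
  field_simp

end Pool.Agent.AAC

namespace Pool.Agent.AAC

alias gh := Pool.Agent.AAC.gh_pr

end Pool.Agent.AAC
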