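import Pool.Agent.Lib_helper7.AAC.Basic
import Pool.Agent.Lib_helper7.AACF.BIN

set_option autoImplicit false
set_option linter.unusedSectionVars false

/-!
# Lower bound for the proportion of the degenerate CM types
-/

namespace Pool.Agent.AAC

open Finset

variable {G X : Type} [Group G] [MulAction G X] [Fintype X] {C : Ctx G X}

namespace LB

/-- CM types are given by their intersection with a half system -/
lemma card_filter_half [DecidableEq X] {O : Finset X} (hO : ∀ x, x ∈ O ↔ C.c x ∉ O)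
    (P : Finset X → Prop) [DecidablePred P] :
    ((types C).filter fun Φ => P (Φ ∩ O)).card = (O.powerset.filter P).card := by
  refine Finset.card_bij' (fun Φ _ => Φ ∩ O) (fun T _ => CMN.ofHalf C.c O T) ?_ ?_ ?_ ?_
  · intro Φ hΦ
    rw [mem_filter] at hΦ ⊢
    exact ⟨mem_powerset.2 inter_subset_right, hΦ.2⟩
  · intro T hT
    rw [mem_filter, mem_powerset] at hT
    have h1 : CMN.ofHalf C.c O T ∩ O = T := by
      ext s
      rw [mem_inter, CMN.mem_ofHalf C.cc hT.1 hO]
      have h2 : s ∈ T → s ∈ O := fun h => hT.1 h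
      tauto
    rw [mem_filter, mem_types, h1]
    refine ⟨fun s => ?_, hT.2⟩
    rw [CMN.mem_ofHalf C.cc hT.1 hO, CMN.mem_ofHalf C.cc hT.1 hO, C.cc]
    have h1 := hO s
    have h2 : s ∈ T → s ∈ O := fun h => hT.1 h
    have h3 : C.c s ∈ T → C.c s ∈ O := fun h => hT.1 h
    tauto
  · intro Φ hΦ
    rw [mem_filter, mem_types] at hΦ
    ext s
    rw [CMN.mem_ofHalf C.cc inter_subset_right hO]
    have h1 := hO s
    have h2 := hΦ.1 s
    simp only [mem_inter]
    tauto
  · intro T hT
    rw [mem_filter, mem_powerset] at hT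
    ext s
    rw [mem_inter, CMN.mem_ofHalf C.cc hT.1 hO]
    have h2 : s ∈ T → s ∈ O := fun h => hT.1 h
    tauto

/-- the number of subsets with given numbers of elements in two parts -/
lemma card_two_parts [DecidableEq X] {A B : Finset X} (hAB : Disjoint A B) (a b : ℕ) :
    ((A ∪ B).powerset.filter fun T => (T ∩ A).card = a ∧ (T ∩ B).card = b).card =
      A.card.choose a * B.card.choose b := by
  rw [← Finset.card_powersetCard, ← Finset.card_powersetCard, ← Finset.card_product]
  refine Finset.card_bij' (fun T _ => (T ∩ A, T ∩ B)) (fun S _ => S.1 ∪ S.2) ?_ ?_ ?_ ?_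
  · intro T hT
    rw [mem_filter] at hT
    rw [mem_product, mem_powersetCard, mem_powersetCard]
    exact ⟨⟨inter_subset_right, hT.2.1⟩, ⟨inter_subset_right, hT.2.2⟩⟩
  · rintro ⟨S1, S2⟩ hS
    rw [mem_product, mem_powersetCard, mem_powersetCard] at hS
    obtain ⟨⟨h1, h2⟩, ⟨h3, h4⟩⟩ := hS
    have e1 : (S1 ∪ S2) ∩ A = S1 := by
      ext x
      simp only [mem_inter, mem_union]
      constructor
      · rintro ⟨h | h, hA⟩
        · exact h
        · exact absurd (h3 h) (Finset.disjoint_left.1 hAB hA)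
      · intro h
        exact ⟨Or.inl h, h1 h⟩
    have e2 : (S1 ∪ S2) ∩ B = S2 := by
      ext x
      simp only [mem_inter, mem_union]
      constructor
      · rintro ⟨h | h, hB⟩
        · exact absurd hB (Finset.disjoint_left.1 hAB (h1 h))
        · exact h
      · intro h
        exact ⟨Or.inr h, h3 h⟩
    rw [mem_filter, mem_powerset]
    exact ⟨union_subset_union h1 h3, by rw [e1]; exact h2, by rw [e2]; exact h4⟩
  · intro T hT
    rw [mem_filter, mem_powerset] at hT
    show T ∩ A ∪ T ∩ B = T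
    rw [← inter_union_distrib_left]
    exact inter_eq_left.2 hT.1
  · rintro ⟨S1, S2⟩ hS
    rw [mem_product, mem_powersetCard, mem_powersetCard] at hS
    obtain ⟨⟨h1, h2⟩, ⟨h3, h4⟩⟩ := hS
    have e1 : (S1 ∪ S2) ∩ A = S1 := by
      ext x
      simp only [mem_inter, mem_union]
      constructor
      · rintro ⟨h | h, hA⟩
        · exact h
        · exact absurd (h3 h) (Finset.disjoint_left.1 hAB hA)
      · intro h
        exact ⟨Or.inl h, h1 h⟩
    have e2 : (S1 ∪ S2) ∩ B = S2 := by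
      ext x
      simp only [mem_inter, mem_union]
      constructor
      · rintro ⟨h | h, hB⟩
        · exact absurd hB (Finset.disjoint_left.1 hAB (h1 h))
        · exact h
      · intro h
        exact ⟨Or.inr h, h3 h⟩
    show ((S1 ∪ S2) ∩ A, (S1 ∪ S2) ∩ B) = (S1, S2)
    rw [e1, e2]

/-- lower bound for the central binomial coefficient -/
lemma central_lower (m : ℕ) (hm : 1 ≤ m) : 16 ^ m ≤ 4 * m * ((2 * m).choose m) ^ 2 := by
  induction m, hm using Nat.le_induction with
  | base => norm_num [Nat.choose]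
  | succ n hn ih =>
    have h1 := Nat.succ_mul_centralBinom_succ n
    rw [Nat.centralBinom_eq_two_mul_choose, Nat.centralBinom_eq_two_mul_choose] at h1
    set c := (2 * n).choose n
    set c' := (2 * (n + 1)).choose (n + 1)
    -- (n+1) c' = 2 (2n+1) c
    have h2 : ((n + 1) * c') ^ 2 = (2 * (2 * n + 1) * c) ^ 2 := by rw [h1]
    have h3 : 16 ^ (n + 1) * (n + 1) ^ 2 ≤ 4 * (n + 1) * c' ^ 2 * (n + 1) ^ 2 := by
      calc 16 ^ (n + 1) * (n + 1) ^ 2 = 16 * (n + 1) ^ 2 * 16 ^ n := by ring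
        _ ≤ 16 * (n + 1) ^ 2 * (4 * n * c ^ 2) := Nat.mul_le_mul_left _ ih
        _ = 16 * (n + 1) * c ^ 2 * (4 * n * (n + 1)) := by ring
        _ ≤ 16 * (n + 1) * c ^ 2 * (2 * n + 1) ^ 2 := by
          apply Nat.mul_le_mul_left
          nlinarith
        _ = 4 * (n + 1) * (2 * (2 * n + 1) * c) ^ 2 := by ring
        _ = 4 * (n + 1) * ((n + 1) * c') ^ 2 := by rw [h2]
        _ = _ := by ring
    exact Nat.le_of_mul_le_mul_right h3 (by positivity)

/-- the probability that the sum vanishes -/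
lemma central_prob (m : ℕ) (hm : 1 ≤ m) :
    1 / √(2 * (2 * m : ℕ)) ≤ (((2 * m).choose m : ℕ) : ℝ) / 2 ^ (2 * m) := by
  have h := central_lower m hm
  have hm0 : (0 : ℝ) < m := by exact_mod_cast hm
  rw [div_le_div_iff₀ (by positivity) (by positivity), one_mul]
  have h1 : ((16 : ℝ)) ^ m ≤ 4 * m * (((2 * m).choose m : ℕ) : ℝ) ^ 2 := by exact_mod_cast h
  refine (pow_le_pow_iff_left₀ (by positivity) (by positivity) two_ne_zero).1 ?_
  rw [mul_pow, Real.sq_sqrt (by positivity)]
  calc ((2 : ℝ) ^ (2 * m)) ^ 2 = 16 ^ m := by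
        rw [← pow_mul, mul_assoc, mul_comm m 2, ← mul_assoc, pow_mul]
        norm_num
    _ ≤ 4 * m * (((2 * m).choose m : ℕ) : ℝ) ^ 2 := h1
    _ = _ := by push_cast; ring

/-- the half system of a sign function -/
lemma half_of {f : X → ℤ} (hf : ∀ x, f x = 1 ∨ f x = -1) (hodd : ∀ x, f (C.c x) = - f x)
    (x : X) : f x = 1 ↔ ¬ f (C.c x) = 1 := by
  rw [hodd]
  rcases hf x with h | h <;> rw [h] <;> norm_num

lemma card_of_half [DecidableEq X] {O : Finset X} (hO : ∀ x, x ∈ O ↔ C.c x ∉ O) :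
    O.card = C.g := by
  have h1 := CMT.card_half (S := X) C.c C.cc O hO
  have h2 := C.card
  omega

/-- the sum of a sign function over a CM type -/
lemma sum_sign [DecidableEq X] {O : Finset X} (hO : ∀ x, x ∈ O ↔ C.c x ∉ O) {f : X → ℤ}
    (hodd : ∀ x, f (C.c x) = - f x) {Φ : Finset X} (hΦ : Φ ∈ types C) (A : Finset X)
    (hA : A ⊆ O) (e : ℤ) (he : ∀ x ∈ A, f x = e) :
    ∑ x ∈ A, (if x ∈ Φ then f x else - f x) = e * (2 * (Φ ∩ O ∩ A).card - A.card) := by
  have h1 : ∑ x ∈ A, (if x ∈ Φ then f x else - f x) = ∑ x ∈ A, (if x ∈ Φ then e else - e) :=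
    Finset.sum_congr rfl fun x hx => by rw [he x hx]
  rw [h1, Finset.sum_ite, Finset.sum_const, Finset.sum_const]
  have h2 : A.filter (fun x => x ∈ Φ) = Φ ∩ O ∩ A := by
    ext x
    simp only [mem_filter, mem_inter]
    constructor
    · rintro ⟨h3, h4⟩
      exact ⟨⟨h4, hA h3⟩, h3⟩
    · rintro ⟨⟨h3, _⟩, h4⟩
      exact ⟨h4, h3⟩
  have h3 : (A.filter (fun x => x ∈ Φ)).card + (A.filter (fun x => x ∉ Φ)).card = A.card :=
    Finset.card_filter_add_card_filter_not _
  rw [h2] at h3 ⊢
  have h4 : ((A.filter (fun x => x ∉ Φ)).card : ℤ) = A.card - (Φ ∩ O ∩ A).card := by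
    rw [← h3]
    push_cast
    ring
  rw [nsmul_eq_mul, nsmul_eq_mul, h4]
  ring

end LB

open LB in
/-- lower bound for the probability that one of several orthogonal sign functions has sum zero over
a CM type (second moment method) -/
theorem lower_bound (C : Ctx G X) {ι : Type} (I : Finset ι) (f : ι → X → ℤ)
    (hf : ∀ i ∈ I, ∀ x, f i x = 1 ∨ f i x = -1)
    (hodd : ∀ i ∈ I, ∀ x, f i (C.c x) = - f i x)
    (horth : ∀ i ∈ I, ∀ j ∈ I, i ≠ j → ∑ x, f i x * f j x = 0) (hg : Even C.g) :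
    (I.card : ℝ) / (√(2 * C.g) + 4 * I.card) ≤
      Pr C (fun Φ => ∃ i ∈ I, ∑ x ∈ Φ, f i x = 0) := by
  classical
  obtain ⟨m, hm⟩ := hg
  have hgm : C.g = 2 * m := by omega
  have hm1 : 1 ≤ m := by
    have := C.gpos
    omega
  rcases I.eq_empty_or_nonempty with rfl | hIne
  · simp only [card_empty, Nat.cast_zero, zero_div]
    exact Pr_nonneg _
  set E : ι → Finset (Finset X) := fun i => (types C).filter fun Φ => ∑ x ∈ Φ, f i x = 0 with hE
  set a : ℕ := (2 * m).choose m with ha
  let O : ι → Finset X := fun i => univ.filter fun x => f i x = 1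
  have hOmem : ∀ i x, x ∈ O i ↔ f i x = 1 := fun i x => by simp [O]
  have hO : ∀ i ∈ I, ∀ x, x ∈ O i ↔ C.c x ∉ O i := fun i hi x => by
    rw [hOmem, hOmem]
    exact half_of (hf i hi) (hodd i hi) x
  have hOcard : ∀ i ∈ I, (O i).card = 2 * m := fun i hi => by
    rw [card_of_half (hO i hi), hgm]
  -- first moment
  have hEi : ∀ i ∈ I, (E i).card = a := by
    intro i hi
    have h1 : E i = (types C).filter fun Φ => (Φ ∩ O i).card = m := by
      apply Finset.filter_congr
      intro Φ hΦ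
      rw [sum_odd (hO i hi) (hodd i hi) hΦ,
        sum_sign (hO i hi) (hodd i hi) hΦ (O i) (Subset.refl _) 1 (fun x hx => (hOmem i x).1 hx),
        hOcard i hi, inter_assoc, inter_self]
      push_cast
      constructor
      · intro h
        have : ((Φ ∩ O i).card : ℤ) = m := by linarith
        exact_mod_cast this
      · intro h
        rw [h]
        ring
    rw [h1, card_filter_half (hO i hi) (fun T => T.card = m), ← Finset.powersetCard_eq_filter,
      Finset.card_powersetCard, hOcard i hi]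
  -- second moment
  have hEij : ∀ i ∈ I, ∀ j ∈ I, i ≠ j → ((E i ∩ E j).card : ℝ) ≤ 2 ^ (2 * m) / m := by
    intro i hi j hj hij
    set A := O i ∩ O j with hA
    set B := O i \ O j with hB
    have hAB : Disjoint A B := by
      rw [Finset.disjoint_left]
      intro x hx hx'
      exact (mem_sdiff.1 hx').2 (mem_inter.1 hx).2
    have hunion : A ∪ B = O i := by
      ext x
      simp only [hA, hB, mem_union, mem_inter, mem_sdiff]
      tauto
    have hAe : ∀ x ∈ A, f j x = 1 := fun x hx => (hOmem j x).1 (mem_inter.1 hx).2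
    have hBe : ∀ x ∈ B, f j x = -1 := fun x hx => by
      rcases hf j hj x with h | h
      · exact absurd ((hOmem j x).2 h) (mem_sdiff.1 hx).2
      · exact h
    have hsumAB : A.card + B.card = 2 * m := by
      rw [← Finset.card_union_of_disjoint hAB, hunion, hOcard i hi]
    -- orthogonality
    have hcards : (A.card : ℤ) - B.card = 0 := by
      have h1 := horth i hi j hj hij
      have h2 : ∑ x : X, f i x * f j x = 2 * ∑ x ∈ O i, f j x := by
        have h3 : (univ : Finset X) = O i ∪ (O i).image C.c := by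
          ext x
          simp only [mem_univ, mem_union, mem_image, true_iff]
          by_cases h : x ∈ O i
          · exact Or.inl h
          · refine Or.inr ⟨C.c x, ?_, C.cc x⟩
            by_contra h'
            exact h ((hO i hi x).2 h')
        have hdis : Disjoint (O i) ((O i).image C.c) := by
          rw [Finset.disjoint_left]
          intro x hx hx'
          obtain ⟨y, hy, rfl⟩ := mem_image.1 hx'
          exact (hO i hi y).1 hy hx
        rw [h3, Finset.sum_union hdis, Finset.sum_image (fun x _ y _ h => by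
          rw [← C.cc x, h, C.cc]), two_mul]
        congr 1
        · exact Finset.sum_congr rfl fun x hx => by rw [(hOmem i x).1 hx, one_mul]
        · exact Finset.sum_congr rfl fun x hx => by
            rw [hodd i hi, hodd j hj, (hOmem i x).1 hx]
            ring
      rw [h1] at h2
      have h4 : ∑ x ∈ O i, f j x = A.card - B.card := by
        rw [← hunion, Finset.sum_union hAB, Finset.sum_congr rfl hAe, Finset.sum_congr rfl hBe,
          Finset.sum_const, Finset.sum_const]
        simp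
        ring
      rw [h4] at h2
      linarith
    have hAm : A.card = m := by omega
    have hBm : B.card = m := by omega
    have hsub : E i ∩ E j ⊆ (types C).filter fun Φ =>
        (Φ ∩ O i ∩ A).card = m / 2 ∧ (Φ ∩ O i ∩ B).card = m / 2 := by
      intro Φ hΦ
      rw [mem_inter, mem_filter, mem_filter] at hΦ
      obtain ⟨⟨h1, h2⟩, ⟨_, h3⟩⟩ := hΦ
      rw [mem_filter]
      refine ⟨h1, ?_⟩
      rw [sum_odd (hO i hi) (hodd i hi) h1, ← hunion, Finset.sum_union hAB,
        sum_sign (hO i hi) (hodd i hi) h1 A (by rw [← hunion]; exact subset_union_left) 1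
          (fun x hx => (hOmem i x).1 (mem_inter.1 hx).1),
        sum_sign (hO i hi) (hodd i hi) h1 B (by rw [← hunion]; exact subset_union_right) 1
          (fun x hx => (hOmem i x).1 (mem_sdiff.1 hx).1), hAm, hBm] at h2
      rw [sum_odd (hO i hi) (hodd j hj) h1, ← hunion, Finset.sum_union hAB,
        sum_sign (hO i hi) (hodd j hj) h1 A (by rw [← hunion]; exact subset_union_left) 1 hAe,
        sum_sign (hO i hi) (hodd j hj) h1 B (by rw [← hunion]; exact subset_union_right) (-1)
          hBe, hAm, hBm] at h3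
      constructor <;> omega
    have hcard : ((types C).filter fun Φ =>
        (Φ ∩ O i ∩ A).card = m / 2 ∧ (Φ ∩ O i ∩ B).card = m / 2).card =
        m.choose (m / 2) * m.choose (m / 2) := by
      rw [card_filter_half (hO i hi) (fun T => (T ∩ A).card = m / 2 ∧ (T ∩ B).card = m / 2),
        ← hunion, card_two_parts hAB, hAm, hBm]
    have h5 := Finset.card_le_card hsub
    rw [hcard] at h5
    have h6 := choose_le m (m / 2) hm1
    have hm0 : (0 : ℝ) < m := by exact_mod_cast hm1
    calc ((E i ∩ E j).card : ℝ) ≤ (m.choose (m / 2) : ℝ) * (m.choose (m / 2) : ℝ) := by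
          exact_mod_cast h5
      _ ≤ (2 ^ m / √m) * (2 ^ m / √m) := by gcongr
      _ = 2 ^ (2 * m) / m := by
          rw [div_mul_div_comm, Real.mul_self_sqrt hm0.le, ← pow_add, two_mul]
  -- Cauchy-Schwarz
  set S := (types C).filter fun Φ => ∃ i ∈ I, ∑ x ∈ Φ, f i x = 0 with hS
  let Z : Finset X → ℝ := fun Φ => ∑ i ∈ I, (if Φ ∈ E i then (1 : ℝ) else 0)
  have hN : (0 : ℝ) < I.card := by exact_mod_cast hIne.card_pos
  have hsum1 : ∑ Φ ∈ S, Z Φ = I.card * a := by
    have h1 : ∑ Φ ∈ S, Z Φ = ∑ i ∈ I, ∑ Φ ∈ S, (if Φ ∈ E i then (1 : ℝ) else 0) :=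
      Finset.sum_comm
    rw [h1]
    have h2 : ∀ i ∈ I, ∑ Φ ∈ S, (if Φ ∈ E i then (1 : ℝ) else 0) = a := by
      intro i hi
      rw [← Finset.sum_filter, Finset.sum_const, nsmul_eq_mul, mul_one]
      have : S.filter (fun Φ => Φ ∈ E i) = E i := by
        ext Φ
        simp only [hS, hE, mem_filter]
        constructor
        · rintro ⟨_, h⟩
          exact h
        · rintro ⟨h3, h4⟩
          exact ⟨⟨h3, i, hi, h4⟩, h3, h4⟩
      rw [this, hEi i hi]
    rw [Finset.sum_congr rfl h2, Finset.sum_const, nsmul_eq_mul]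
  have hsum2 : ∑ Φ ∈ S, Z Φ ^ 2 ≤ I.card * a + (I.card : ℝ) ^ 2 * (2 ^ (2 * m) / m) := by
    have h1 : ∀ Φ, Z Φ ^ 2 = ∑ i ∈ I, ∑ j ∈ I, (if Φ ∈ E i ∩ E j then (1 : ℝ) else 0) := by
      intro Φ
      rw [sq]
      simp only [Z]
      rw [Finset.sum_mul_sum]
      refine Finset.sum_congr rfl fun i _ => Finset.sum_congr rfl fun j _ => ?_
      by_cases hi : Φ ∈ E i <;> by_cases hj : Φ ∈ E j <;> simp [hi, hj]
    have h2 : ∑ Φ ∈ S, Z Φ ^ 2 ≤ ∑ i ∈ I, ∑ j ∈ I, ((E i ∩ E j).card : ℝ) := by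
      rw [Finset.sum_congr rfl (fun Φ _ => h1 Φ), Finset.sum_comm]
      refine Finset.sum_le_sum fun i _ => ?_
      rw [Finset.sum_comm]
      refine Finset.sum_le_sum fun j _ => ?_
      rw [← Finset.sum_filter, Finset.sum_const, nsmul_eq_mul, mul_one]
      have : (S.filter fun Φ => Φ ∈ E i ∩ E j) ⊆ E i ∩ E j := fun Φ h => (mem_filter.1 h).2
      exact_mod_cast Finset.card_le_card this
    refine h2.trans ?_
    have hm0 : (0 : ℝ) < m := by exact_mod_cast hm1
    have h3 : ∀ i ∈ I, ∑ j ∈ I, ((E i ∩ E j).card : ℝ) ≤ a + I.card * (2 ^ (2 * m) / m) := by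
      intro i hi
      rw [← Finset.add_sum_erase I _ hi]
      have h4 : ((E i ∩ E i).card : ℝ) = a := by rw [inter_self, hEi i hi]
      rw [h4]
      have h5 : ∑ j ∈ I.erase i, ((E i ∩ E j).card : ℝ) ≤ ∑ j ∈ I.erase i, (2 ^ (2 * m) / m : ℝ) :=
        Finset.sum_le_sum fun j hj => hEij i hi j (mem_of_mem_erase hj) (ne_of_mem_erase hj).symm
      rw [Finset.sum_const, nsmul_eq_mul] at h5
      have h6 : ((I.erase i).card : ℝ) ≤ I.card := by
        exact_mod_cast Finset.card_le_card (Finset.erase_subset i I)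
      have h7 : ((I.erase i).card : ℝ) * (2 ^ (2 * m) / m) ≤ I.card * (2 ^ (2 * m) / m) := by
        gcongr
      linarith
    calc ∑ i ∈ I, ∑ j ∈ I, ((E i ∩ E j).card : ℝ) ≤
        ∑ i ∈ I, (a + I.card * (2 ^ (2 * m) / m) : ℝ) := Finset.sum_le_sum h3
      _ = _ := by
        rw [Finset.sum_const, nsmul_eq_mul]
        ring
  have hcs : (∑ Φ ∈ S, Z Φ) ^ 2 ≤ S.card * ∑ Φ ∈ S, Z Φ ^ 2 := by
    have := Finset.sum_mul_sq_le_sq_mul_sq S (fun _ => (1 : ℝ)) Z
    simpa using this
  rw [hsum1] at hcs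
  set P : ℝ := (2 : ℝ) ^ (2 * m) with hP
  have hP0 : 0 < P := by positivity
  have hm0 : (0 : ℝ) < m := by exact_mod_cast hm1
  have hcs2 : ((I.card : ℝ) * a) ^ 2 ≤ S.card * (I.card * a + (I.card : ℝ) ^ 2 * (P / m)) :=
    hcs.trans (mul_le_mul_of_nonneg_left hsum2 (Nat.cast_nonneg _))
  rw [Pr_eq, hgm]
  have hq := central_prob m hm1
  rw [← ha, ← hP] at hq
  have hcast : (2 * (2 * m : ℕ) : ℝ) = 4 * m := by push_cast; ring
  rw [hcast] at hq ⊢
  set r : ℝ := √(4 * m) with hr
  have hr0 : 0 < r := by positivity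
  have hr2 : r ^ 2 = 4 * m := Real.sq_sqrt (by positivity)
  -- q = 1/r <= p = a/P
  have hp : P ≤ a * r := by
    rw [div_le_div_iff₀ hr0 hP0, one_mul] at hq
    exact hq
  have ha0 : (0 : ℝ) < a := by
    have : 0 < a * r := lt_of_lt_of_le hP0 hp
    exact pos_of_mul_pos_left this hr0.le
  show (I.card : ℝ) / (r + 4 * I.card) ≤ (S.card : ℝ) / P
  rw [div_le_div_iff₀ (by positivity) hP0]
  -- from hcs2: N a^2 <= S (a + N P/m)
  have h1 : (I.card : ℝ) * (a : ℝ) ^ 2 ≤ S.card * (a + I.card * (P / m)) := by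
    have h2 : (I.card : ℝ) * ((I.card : ℝ) * (a : ℝ) ^ 2) ≤
        I.card * (S.card * (a + I.card * (P / m))) := by
      calc (I.card : ℝ) * ((I.card : ℝ) * (a : ℝ) ^ 2) = ((I.card : ℝ) * a) ^ 2 := by ring
        _ ≤ _ := hcs2
        _ = _ := by ring
    exact le_of_mul_le_mul_left h2 hN
  have h2 : (S.card : ℝ) * (a + I.card * (P / m)) * (m : ℝ) =
      S.card * (a * m + I.card * P) := by
    field_simp
  have h3 : (I.card : ℝ) * (a : ℝ) ^ 2 * m ≤ S.card * (a * m + I.card * P) := by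
    rw [← h2]
    exact mul_le_mul_of_nonneg_right h1 hm0.le
  -- want N P <= S (r + 4 N)
  have hS0 : (0 : ℝ) ≤ S.card := Nat.cast_nonneg _
  -- multiply by 4 a^2 m / ... : P^2 <= a^2 r^2 = 4 a^2 m
  have h4 : P ^ 2 ≤ 4 * (a : ℝ) ^ 2 * m := by
    calc P ^ 2 ≤ (a * r) ^ 2 := by gcongr
      _ = 4 * (a : ℝ) ^ 2 * m := by rw [mul_pow, hr2]; ring
  have h5 : 4 * (a : ℝ) * m ≤ 4 * (a : ℝ) ^ 2 * m * (r / P) := by
    have : 4 * (a : ℝ) * m * 1 ≤ 4 * (a : ℝ) * m * (a * r / P) := by
      apply mul_le_mul_of_nonneg_left _ (by positivity)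
      rw [le_div_iff₀ hP0, one_mul]
      exact hp
    calc 4 * (a : ℝ) * m = 4 * (a : ℝ) * m * 1 := by ring
      _ ≤ _ := this
      _ = _ := by ring
  have h6 : P ≤ 4 * (a : ℝ) ^ 2 * m / P := by
    rw [le_div_iff₀ hP0]
    calc P * P = P ^ 2 := by ring
      _ ≤ _ := h4
  set Q : ℝ := 4 * (a : ℝ) ^ 2 * m with hQ
  have hQ0 : 0 < Q := by positivity
  -- N Q <= 4 S (a m + N P) <= S (Q r / P + 4 N Q / P)
  have h7 : (I.card : ℝ) * Q ≤ S.card * (Q * (r / P) + 4 * I.card * (Q / P)) := by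
    calc (I.card : ℝ) * Q = 4 * ((I.card : ℝ) * (a : ℝ) ^ 2 * m) := by rw [hQ]; ring
      _ ≤ 4 * (S.card * (a * m + I.card * P)) := by linarith
      _ = S.card * (4 * a * m + 4 * I.card * P) := by ring
      _ ≤ S.card * (Q * (r / P) + 4 * I.card * (Q / P)) := by
        apply mul_le_mul_of_nonneg_left _ hS0
        have : 4 * (I.card : ℝ) * P ≤ 4 * I.card * (Q / P) := by gcongr
        linarith
  have h8 : (S.card : ℝ) * (Q * (r / P) + 4 * I.card * (Q / P)) =
      Q * (S.card * (r + 4 * I.card)) / P := by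
    field_simp
  rw [h8, le_div_iff₀ hP0] at h7
  have h9 : Q * ((I.card : ℝ) * P) ≤ Q * (S.card * (r + 4 * I.card)) := by linarith
  exact le_of_mul_le_mul_left h9 hQ0

end Pool.Agent.AAC
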